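import Pool.Agent.HG13.Final

set_option linter.all false

namespace Pool.Agent.HG13

variable {g n : ℕ}

/-- The mapping class group with one more marked point: the semidirect product `F ⋊ Γ`. -/
def ModG (Γ : Subgroup (MulAut (Fr g n))) : Type := Fr g n ⋊[Γ.subtype] Γ

instance (Γ : Subgroup (MulAut (Fr g n))) : Group (ModG Γ) :=
  inferInstanceAs (Group (Fr g n ⋊[Γ.subtype] Γ))

/-- The inclusion of `F`: pushing the marked point around loops. -/
def push (Γ : Subgroup (MulAut (Fr g n))) : Fr g n →* ModG Γ := SemidirectProduct.inl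

/-- The inclusion of `Γ`. -/
def incl (Γ : Subgroup (MulAut (Fr g n))) : Γ →* ModG Γ := SemidirectProduct.inr

/-- `t` is conjugate in `Γ` to the Dehn twist `TP 0 1`. -/
def IsTwist (Γ : Subgroup (MulAut (Fr g n))) (t : Γ) : Prop :=
  ∃ φ : Γ, (t : MulAut (Fr g n)) = (φ : MulAut (Fr g n)) * TP 0 1 * (φ : MulAut (Fr g n))⁻¹

section

variable {G V : Type*} [Group G] [AddCommGroup V] [Module ℂ V]

/-- The element `x` acts unipotently. -/
def UnipAt (ρ : Representation ℂ G V) (x : G) : Prop := IsNilpotent (ρ x - 1)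

/-- The element `x` acts semisimply. -/
def SemisAt (ρ : Representation ℂ G V) (x : G) : Prop := Module.End.IsSemisimple (ρ x)

/-- The representation `ρ` is semisimple: every invariant subspace has an invariant complement. -/
def Semis (ρ : Representation ℂ G V) : Prop :=
  ∀ W : Submodule ℂ V, (∀ x, ∀ w ∈ W, ρ x w ∈ W) →
    ∃ W' : Submodule ℂ V, (∀ x, ∀ w ∈ W', ρ x w ∈ W') ∧ IsCompl W W'

end

section

variable {Γ : Subgroup (MulAut (Fr g n))} {V : Type*} [AddCommGroup V] [Module ℂ V]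

/-- The group `F` acts trivially. -/
def TrivF (ρ : Representation ℂ (ModG Γ) V) : Prop := ∀ w : Fr g n, ρ (push Γ w) = 1

/-- The group generated by the Dehn twists in `twists g n` acts trivially. -/
def TrivTw (ρ : Representation ℂ (ModG Γ) V) : Prop :=
  ∀ ψ : Γ, (ψ : MulAut (Fr g n)) ∈ Subgroup.closure (twists g n) → ρ (incl Γ ψ) = 1

end

/-- The high genus theorem, with the names above. -/
theorem high_genus' (g n m : ℕ) (hg : 2 * m + 2 ≤ g) (Γ : Subgroup (MulAut (Fr g n)))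
    (hΓ : twists g n ⊆ Γ) {V : Type*} [AddCommGroup V] [Module ℂ V] [FiniteDimensional ℂ V]
    (ρ : Representation ℂ (ModG Γ) V) (hV : Module.finrank ℂ V < 4 ^ m) :
    (∀ t : Γ, IsTwist Γ t → UnipAt ρ (incl Γ t)) ∧ (∀ w : Fr g n, UnipAt ρ (push Γ w)) ∧
    (Semis ρ → TrivF ρ) ∧
    (∀ t : Γ, IsTwist Γ t → SemisAt ρ (incl Γ t) → TrivF ρ ∧ TrivTw ρ) := by
  obtain ⟨h1, h2, h3, h4⟩ := high_genus g n m hg Γ hΓ (V := V) ρ hV
  refine ⟨?_, h2, h3, ?_⟩
  · rintro t ⟨φ, hφ⟩
    exact h1 t φ hφ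
  · rintro t ⟨φ, hφ⟩ hs
    exact h4 t φ hφ hs

end Pool.Agent.HG13
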