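import Mathlib

set_option linter.all false

namespace Pool.Agent.HG13

/-- `x` and `y` satisfy the braid relation. -/
def Brd {G : Type*} [Mul G] (x y : G) : Prop := x * y * x = y * x * y

/-- Data of a surface with `g` handles and `n` punctures in a group `G`: `T s t` the twist around the
feet `s, ..., t-1` (feet of the handle `i`: `2i`, `2i+1`; punctures `2g+k`), `B i` the twist through
the handle `i`, loops `X i`, `Y i`, `Z k`. -/
structure Tw (g n : ℕ) (G : Type*) [Group G] where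
  T : ℕ → ℕ → G
  B : ℕ → G
  X : ℕ → G
  Y : ℕ → G
  Z : ℕ → G

namespace Tw

variable {g n : ℕ} {G : Type*} [Group G] (S : Tw g n G)

/-- The loop around the foot `c`. -/
def al (c : ℕ) : G :=
  if c < 2 * g then
    (if c % 2 = 0 then S.X (c / 2) else (S.Y (c / 2))⁻¹ * (S.X (c / 2))⁻¹ * S.Y (c / 2))
  else S.Z (c - 2 * g)

/-- The loop around the feet `s, ..., t-1`. -/
def Al (s t : ℕ) : G := ((List.range' s (t - s)).map S.al).prod

/-- The twist around the two blocks `[s,t)` and `[u,w)` (the block `[t,u)` between them is left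
out), by the lantern relation. -/
def L (s t u w : ℕ) : G :=
  (S.T t w)⁻¹ * (S.T s u)⁻¹ * S.T s w * S.T s t * S.T t u * S.T u w

/-- The twist around the feet `2g-1, ..., 2g+n-1` and the moving point. -/
def P : G := (S.Al (2 * g - 1) (2 * g + n))⁻¹ * S.T (2 * g - 1) (2 * g + n)

end Tw

/-- The relations R1 - R8. -/
structure Rels {g n : ℕ} {G : Type*} [Group G] (S : Tw g n G) : Prop where
  TT : ∀ s t s' t', s < t → t ≤ 2 * g + n → s' < t' → t' ≤ 2 * g + n →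
    (t ≤ s' ∨ (s ≤ s' ∧ t' ≤ t)) → Commute (S.T s t) (S.T s' t')
  TB : ∀ s t i, s < t → t ≤ 2 * g + n → i < g →
    (2 * i + 2 ≤ s ∨ t ≤ 2 * i ∨ (s ≤ 2 * i ∧ 2 * i + 2 ≤ t)) → Commute (S.T s t) (S.B i)
  BB : ∀ i j, i < g → j < g → Commute (S.B i) (S.B j)
  TBs : ∀ i t, i < g → 2 * i + 1 < t → t ≤ 2 * g + n → Brd (S.T (2 * i + 1) t) (S.B i)
  TBe : ∀ i s, i < g → s < 2 * i + 1 → Brd (S.T s (2 * i + 1)) (S.B i)
  aa : ∀ i, i < g → S.T (2 * i) (2 * i + 1) = S.T (2 * i + 1) (2 * i + 2)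
  LB : ∀ s t u i, s < t → t < u → u < 2 * i + 1 → i < g → Brd (S.L s t u (2 * i + 1)) (S.B i)
  LB2 : ∀ s t i w, s < t → t < 2 * i + 1 → 2 * i + 1 < w → w ≤ 2 * g + n → i < g →
    Brd (S.L s t (2 * i + 1) w) (S.B i)
  LB3 : ∀ i t u w, i < g → 2 * i + 1 < t → t < u → u < w → w ≤ 2 * g + n →
    Brd (S.L (2 * i + 1) t u w) (S.B i)
  PB : 0 < g → Brd S.P (S.B (g - 1))
  PT : ∀ i, i < g → Commute S.P (S.T (2 * i) (2 * i + 1))
  TY : ∀ s t i, s < t → t ≤ 2 * g + n → i < g →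
    S.T s t * S.Y i * (S.T s t)⁻¹ = (if s ≤ 2 * i ∧ 2 * i < t then S.Al s t else 1) * S.Y i *
      (if s ≤ 2 * i + 1 ∧ 2 * i + 1 < t then S.Al s t else 1)⁻¹
  TX : ∀ i, i < g → Commute (S.T (2 * i) (2 * i + 1)) (S.X i)
  BX : ∀ i, i < g → S.B i * S.X i * (S.B i)⁻¹ = S.X i * (S.Y i)⁻¹
  BY : ∀ i j, i < g → j < g → Commute (S.B i) (S.Y j)
  BZ : ∀ i k, i < g → k < n → Commute (S.B i) (S.Z k)

/-- The subgroup `M` contains the twists of `gens(J)`: all twists `T_(a_i)`, the `B i` with `i`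
not in `2J`, the `e_i`, the `q_q, q'_q, r_q` (`q < m`), the `f_k` and `P`. -/
structure Has {g n : ℕ} {G : Type*} [Group G] (S : Tw g n G) (m : ℕ) (J : Finset ℕ)
    (M : Subgroup G) : Prop where
  a : ∀ i, i < g → S.T (2 * i) (2 * i + 1) ∈ M
  b : ∀ i, i < g → (∀ q ∈ J, i ≠ 2 * q) → S.B i ∈ M
  e : ∀ i, i + 1 < g → S.T (2 * i + 1) (2 * i + 3) ∈ M
  q : ∀ q, q < m → S.T (4 * q) (4 * q + 3) ∈ M
  q' : ∀ q, q + 1 < m → S.T (4 * q + 3) (4 * q + 6) ∈ M
  r : ∀ q, q + 1 < m → S.T (4 * q + 3) (4 * q + 7) ∈ M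
  f : ∀ k, k ≤ n → S.T (2 * g - 1) (2 * g + k) ∈ M
  p : S.P ∈ M

section basic

variable {G : Type*} [Group G]

theorem Brd.symm {x y : G} (h : Brd x y) : Brd y x := Eq.symm h

/-- commute + braid = equal -/
theorem Brd.eq {x y : G} (h : Brd x y) (hc : Commute x y) : x = y := by
  unfold Brd at h
  have h1 : x * y * x = x * y * y := by rw [h, hc.eq]
  exact mul_left_cancel h1

/-- `y = (xy) x (xy)⁻¹` -/
theorem Brd.conj {x y : G} (h : Brd x y) : y = (x * y) * x * (x * y)⁻¹ := by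
  unfold Brd at h
  rw [h]; group

theorem Brd.mem {x y : G} (h : Brd x y) {C M : Subgroup G}
    (hn : ∀ c ∈ C, ∀ z ∈ M, c * z * c⁻¹ ∈ M) (hx : x ∈ C) (hy : y ∈ C) (hxM : x ∈ M) : y ∈ M := by
  rw [h.conj]
  exact hn _ (C.mul_mem hx hy) _ hxM

theorem Brd.mem' {x y : G} (h : Brd x y) {C M : Subgroup G}
    (hn : ∀ c ∈ C, ∀ z ∈ M, c * z * c⁻¹ ∈ M) (hx : x ∈ C) (hy : y ∈ C) (hyM : y ∈ M) : x ∈ M :=
  h.symm.mem hn hy hx hyM

end basic

namespace Tw

variable {g n : ℕ} {G : Type*} [Group G] (S : Tw g n G)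

theorem lantern (s t u w : ℕ) :
    S.T s w * S.T s t * S.T t u * S.T u w = S.T s u * S.T t w * S.L s t u w := by
  unfold L; group

theorem L_mem (s t u w : ℕ) (M : Subgroup G) (h1 : S.T t w ∈ M) (h2 : S.T s u ∈ M)
    (h3 : S.T s w ∈ M) (h4 : S.T s t ∈ M) (h5 : S.T t u ∈ M) (h6 : S.T u w ∈ M) :
    S.L s t u w ∈ M := by
  unfold L
  exact M.mul_mem (M.mul_mem (M.mul_mem (M.mul_mem (M.mul_mem (M.inv_mem h1) (M.inv_mem h2)) h3)
    h4) h5) h6

theorem al_even (i : ℕ) (hi : i < g) : S.al (2 * i) = S.X i := by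
  unfold al
  rw [if_pos (by omega), if_pos (by omega)]
  congr 1; omega

theorem al_odd (i : ℕ) (hi : i < g) : S.al (2 * i + 1) = (S.Y i)⁻¹ * (S.X i)⁻¹ * S.Y i := by
  unfold al
  rw [if_pos (by omega), if_neg (by omega), show (2 * i + 1) / 2 = i by omega]

theorem al_z (k : ℕ) : S.al (2 * g + k) = S.Z k := by
  unfold al
  rw [if_neg (by omega)]
  congr 1; omega

theorem Al_one (s : ℕ) : S.Al s (s + 1) = S.al s := by
  simp [Al, List.range'_succ]

theorem Al_self (s : ℕ) : S.Al s s = 1 := by simp [Al]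

theorem Al_cons (s t : ℕ) (h : s < t) : S.Al s t = S.al s * S.Al (s + 1) t := by
  unfold Al
  obtain ⟨d, rfl⟩ := Nat.exists_eq_add_of_lt h
  rw [show s + d + 1 - s = d + 1 by omega, show s + d + 1 - (s + 1) = d by omega]
  simp [List.range'_succ]

theorem Al_snoc (s t : ℕ) (h : s ≤ t) : S.Al s (t + 1) = S.Al s t * S.al t := by
  unfold Al
  obtain ⟨d, rfl⟩ := Nat.exists_eq_add_of_le h
  rw [show s + d + 1 - s = d + 1 by omega, show s + d - s = d by omega, List.range'_1_concat]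
  simp

theorem Al_mem (M : Subgroup G) (s t : ℕ) (h : ∀ c, s ≤ c → c < t → S.al c ∈ M) :
    S.Al s t ∈ M := by
  unfold Al
  apply M.list_prod_mem
  intro x hx
  rw [List.mem_map] at hx
  obtain ⟨c, hc, rfl⟩ := hx
  rw [List.mem_range'_1] at hc
  exact h c hc.1 (by omega)

end Tw

end Pool.Agent.HG13
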