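import Pool.Agent.HG13.Pr
import Pool.Agent.HG13.Sys

set_option linter.all false

namespace Pool.Agent.HG13

/-- `t 0, ..., t 4` is a chain: neighbours braid, the others commute. -/
structure IsChain {G : Type*} [Monoid G] (t : Fin 5 → G) : Prop where
  brd : ∀ i j : Fin 5, (j : ℕ) = (i : ℕ) + 1 → Brd (t i) (t j)
  com : ∀ i j : Fin 5, (i : ℕ) + 2 ≤ (j : ℕ) → Commute (t i) (t j)

/-- The relators of the 5-chain. -/
def chRels : Set (FreeGroup (Fin 5)) :=
  {r | (∃ i j : Fin 5, (j : ℕ) = (i : ℕ) + 1 ∧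
      r = FreeGroup.of i * FreeGroup.of j * FreeGroup.of i *
        (FreeGroup.of j * FreeGroup.of i * FreeGroup.of j)⁻¹) ∨
    (∃ i j : Fin 5, (i : ℕ) + 2 ≤ (j : ℕ) ∧
      r = FreeGroup.of i * FreeGroup.of j * (FreeGroup.of j * FreeGroup.of i)⁻¹)}

/-- The group of the 5-chain (the braid group on 6 strands). -/
abbrev Ch : Type := PresentedGroup chRels

/-- The generators. -/
def ch (i : Fin 5) : Ch := PresentedGroup.of i

/-- The normal closure of `t_1 t_0⁻¹`. -/
def KK : Subgroup Ch := Subgroup.normalClosure {ch 1 * (ch 0)⁻¹}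

instance : KK.Normal := Subgroup.normalClosure_normal

theorem ch_isChain : IsChain ch where
  brd := by
    intro i j hij
    have h : (QuotientGroup.mk' (Subgroup.normalClosure chRels))
        (FreeGroup.of i * FreeGroup.of j * FreeGroup.of i *
        (FreeGroup.of j * FreeGroup.of i * FreeGroup.of j)⁻¹) = 1 :=
      PresentedGroup.one_of_mem (Or.inl ⟨i, j, hij, rfl⟩)
    rw [map_mul, map_inv, mul_inv_eq_one] at h
    exact h
  com := by
    intro i j hij
    have h : (QuotientGroup.mk' (Subgroup.normalClosure chRels))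
        (FreeGroup.of i * FreeGroup.of j * (FreeGroup.of j * FreeGroup.of i)⁻¹) = 1 :=
      PresentedGroup.one_of_mem (Or.inr ⟨i, j, hij, rfl⟩)
    rw [map_mul, map_inv, mul_inv_eq_one] at h
    exact h

/-- A chain in a group gives a homomorphism. -/
theorem IsChain.exists_hom {G : Type*} [Group G] {t : Fin 5 → G} (h : IsChain t) :
    ∃ f : Ch →* G, ∀ i, f (ch i) = t i := by
  have hr : ∀ r ∈ chRels, FreeGroup.lift t r = 1 := by
    rintro r (⟨i, j, hij, rfl⟩ | ⟨i, j, hij, rfl⟩)
    · have := h.brd i j hij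
      unfold Brd at this
      simp only [map_mul, map_inv, FreeGroup.lift_apply_of]
      rw [this]; group
    · have := h.com i j hij
      simp only [map_mul, map_inv, FreeGroup.lift_apply_of]
      rw [this.eq]; group
  exact ⟨PresentedGroup.toGroup hr, fun i => PresentedGroup.toGroup.of hr⟩

/-- Everything is generated by the `ch i`. -/
theorem ch_closure : Subgroup.closure (Set.range ch) = ⊤ := PresentedGroup.closure_range_of _

/-- The map of a chain of operators (any monoid) is a chain. -/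
theorem isChain_map {M : Type*} [Monoid M] (f : Ch →* M) : IsChain fun i => f (ch i) where
  brd := fun i j h => by
    have := ch_isChain.brd i j h
    unfold Brd at this ⊢
    rw [← map_mul, ← map_mul, ← map_mul, ← map_mul, this]
  com := fun i j h => (ch_isChain.com i j h).map f

-- MODULE CK1
private theorem CK1_map {G : Type*} [Group G] (f : Ch →* G) (h : f (ch 1) = f (ch 0))
    (i : Fin 5) : f (ch i) = f (ch 0) := by
  have hc := isChain_map f
  have h2 : f (ch 0) = f (ch 2) := by
    have hb := hc.brd 1 2 rfl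
    have hm := hc.com 0 2 (by decide)
    simp only [h] at hb
    exact Brd.eq hb hm
  have h3 : f (ch 0) = f (ch 3) := by
    have hb := hc.brd 2 3 rfl
    have hm := hc.com 0 3 (by decide)
    simp only [← h2] at hb
    exact Brd.eq hb hm
  have h4 : f (ch 0) = f (ch 4) := by
    have hb := hc.brd 3 4 rfl
    have hm := hc.com 0 4 (by decide)
    simp only [← h3] at hb
    exact Brd.eq hb hm
  fin_cases i
  · rfl
  · exact h
  · exact h2.symm
  · exact h3.symm
  · exact h4.symm

/-- All the differences are in `KK`: `ch i * (ch j)⁻¹ ∈ KK`.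
PROOF. Pass to the quotient Ch ⧸ KK: there ch 1 = ch 0. Conjugation by ch 0 * ch 1 * ch 2 * ch 3 * ch 4 maps ch i to
ch (i+1) (chain relations), so ch (i+1) = ch i for all i in the quotient; or directly: t_1 = t_0, t_0 commutes with t_2,
t_3, t_4, t_1 braids with t_2, so t_2 = t_1 (Brd.eq), then t_3 braids with t_2 = t_0 and commutes with t_0: t_3 = t_2,
t_4 = t_3. -/
theorem diff_mem (i j : Fin 5) : ch i * (ch j)⁻¹ ∈ KK := by
  have h : ∀ k : Fin 5, QuotientGroup.mk' KK (ch k) = QuotientGroup.mk' KK (ch 0) := by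
    refine CK1_map (QuotientGroup.mk' KK) ?_
    have h1 : ch 1 * (ch 0)⁻¹ ∈ KK := Subgroup.subset_normalClosure rfl
    have h2 : QuotientGroup.mk' KK (ch 1 * (ch 0)⁻¹) = 1 :=
      (QuotientGroup.eq_one_iff _).2 h1
    rw [map_mul, map_inv, mul_inv_eq_one] at h2
    exact h2
  have h3 : QuotientGroup.mk' KK (ch i * (ch j)⁻¹) = 1 := by
    rw [map_mul, map_inv, h i, h j, mul_inv_cancel]
  exact (QuotientGroup.eq_one_iff _).1 h3
-- END CK1

-- MODULE CK2
open scoped commutatorElement in
private theorem CK2_aux : ⁅KK, KK⁆ = KK := by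
  refine le_antisymm (Subgroup.commutator_le_left KK KK) ?_
  have hn : (⁅KK, KK⁆).Normal := Subgroup.commutator_normal KK KK
  refine Subgroup.normalClosure_le_normal ?_
  rw [Set.singleton_subset_iff]
  have hb : ch 0 * ch 1 * ch 0 = ch 1 * ch 0 * ch 1 := ch_isChain.brd 0 1 rfl
  have h03 : Commute (ch 0) (ch 3) := ch_isChain.com 0 3 (by decide)
  have h13 : Commute (ch 1) (ch 3) := ch_isChain.com 1 3 (by decide)
  have hx : (ch 0 * (ch 3)⁻¹) * (ch 1 * (ch 3)⁻¹) ∈ KK :=
    KK.mul_mem (diff_mem 0 3) (diff_mem 1 3)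
  have hy : ch 0 * (ch 3)⁻¹ ∈ KK := diff_mem 0 3
  have h := Subgroup.commutator_mem_commutator hx hy
  have he : ⁅(ch 0 * (ch 3)⁻¹) * (ch 1 * (ch 3)⁻¹), ch 0 * (ch 3)⁻¹⁆ = ch 1 * (ch 0)⁻¹ := by
    generalize ch 0 = a at *
    generalize ch 1 = b at *
    generalize ch 3 = c at *
    have e1 : (a * c⁻¹) * (b * c⁻¹) = a * b * (c⁻¹ * c⁻¹) := by
      have := (h13.inv_right).eq
      calc (a * c⁻¹) * (b * c⁻¹) = a * (c⁻¹ * b) * c⁻¹ := by group
        _ = a * (b * c⁻¹) * c⁻¹ := by rw [this]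
        _ = _ := by group
    rw [commutatorElement_def, e1]
    have e2 : (c⁻¹ * c⁻¹) * (a * c⁻¹) = a * c⁻¹ * (c⁻¹ * c⁻¹) := by
      have h1 : Commute a (c⁻¹ * c⁻¹) := (h03.inv_right).mul_right h03.inv_right
      have h2 : Commute c⁻¹ (c⁻¹ * c⁻¹) := (Commute.refl _).mul_right (Commute.refl _)
      exact ((h1.mul_left h2).eq).symm
    have e3 : c⁻¹ * (b⁻¹ * a⁻¹) = b⁻¹ * a⁻¹ * c⁻¹ := by
      have h1 : Commute c⁻¹ b⁻¹ := (h13.symm.inv_inv)
      have h2 : Commute c⁻¹ a⁻¹ := (h03.symm.inv_inv)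
      exact (h1.mul_right h2).eq
    calc a * b * (c⁻¹ * c⁻¹) * (a * c⁻¹) * (a * b * (c⁻¹ * c⁻¹))⁻¹ * (a * c⁻¹)⁻¹
        = a * b * ((c⁻¹ * c⁻¹) * (a * c⁻¹)) * (c * c) * (b⁻¹ * a⁻¹) * (c * a⁻¹) := by group
      _ = a * b * a * (c⁻¹ * (b⁻¹ * a⁻¹)) * (c * a⁻¹) := by rw [e2]; group
      _ = (a * b * a) * (b⁻¹ * a⁻¹ * a⁻¹) := by rw [e3]; group
      _ = b * a⁻¹ := by rw [hb]; group
  rw [he] at h
  exact h

/-- `KK` is perfect. PROOF. ≤ is clear (Subgroup.commutator_le_left, KK normal). ≥: ⁅KK, KK⁆ is normal in Ch (Subgroup.commutator_normal), so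
it is enough that ch 1 * (ch 0)⁻¹ is in it. Put x = ch 0 * ch 1 * (ch 3)⁻¹ * (ch 3)⁻¹, y = ch 0 * (ch 3)⁻¹. x y x⁻¹ =
ch 1 * (ch 3)⁻¹ ((ch 0 ch 1) ch 0 (ch 0 ch 1)⁻¹ = ch 1; ch 3 commutes with ch 0 and ch 1), so x y x⁻¹ y⁻¹ = ch 1 (ch 0)⁻¹. y ∈ KK (CK1),
x = (ch 0 (ch 3)⁻¹) (ch 1 (ch 3)⁻¹) ∈ KK. WAIT: ch 1 and ch 3 commute (indices 1 and 3 differ by 2), ch 0 and ch 3 commute. -/
theorem KK_perfect : ⁅KK, KK⁆ = KK := by
  exact CK2_aux
-- END CK2

section reps

universe u
variable {V : Type u} [AddCommGroup V] [Module ℂ V]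

/-- The augmentation space of `KK` in a representation. -/
def Aug (σ : Ch →* Module.End ℂ V) : Submodule ℂ (Module.End ℂ V) :=
  Submodule.span ℂ {φ | ∃ k ∈ KK, φ = σ k - 1}

/-- Irreducible. -/
def Irr {H : Type*} [Group H] (σ : H →* Module.End ℂ V) : Prop :=
  Nontrivial V ∧ ∀ W : Submodule ℂ V, (∀ x, ∀ w ∈ W, σ x w ∈ W) → W = ⊥ ∨ W = ⊤

/-- Restriction to a stable subspace. -/
def resR {H : Type*} [Group H] (σ : H →* Module.End ℂ V) (W : Submodule ℂ V)
    (hW : ∀ x, ∀ w ∈ W, σ x w ∈ W) : H →* Module.End ℂ W where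
  toFun x := (σ x).restrict (hW x)
  map_one' := by ext w; simp
  map_mul' x y := by ext w; simp

/-- The quotient representation. -/
def quoR {H : Type*} [Group H] (σ : H →* Module.End ℂ V) (W : Submodule ℂ V)
    (hW : ∀ x, ∀ w ∈ W, σ x w ∈ W) : H →* Module.End ℂ (V ⧸ W) where
  toFun x := W.mapQ W (σ x) (hW x)
  map_one' := by ext w; simp
  map_mul' x y := by ext w; simp

-- MODULE AU1
private theorem AU1_mem (σ : Ch →* Module.End ℂ V) {k : Ch} (hk : k ∈ KK) :
    σ k - 1 ∈ Aug σ := Submodule.subset_span ⟨k, hk, rfl⟩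

private theorem AU1_sub (σ : Ch →* Module.End ℂ V) {k l : Ch} (hk : k ∈ KK) (hl : l ∈ KK) :
    σ k - σ l ∈ Aug σ := by
  have h := (Aug σ).sub_mem (AU1_mem σ hk) (AU1_mem σ hl)
  rwa [sub_sub_sub_cancel_right] at h

open scoped commutatorElement in
private theorem AU1_aux (σ : Ch →* Module.End ℂ V) : Aug σ * Aug σ = Aug σ := by
  apply le_antisymm
  · rw [Submodule.mul_le]
    intro m hm n hn
    refine Submodule.span_induction (p := fun m _ => m * n ∈ Aug σ) ?_ ?_ ?_ ?_ hm
    · rintro x ⟨k, hk, rfl⟩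
      refine Submodule.span_induction (p := fun n _ => (σ k - 1) * n ∈ Aug σ) ?_ ?_ ?_ ?_ hn
      · rintro y ⟨l, hl, rfl⟩
        have h1 : (σ k - 1) * (σ l - 1) = (σ (k * l) - 1) - (σ k - 1) - (σ l - 1) := by
          rw [map_mul]
          noncomm_ring
        rw [h1]
        exact (Aug σ).sub_mem ((Aug σ).sub_mem (AU1_mem σ (KK.mul_mem hk hl)) (AU1_mem σ hk))
          (AU1_mem σ hl)
      · rw [mul_zero]
        exact (Aug σ).zero_mem
      · intro x y _ _ hx hy
        rw [mul_add]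
        exact (Aug σ).add_mem hx hy
      · intro c x _ hx
        rw [mul_smul_comm]
        exact (Aug σ).smul_mem c hx
    · rw [zero_mul]
      exact (Aug σ).zero_mem
    · intro x y _ _ hx hy
      rw [add_mul]
      exact (Aug σ).add_mem hx hy
    · intro c x _ hx
      rw [smul_mul_assoc]
      exact (Aug σ).smul_mem c hx
  · refine Submodule.span_le.2 ?_
    rintro φ ⟨k, hk, rfl⟩
    rw [← KK_perfect] at hk
    have hk' : k ∈ Subgroup.closure {g | ∃ g₁ ∈ KK, ∃ g₂ ∈ KK, ⁅g₁, g₂⁆ = g} := hk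
    refine (Subgroup.closure_induction (p := fun k _ => k ∈ KK ∧ σ k - 1 ∈ Aug σ * Aug σ)
      ?_ ?_ ?_ ?_ hk').2
    · rintro g ⟨x, hx, y, hy, rfl⟩
      have hxi := KK.inv_mem hx
      have hyi := KK.inv_mem hy
      refine ⟨?_, ?_⟩
      · rw [commutatorElement_def]
        exact KK.mul_mem (KK.mul_mem (KK.mul_mem hx hy) hxi) hyi
      · have h1 : σ ⁅x, y⁆ - 1 = (σ x - 1) * (σ (y * x⁻¹ * y⁻¹) - σ (x⁻¹ * y⁻¹)) -
            (σ y - 1) * (σ (x * x⁻¹ * y⁻¹) - σ (x⁻¹ * y⁻¹)) := by
          rw [commutatorElement_def]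
          have e1 : σ (x * y * x⁻¹ * y⁻¹) = σ x * σ (y * x⁻¹ * y⁻¹) := by
            rw [← map_mul]; group
          have e2 : σ (x * x⁻¹ * y⁻¹) = σ x * σ (x⁻¹ * y⁻¹) := by
            rw [← map_mul]; group
          have e3 : σ (y * x⁻¹ * y⁻¹) = σ y * σ (x⁻¹ * y⁻¹) := by
            rw [← map_mul]; group
          have e4 : (1 : Module.End ℂ V) = σ y * σ (x * x⁻¹ * y⁻¹) := by
            rw [← map_mul, mul_inv_cancel, one_mul, mul_inv_cancel, map_one]
          rw [e1, e3]
          nth_rewrite 1 [e4]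
          rw [e2]
          noncomm_ring
        rw [h1]
        exact (Aug σ * Aug σ).sub_mem
          (Submodule.mul_mem_mul (AU1_mem σ hx) (AU1_sub σ
            (KK.mul_mem (KK.mul_mem hy hxi) hyi) (KK.mul_mem hxi hyi)))
          (Submodule.mul_mem_mul (AU1_mem σ hy) (AU1_sub σ
            (KK.mul_mem (KK.mul_mem hx hxi) hyi) (KK.mul_mem hxi hyi)))
    · refine ⟨KK.one_mem, ?_⟩
      rw [map_one, sub_self]
      exact (Aug σ * Aug σ).zero_mem
    · rintro k l _ _ ⟨hk1, hk2⟩ ⟨hl1, hl2⟩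
      refine ⟨KK.mul_mem hk1 hl1, ?_⟩
      have h1 : σ (k * l) - 1 = (σ k - 1) * (σ l - 1) + (σ k - 1) + (σ l - 1) := by
        rw [map_mul]
        noncomm_ring
      rw [h1]
      exact (Aug σ * Aug σ).add_mem ((Aug σ * Aug σ).add_mem
        (Submodule.mul_mem_mul (AU1_mem σ hk1) (AU1_mem σ hl1)) hk2) hl2
    · rintro k _ ⟨hk1, hk2⟩
      refine ⟨KK.inv_mem hk1, ?_⟩
      have h1 : σ k⁻¹ - 1 = -((σ k⁻¹ - 1) * (σ k - 1)) - (σ k - 1) := by
        have e1 : σ k⁻¹ * σ k = 1 := by rw [← map_mul, inv_mul_cancel, map_one]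
        have e2 : (σ k⁻¹ - 1) * (σ k - 1) = σ k⁻¹ * σ k - σ k⁻¹ - σ k + 1 := by noncomm_ring
        rw [e2, e1]
        abel
      rw [h1]
      exact (Aug σ * Aug σ).sub_mem ((Aug σ * Aug σ).neg_mem
        (Submodule.mul_mem_mul (AU1_mem σ (KK.inv_mem hk1)) (AU1_mem σ hk1))) hk2

/-- The augmentation space is idempotent.
PROOF. ≤: (σ k - 1)(σ k' - 1) = (σ (k k') - 1) - (σ k - 1) - (σ k' - 1). ≥: U = {k ∈ KK : σ k - 1 ∈ Aug * Aug} is (the carrier of) a subgroup:
σ(k k') - 1 = (σ k - 1)(σ k' - 1) + (σ k - 1) + (σ k' - 1); σ(k⁻¹) - 1 = -(σ k⁻¹ - 1)(σ k - 1) - (σ k - 1). It contains the commutators of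
x, y ∈ KK: σ[x,y] - 1 = (σx - 1) * (σ(y x⁻¹ y⁻¹) - σ(x⁻¹ y⁻¹)) - (σy - 1) * (σ(x x⁻¹ y⁻¹) - σ(x⁻¹ y⁻¹)), and σ k - σ k' ∈ Aug for k, k' ∈ KK.
KK_perfect (Subgroup.commutator_le / closure induction). -/
theorem Aug_mul_self (σ : Ch →* Module.End ℂ V) : Aug σ * Aug σ = Aug σ := by
  exact AU1_aux σ
-- END AU1

-- MODULE D1
private theorem D1_conj {H : Type*} [Group H] (σ : H →* Module.End ℂ V) (g x : H) (c : ℂ) :
    Module.finrank ℂ (LinearMap.range (σ (g * x * g⁻¹) - c • 1)) =
      Module.finrank ℂ (LinearMap.range (σ x - c • 1)) := by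
  have e1 : σ g * σ g⁻¹ = 1 := by rw [← map_mul, mul_inv_cancel, map_one]
  have e2 : σ g⁻¹ * σ g = 1 := by rw [← map_mul, inv_mul_cancel, map_one]
  let e : V ≃ₗ[ℂ] V := LinearEquiv.ofLinear (σ g) (σ g⁻¹) e1 e2
  have h1 : σ (g * x * g⁻¹) - c • 1 = (e : V →ₗ[ℂ] V) ∘ₗ (σ x - c • 1) ∘ₗ (e.symm : V →ₗ[ℂ] V) := by
    have h2 : (e : V →ₗ[ℂ] V) ∘ₗ (σ x - c • 1) ∘ₗ (e.symm : V →ₗ[ℂ] V) =
        σ g * (σ x - c • 1) * σ g⁻¹ := rfl
    rw [h2, map_mul, map_mul, mul_sub, sub_mul, mul_smul_comm, mul_one, smul_mul_assoc, e1]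
  rw [h1, LinearMap.range_comp, LinearMap.range_comp_of_range_eq_top _ e.symm.range]
  exact LinearEquiv.finrank_map_eq e _

private theorem D1_step (σ : Ch →* Module.End ℂ V) (c : ℂ) (i j : Fin 5)
    (h : (j : ℕ) = (i : ℕ) + 1) :
    Module.finrank ℂ (LinearMap.range (σ (ch j) - c • 1)) =
      Module.finrank ℂ (LinearMap.range (σ (ch i) - c • 1)) := by
  rw [(ch_isChain.brd i j h).conj]
  exact D1_conj σ _ _ c

private theorem D1_zero (σ : Ch →* Module.End ℂ V) (c : ℂ) (i : Fin 5) :
    Module.finrank ℂ (LinearMap.range (σ (ch i) - c • 1)) =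
      Module.finrank ℂ (LinearMap.range (σ (ch 0) - c • 1)) := by
  have h1 := D1_step σ c 0 1 rfl
  have h2 := D1_step σ c 1 2 rfl
  have h3 := D1_step σ c 2 3 rfl
  have h4 := D1_step σ c 3 4 rfl
  fin_cases i
  · rfl
  · exact h1
  · exact h2.trans h1
  · exact h3.trans (h2.trans h1)
  · exact h4.trans (h3.trans (h2.trans h1))

/-- Conjugate generators have the same ranks.
PROOF. There is x ∈ Ch with x * ch i * x⁻¹ = ch j (ch 0 * ch 1 conjugates ch 0 to ch 1, Brd.conj, and so on); σ x is invertible. -/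
theorem ch_rank (σ : Ch →* Module.End ℂ V) (c : ℂ) (i j : Fin 5) :
    Module.finrank ℂ (LinearMap.range (σ (ch i) - c • 1)) =
      Module.finrank ℂ (LinearMap.range (σ (ch j) - c • 1)) := by
  rw [D1_zero σ c i, D1_zero σ c j]
-- END D1

-- MODULE D2
private theorem D2_inj {H : Type*} [Group H] (σ : H →* Module.End ℂ V) (g : H) {v : V}
    (h : σ g v = 0) : v = 0 := by
  have e2 : σ g⁻¹ * σ g = 1 := by rw [← map_mul, inv_mul_cancel, map_one]
  have h1 : σ g⁻¹ (σ g v) = v := by rw [← Module.End.mul_apply, e2, Module.End.one_apply]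
  rw [← h1, h, map_zero]

private theorem D2_range [FiniteDimensional ℂ V] (A : Module.End ℂ V)
    (h3 : Module.finrank ℂ V ≤ 3) (h : 2 ≤ Module.finrank ℂ (LinearMap.ker A)) :
    Module.finrank ℂ (LinearMap.range A) ≤ 1 := by
  have := LinearMap.finrank_range_add_finrank_ker A
  omega

private theorem D2_one [FiniteDimensional ℂ V] {W : Submodule ℂ V}
    (h : Module.finrank ℂ W ≤ 1) {v w : V}
    (hv : v ∈ W) (hw : w ∈ W) (h0 : v ≠ 0) : ∃ a : ℂ, w = a • v := by
  obtain ⟨u, hu⟩ := finrank_le_one_iff.1 h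
  obtain ⟨c, hc⟩ := hu ⟨v, hv⟩
  obtain ⟨d, hd⟩ := hu ⟨w, hw⟩
  have hc' : c • (u : V) = v := congrArg Subtype.val hc
  have hd' : d • (u : V) = w := congrArg Subtype.val hd
  have hc0 : c ≠ 0 := by
    rintro rfl
    rw [zero_smul] at hc'
    exact h0 hc'.symm
  refine ⟨d * c⁻¹, ?_⟩
  rw [← hd', ← hc', smul_smul, mul_assoc, inv_mul_cancel₀ hc0, mul_one]

private theorem D2_stable (σ : Ch →* Module.End ℂ V) {v : V} (h0 : v ≠ 0)
    (h : ∀ i, ∃ c : ℂ, σ (ch i) v = c • v) (x : Ch) : ∃ c : ℂ, σ x v = c • v := by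
  have hx : x ∈ Subgroup.closure (Set.range ch) := by
    rw [ch_closure]
    exact Subgroup.mem_top x
  refine Subgroup.closure_induction (p := fun x _ => ∃ c : ℂ, σ x v = c • v) ?_ ?_ ?_ ?_ hx
  · rintro _ ⟨i, rfl⟩
    exact h i
  · exact ⟨1, by rw [map_one, one_smul, Module.End.one_apply]⟩
  · rintro x y _ _ ⟨c, hc⟩ ⟨d, hd⟩
    refine ⟨d * c, ?_⟩
    rw [map_mul, Module.End.mul_apply, hd, map_smul, hc, smul_smul]
  · rintro x _ ⟨c, hc⟩
    have hc0 : c ≠ 0 := by
      rintro rfl
      rw [zero_smul] at hc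
      exact h0 (D2_inj σ x hc)
    refine ⟨c⁻¹, ?_⟩
    have e2 : σ x⁻¹ * σ x = 1 := by rw [← map_mul, inv_mul_cancel, map_one]
    have h1 : σ x⁻¹ (σ x v) = v := by rw [← Module.End.mul_apply, e2, Module.End.one_apply]
    rw [hc, map_smul] at h1
    have h2 : c⁻¹ • (c • σ x⁻¹ v) = c⁻¹ • v := by rw [h1]
    rwa [smul_smul, inv_mul_cancel₀ hc0, one_smul] at h2

private theorem D2_ker (A : Module.End ℂ V) (c : ℂ) (v : V) :
    v ∈ LinearMap.ker (A - c • 1) ↔ A v = c • v := by
  rw [LinearMap.mem_ker, LinearMap.sub_apply, LinearMap.smul_apply, Module.End.one_apply,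
    sub_eq_zero]

private theorem D2_mu (σ : Ch →* Module.End ℂ V) (i j : Fin 5) (hij : (j : ℕ) = (i : ℕ) + 1)
    {v : V} (h0 : v ≠ 0) {a b : ℂ} (ha : σ (ch i) v = a • v) (hb : σ (ch j) v = b • v) :
    a = b := by
  have ha0 : a ≠ 0 := by
    rintro rfl
    rw [zero_smul] at ha
    exact h0 (D2_inj σ _ ha)
  have hb0 : b ≠ 0 := by
    rintro rfl
    rw [zero_smul] at hb
    exact h0 (D2_inj σ _ hb)
  have h1 := (isChain_map σ).brd i j hij
  unfold Brd at h1
  have h2 := congrArg (fun f : Module.End ℂ V => f v) h1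
  simp only [Module.End.mul_apply, ha, hb, map_smul, smul_smul] at h2
  have h3 : (a * (b * a) - b * (a * b)) • v = 0 := by
    rw [sub_smul, h2, sub_self]
  rcases smul_eq_zero.1 h3 with h4 | h4
  · have h5 : (a * b) * (a - b) = 0 := by linear_combination h4
    rcases mul_eq_zero.1 h5 with h6 | h6
    · exact absurd h6 (mul_ne_zero ha0 hb0)
    · exact sub_eq_zero.1 h6
  · exact absurd h4 h0

/-- In dimension 2 or 3 the generators of an irreducible representation are scalar + rank at most one.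
PROOF. Write t_i = σ (ch i) (invertible). Let la be an eigenvalue of t_0 (Module.End.exists_eigenvalue). If dim ker(t_0 - la) ≥ 2 then
range (t_0 - la) has dimension ≤ 1 (dim V ≤ 3), c = la, D1. Otherwise ker(t_0 - la) = <v>. t_2, t_3, t_4 commute with t_0, so t_j v = mu_j v,
mu_j ≠ 0 (j = 2, 3, 4). From the braid relations of t_2, t_3 and t_3, t_4: mu_2 = mu_3 = mu_4 =: mu. Put v' = t_0 t_1 v. Since
t_1 (t_0 t_1) = (t_0 t_1) t_0, ker(t_1 - la) = <v'>, and t_3 v' = mu v', t_4 v' = mu v' (t_3, t_4 commute with t_0 and t_1). If v' = a v: then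
t_1 v = la v, and v is a common eigenvector of t_0, ..., t_4, hence <v> is stable under all of Ch (ch_closure; inverse operators too), so <v> = V by
irreducibility, dim V = 1, contradiction. So v, v' are independent and in ker(t_3 - mu): dim range (t_3 - mu) ≤ dim V - 2 ≤ 1. c = mu, D1. -/
theorem dim3_rank [FiniteDimensional ℂ V] (σ : Ch →* Module.End ℂ V) (h : Irr σ)
    (h2 : 2 ≤ Module.finrank ℂ V) (h3 : Module.finrank ℂ V ≤ 3) :
    ∃ c : ℂ, ∀ i, Module.finrank ℂ (LinearMap.range (σ (ch i) - c • 1)) ≤ 1 := by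
  have hnt : Nontrivial V := h.1
  obtain ⟨la, hla⟩ := Module.End.exists_eigenvalue (σ (ch 0))
  obtain ⟨v, hv⟩ := hla.exists_hasEigenvector
  have hv0 : v ≠ 0 := hv.2
  have hv1 : σ (ch 0) v = la • v := hv.apply_eq_smul
  by_cases hA : 2 ≤ Module.finrank ℂ (LinearMap.ker (σ (ch 0) - la • 1))
  · refine ⟨la, fun i => ?_⟩
    rw [D1_zero]
    exact D2_range _ h3 hA
  have hA' : Module.finrank ℂ (LinearMap.ker (σ (ch 0) - la • 1)) ≤ 1 := by omega
  have key : ∀ w, σ (ch 0) w = la • w → ∃ a : ℂ, w = a • v := fun w hw =>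
    D2_one hA' ((D2_ker _ _ _).2 hv1) ((D2_ker _ _ _).2 hw) hv0
  have hcom : ∀ i j : Fin 5, (i : ℕ) + 2 ≤ (j : ℕ) → ∀ w, σ (ch i) (σ (ch j) w) =
      σ (ch j) (σ (ch i) w) := by
    intro i j hij w
    have h1 := ((isChain_map σ).com i j hij).eq
    exact congrArg (fun f : Module.End ℂ V => f w) h1
  have hmu : ∀ j : Fin 5, 2 ≤ (j : ℕ) → ∃ a : ℂ, σ (ch j) v = a • v := by
    intro j hj
    refine key _ ?_
    rw [hcom 0 j (by simpa using hj), hv1, map_smul]
  obtain ⟨m2, hm2⟩ := hmu 2 (by decide)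
  obtain ⟨m3, hm3⟩ := hmu 3 (by decide)
  obtain ⟨m4, hm4⟩ := hmu 4 (by decide)
  have h23 := D2_mu σ 2 3 rfl hv0 hm2 hm3
  have h34 := D2_mu σ 3 4 rfl hv0 hm3 hm4
  set v' := σ (ch 0) (σ (ch 1) v) with hv'
  have hb01 : ∀ w, σ (ch 0) (σ (ch 1) (σ (ch 0) w)) = σ (ch 1) (σ (ch 0) (σ (ch 1) w)) := by
    intro w
    have h1 := (isChain_map σ).brd 0 1 rfl
    unfold Brd at h1
    exact congrArg (fun f : Module.End ℂ V => f w) h1
  have h1' : σ (ch 1) v' = la • v' := by
    rw [hv', ← hb01, hv1, map_smul, map_smul]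
  have h3' : σ (ch 3) v' = m3 • v' := by
    rw [hv', ← hcom 0 3 (by decide), ← hcom 1 3 (by decide), hm3, map_smul, map_smul]
  by_cases hB : ∃ a : ℂ, v' = a • v
  · exfalso
    obtain ⟨a, ha⟩ := hB
    have ha0 : a ≠ 0 := by
      rintro rfl
      rw [zero_smul] at ha
      exact hv0 (D2_inj σ _ (D2_inj σ _ ha))
    have h1v : σ (ch 1) v = la • v := by
      rw [ha, map_smul, smul_comm] at h1'
      have h2 : a⁻¹ • (a • σ (ch 1) v) = a⁻¹ • (a • (la • v)) := by rw [h1']
      rwa [smul_smul, smul_smul, inv_mul_cancel₀ ha0, one_smul, one_smul] at h2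
    have hst := D2_stable σ hv0 (fun i => by
      fin_cases i
      · exact ⟨la, hv1⟩
      · exact ⟨la, h1v⟩
      · exact ⟨m2, hm2⟩
      · exact ⟨m3, hm3⟩
      · exact ⟨m4, hm4⟩)
    rcases h.2 (Submodule.span ℂ {v}) (by
      intro x w hw
      obtain ⟨b, rfl⟩ := Submodule.mem_span_singleton.1 hw
      obtain ⟨c, hc⟩ := hst x
      rw [map_smul, hc]
      exact Submodule.smul_mem _ _ (Submodule.smul_mem _ _ (Submodule.mem_span_singleton_self v)))
      with hW | hW
    · exact hv0 (Submodule.span_singleton_eq_bot.1 hW)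
    · have h5 : Module.finrank ℂ (Submodule.span ℂ {v}) = 1 := finrank_span_singleton hv0
      rw [hW, finrank_top] at h5
      omega
  · refine ⟨m3, fun i => ?_⟩
    rw [D1_zero, ← D1_zero σ m3 3]
    refine D2_range _ h3 ?_
    by_contra hcon
    exact hB (D2_one (by omega) ((D2_ker _ _ _).2 hm3) ((D2_ker _ _ _).2 h3') hv0)
-- END D2

-- MODULE D3
private theorem D3_cancel (σ : Ch →* Module.End ℂ V) (a b : Ch) (h1 : Brd (σ a) (σ b))
    (h2 : Commute (σ a) (σ b)) : σ a = σ b := by
  unfold Brd at h1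
  rw [h2.eq] at h1
  have h3 : σ (b * a)⁻¹ * (σ b * σ a * σ a) = σ (b * a)⁻¹ * (σ b * σ a * σ b) := by rw [h1]
  rw [← map_mul σ b a, ← mul_assoc, ← mul_assoc, ← map_mul, inv_mul_cancel, map_one, one_mul,
    one_mul] at h3
  exact h3

private theorem D3_adj (σ : Ch →* Module.End ℂ V) (i j k : Fin 5)
    (h1 : (k : ℕ) = (i : ℕ) + 1 ∨ (i : ℕ) = (k : ℕ) + 1)
    (h2 : (j : ℕ) + 2 ≤ (k : ℕ) ∨ (k : ℕ) + 2 ≤ (j : ℕ)) (h : σ (ch i) = σ (ch j)) :
    σ (ch k) = σ (ch i) := by
  have hc := isChain_map σ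
  apply D3_cancel
  · rcases h1 with h1 | h1
    · exact Eq.symm (hc.brd i k h1)
    · exact hc.brd k i h1
  · rw [h]
    rcases h2 with h2 | h2
    · exact (hc.com j k h2).symm
    · exact hc.com k j h2

private theorem D3_all (σ : Ch →* Module.End ℂ V) (i j : Fin 5)
    (hij : (i : ℕ) < (j : ℕ)) (h : σ (ch i) = σ (ch j)) :
    σ (ch 0) = σ (ch 1) := by
  have e03 : σ (ch 0) = σ (ch 3) → σ (ch 0) = σ (ch 1) := fun h =>
    (D3_adj σ 0 3 1 (by decide) (by decide) h).symm
  have e02 : σ (ch 0) = σ (ch 2) → σ (ch 0) = σ (ch 1) := fun h =>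
    e03 (h.trans (D3_adj σ 2 0 3 (by decide) (by decide) h.symm).symm)
  have e04 : σ (ch 0) = σ (ch 4) → σ (ch 0) = σ (ch 1) := fun h =>
    (D3_adj σ 0 4 1 (by decide) (by decide) h).symm
  have e13 : σ (ch 1) = σ (ch 3) → σ (ch 0) = σ (ch 1) := fun h =>
    D3_adj σ 1 3 0 (by decide) (by decide) h
  have e14 : σ (ch 1) = σ (ch 4) → σ (ch 0) = σ (ch 1) := fun h =>
    D3_adj σ 1 4 0 (by decide) (by decide) h
  have e24 : σ (ch 2) = σ (ch 4) → σ (ch 0) = σ (ch 1) := fun h =>
    e14 ((D3_adj σ 2 4 1 (by decide) (by decide) h).trans h)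
  have e12 : σ (ch 1) = σ (ch 2) → σ (ch 0) = σ (ch 1) := fun h =>
    D3_adj σ 1 2 0 (by decide) (by decide) h
  have e23 : σ (ch 2) = σ (ch 3) → σ (ch 0) = σ (ch 1) := fun h =>
    e13 ((D3_adj σ 2 3 1 (by decide) (by decide) h).trans h)
  have e34 : σ (ch 3) = σ (ch 4) → σ (ch 0) = σ (ch 1) := fun h =>
    e24 ((D3_adj σ 3 4 2 (by decide) (by decide) h).trans h)
  fin_cases i <;> fin_cases j <;> first | exact absurd hij (by decide) | skip
  · exact h
  · exact e02 h
  · exact e03 h
  · exact e04 h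
  · exact e12 h
  · exact e13 h
  · exact e14 h
  · exact e23 h
  · exact e24 h
  · exact e34 h

private theorem D3_rep [FiniteDimensional ℂ V] (A : Module.End ℂ V)
    (h : Module.finrank ℂ (LinearMap.range A) ≤ 1) :
    ∃ (v : V) (f : V →ₗ[ℂ] ℂ), ∀ w, A w = f w • v := by
  obtain ⟨u, hu⟩ := finrank_le_one_iff.1 h
  by_cases hu0 : (u : V) = 0
  · refine ⟨0, 0, fun w => ?_⟩
    obtain ⟨a, ha⟩ := hu ⟨A w, LinearMap.mem_range_self A w⟩
    have ha' : a • (u : V) = A w := congrArg Subtype.val ha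
    rw [← ha', hu0, smul_zero, smul_zero]
  · have h1 : ∃ f : V →ₗ[ℂ] ℂ, f u ≠ 0 := by
      by_contra hcon
      push Not at hcon
      exact hu0 ((Module.forall_dual_apply_eq_zero_iff ℂ (u : V)).1 hcon)
    obtain ⟨f, hf⟩ := h1
    refine ⟨u, (f u)⁻¹ • (f ∘ₗ A), fun w => ?_⟩
    obtain ⟨a, ha⟩ := hu ⟨A w, LinearMap.mem_range_self A w⟩
    have ha' : a • (u : V) = A w := congrArg Subtype.val ha
    rw [LinearMap.smul_apply, LinearMap.comp_apply, ← ha', map_smul, smul_eq_mul, smul_eq_mul,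
      mul_comm a, ← mul_assoc, inv_mul_cancel₀ hf, one_mul]

private theorem D3_zero [FiniteDimensional ℂ V] (σ : Ch →* Module.End ℂ V) (c : ℂ) (i j : Fin 5)
    (h : σ (ch i) - c • 1 = 0) : σ (ch j) - c • 1 = 0 := by
  have h1 := ch_rank σ c i j
  rw [h, LinearMap.range_zero, finrank_bot] at h1
  have h2 := Submodule.finrank_eq_zero.1 h1.symm
  exact LinearMap.range_eq_bot.1 h2

private theorem D3_far {a b : Module.End ℂ V} {v w : V} {f g : V →ₗ[ℂ] ℂ}
    (ha : ∀ x, a x = f x • v) (hb : ∀ x, b x = g x • w) (ha0 : a ≠ 0) (hb0 : b ≠ 0)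
    (hc : Commute a b) (ht : f v = g w) (hfw : f w ≠ 0) : a = b := by
  have hv0 : v ≠ 0 := by
    rintro rfl
    exact ha0 (LinearMap.ext fun x => by rw [ha, smul_zero, LinearMap.zero_apply])
  have hw0 : w ≠ 0 := by
    rintro rfl
    exact hb0 (LinearMap.ext fun x => by rw [hb, smul_zero, LinearMap.zero_apply])
  have hg : ∃ x, g x ≠ 0 := by
    by_contra hcon
    push Not at hcon
    exact hb0 (LinearMap.ext fun x => by rw [hb, hcon, zero_smul, LinearMap.zero_apply])
  obtain ⟨x0, hx0⟩ := hg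
  have hcx : ∀ x, (g x * f w) • v = (f x * g v) • w := by
    intro x
    have h1 := congrArg (fun A : Module.End ℂ V => A x) hc.eq
    simp only [Module.End.mul_apply, ha, hb, map_smul, smul_eq_mul] at h1
    exact h1
  have hne : g x0 * f w ≠ 0 := mul_ne_zero hx0 hfw
  obtain ⟨s, hs⟩ : ∃ s : ℂ, v = s • w := by
    refine ⟨(g x0 * f w)⁻¹ * (f x0 * g v), ?_⟩
    rw [← smul_smul, ← hcx, smul_smul, inv_mul_cancel₀ hne, one_smul]
  have hs0 : s ≠ 0 := by
    rintro rfl
    rw [zero_smul] at hs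
    exact hv0 hs
  have hgv : g v = s * g w := by rw [hs, map_smul, smul_eq_mul]
  have hx : ∀ x, g x * f w = f x * g w := by
    intro x
    have h1 := hcx x
    rw [hgv, hs, smul_smul] at h1
    have h2 : (g x * f w * s - f x * (s * g w)) • w = 0 := by rw [sub_smul, h1, sub_self]
    rcases smul_eq_zero.1 h2 with h3 | h3
    · have h4 : s * (g x * f w - f x * g w) = 0 := by linear_combination h3
      rcases mul_eq_zero.1 h4 with h5 | h5
      · exact absurd h5 hs0
      · exact sub_eq_zero.1 h5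
    · exact absurd h3 hw0
  have hgw : g w ≠ 0 := by
    intro h
    have := hx x0
    rw [h, mul_zero] at this
    exact hne this
  have hfv : s * f w = g w := by
    rw [← ht]
    conv_rhs => rw [hs]
    rw [map_smul, smul_eq_mul]
  refine LinearMap.ext fun x => ?_
  rw [ha, hb, hs, smul_smul]
  congr 1
  have h1 := hx x
  have h2 : g w * (f x * s - g x) = 0 := by
    have : g w * (f x * s - g x) = s * (f x * g w) - g x * g w := by ring
    rw [this, ← h1, ← hfv]
    ring
  rcases mul_eq_zero.1 h2 with h3 | h3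
  · exact absurd h3 hgw
  · exact sub_eq_zero.1 h3

private theorem D3_tau (σ : Ch →* Module.End ℂ V) (c : ℂ) {v w : V} {f g : V →ₗ[ℂ] ℂ}
    (i j : Fin 5) (hij : (j : ℕ) = (i : ℕ) + 1)
    (ha : ∀ x, (σ (ch i) - c • 1) x = f x • v) (hb : ∀ x, (σ (ch j) - c • 1) x = g x • w)
    (hb0 : σ (ch j) - c • 1 ≠ 0) : g w = f v := by
  set a := σ (ch i) - c • 1 with hadef
  set b := σ (ch j) - c • 1 with hbdef
  have haa : a * a = (f v) • a := by
    refine LinearMap.ext fun x => ?_
    rw [Module.End.mul_apply, ha x, map_smul, ha v, LinearMap.smul_apply, ha x, smul_comm]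
  have hbb : b * b = (g w) • b := by
    refine LinearMap.ext fun x => ?_
    rw [Module.End.mul_apply, hb x, map_smul, hb w, LinearMap.smul_apply, hb x, smul_comm]
  have hconj := (ch_isChain.brd i j hij).conj
  set p := ch i * ch j with hp
  have e1 : σ p * σ p⁻¹ = 1 := by rw [← map_mul, mul_inv_cancel, map_one]
  have e2 : σ p⁻¹ * σ p = 1 := by rw [← map_mul, inv_mul_cancel, map_one]
  have hba : b = σ p * a * σ p⁻¹ := by
    rw [hbdef, hconj, hadef, map_mul, map_mul, mul_sub, sub_mul, mul_smul_comm, mul_one,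
      smul_mul_assoc, e1]
  have h1 : b * b = (f v) • b := by
    have h2 : b * b = σ p * (a * ((σ p⁻¹ * σ p) * a)) * σ p⁻¹ := by
      rw [hba]
      noncomm_ring
    rw [h2, e2, one_mul, haa, mul_smul_comm, smul_mul_assoc, ← hba]
  rw [hbb] at h1
  have h3 : (g w - f v) • b = 0 := by rw [sub_smul, h1, sub_self]
  rcases smul_eq_zero.1 h3 with h4 | h4
  · exact sub_eq_zero.1 h4
  · exact absurd h4 hb0

private theorem D3_brd {a b : Module.End ℂ V} {v w : V} {f g : V →ₗ[ℂ] ℂ}
    (ha : ∀ x, a x = f x • v) (hb : ∀ x, b x = g x • w) (t c : ℂ) (hta : f v = t)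
    (htb : g w = t) (h : Brd (a + c • 1) (b + c • 1)) (hab : a ≠ b) :
    c * c + c * t + f w * g v = 0 := by
  have haa : a * a = t • a := by
    refine LinearMap.ext fun x => ?_
    rw [Module.End.mul_apply, ha x, map_smul, ha v, LinearMap.smul_apply, ha x, smul_comm, hta]
  have hbb : b * b = t • b := by
    refine LinearMap.ext fun x => ?_
    rw [Module.End.mul_apply, hb x, map_smul, hb w, LinearMap.smul_apply, hb x, smul_comm, htb]
  have haba : a * b * a = (f w * g v) • a := by
    refine LinearMap.ext fun x => ?_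
    simp only [Module.End.mul_apply, LinearMap.smul_apply, ha, hb, map_smul, smul_smul, smul_eq_mul]
    congr 1
    ring
  have hbab : b * a * b = (f w * g v) • b := by
    refine LinearMap.ext fun x => ?_
    simp only [Module.End.mul_apply, LinearMap.smul_apply, ha, hb, map_smul, smul_smul, smul_eq_mul]
    congr 1
    ring
  have e1 : ∀ a b : Module.End ℂ V, (a + c • 1) * (b + c • 1) * (a + c • 1) =
      a * b * a + c • (a * a) + (c • (a * b) + c • (b * a)) + (c * c) • (a + a + b) +
        (c * c * c) • 1 := by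
    intro a b
    simp only [add_mul, mul_add, smul_mul_assoc, mul_smul_comm, one_mul, mul_one, smul_add,
      smul_smul, mul_assoc]
    abel
  unfold Brd at h
  rw [e1, e1, haba, hbab, haa, hbb] at h
  have h2 : (c * c + c * t + f w * g v) • (a - b) = 0 := by
    have h3 := sub_eq_zero.2 h
    rw [← h3]
    module
  rcases smul_eq_zero.1 h2 with h3 | h3
  · exact h3
  · exact absurd (sub_eq_zero.1 h3) hab

private theorem D3_dim1 [FiniteDimensional ℂ V] (σ : Ch →* Module.End ℂ V)
    (h : Module.finrank ℂ V ≤ 1) : σ (ch 0) = σ (ch 1) := by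
  have hs : ∀ A : Module.End ℂ V, ∃ a : ℂ, A = a • 1 := by
    obtain ⟨u, hu⟩ := finrank_le_one_iff.1 h
    intro A
    obtain ⟨a, ha⟩ := hu (A u)
    refine ⟨a, LinearMap.ext fun w => ?_⟩
    obtain ⟨b, rfl⟩ := hu w
    rw [map_smul, ← ha, LinearMap.smul_apply, Module.End.one_apply, smul_comm]
  refine D3_cancel σ _ _ ((isChain_map σ).brd 0 1 rfl) ?_
  obtain ⟨a, ha⟩ := hs (σ (ch 0))
  obtain ⟨b, hb⟩ := hs (σ (ch 1))
  rw [ha, hb]
  exact ((Commute.one_left (1 : Module.End ℂ V)).smul_left a).smul_right b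

/-- Scalar + rank at most one in dimension at most 3: the generators are equal.
PROOF. Write t_i = σ (ch i) = c + v_i φ_i (φ_i : V → ℂ linear, v_i ∈ V; possible because the range has dimension ≤ 1). If V = 0 trivial. c ≠ 0 if dim V ≥ 2
(t_0 invertible; t_0 = c on ker φ_0); dim V ≤ 1: End V is commutative, Brd.eq-like argument (t_i invertible). If some v_i φ_i = 0 then all are 0 (D1), all equal.
Let a_i = v_i φ_i ≠ 0, tau = φ_i(v_i) = trace (conjugate: the same for all i; a_i^2 = tau a_i). [t_i, t_j] = 0 for |i - j| ≥ 2: v_i φ_i(v_j) φ_j = v_j φ_j(v_i) φ_i. Suppose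
φ_i(v_j) ≠ 0 for such a pair: then v_i ∥ v_j and φ_i ∥ φ_j, a_j = s a_i; tau = φ_i(v_i) ≠ 0 (since v_j ∥ v_i), traces: s = 1, t_i = t_j. For
every such pair there is k adjacent to one of i, j and not adjacent to the other [(0,2): k = 3, (0,3): 2.. check: k adjacent to j and |k - i| ≥ 2, or the
reverse; (0,2): 3; (0,3): 4; (0,4): 3; (1,3): 4; (1,4): 3; (2,4): 1], so t_k commutes and braids with t_i = t_j, all three equal; then all five
are equal (adjacent equal implies all equal: CK1 or D1-type conjugation: diff_mem). So we may assume φ_i(v_j) = 0 for all |i - j| ≥ 2. Braid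
relation of i, i+1 with a = a_i, b = a_(i+1), a^2 = tau a, b^2 = tau b, aba = kap a, bab = kap b, kap = φ_i(v_(i+1)) φ_(i+1)(v_i): (c + a)(c + b)(c + a) -
(c + b)(c + a)(c + b) = (c^2 + c tau + kap)(a - b) = 0. If a = b done. Otherwise kap = - c (c + tau) ≠ 0 (c + tau ≠ 0 because
t_i is invertible: t_i v_i = (c + tau) v_i). So φ_i(v_(i+1)) ≠ 0 for i = 0..3. Then v_1, v_2, v_3, v_4 are linearly independent: φ_0 kills v_2, v_3, v_4 and
not v_1, φ_1 kills v_3, v_4, not v_2, φ_2 kills v_4, not v_3, and v_4 ≠ 0. This contradicts dim V ≤ 3. -/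
theorem rank_one_equal [FiniteDimensional ℂ V] (σ : Ch →* Module.End ℂ V) (c : ℂ)
    (h : ∀ i, Module.finrank ℂ (LinearMap.range (σ (ch i) - c • 1)) ≤ 1)
    (h3 : Module.finrank ℂ V ≤ 3) : σ (ch 0) = σ (ch 1) := by
  by_cases hd : Module.finrank ℂ V ≤ 1
  · exact D3_dim1 σ hd
  by_cases h0 : σ (ch 0) - c • 1 = 0
  · have h1 := D3_zero σ c 0 1 h0
    rw [sub_eq_zero] at h0 h1
    rw [h0, h1]
  have hne : ∀ i, σ (ch i) - c • 1 ≠ 0 := fun i hi => h0 (D3_zero σ c i 0 hi)
  choose v f hvf using fun i => D3_rep _ (h i)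
  have hv0 : ∀ i, v i ≠ 0 := by
    intro i hi
    exact hne i (LinearMap.ext fun x => by rw [hvf, hi, smul_zero, LinearMap.zero_apply])
  have ht01 := D3_tau σ c 0 1 rfl (hvf 0) (hvf 1) (hne 1)
  have ht12 := D3_tau σ c 1 2 rfl (hvf 1) (hvf 2) (hne 2)
  have ht23 := D3_tau σ c 2 3 rfl (hvf 2) (hvf 3) (hne 3)
  have ht34 := D3_tau σ c 3 4 rfl (hvf 3) (hvf 4) (hne 4)
  have ht : ∀ i, f i (v i) = f 0 (v 0) := by
    intro i
    fin_cases i
    · rfl
    · exact ht01
    · exact ht12.trans ht01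
    · exact ht23.trans (ht12.trans ht01)
    · exact ht34.trans (ht23.trans (ht12.trans ht01))
  set t := f 0 (v 0) with htdef
  have hc : c ≠ 0 := by
    rintro rfl
    have h1 := h 0
    rw [zero_smul, sub_zero] at h1
    have hk : LinearMap.ker (σ (ch 0)) = ⊥ := by
      rw [LinearMap.ker_eq_bot']
      intro m hm
      exact D2_inj σ _ hm
    have h2 := LinearMap.finrank_range_add_finrank_ker (σ (ch 0))
    rw [hk, finrank_bot] at h2
    omega
  have hct : c + t ≠ 0 := by
    intro h1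
    apply hv0 0
    apply D2_inj σ (ch 0)
    have h2 := hvf 0 (v 0)
    rw [LinearMap.sub_apply, LinearMap.smul_apply, Module.End.one_apply, ← htdef,
      sub_eq_iff_eq_add] at h2
    rw [h2, ← add_smul, add_comm t c, h1, zero_smul]
  by_contra hcon
  have hfar : ∀ i j : Fin 5, (i : ℕ) + 2 ≤ (j : ℕ) → f i (v j) = 0 := by
    intro i j hij
    by_contra hf
    have hcm : Commute (σ (ch i) - c • 1) (σ (ch j) - c • 1) := by
      have h1 := (isChain_map σ).com i j hij
      have h2 : ∀ A : Module.End ℂ V, Commute A (c • 1) := fun A =>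
        (Commute.one_right A).smul_right c
      exact ((h1.sub_right (h2 _)).sub_left ((h2 _).symm))
    have h1 := D3_far (hvf i) (hvf j) (hne i) (hne j) hcm (by rw [ht, ht]) hf
    exact hcon (D3_all σ i j (by omega) (sub_left_inj.1 h1))
  have hadj : ∀ i j : Fin 5, (j : ℕ) = (i : ℕ) + 1 → f i (v j) ≠ 0 := by
    intro i j hij hf
    have hb := (isChain_map σ).brd i j hij
    have e : ∀ k, σ (ch k) = (σ (ch k) - c • 1) + c • 1 := fun k => (sub_add_cancel _ _).symm
    rw [e i, e j] at hb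
    have hab : σ (ch i) - c • 1 ≠ σ (ch j) - c • 1 := fun h1 =>
      hcon (D3_all σ i j (by omega) (sub_left_inj.1 h1))
    have h1 := D3_brd (hvf i) (hvf j) t c (ht i) (ht j) hb hab
    rw [hf, zero_mul, add_zero, ← mul_add] at h1
    exact mul_ne_zero hc hct h1
  have hli : LinearIndependent ℂ ![v 1, v 2, v 3, v 4] := by
    rw [Fintype.linearIndependent_iff]
    intro g hg
    rw [Fin.sum_univ_four] at hg
    simp only [Matrix.cons_val_zero, Matrix.cons_val_one, Matrix.cons_val] at hg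
    have h1 : g 0 = 0 := by
      have h2 := congrArg (f 0) hg
      rw [map_add, map_add, map_add, map_smul, map_smul, map_smul, map_smul, map_zero,
        hfar 0 2 (by decide), hfar 0 3 (by decide), hfar 0 4 (by decide)] at h2
      simp only [mul_zero, add_zero, smul_eq_mul] at h2
      exact (mul_eq_zero.1 h2).resolve_right (hadj 0 1 rfl)
    rw [h1, zero_smul, zero_add] at hg
    have h2 : g 1 = 0 := by
      have h2 := congrArg (f 1) hg
      rw [map_add, map_add, map_smul, map_smul, map_smul, map_zero,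
        hfar 1 3 (by decide), hfar 1 4 (by decide)] at h2
      simp only [mul_zero, add_zero, smul_eq_mul] at h2
      exact (mul_eq_zero.1 h2).resolve_right (hadj 1 2 rfl)
    rw [h2, zero_smul, zero_add] at hg
    have h3 : g 2 = 0 := by
      have h2 := congrArg (f 2) hg
      rw [map_add, map_smul, map_smul, map_zero, hfar 2 4 (by decide)] at h2
      simp only [mul_zero, add_zero, smul_eq_mul] at h2
      exact (mul_eq_zero.1 h2).resolve_right (hadj 2 3 rfl)
    rw [h3, zero_smul, zero_add] at hg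
    have h4 : g 3 = 0 := (smul_eq_zero.1 hg).resolve_right (hv0 4)
    intro i
    fin_cases i
    · exact h1
    · exact h2
    · exact h3
    · exact h4
  have h5 := hli.fintype_card_le_finrank
  rw [Fintype.card_fin] at h5
  omega
-- END D3

-- MODULE D4
/-- LEMMA D4. PROOF. dim V = 0 impossible. dim V = 1: End V is commutative, the braid relation and invertibility give σ (ch 0) = σ (ch 1). dim V = 2, 3:
D2, D3. So ch 1 * (ch 0)⁻¹ is in the kernel of σ (a normal subgroup; σ.ker for a monoid homomorphism from a group, or {x | σ x = 1}), which contains the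
normal closure KK (Subgroup.normalClosure_le_normal). -/
theorem lemD4 [FiniteDimensional ℂ V] (σ : Ch →* Module.End ℂ V) (h : Irr σ)
    (h3 : Module.finrank ℂ V ≤ 3) : ∀ k ∈ KK, σ k = 1 := by
  have hnt : Nontrivial V := h.1
  have hpos : 0 < Module.finrank ℂ V := Module.finrank_pos
  have key : σ (ch 0) = σ (ch 1) := by
    by_cases h1 : Module.finrank ℂ V = 1
    · have hc : Commute (σ (ch 0)) (σ (ch 1)) := by
        have hs : ∀ A : Module.End ℂ V, ∃ a : ℂ, A = a • 1 := by
          obtain ⟨u, hu0, hu⟩ := finrank_eq_one_iff'.1 h1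
          intro A
          obtain ⟨a, ha⟩ := hu (A u)
          refine ⟨a, LinearMap.ext fun w => ?_⟩
          obtain ⟨b, rfl⟩ := hu w
          rw [map_smul, ← ha, LinearMap.smul_apply, Module.End.one_apply, smul_comm]
        obtain ⟨a, ha⟩ := hs (σ (ch 0))
        obtain ⟨b, hb⟩ := hs (σ (ch 1))
        rw [ha, hb]
        exact ((Commute.one_left (1 : Module.End ℂ V)).smul_left a).smul_right b
      have hb : Brd (ch 0) (ch 1) := ch_isChain.brd 0 1 rfl
      unfold Brd at hb
      have h2 : σ (ch 0) * σ (ch 1) * σ (ch 0) = σ (ch 1) * σ (ch 0) * σ (ch 1) := by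
        rw [← map_mul, ← map_mul, ← map_mul, ← map_mul, hb]
      rw [hc.eq] at h2
      have h3 : σ (ch 0)⁻¹ * σ (ch 1)⁻¹ * (σ (ch 1) * σ (ch 0) * σ (ch 0)) =
          σ (ch 0)⁻¹ * σ (ch 1)⁻¹ * (σ (ch 1) * σ (ch 0) * σ (ch 1)) := by rw [h2]
      rw [← map_mul, ← map_mul, ← map_mul, ← map_mul, ← map_mul, ← map_mul] at h3
      have e1 : (ch 0)⁻¹ * (ch 1)⁻¹ * (ch 1 * ch 0 * ch 0) = ch 0 := by group
      have e2 : (ch 0)⁻¹ * (ch 1)⁻¹ * (ch 1 * ch 0 * ch 1) = ch 1 := by group
      rwa [e1, e2] at h3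
    · obtain ⟨c, hc⟩ := dim3_rank σ h (by omega) h3
      exact rank_one_equal σ c hc h3
  let K : Subgroup Ch :=
    { carrier := {x | σ x = 1}
      mul_mem' := by
        intro x y hx hy
        change σ (x * y) = 1
        rw [map_mul, show σ x = 1 from hx, show σ y = 1 from hy, mul_one]
      one_mem' := map_one σ
      inv_mem' := by
        intro x hx
        change σ x⁻¹ = 1
        have e2 : σ x⁻¹ * σ x = 1 := by rw [← map_mul, inv_mul_cancel, map_one]
        rwa [show σ x = 1 from hx, mul_one] at e2 }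
  have hK : K.Normal := by
    constructor
    intro x hx g
    change σ (g * x * g⁻¹) = 1
    rw [map_mul, map_mul, show σ x = 1 from hx, mul_one, ← map_mul, mul_inv_cancel, map_one]
  have hle : KK ≤ K := by
    refine Subgroup.normalClosure_le_normal ?_
    rw [Set.singleton_subset_iff]
    change σ (ch 1 * (ch 0)⁻¹) = 1
    rw [map_mul, ← key, ← map_mul, mul_inv_cancel, map_one]
  intro k hk
  exact hle hk
-- END D4

-- MODULE HD1
/-- There is an irreducible subrepresentation. PROOF. Take a non-zero stable subspace of minimal dimension. -/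
theorem exists_irr [FiniteDimensional ℂ V] [Nontrivial V] {H : Type*} [Group H]
    (σ : H →* Module.End ℂ V) :
    ∃ (W : Submodule ℂ V) (hW : ∀ x, ∀ w ∈ W, σ x w ∈ W), Irr (resR σ W hW) := by
  classical
  have hex : ∃ n : ℕ, ∃ W : Submodule ℂ V, (∀ x, ∀ w ∈ W, σ x w ∈ W) ∧ W ≠ ⊥ ∧
      Module.finrank ℂ W = n :=
    ⟨_, ⊤, fun _ _ _ => Submodule.mem_top, top_ne_bot, rfl⟩
  obtain ⟨W, hW, hW0, hWn⟩ := Nat.find_spec hex
  refine ⟨W, hW, Submodule.nontrivial_iff_ne_bot.2 hW0, ?_⟩
  intro U hU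
  by_cases hU0 : U = ⊥
  · exact Or.inl hU0
  right
  have h1 : ∀ x, ∀ w ∈ U.map W.subtype, σ x w ∈ U.map W.subtype := by
    rintro x _ ⟨w, hw, rfl⟩
    exact ⟨resR σ W hW x w, hU x w hw, rfl⟩
  have h2 : U.map W.subtype ≠ ⊥ := by
    intro h
    apply hU0
    rw [eq_bot_iff]
    intro u hu
    have h3 : (u : V) ∈ U.map W.subtype := ⟨u, hu, rfl⟩
    rw [h, Submodule.mem_bot] at h3
    rw [Submodule.mem_bot]
    exact Subtype.ext h3
  have h3 := Nat.find_min' hex ⟨U.map W.subtype, h1, h2, rfl⟩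
  rw [← hWn] at h3
  have h4 : U.map W.subtype = W :=
    Submodule.eq_of_le_of_finrank_le (Submodule.map_subtype_le W U) h3
  rw [eq_top_iff]
  rintro w -
  have h5 : (w : V) ∈ U.map W.subtype := by
    rw [h4]
    exact w.2
  obtain ⟨u, hu, huw⟩ := h5
  have : u = w := Subtype.ext huw
  rwa [← this]
-- END HD1

/-- The equivariant maps from `S` to `V`. -/
def Eqv {S : Type u} [AddCommGroup S] [Module ℂ S] {H : Type*} [Group H]
    (σ : H →* Module.End ℂ S) (τ : H →* Module.End ℂ V) : Submodule ℂ (S →ₗ[ℂ] V) where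
  carrier := {f | ∀ x s, f (σ x s) = τ x (f s)}
  add_mem' := by
    intro a b ha hb x s
    simp [ha x s, hb x s]
  zero_mem' := by intro x s; simp
  smul_mem' := by
    intro c a ha x s
    simp [ha x s]

-- MODULE HD2
private theorem HD2_schur {S : Type u} [AddCommGroup S] [Module ℂ S]
    [FiniteDimensional ℂ S] {H : Type*} [Group H] (σ : H →* Module.End ℂ S) (h : Irr σ)
    (f : Module.End ℂ S) (hf : ∀ x s, f (σ x s) = σ x (f s)) : ∃ c : ℂ, ∀ s, f s = c • s := by
  have hnt : Nontrivial S := h.1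
  obtain ⟨c, hc⟩ := Module.End.exists_eigenvalue f
  obtain ⟨v, hv⟩ := hc.exists_hasEigenvector
  refine ⟨c, fun s => ?_⟩
  rcases h.2 (Module.End.eigenspace f c) (by
    intro x w hw
    rw [Module.End.mem_eigenspace_iff] at hw ⊢
    rw [hf, hw, map_smul]) with hW | hW
  · have this : v ∈ Module.End.eigenspace f c := hv.1
    rw [hW, Submodule.mem_bot] at this
    exact absurd this hv.2
  · have hs : s ∈ Module.End.eigenspace f c := by
      rw [hW]
      exact Submodule.mem_top
    exact Module.End.mem_eigenspace_iff.1 hs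

private theorem HD2_inj {S : Type u} [AddCommGroup S] [Module ℂ S]
    [FiniteDimensional ℂ S] {H : Type*} [Group H]
    (σ : H →* Module.End ℂ S) (τ : H →* Module.End ℂ V) (h : Irr σ) (k : ℕ) :
    ∀ f : Fin k → (S →ₗ[ℂ] V), (∀ j, f j ∈ Eqv σ τ) → LinearIndependent ℂ f →
      ∀ s : Fin k → S, ∑ j, f j (s j) = 0 → s = 0 := by
  induction k with
  | zero =>
    intro f _ _ s _
    exact Subsingleton.elim _ _
  | succ k ih =>
    intro f hf hli s hs
    have hli' : LinearIndependent ℂ (fun j : Fin k => f j.succ) :=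
      hli.comp _ (Fin.succ_injective k)
    have ih' := ih (fun j => f j.succ) (fun j => hf j.succ) hli'
    have huniq : ∀ a b : Fin k → S, ∑ j, f (Fin.succ j) (a j) = ∑ j, f (Fin.succ j) (b j) →
        a = b := by
      intro a b hab
      have h1 := ih' (a - b) (by
        simp only [Pi.sub_apply, map_sub, Finset.sum_sub_distrib]
        rw [hab, sub_self])
      exact sub_eq_zero.1 h1
    let W : Submodule ℂ S :=
      { carrier := {x | ∃ a : Fin k → S, f 0 x = ∑ j, f (Fin.succ j) (a j)}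
        add_mem' := by
          rintro x y ⟨a, ha⟩ ⟨b, hb⟩
          refine ⟨a + b, ?_⟩
          simp only [Pi.add_apply, map_add, Finset.sum_add_distrib]
          rw [ha, hb]
        zero_mem' := ⟨0, by simp⟩
        smul_mem' := by
          rintro c x ⟨a, ha⟩
          refine ⟨c • a, ?_⟩
          simp only [Pi.smul_apply, map_smul]
          rw [ha, Finset.smul_sum] }
    have hWst : ∀ x, ∀ w ∈ W, σ x w ∈ W := by
      rintro x w ⟨a, ha⟩
      refine ⟨fun j => σ x (a j), ?_⟩
      have h1 : f 0 (σ x w) = τ x (f 0 w) := hf 0 x w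
      have h2 : ∀ j : Fin k, f (Fin.succ j) (σ x (a j)) = τ x (f (Fin.succ j) (a j)) :=
        fun j => hf j.succ x (a j)
      simp only [h2]
      rw [h1, ha, map_sum]
    rw [Fin.sum_univ_succ] at hs
    rcases h.2 W hWst with hW | hW
    · have h0 : s 0 ∈ W := by
        refine ⟨fun j => -(s j.succ), ?_⟩
        simp only [map_neg, Finset.sum_neg_distrib]
        exact eq_neg_of_add_eq_zero_left hs
      rw [hW, Submodule.mem_bot] at h0
      rw [h0, map_zero, zero_add] at hs
      have h1 := ih' (fun j => s j.succ) hs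
      funext j
      refine Fin.cases ?_ (fun j => ?_) j
      · exact h0
      · exact congrFun h1 j
    · exfalso
      have hall : ∀ x : S, ∃ a : Fin k → S, f 0 x = ∑ j, f (Fin.succ j) (a j) := by
        intro x
        have hx : x ∈ W := by
          rw [hW]
          exact Submodule.mem_top
        exact hx
      choose φ hφ using hall
      let ψ : Fin k → Module.End ℂ S := fun j =>
        { toFun := fun x => φ x j
          map_add' := by
            intro x y
            have h1 := huniq (φ (x + y)) (φ x + φ y) (by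
              rw [← hφ, map_add, hφ x, hφ y]
              simp only [Pi.add_apply, map_add, Finset.sum_add_distrib])
            exact congrFun h1 j
          map_smul' := by
            intro c x
            have h1 := huniq (φ (c • x)) (c • φ x) (by
              rw [← hφ, map_smul, hφ x]
              simp only [Pi.smul_apply, map_smul, Finset.smul_sum])
            exact congrFun h1 j }
      have hψ : ∀ j x s, ψ j (σ x s) = σ x (ψ j s) := by
        intro j x s
        have h1 := huniq (φ (σ x s)) (fun j => σ x (φ s j)) (by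
          have h2 : ∀ j : Fin k, f (Fin.succ j) (σ x (φ s j)) =
              τ x (f (Fin.succ j) (φ s j)) := fun j => hf j.succ x (φ s j)
          have h3 : f 0 (σ x s) = τ x (f 0 s) := hf 0 x s
          simp only [h2]
          rw [← hφ, h3, hφ s, map_sum])
        exact congrFun h1 j
      choose c hc using fun j => HD2_schur σ h (ψ j) (hψ j)
      have h5 : f 0 = ∑ j, c j • f (Fin.succ j) := by
        refine LinearMap.ext fun x => ?_
        rw [LinearMap.sum_apply, hφ x]
        refine Finset.sum_congr rfl fun j _ => ?_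
        have h6 : φ x j = c j • x := hc j x
        rw [h6, map_smul, LinearMap.smul_apply]
      rw [Fintype.linearIndependent_iff] at hli
      have h6 := hli (Fin.cons (1 : ℂ) (fun j => -(c j))) (by
        rw [Fin.sum_univ_succ]
        simp only [Fin.cons_zero, Fin.cons_succ, one_smul, neg_smul, Finset.sum_neg_distrib]
        rw [← h5, add_neg_cancel]) 0
      rw [Fin.cons_zero] at h6
      exact one_ne_zero h6

/-- `dim S * dim Hom_H(S,V) ≤ dim V` for `S` irreducible over ℂ.
PROOF. Let f_1, ..., f_k be a basis of Eqv σ τ (finite dimensional). Claim: for linearly independent f_1, ..., f_k ∈ Eqv the map S^k → V, (s_j) ↦ Σ f_j(s_j) is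
injective (then k dim S ≤ dim V). Induction on k. Suppose Σ_(j<k+1) f_j(s_j) = 0 has a non-zero solution. The set of s_k (last coordinate) of solutions is a stable
subspace of S, so it is 0 (then the induction hypothesis gives all s_j = 0) or S. If it is S, then for every s there is a unique (induction
hypothesis) tuple φ_j(s) (j < k) with f_k(s) = Σ_(j<k) f_j(φ_j(s)); φ_j : S → S is linear and commutes with H, so it is a scalar c_j (Schur: an eigenspace of
φ_j is stable and non-zero, so everything), f_k = Σ c_j f_j, contradiction. -/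
theorem hom_dim [FiniteDimensional ℂ V] {S : Type u} [AddCommGroup S] [Module ℂ S]
    [FiniteDimensional ℂ S] {H : Type*} [Group H]
    (σ : H →* Module.End ℂ S) (τ : H →* Module.End ℂ V) (h : Irr σ) :
    Module.finrank ℂ S * Module.finrank ℂ (Eqv σ τ) ≤ Module.finrank ℂ V := by
  set k := Module.finrank ℂ (Eqv σ τ) with hk
  let b := Module.finBasis ℂ (Eqv σ τ)
  let f : Fin k → (S →ₗ[ℂ] V) := fun j => (b j : S →ₗ[ℂ] V)
  have hli : LinearIndependent ℂ f :=
    b.linearIndependent.map' (Submodule.subtype _) (Submodule.ker_subtype _)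
  let Φ : (Fin k → S) →ₗ[ℂ] V := ∑ j, (f j) ∘ₗ LinearMap.proj j
  have hΦ : ∀ s, Φ s = ∑ j, f j (s j) := by
    intro s
    rw [LinearMap.sum_apply]
    rfl
  have hinj : Function.Injective Φ := by
    rw [injective_iff_map_eq_zero]
    intro s hs
    rw [hΦ] at hs
    exact HD2_inj σ τ h k f (fun j => (b j).2) hli s hs
  have h1 := LinearMap.finrank_le_finrank_of_injective hinj
  rw [Module.finrank_pi_fintype] at h1
  simp only [Finset.sum_const, Finset.card_univ, Fintype.card_fin, smul_eq_mul] at h1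
  rw [mul_comm]
  exact h1
-- END HD2

/-- Commuting families of representations (below `m`). -/
def CF (m : ℕ) (ρ : ℕ → (Ch →* Module.End ℂ V)) : Prop :=
  ∀ q r, q < m → r < m → q ≠ r → ∀ x y, Commute (ρ q x) (ρ r y)

/-- The statement of Lemma P, elementwise: all products of `m` augmentation elements vanish. -/
def Kills (m : ℕ) (ρ : ℕ → (Ch →* Module.End ℂ V)) : Prop :=
  ∀ k : ℕ → Ch, (∀ q, q < m → k q ∈ KK) → pr m (fun q => ρ q (k q) - 1) = 0

-- MODULE PA1
private theorem PA1_pr {R A : Type*} [CommSemiring R] [Semiring A] [Algebra R A] (m : ℕ)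
    (S : ℕ → Set A) : pr m (fun q => Submodule.span R (S q)) =
      Submodule.span R {φ | ∃ F : ℕ → A, (∀ q, q < m → F q ∈ S q) ∧ φ = pr m F} := by
  induction m with
  | zero =>
    rw [pr_zero, Submodule.one_eq_span]
    congr 1
    ext φ
    simp [pr_zero]
  | succ m ih =>
    rw [pr_succ, ih, Submodule.span_mul_span]
    congr 1
    ext φ
    rw [Set.mem_mul]
    constructor
    · rintro ⟨x, ⟨F, hF, rfl⟩, y, hy, rfl⟩
      refine ⟨Function.update F m y, fun q hq => ?_, ?_⟩
      · by_cases h : q = m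
        · subst h
          rw [Function.update_self]
          exact hy
        · rw [Function.update_of_ne h]
          exact hF q (by omega)
      · rw [pr_succ, Function.update_self,
          pr_congr m (Function.update F m y) F
            (fun q hq => by rw [Function.update_of_ne (by omega)])]
    · rintro ⟨F, hF, rfl⟩
      exact ⟨pr m F, ⟨F, fun q hq => hF q (by omega), rfl⟩, F m, hF m (by omega),
        (pr_succ m F).symm⟩

private theorem PA1_span (m : ℕ) (ρ : ℕ → (Ch →* Module.End ℂ V)) :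
    pr m (fun q => Aug (ρ q)) = Submodule.span ℂ {φ | ∃ k : ℕ → Ch, (∀ q, q < m → k q ∈ KK) ∧
      φ = pr m (fun q => ρ q (k q) - 1)} := by
  classical
  unfold Aug
  rw [PA1_pr m (fun q => {φ | ∃ k ∈ KK, φ = ρ q k - 1})]
  congr 1
  ext φ
  constructor
  · rintro ⟨F, hF, rfl⟩
    have h : ∀ q, ∃ k : Ch, q < m → k ∈ KK ∧ F q = ρ q k - 1 := by
      intro q
      by_cases hq : q < m
      · obtain ⟨k, hk, h⟩ := hF q hq
        exact ⟨k, fun _ => ⟨hk, h⟩⟩
      · exact ⟨1, fun h => absurd h hq⟩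
    choose k hk using h
    exact ⟨k, fun q hq => (hk q hq).1, pr_congr m _ _ fun q hq => (hk q hq).2⟩
  · rintro ⟨k, hk, rfl⟩
    exact ⟨_, fun q hq => ⟨k q, hk q hq, rfl⟩, rfl⟩

/-- Elementwise and as product of subspaces. PROOF. `pr m (fun q => span (S q)) = span {pr m φ | ∀ q < m, φ q ∈ S q}` by induction on m
(Submodule.span_mul_span; `1 = span {1}`, Submodule.one_eq_span or one_eq_range), S q = {φ | ∃ k ∈ KK, φ = ρ q k - 1}. -/
theorem kills_iff (m : ℕ) (ρ : ℕ → (Ch →* Module.End ℂ V)) :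
    Kills m ρ ↔ pr m (fun q => Aug (ρ q)) = 0 := by
  rw [PA1_span, Submodule.zero_eq_bot, Submodule.span_eq_bot]
  constructor
  · rintro h φ ⟨k, hk, rfl⟩
    exact h k hk
  · intro h k hk
    exact h _ ⟨k, hk, rfl⟩
-- END PA1

-- MODULE PA2
/-- The square of the product. PROOF. The subspaces Aug (ρ q), Aug (ρ r) commute for q ≠ r < m (elementwise, span_induction twice; Submodule.mul_comm_of_commute or
Submodule.mul_le). pr_mul and Aug_mul_self, pr_congr. -/
theorem pr_Aug_sq (m : ℕ) (ρ : ℕ → (Ch →* Module.End ℂ V)) (hc : CF m ρ) :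
    pr m (fun q => Aug (ρ q)) * pr m (fun q => Aug (ρ q)) = pr m (fun q => Aug (ρ q)) := by
  rw [pr_mul]
  · exact pr_congr m _ _ fun q _ => Aug_mul_self (ρ q)
  · intro q r hq hr hqr
    apply Submodule.mul_comm_of_commute
    intro φ hφ ψ hψ
    unfold Aug at hφ hψ
    induction hφ using Submodule.span_induction with
    | mem φ h =>
      obtain ⟨k, -, rfl⟩ := h
      induction hψ using Submodule.span_induction with
      | mem ψ h =>
        obtain ⟨l, -, rfl⟩ := h
        exact ((hc q r hq hr hqr k l).sub_left (Commute.one_left _)).sub_right (Commute.one_right _)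
      | zero => exact Commute.zero_right _
      | add x y _ _ hx hy => exact hx.add_right hy
      | smul c x _ hx => exact hx.smul_right c
    | zero => exact Commute.zero_left _
    | add x y _ _ hx hy => exact hx.add_left hy
    | smul c x _ hx => exact hx.smul_left c
-- END PA2

-- MODULE PA3
private theorem PA3_res (m : ℕ) (ρ : ℕ → (Ch →* Module.End ℂ V)) (W : Submodule ℂ V)
    (hW : ∀ q x, ∀ w ∈ W, ρ q x w ∈ W) (k : ℕ → Ch) (w : W) :
    ((pr m (fun q => resR (ρ q) W (hW q) (k q) - 1) w : W) : V) =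
      pr m (fun q => ρ q (k q) - 1) (w : V) := by
  induction m generalizing w with
  | zero => rfl
  | succ m ih =>
    rw [pr_succ, pr_succ, Module.End.mul_apply, Module.End.mul_apply, ih]
    rfl

private theorem PA3_quo (m : ℕ) (ρ : ℕ → (Ch →* Module.End ℂ V)) (W : Submodule ℂ V)
    (hW : ∀ q x, ∀ w ∈ W, ρ q x w ∈ W) (k : ℕ → Ch) (v : V) :
    pr m (fun q => quoR (ρ q) W (hW q) (k q) - 1) (W.mkQ v) =
      W.mkQ (pr m (fun q => ρ q (k q) - 1) v) := by
  induction m generalizing v with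
  | zero => rfl
  | succ m ih =>
    rw [pr_succ, pr_succ, Module.End.mul_apply, Module.End.mul_apply, ← ih]
    congr 1

/-- Extensions. If `W` is jointly stable and the products vanish on `W` and on `V ⧸ W` then they vanish on `V`.
PROOF. For k, k' as in Kills let φ = pr m (ρ q (k q) - 1), φ' = the same for k'. The analogous products for quoR are the maps induced by φ on V ⧸ W (induction on m), so
φ V ⊆ W; those for resR are the restrictions, so φ' W = 0: φ' * φ = 0. The set {pr m (ρ q (k q) - 1)} spans P = pr m Aug (see PA1; or use: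
P is spanned by such elements), so P * P = 0, P = P * P = 0 by PA2, Kills by PA1. -/
theorem kills_ext (m : ℕ) (ρ : ℕ → (Ch →* Module.End ℂ V)) (hc : CF m ρ) (W : Submodule ℂ V)
    (hW : ∀ q x, ∀ w ∈ W, ρ q x w ∈ W)
    (h1 : Kills m (fun q => resR (ρ q) W (hW q))) (h2 : Kills m (fun q => quoR (ρ q) W (hW q))) :
    Kills m ρ := by
  rw [kills_iff, ← pr_Aug_sq m ρ hc, PA1_span, Submodule.span_mul_span, Submodule.zero_eq_bot,
    Submodule.span_eq_bot]
  intro φ hφ
  rw [Set.mem_mul] at hφ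
  obtain ⟨_, ⟨k', hk', rfl⟩, _, ⟨k, hk, rfl⟩, rfl⟩ := hφ
  apply LinearMap.ext
  intro v
  have hv : pr m (fun q => ρ q (k q) - 1) v ∈ W := by
    have h3 := PA3_quo m ρ W hW k v
    have h4 : pr m (fun q => quoR (ρ q) W (hW q) (k q) - 1) = 0 := h2 k hk
    rw [h4, LinearMap.zero_apply] at h3
    rw [← Submodule.ker_mkQ W, LinearMap.mem_ker]
    exact h3.symm
  have h5 := PA3_res m ρ W hW k' ⟨_, hv⟩
  have h6 : pr m (fun q => resR (ρ q) W (hW q) (k' q) - 1) = 0 := h1 k' hk'
  rw [h6] at h5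
  rw [Module.End.mul_apply, LinearMap.zero_apply]
  exact h5.symm
-- END PA3

-- MODULE PA4
/-- The jointly irreducible case.
PROOF. V is nontrivial. Let S (W, hW, exists_irr) be irreducible for ρ m, σ = resR (ρ m) W hW. Case dim S ≤ 3: by lemD4 KK acts trivially on S. Let
U = {v | ∀ k ∈ KK, ρ m k v = v}: non-zero, stable under ρ m x (KK normal) and under ρ q x, q < m (commute), so U = V, so the last factor ρ m (k m) - 1 is 0 and the
product is 0. Case dim S ≥ 4: M := Eqv σ (ρ m), a module with ρ' q x f = (ρ q x) ∘ f for q < m (it is in Eqv since ρ q x commutes with ρ m y), ρ' q = 1 for q ≥ m. By hom_dim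
4 * dim M ≤ dim V < 4^(m+1), so ih gives Kills m ρ'. Let φ = pr m (ρ q (k q) - 1): φ (f s) = (pr m (ρ' q (k q) - 1) f) s = 0 for f ∈ M, s ∈ S (induction on m).
Let U = {v | φ v = 0 for all such k}... more precisely let U be the span of all f s (f ∈ M, s ∈ S): stable under everything (ρ m y (f s) = f (σ y s), ρ q x (f s) = (ρ' q x f) s),
non-zero (the inclusion S → V is in M), so U = V. So φ = 0 and pr (m+1) = φ * (ρ m (k m) - 1) = 0. -/
theorem kills_irr (m : ℕ)
    (ih : ∀ (M : Type u) [AddCommGroup M] [Module ℂ M] [FiniteDimensional ℂ M]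
      (ρ' : ℕ → (Ch →* Module.End ℂ M)), Module.finrank ℂ M < 4 ^ m → CF m ρ' → Kills m ρ')
    [FiniteDimensional ℂ V] [Nontrivial V] (ρ : ℕ → (Ch →* Module.End ℂ V)) (hc : CF (m + 1) ρ)
    (hV : Module.finrank ℂ V < 4 ^ (m + 1))
    (hirr : ∀ W : Submodule ℂ V, (∀ q, q < m + 1 → ∀ x, ∀ w ∈ W, ρ q x w ∈ W) → W = ⊥ ∨ W = ⊤) :
    Kills (m + 1) ρ := by
  obtain ⟨W, hW, hI⟩ := exists_irr (ρ m)
  have hWn : W ≠ ⊥ := (Submodule.nontrivial_iff_ne_bot).1 hI.1
  intro k hk
  rw [pr_succ]
  by_cases h3 : Module.finrank ℂ W ≤ 3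
  · have h4 := lemD4 (resR (ρ m) W hW) hI h3
    let U : Submodule ℂ V :=
      { carrier := {v | ∀ l ∈ KK, ρ m l v = v}
        zero_mem' := fun l _ => map_zero _
        add_mem' := fun {a b} ha hb l hl => by rw [map_add, ha l hl, hb l hl]
        smul_mem' := fun c a ha l hl => by rw [map_smul, ha l hl] }
    have hst : ∀ q, q < m + 1 → ∀ x, ∀ v ∈ U, ρ q x v ∈ U := by
      intro q hq x v hv l hl
      by_cases hqm : q = m
      · subst hqm
        have h6 : l * x = x * (x⁻¹ * l * x) := by group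
        have h7 : x⁻¹ * l * x ∈ KK := by
          have := (inferInstance : KK.Normal).conj_mem l hl x⁻¹
          rwa [inv_inv] at this
        rw [← Module.End.mul_apply, ← map_mul, h6, map_mul, Module.End.mul_apply, hv _ h7]
      · have h6 := hc m q (by omega) hq (fun h => hqm h.symm) l x
        rw [← Module.End.mul_apply, h6.eq, Module.End.mul_apply, hv l hl]
    have hU : U = ⊤ := by
      rcases hirr U hst with h | h
      · exfalso
        apply hWn
        rw [eq_bot_iff, ← h]
        intro w hw l hl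
        have h5 := congrArg (fun z : Module.End ℂ W => ((z ⟨w, hw⟩ : W) : V)) (h4 l hl)
        exact h5
      · exact h
    have h8 : ρ m (k m) - 1 = 0 := by
      apply LinearMap.ext
      intro v
      have hv : v ∈ U := by rw [hU]; trivial
      rw [LinearMap.sub_apply, hv (k m) (hk m (by omega)), Module.End.one_apply, sub_self]
      rfl
    rw [h8, mul_zero]
  · -- the multiplicity space
    have hcm : ∀ q, q < m → ∀ x y v, ρ q x (ρ m y v) = ρ m y (ρ q x v) := by
      intro q hq x y v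
      rw [← Module.End.mul_apply, ← Module.End.mul_apply,
        (hc q m (by omega) (by omega) (by omega) x y).eq]
    let ρ' : ℕ → (Ch →* Module.End ℂ (Eqv (resR (ρ m) W hW) (ρ m))) := fun q =>
      if hq : q < m then
        { toFun := fun x =>
            { toFun := fun f => ⟨(ρ q x).comp f.1, fun y s => by
                rw [LinearMap.comp_apply, LinearMap.comp_apply, f.2 y s, hcm q hq]⟩
              map_add' := fun f f' => Subtype.ext (LinearMap.ext fun s => map_add (ρ q x) _ _)
              map_smul' := fun c f => Subtype.ext (LinearMap.ext fun s => map_smul (ρ q x) c _) }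
          map_one' := LinearMap.ext fun f => Subtype.ext (LinearMap.ext fun s => by
            change ρ q 1 (f.1 s) = f.1 s
            rw [map_one]
            rfl)
          map_mul' := fun x y => LinearMap.ext fun f => Subtype.ext (LinearMap.ext fun s => by
            change ρ q (x * y) (f.1 s) = ρ q x (ρ q y (f.1 s))
            rw [map_mul]
            rfl) }
      else 1
    have hρ' : ∀ q, q < m → ∀ x (f : Eqv (resR (ρ m) W hW) (ρ m)) s,
        (ρ' q x f).1 s = ρ q x (f.1 s) := by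
      intro q hq x f s
      simp only [ρ', dif_pos hq]
      rfl
    have hCF : CF m ρ' := by
      intro q r hq hr hqr x y
      apply LinearMap.ext
      intro f
      apply Subtype.ext
      apply LinearMap.ext
      intro s
      rw [Module.End.mul_apply, Module.End.mul_apply, hρ' q hq, hρ' r hr, hρ' r hr, hρ' q hq,
        ← Module.End.mul_apply, ← Module.End.mul_apply,
        (hc q r (by omega) (by omega) hqr x y).eq]
    have hdim := hom_dim (resR (ρ m) W hW) (ρ m) hI
    have hM : Module.finrank ℂ (Eqv (resR (ρ m) W hW) (ρ m)) < 4 ^ m := by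
      have h5 : 4 * Module.finrank ℂ (Eqv (resR (ρ m) W hW) (ρ m)) ≤
          Module.finrank ℂ W * Module.finrank ℂ (Eqv (resR (ρ m) W hW) (ρ m)) :=
        Nat.mul_le_mul_right _ (by omega)
      rw [pow_succ] at hV
      omega
    have hK := ih (Eqv (resR (ρ m) W hW) (ρ m)) ρ' hM hCF k fun q hq => hk q (by omega)
    have hpr : ∀ j, j ≤ m → ∀ (f : Eqv (resR (ρ m) W hW) (ρ m)) s,
        (pr j (fun q => ρ' q (k q) - 1) f).1 s = pr j (fun q => ρ q (k q) - 1) (f.1 s) := by
      intro j
      induction j with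
      | zero =>
        intro _ f s
        rfl
      | succ j ihj =>
        intro hj f s
        rw [pr_succ, pr_succ, Module.End.mul_apply, Module.End.mul_apply, ihj (by omega)]
        congr 1
        change (ρ' j (k j) f).1 s - f.1 s = ρ j (k j) (f.1 s) - f.1 s
        rw [hρ' j (by omega)]
    let U : Submodule ℂ V :=
      Submodule.span ℂ {v | ∃ (f : Eqv (resR (ρ m) W hW) (ρ m)) (s : W), v = f.1 s}
    have hst : ∀ q, q < m + 1 → ∀ x, ∀ v ∈ U, ρ q x v ∈ U := by
      intro q hq x v hv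
      induction hv using Submodule.span_induction with
      | mem v hv =>
        obtain ⟨f, s, rfl⟩ := hv
        by_cases hqm : q = m
        · subst hqm
          rw [← f.2 x s]
          exact Submodule.subset_span ⟨f, _, rfl⟩
        · rw [← hρ' q (by omega) x f s]
          exact Submodule.subset_span ⟨_, s, rfl⟩
      | zero => rw [map_zero]; exact U.zero_mem
      | add a b _ _ ha hb => rw [map_add]; exact U.add_mem ha hb
      | smul c a _ ha => rw [map_smul]; exact U.smul_mem c ha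
    have hU : U = ⊤ := by
      rcases hirr U hst with h | h
      · exfalso
        apply hWn
        rw [eq_bot_iff, ← h]
        intro w hw
        exact Submodule.subset_span ⟨⟨W.subtype, fun x s => rfl⟩, ⟨w, hw⟩, rfl⟩
      · exact h
    have h9 : pr m (fun q => ρ q (k q) - 1) = 0 := by
      apply LinearMap.ext
      intro v
      have hv : v ∈ U := by rw [hU]; trivial
      induction hv using Submodule.span_induction with
      | mem v hv =>
        obtain ⟨f, s, rfl⟩ := hv
        rw [← hpr m le_rfl f s, hK]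
        rfl
      | zero => rw [map_zero, map_zero]
      | add a b _ _ ha hb => rw [map_add, map_add, ha, hb]
      | smul c a _ ha => rw [map_smul, map_smul, ha]
    rw [h9, zero_mul]
-- END PA4

-- MODULE PA5
private theorem PA5_aux (m : ℕ)
    (ih : ∀ (M : Type u) [AddCommGroup M] [Module ℂ M] [FiniteDimensional ℂ M]
      (ρ' : ℕ → (Ch →* Module.End ℂ M)), Module.finrank ℂ M < 4 ^ m → CF m ρ' → Kills m ρ')
    (d : ℕ) : ∀ (V : Type u) [AddCommGroup V] [Module ℂ V] [FiniteDimensional ℂ V]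
    (ρ : ℕ → (Ch →* Module.End ℂ V)), Module.finrank ℂ V ≤ d → Module.finrank ℂ V < 4 ^ (m + 1) →
    CF (m + 1) ρ → Kills (m + 1) ρ := by
  induction d with
  | zero =>
    intro V _ _ _ ρ hd hV hc k hk
    have hs : Subsingleton V := Module.finrank_zero_iff.1 (Nat.le_zero.1 hd)
    exact Subsingleton.elim _ _
  | succ d ihd =>
    intro V _ _ _ ρ hd hV hc
    rcases subsingleton_or_nontrivial V with hs | hn
    · intro k hk
      exact Subsingleton.elim _ _
    by_cases hirr : ∀ W : Submodule ℂ V, (∀ q, q < m + 1 → ∀ x, ∀ w ∈ W, ρ q x w ∈ W) →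
        W = ⊥ ∨ W = ⊤
    · exact kills_irr m ih ρ hc hV hirr
    · push Not at hirr
      obtain ⟨W, hW, hW0, hW1⟩ := hirr
      let ρ₁ : ℕ → (Ch →* Module.End ℂ V) := fun q => if q < m + 1 then ρ q else 1
      have hρ₁ : ∀ q, q < m + 1 → ρ₁ q = ρ q := fun q hq => if_pos hq
      have hW' : ∀ q x, ∀ w ∈ W, ρ₁ q x w ∈ W := by
        intro q x w hw
        by_cases hq : q < m + 1
        · rw [hρ₁ q hq]
          exact hW q hq x w hw
        · have h1 : ρ₁ q = 1 := if_neg hq
          rw [h1]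
          exact hw
      have hc' : CF (m + 1) ρ₁ := by
        intro q r hq hr hqr x y
        rw [hρ₁ q hq, hρ₁ r hr]
        exact hc q r hq hr hqr x y
      have hlt : Module.finrank ℂ W < Module.finrank ℂ V := Submodule.finrank_lt hW1
      have hlt2 : Module.finrank ℂ (V ⧸ W) < Module.finrank ℂ V := by
        have h1 := Submodule.finrank_quotient_add_finrank W
        have h2 : 0 < Module.finrank ℂ W := by
          rw [Nat.pos_iff_ne_zero]
          intro h3
          exact hW0 (Submodule.finrank_eq_zero.1 h3)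
        omega
      have hK : Kills (m + 1) ρ₁ := by
        refine kills_ext (m + 1) ρ₁ hc' W hW' (ihd W _ (by omega) (by omega) ?_)
          (ihd (V ⧸ W) _ (by omega) (by omega) ?_)
        · intro q r hq hr hqr x y
          apply LinearMap.ext
          intro w
          apply Subtype.ext
          have h1 := congrArg (fun z : Module.End ℂ V => z (w : V)) (hc' q r hq hr hqr x y).eq
          exact h1
        · intro q r hq hr hqr x y
          apply LinearMap.ext
          intro w
          obtain ⟨v, rfl⟩ := W.mkQ_surjective w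
          have h1 := congrArg (fun z : Module.End ℂ V => W.mkQ (z v)) (hc' q r hq hr hqr x y).eq
          exact h1
      intro k hk
      rw [← hK k hk]
      exact pr_congr _ _ _ fun q hq => by rw [hρ₁ q hq]

/-- LEMMA P. PROOF. We may replace ρ q by the trivial representation for q ≥ m (Kills m and CF m only see q < m). Induction on m (for all V), then strong induction on the dimension.
m = 0: dim V < 1, V is trivial, everything is 0 (Module.finrank_zero_iff). m + 1: if V is trivial clear; if there is a jointly stable W ≠ ⊥, ⊤: PA3 with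
dim W, dim V ⧸ W < dim V; otherwise PA4. (For the induction state it as ∀ m, ∀ d, ∀ V with finrank = d ...; use Kills of functions ρ with ρ q = 1 for q ≥ m, so that
hW of PA3 holds for all q.) -/
theorem lemP (m : ℕ) (V : Type u) [AddCommGroup V] [Module ℂ V] [FiniteDimensional ℂ V]
    (ρ : ℕ → (Ch →* Module.End ℂ V)) (hV : Module.finrank ℂ V < 4 ^ m) (hc : CF m ρ) :
    Kills m ρ := by
  induction m generalizing V with
  | zero =>
    intro k hk
    have hs : Subsingleton V := by
      rw [pow_zero, Nat.lt_one_iff] at hV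
      exact Module.finrank_zero_iff.1 hV
    exact Subsingleton.elim _ _
  | succ m ih =>
    exact PA5_aux m (fun M _ _ _ ρ' h1 h2 => ih M ρ' h1 h2) _ V ρ le_rfl hV hc
-- END PA5

end reps

end Pool.Agent.HG13
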