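import Pool.Agent.HG13.Defs
import Pool.Agent.HG13.Sys

set_option linter.all false

namespace Pool.Agent.HG13

variable {g n : ℕ}

/-- The lantern twist, in `Aut F`. -/
def LP (s t u w : ℕ) : MulAut (Fr g n) :=
  (TP t w)⁻¹ * (TP s u)⁻¹ * TP s w * TP s t * TP t u * TP u w

theorem TP_apply (s t : ℕ) (x : Fr g n) : TP s t x = cj (ind s t (Alp s t)) x := rfl

theorem Bt_apply (i : ℕ) (x : Fr g n) : Bt i x = bt i (-1) x := rfl

/-- Two automorphisms are equal if they agree on the letters. -/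
theorem aut_ext (φ ψ : MulAut (Fr g n)) (h : ∀ c, c < 2 * g + n → φ (gen c) = ψ (gen c)) :
    φ = ψ := by
  apply MulEquiv.toMonoidHom_injective
  apply FreeGroup.ext_hom
  intro c
  have := h c c.2
  rw [gen_lt c.2] at this
  exact this

theorem Bt_x (i : ℕ) (hi : i < g) :
    Bt i (gen (2 * i) : Fr g n) = gen (2 * i) * (gen (2 * i + 1))⁻¹ := by
  rw [Bt_apply, bt_gen i _ hi]; simp

theorem Bt_ne (i c : ℕ) (h : c ≠ 2 * i) : Bt i (gen c : Fr g n) = gen c := bt_gen_ne i _ c h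

/-- `x_i` is the foot loop of `2i`. -/
theorem alp_even (c : ℕ) (h : ¬ (c < 2 * g ∧ c % 2 = 1)) : (alp c : Fr g n) = gen c := by
  unfold alp; rw [if_neg h]

theorem alp_odd (i : ℕ) (hi : i < g) :
    (alp (2 * i + 1) : Fr g n) = (gen (2 * i + 1))⁻¹ * (gen (2 * i))⁻¹ * gen (2 * i + 1) := by
  unfold alp; rw [if_pos (by omega)]; rfl

theorem Alp_self (s : ℕ) : (Alp s s : Fr g n) = 1 := by simp [Alp]

theorem Alp_one (s : ℕ) : (Alp s (s + 1) : Fr g n) = alp s := by simp [Alp, List.range'_succ]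

theorem Alp_cons (s t : ℕ) (h : s < t) : (Alp s t : Fr g n) = alp s * Alp (s + 1) t := by
  unfold Alp
  obtain ⟨d, rfl⟩ := Nat.exists_eq_add_of_lt h
  rw [show s + d + 1 - s = d + 1 by omega, show s + d + 1 - (s + 1) = d by omega]
  simp [List.range'_succ]

theorem Alp_snoc (s t : ℕ) (h : s ≤ t) : (Alp s (t + 1) : Fr g n) = Alp s t * alp t := by
  unfold Alp
  obtain ⟨d, rfl⟩ := Nat.exists_eq_add_of_le h
  rw [show s + d + 1 - s = d + 1 by omega, show s + d - s = d by omega, List.range'_1_concat]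
  simp

theorem Alp_split (s u t : ℕ) (h1 : s ≤ u) (h2 : u ≤ t) :
    (Alp s t : Fr g n) = Alp s u * Alp u t := by
  obtain ⟨d, rfl⟩ := Nat.exists_eq_add_of_le h2
  induction d with
  | zero => simp [Alp_self]
  | succ d ih => rw [← add_assoc, Alp_snoc _ _ (by omega), ih (by omega), Alp_snoc _ _ (by omega),
      mul_assoc]

-- MODULE CA1
private theorem CA1_out (s t s' t' : ℕ) (h : t' ≤ s ∨ t ≤ s') :
    TP s t (Alp s' t' : Fr g n) = Alp s' t' := by
  rw [TP_apply, cj_Alp_in _ s' t' 1]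
  · simp
  · intro c h1 h2
    unfold ind
    rw [if_neg (by omega)]

private theorem CA1_in (s t s' t' : ℕ) (h : s ≤ s' ∧ t' ≤ t) :
    TP s t (Alp s' t' : Fr g n) = Alp s t * Alp s' t' * (Alp s t)⁻¹ := by
  rw [TP_apply, cj_Alp_in _ s' t' (Alp s t)]
  intro c h1 h2
  unfold ind
  rw [if_pos (by omega)]

private theorem CA1_self (s t : ℕ) : TP s t (Alp s t : Fr g n) = Alp s t := by
  rw [CA1_in s t s t ⟨le_rfl, le_rfl⟩]
  group

/-- Conjugators on products of foot loops: if u = d on [s,t) then cj u (Alp s t) = d Alp s t d⁻¹ (this is cj_Alp_in); if u = 1 on [s,t) it is fixed; and the twist TP s t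
fixes Alp s' t' for [s,t) ⊆ [s',t'), for disjoint intervals, and conjugates it by Alp s t for [s',t') ⊆ [s,t).
PROOF. cj_Alp_in with d = 1; Alp_split: Alp s' t' = Alp s' s * Alp s t * Alp t t'. -/
theorem TP_Alp (s t s' t' : ℕ) (hs : s < t) (hs' : s' < t') :
    (((t' ≤ s ∨ t ≤ s') ∨ (s' ≤ s ∧ t ≤ t')) → TP s t (Alp s' t' : Fr g n) = Alp s' t') ∧
    ((s ≤ s' ∧ t' ≤ t) → TP s t (Alp s' t' : Fr g n) = Alp s t * Alp s' t' * (Alp s t)⁻¹) := by
  refine ⟨?_, CA1_in s t s' t'⟩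
  rintro (h | ⟨h1, h2⟩)
  · exact CA1_out s t s' t' h
  · rw [Alp_split s' s t' h1 (by omega), Alp_split s t t' hs.le h2, map_mul, map_mul,
      CA1_out s t s' s (Or.inl le_rfl), CA1_out s t t t' (Or.inr le_rfl), CA1_self]
-- END CA1

-- MODULE CA2
/-- Bt i on foot loops: al c is fixed unless c = 2i, 2i+1; Bt i (alp (2i)) = alp (2i) * y⁻¹, Bt i (alp (2i+1)) = y * alp (2i+1), y = gen (2i+1).
PROOF. Bt_x, Bt_ne, alp_odd: y⁻¹ (x y⁻¹)⁻¹ y = x⁻¹ y = y (y⁻¹ x⁻¹ y). -/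
theorem Bt_alp (i : ℕ) (hi : i < g) :
    (∀ c, c ≠ 2 * i → c ≠ 2 * i + 1 → Bt i (alp c : Fr g n) = alp c) ∧
    Bt i (alp (2 * i) : Fr g n) = alp (2 * i) * (gen (2 * i + 1))⁻¹ ∧
    Bt i (alp (2 * i + 1) : Fr g n) = gen (2 * i + 1) * alp (2 * i + 1) := by
  refine ⟨?_, ?_, ?_⟩
  · intro c h1 h2
    unfold alp
    by_cases h : c < 2 * g ∧ c % 2 = 1
    · rw [if_pos h, map_mul, map_mul, map_inv, map_inv, Bt_ne i c h1, Bt_ne i (c - 1) (by omega)]
    · rw [if_neg h, Bt_ne i c h1]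
  · rw [alp_even (2 * i) (by omega), Bt_x i hi]
  · rw [alp_odd i hi, map_mul, map_mul, map_inv, map_inv, Bt_x i hi, Bt_ne i (2 * i + 1) (by omega)]
    group
-- END CA2

-- MODULE CA3
private theorem CA3_fix (φ : MulAut (Fr g n)) (s t : ℕ)
    (h : ∀ c, s ≤ c → c < t → φ (alp c) = alp c) : φ (Alp s t) = Alp s t := by
  unfold Alp
  have key : ∀ l : List ℕ, (∀ c ∈ l, φ (alp c) = alp c) →
      φ ((l.map alp).prod) = (l.map alp).prod := by
    intro l
    induction l with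
    | nil => intro _; simp
    | cons a l ih =>
      intro hl
      simp only [List.map_cons, List.prod_cons, map_mul]
      rw [ih (fun c hc => hl c (by simp [hc])), hl a (by simp)]
  apply key
  intro c hc
  rw [List.mem_range'_1] at hc
  exact h c hc.1 (by omega)

/-- Bt i on interval loops: fixed if both feet of i are inside or both outside; Alp s t * y⁻¹ if t = 2i+1 (s < t); y * Alp s t if s = 2i+1 (s < t).
PROOF. CA2 and Alp_split / Alp_snoc / Alp_cons; both inside: alp (2i) alp (2i+1) ↦ alp (2i) y⁻¹ y alp (2i+1). -/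
theorem Bt_Alp (i : ℕ) (hi : i < g) (s t : ℕ) (hs : s < t) :
    ((2 * i + 2 ≤ s ∨ t ≤ 2 * i ∨ (s ≤ 2 * i ∧ 2 * i + 2 ≤ t)) →
      Bt i (Alp s t : Fr g n) = Alp s t) ∧
    (t = 2 * i + 1 → Bt i (Alp s t : Fr g n) = Alp s t * (gen (2 * i + 1))⁻¹) ∧
    (s = 2 * i + 1 → Bt i (Alp s t : Fr g n) = gen (2 * i + 1) * Alp s t) := by
  obtain ⟨b1, b2, b3⟩ := Bt_alp (n := n) i hi
  refine ⟨?_, ?_, ?_⟩
  · rintro (h | h | ⟨h1, h2⟩)
    · exact CA3_fix _ s t fun c hc1 hc2 => b1 c (by omega) (by omega)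
    · exact CA3_fix _ s t fun c hc1 hc2 => b1 c (by omega) (by omega)
    · have e1 : Bt i (Alp s (2 * i) : Fr g n) = Alp s (2 * i) :=
        CA3_fix _ _ _ fun c hc1 hc2 => b1 c (by omega) (by omega)
      have e2 : Bt i (Alp (2 * i + 1 + 1) t : Fr g n) = Alp (2 * i + 1 + 1) t :=
        CA3_fix _ _ _ fun c hc1 hc2 => b1 c (by omega) (by omega)
      rw [Alp_split s (2 * i) t h1 (by omega), Alp_cons (2 * i) t (by omega),
        Alp_cons (2 * i + 1) t (by omega), map_mul, map_mul, map_mul, e1, e2, b2, b3]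
      group
  · rintro rfl
    have e1 : Bt i (Alp s (2 * i) : Fr g n) = Alp s (2 * i) :=
      CA3_fix _ _ _ fun c hc1 hc2 => b1 c (by omega) (by omega)
    rw [Alp_snoc s (2 * i) (by omega), map_mul, e1, b2, mul_assoc]
  · rintro rfl
    have e2 : Bt i (Alp (2 * i + 1 + 1) t : Fr g n) = Alp (2 * i + 1 + 1) t :=
      CA3_fix _ _ _ fun c hc1 hc2 => b1 c (by omega) (by omega)
    rw [Alp_cons (2 * i + 1) t hs, map_mul, e2, b3, mul_assoc]
-- END CA3

-- MODULE CB1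
/-- Disjoint or nested interval twists commute. PROOF. TP s t (TP s' t' w) = cj (c ↦ cj u (v c) * u c) w (cj_cj) with u = ind s t A, v = ind s' t' A', and symmetrically; cj_congr: compare for each c.
Disjoint: cj u (v c) = v c (CA1; v c is A' or 1). Nested [s',t') ⊆ [s,t): c ∈ [s',t'): A A' A⁻¹ A = A A' and (TP s' t' A) * A' = A A'; c ∈ [s,t) only: A and TP s' t' A = A; otherwise 1. -/
theorem TP_comm (s t s' t' : ℕ) (h1 : s < t) (h2 : t ≤ 2 * g + n) (h3 : s' < t')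
    (h4 : t' ≤ 2 * g + n) (h : t ≤ s' ∨ (s ≤ s' ∧ t' ≤ t)) :
    Commute (TP s t : MulAut (Fr g n)) (TP s' t') := by
  have hA : TP s' t' (Alp s t : Fr g n) = Alp s t := by
    apply (TP_Alp s' t' s t h3 h1).1
    rcases h with h | h
    · exact Or.inl (Or.inl h)
    · exact Or.inr h
  have key : ∀ w : Fr g n, TP s t (TP s' t' w) = TP s' t' (TP s t w) := by
    intro w
    rw [TP_apply, TP_apply, TP_apply s' t', TP_apply s t, cj_cj, cj_cj]
    apply cj_congr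
    intro c _
    rw [TP_apply] at hA
    by_cases hc : s ≤ c ∧ c < t
    · by_cases hc' : s' ≤ c ∧ c < t'
      · have hn : s ≤ s' ∧ t' ≤ t := by
          rcases h with h | h
          · omega
          · exact h
        have e1 := (TP_Alp (g := g) (n := n) s t s' t' h1 h3).2 hn
        rw [TP_apply] at e1
        have u1 : ind s t (Alp s t : Fr g n) c = Alp s t := if_pos hc
        have u2 : ind s' t' (Alp s' t' : Fr g n) c = Alp s' t' := if_pos hc'
        rw [u1, u2, e1, hA]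
        group
      · have u1 : ind s t (Alp s t : Fr g n) c = Alp s t := if_pos hc
        have u2 : ind s' t' (Alp s' t' : Fr g n) c = 1 := if_neg hc'
        rw [u1, u2, hA, map_one, one_mul, mul_one]
    · by_cases hc' : s' ≤ c ∧ c < t'
      · have hd : t ≤ s' := by
          rcases h with h | h
          · exact h
          · omega
        have e1 := (TP_Alp (g := g) (n := n) s t s' t' h1 h3).1 (Or.inl (Or.inr hd))
        rw [TP_apply] at e1
        have u1 : ind s t (Alp s t : Fr g n) c = 1 := if_neg hc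
        have u2 : ind s' t' (Alp s' t' : Fr g n) c = Alp s' t' := if_pos hc'
        rw [u1, u2, e1, map_one, one_mul, mul_one]
      · have u1 : ind s t (Alp s t : Fr g n) c = 1 := if_neg hc
        have u2 : ind s' t' (Alp s' t' : Fr g n) c = 1 := if_neg hc'
        rw [u1, u2, map_one, map_one]
  exact MulEquiv.ext key
-- END CB1

-- MODULE CB2
/-- PROOF. aut_ext on letters gen c: TP s t (gen c) = u_(..) gen c u⁻¹ (cj_gen, cj_gen_odd), Bt i fixes A = Alp s t (CA3) and A = Bt i A. Letters other than 2i: Bt i (TP (gen c)) = TP (gen c) =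
TP (Bt (gen c)), provided that TP (gen c) is a product of A's and gen c, c ≠ 2i (yes). Letter 2i: both feet have the same u ∈ {1, A}: TP x = u x u⁻¹, TP y = u y u⁻¹; both sides u x y⁻¹ u⁻¹. -/
theorem TP_Bt_comm (s t i : ℕ) (h1 : s < t) (h2 : t ≤ 2 * g + n) (hi : i < g)
    (h : 2 * i + 2 ≤ s ∨ t ≤ 2 * i ∨ (s ≤ 2 * i ∧ 2 * i + 2 ≤ t)) :
    Commute (TP s t : MulAut (Fr g n)) (Bt i) := by
  have hA : Bt i (Alp s t : Fr g n) = Alp s t := (Bt_Alp i hi s t h1).1 h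
  have hu : ∀ c, Bt i (ind s t (Alp s t : Fr g n) c) = ind s t (Alp s t) c := by
    intro c
    unfold ind
    by_cases hc : s ≤ c ∧ c < t
    · rw [if_pos hc, hA]
    · rw [if_neg hc, map_one]
  apply aut_ext
  intro c hc
  show TP s t (Bt i (gen c)) = Bt i (TP s t (gen c))
  by_cases h2i : c = 2 * i
  · subst h2i
    have hodd : (2 * i + 1) < 2 * g := by omega
    have e1 : TP s t (gen (2 * i) : Fr g n) = ind s t (Alp s t) (2 * i) * gen (2 * i) *
        (ind s t (Alp s t) (2 * i))⁻¹ := by rw [TP_apply, cj_gen _ (by omega)]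
    have e2 : TP s t (gen (2 * i + 1) : Fr g n) = ind s t (Alp s t) (2 * i) * gen (2 * i + 1) *
        (ind s t (Alp s t) (2 * i + 1))⁻¹ := by
      rw [TP_apply, cj_gen_odd _ hodd (by omega)]
      rfl
    have e3 : ind s t (Alp s t : Fr g n) (2 * i + 1) = ind s t (Alp s t) (2 * i) := by
      unfold ind
      by_cases hc' : s ≤ 2 * i ∧ 2 * i < t
      · rw [if_pos hc', if_pos (by omega)]
      · rw [if_neg hc', if_neg (by omega)]
    rw [Bt_x i hi, map_mul, map_inv, e1, e2, e3, map_mul, map_mul, map_inv, hu, Bt_x i hi]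
    group
  · rw [Bt_ne i c h2i, TP_apply]
    by_cases hodd : c < 2 * g ∧ c % 2 = 1
    · rw [cj_gen_odd _ hodd.1 hodd.2, map_mul, map_mul, map_inv, hu, hu, Bt_ne i c h2i]
    · rw [cj_gen _ hodd, map_mul, map_mul, map_inv, hu, Bt_ne i c h2i]
-- END CB2

-- MODULE CB3
/-- PROOF. aut_ext, Bt_x, Bt_ne. -/
theorem Bt_comm (i j : ℕ) (hi : i < g) (hj : j < g) :
    Commute (Bt i : MulAut (Fr g n)) (Bt j) := by
  apply aut_ext
  intro c _
  show Bt i (Bt j (gen c)) = Bt j (Bt i (gen c))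
  by_cases h1 : c = 2 * i
  · by_cases h2 : c = 2 * j
    · have : i = j := by omega
      subst this
      rfl
    · rw [Bt_ne j c h2]
      subst h1
      rw [Bt_x i hi, map_mul, map_inv, Bt_ne j _ h2, Bt_ne j _ (by omega)]
  · rw [Bt_ne i c h1]
    by_cases h2 : c = 2 * j
    · subst h2
      rw [Bt_x j hj, map_mul, map_inv, Bt_ne i _ h1, Bt_ne i _ (by omega)]
    · rw [Bt_ne j c h2, Bt_ne i c h1]
-- END CB3

-- MODULE CB4
/-- PROOF. Both send y_i to x_i y_i and fix all other letters (Alp_one, alp_even, alp_odd: y (y⁻¹ x⁻¹ y)⁻¹ = x y; conjugation of x by x is trivial). -/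
theorem TP_a (i : ℕ) (hi : i < g) :
    (TP (2 * i) (2 * i + 1) : MulAut (Fr g n)) = TP (2 * i + 1) (2 * i + 2) := by
  apply aut_ext
  intro c hc
  have hA1 : (Alp (2 * i) (2 * i + 1) : Fr g n) = gen (2 * i) := by
    rw [Alp_one, alp_even _ (by omega)]
  have hA2 : (Alp (2 * i + 1) (2 * i + 2) : Fr g n) =
      (gen (2 * i + 1))⁻¹ * (gen (2 * i))⁻¹ * gen (2 * i + 1) := by
    rw [Alp_one, alp_odd i hi]
  rw [TP_apply, TP_apply, hA1, hA2]
  have u0 : ∀ (s t : ℕ) (w : Fr g n) (c : ℕ), ¬ (s ≤ c ∧ c < t) → ind s t w c = 1 :=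
    fun s t w c h => if_neg h
  have u1 : ∀ (s t : ℕ) (w : Fr g n) (c : ℕ), (s ≤ c ∧ c < t) → ind s t w c = w :=
    fun s t w c h => if_pos h
  by_cases h1 : c = 2 * i
  · subst h1
    rw [cj_gen _ (by omega), cj_gen _ (by omega), u1 _ _ _ _ (by omega), u0 _ _ _ _ (by omega)]
    group
  · by_cases h2 : c = 2 * i + 1
    · subst h2
      have h3 : (2 * i + 1) - 1 = 2 * i := by omega
      rw [cj_gen_odd _ (by omega) (by omega), cj_gen_odd _ (by omega) (by omega), h3,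
        u1 (2 * i) (2 * i + 1) _ (2 * i) (by omega), u0 (2 * i) (2 * i + 1) _ (2 * i + 1) (by omega),
        u0 (2 * i + 1) (2 * i + 2) _ (2 * i) (by omega),
        u1 (2 * i + 1) (2 * i + 2) _ (2 * i + 1) (by omega)]
      group
    · by_cases hodd : c < 2 * g ∧ c % 2 = 1
      · rw [cj_gen_odd _ hodd.1 hodd.2, cj_gen_odd _ hodd.1 hodd.2, u0 _ _ _ _ (by omega),
          u0 _ _ _ _ (by omega), u0 _ _ _ _ (by omega), u0 _ _ _ _ (by omega)]
      · rw [cj_gen _ hodd, cj_gen _ hodd, u0 _ _ _ _ (by omega), u0 _ _ _ _ (by omega)]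
-- END CB4

-- MODULE CB5
private theorem CB5_other (w : MulAut (Fr g n)) (u : ℕ → Fr g n) (hw : ∀ x, w x = cj u x) (i : ℕ)
    (hi : i < g)
    (hu : ∀ c, c < 2 * g + n → c ≠ 2 * i → c ≠ 2 * i + 1 → w (Bt i (u c)) * u c = Bt i (u c))
    (c : ℕ) (hc : c < 2 * g + n) (h2i : c ≠ 2 * i) (h2i1 : c ≠ 2 * i + 1) :
    w (Bt i (w (gen c))) = Bt i (w (Bt i (gen c))) := by
  rw [Bt_ne i c h2i]
  by_cases hodd : c < 2 * g ∧ c % 2 = 1
  · have e1 : w (gen c) = u (c - 1) * gen c * (u c)⁻¹ := by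
      rw [hw, cj_gen_odd u hodd.1 hodd.2]
    rw [e1]
    simp only [map_mul, map_inv, Bt_ne i c h2i]
    rw [e1]
    have k1 := hu (c - 1) (by omega) (by omega) (by omega)
    have k2 := hu c hc h2i h2i1
    calc w (Bt i (u (c - 1))) * (u (c - 1) * gen c * (u c)⁻¹) * (w (Bt i (u c)))⁻¹ =
        (w (Bt i (u (c - 1))) * u (c - 1)) * gen c * (w (Bt i (u c)) * u c)⁻¹ := by group
      _ = _ := by rw [k1, k2]
  · have e1 : w (gen c) = u c * gen c * (u c)⁻¹ := by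
      rw [hw, cj_gen u hodd]
    rw [e1]
    simp only [map_mul, map_inv, Bt_ne i c h2i]
    rw [e1]
    have k2 := hu c hc h2i h2i1
    calc w (Bt i (u c)) * (u c * gen c * (u c)⁻¹) * (w (Bt i (u c)))⁻¹ =
        (w (Bt i (u c)) * u c) * gen c * (w (Bt i (u c)) * u c)⁻¹ := by group
      _ = _ := by rw [k2]

/-- Criterion for the braid relation, end type. PROOF. aut_ext: letter x = gen (2i): both sides are d y⁻¹ x d⁻¹ d⁻¹; y = gen (2i+1): both sides are d: w y = d y, w x = d x d⁻¹, w d = d, b d = d y⁻¹, b x = x y⁻¹, b y = y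
(b = Bt i). Details: b w b y = b (d y) = d y⁻¹ y = d, w b w y = w (b (d y)) = w d = d. b w b x = b w (x y⁻¹) = b (d x d⁻¹ y⁻¹ d⁻¹) = (d y⁻¹)(x y⁻¹)(y d⁻¹) y⁻¹ (y d⁻¹) = d y⁻¹ x d⁻¹ d⁻¹;
w b w x = w (b (d x d⁻¹)) = w (d y⁻¹ x y⁻¹ y d⁻¹) = d (d y)⁻¹ (d x d⁻¹) d⁻¹ = the same. Other letters c (with their one or two feet f): w (gen c) = u_f gen c u_f'⁻¹; b fixes gen c, so b w b (gen c) = b(u_f) gen c
b(u_f')⁻¹ and w b w (gen c) = w (b u_f) u_f gen c u_f'⁻¹ w (b u_f')⁻¹, equal by hu. -/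
theorem braid_end (w : MulAut (Fr g n)) (u : ℕ → Fr g n) (hw : ∀ x, w x = cj u x) (i : ℕ)
    (hi : i < g) (d : Fr g n) (h0 : u (2 * i) = d) (h1 : u (2 * i + 1) = 1) (hd : w d = d)
    (hb : Bt i d = d * (gen (2 * i + 1))⁻¹)
    (hu : ∀ c, c < 2 * g + n → c ≠ 2 * i → c ≠ 2 * i + 1 → w (Bt i (u c)) * u c = Bt i (u c)) :
    Brd w (Bt i) := by
  have hx : w (gen (2 * i)) = d * gen (2 * i) * d⁻¹ := by rw [hw, cj_gen u (by omega), h0]
  have hy : w (gen (2 * i + 1)) = d * gen (2 * i + 1) := by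
    rw [hw, cj_gen_odd u (by omega) (by omega), show 2 * i + 1 - 1 = 2 * i by omega, h0, h1]
    group
  have hbx := Bt_x (n := n) i hi
  have hby : Bt i (gen (2 * i + 1) : Fr g n) = gen (2 * i + 1) := Bt_ne i _ (by omega)
  unfold Brd
  apply aut_ext
  intro c hc
  show w (Bt i (w (gen c))) = Bt i (w (Bt i (gen c)))
  by_cases h2i : c = 2 * i
  · subst h2i
    rw [hx, hbx]
    simp only [map_mul, map_inv, hbx, hb, hby, hx, hy, hd]
    group
  · by_cases h2i1 : c = 2 * i + 1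
    · subst h2i1
      rw [hy, hby]
      simp only [map_mul, map_inv, hbx, hb, hby, hx, hy, hd]
      group
    · exact CB5_other w u hw i hi hu c hc h2i h2i1
-- END CB5

-- MODULE CB6
/-- Criterion, start type. PROOF. w y = y d⁻¹, w x = x, b d = y d. Letter y: b w b y = b (y d⁻¹) = y d⁻¹ y⁻¹; w b w y = w (y d⁻¹ y⁻¹) = y d⁻¹ d⁻¹ d y⁻¹ = y d⁻¹ y⁻¹. Letter x: b w b x = b w (x y⁻¹) = b (x d y⁻¹) = x y⁻¹ y d y⁻¹ = x d y⁻¹;
w b w x = w (x y⁻¹) = x d y⁻¹. Other letters as in braid_end. -/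
theorem braid_start (w : MulAut (Fr g n)) (u : ℕ → Fr g n) (hw : ∀ x, w x = cj u x) (i : ℕ)
    (hi : i < g) (d : Fr g n) (h0 : u (2 * i) = 1) (h1 : u (2 * i + 1) = d) (hd : w d = d)
    (hb : Bt i d = gen (2 * i + 1) * d)
    (hu : ∀ c, c < 2 * g + n → c ≠ 2 * i → c ≠ 2 * i + 1 → w (Bt i (u c)) * u c = Bt i (u c)) :
    Brd w (Bt i) := by
  have hx : w (gen (2 * i)) = gen (2 * i) := by
    rw [hw, cj_gen u (by omega), h0]
    group
  have hy : w (gen (2 * i + 1)) = gen (2 * i + 1) * d⁻¹ := by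
    rw [hw, cj_gen_odd u (by omega) (by omega), show 2 * i + 1 - 1 = 2 * i by omega, h0, h1]
    group
  have hbx := Bt_x (n := n) i hi
  have hby : Bt i (gen (2 * i + 1) : Fr g n) = gen (2 * i + 1) := Bt_ne i _ (by omega)
  unfold Brd
  apply aut_ext
  intro c hc
  show w (Bt i (w (gen c))) = Bt i (w (Bt i (gen c)))
  by_cases h2i : c = 2 * i
  · subst h2i
    rw [hx, hbx]
    simp only [map_mul, map_inv, hbx, hb, hby, hx, hy, hd]
    group
  · by_cases h2i1 : c = 2 * i + 1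
    · subst h2i1
      rw [hy, hby]
      simp only [map_mul, map_inv, hbx, hb, hby, hx, hy, hd]
      group
    · exact CB5_other w u hw i hi hu c hc h2i h2i1
-- END CB6

-- MODULE CB7
/-- PROOF. braid_start with w = TP (2i+1) t, u = ind (2i+1) t d, d = Alp (2i+1) t: w d = d (CA1 or cj_ind_Alp), Bt i d = y d (CA3); for u c = d: w (y d) d = y d⁻¹ d d = y d; for u c = 1 trivial.
The second part: braid_end with w = TP s (2i+1), d = Alp s (2i+1): w (d y⁻¹) d = d (d y)⁻¹ d = d y⁻¹. -/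
theorem TP_Bt_braid (i : ℕ) (hi : i < g) :
    (∀ t, 2 * i + 1 < t → t ≤ 2 * g + n → Brd (TP (2 * i + 1) t : MulAut (Fr g n)) (Bt i)) ∧
    (∀ s, s < 2 * i + 1 → Brd (TP s (2 * i + 1) : MulAut (Fr g n)) (Bt i)) := by
  constructor
  · intro t ht ht2
    have hd : TP (2 * i + 1) t (Alp (2 * i + 1) t : Fr g n) = Alp (2 * i + 1) t :=
      (TP_Alp _ _ _ _ ht ht).1 (Or.inr ⟨le_rfl, le_rfl⟩)
    have hb : Bt i (Alp (2 * i + 1) t : Fr g n) = gen (2 * i + 1) * Alp (2 * i + 1) t :=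
      (Bt_Alp i hi _ _ ht).2.2 rfl
    have h0 : ind (2 * i + 1) t (Alp (2 * i + 1) t : Fr g n) (2 * i) = 1 := if_neg (by omega)
    have h1 : ind (2 * i + 1) t (Alp (2 * i + 1) t : Fr g n) (2 * i + 1) = Alp (2 * i + 1) t :=
      if_pos (by omega)
    have hy : TP (2 * i + 1) t (gen (2 * i + 1) : Fr g n) =
        gen (2 * i + 1) * (Alp (2 * i + 1) t)⁻¹ := by
      rw [TP_apply, cj_gen_odd _ (by omega) (by omega), show 2 * i + 1 - 1 = 2 * i by omega, h0, h1]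
      group
    refine braid_start (TP (2 * i + 1) t) (ind (2 * i + 1) t (Alp (2 * i + 1) t))
      (fun x => TP_apply _ _ x) i hi (Alp (2 * i + 1) t) h0 h1 hd hb ?_
    intro c _ _ _
    unfold ind
    by_cases hc : 2 * i + 1 ≤ c ∧ c < t
    · rw [if_pos hc, hb, map_mul, hd, hy]
      group
    · rw [if_neg hc, map_one, map_one, mul_one]
  · intro s hs
    have hd : TP s (2 * i + 1) (Alp s (2 * i + 1) : Fr g n) = Alp s (2 * i + 1) :=
      (TP_Alp _ _ _ _ hs hs).1 (Or.inr ⟨le_rfl, le_rfl⟩)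
    have hb : Bt i (Alp s (2 * i + 1) : Fr g n) = Alp s (2 * i + 1) * (gen (2 * i + 1))⁻¹ :=
      (Bt_Alp i hi _ _ hs).2.1 rfl
    have h0 : ind s (2 * i + 1) (Alp s (2 * i + 1) : Fr g n) (2 * i) = Alp s (2 * i + 1) :=
      if_pos (by omega)
    have h1 : ind s (2 * i + 1) (Alp s (2 * i + 1) : Fr g n) (2 * i + 1) = 1 := if_neg (by omega)
    have hy : TP s (2 * i + 1) (gen (2 * i + 1) : Fr g n) =
        Alp s (2 * i + 1) * gen (2 * i + 1) := by
      rw [TP_apply, cj_gen_odd _ (by omega) (by omega), show 2 * i + 1 - 1 = 2 * i by omega, h0, h1]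
      group
    refine braid_end (TP s (2 * i + 1)) (ind s (2 * i + 1) (Alp s (2 * i + 1)))
      (fun x => TP_apply _ _ x) i hi (Alp s (2 * i + 1)) h0 h1 hd hb ?_
    intro c _ _ _
    unfold ind
    by_cases hc : s ≤ c ∧ c < 2 * i + 1
    · rw [if_pos hc, hb, map_mul, map_inv, hd, hy]
      group
    · rw [if_neg hc, map_one, map_one, mul_one]
-- END CB7

-- MODULE CB8
private theorem CB8_in {s t c : ℕ} {w : Fr g n} (h1 : s ≤ c) (h2 : c < t) : ind s t w c = w := by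
  simp [ind, h1, h2]

private theorem CB8_out {s t c : ℕ} {w : Fr g n} (h : c < s ∨ t ≤ c) : ind s t w c = 1 := by
  unfold ind
  rw [if_neg (by omega)]

private theorem CB8_cj (s t : ℕ) (v : ℕ → Fr g n) (x : Fr g n) :
    TP s t (cj v x) = cj (fun c => TP s t (v c) * ind s t (Alp s t) c) x := by
  rw [TP_apply, cj_cj]
  rfl

/-- The lantern twist is the conjugation by pr on the outer blocks and by [p,r] = p r p⁻¹ r⁻¹ on the middle block, p = Alp s t, r = Alp u w (q = Alp t u).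
PROOF. Let v be this function. Show TP s u * TP t w * cj v = TP s w * TP s t * TP t u * TP u w as maps; both sides are cj of: on [s,t): p q r p, on [t,u): p q r q, on [u,w): p q r r, 1 elsewhere. Right side:
cj_cj three times; e.g. on [s,t): TP s w (p) * (p q r) = p q r p (p q r)⁻¹ p q r. (All of TP s t, TP t u, TP u w commute, together they are cj of p, q, r on the blocks.) Left side: TP t w ∘ cj v: (TP t w fixes p, q ↦ qr q (qr)⁻¹, r ↦ q r q⁻¹) on
[s,t): p q r q⁻¹; on [t,u): [p, q r q⁻¹] q r = p q r q⁻¹ p⁻¹ q; on [u,w): p q r q⁻¹ q r = p q r r. Then TP s u (p ↦ p q p (p q)⁻¹, q ↦ p q p⁻¹, p q ↦ p q, r ↦ r): on [s,t): TP(p q r q⁻¹) p q = p q r (p q⁻¹ p⁻¹) p q = p q r p; on [t,u):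
TP (p q r (p q)⁻¹ q) p q = p q r (p q)⁻¹ (p q p⁻¹) p q = p q r q; on [u,w): p q r r. The intervals use Alp s u = p q, Alp t w = q r, Alp s w = p q r (Alp_split). -/
theorem LP_apply (s t u w : ℕ) (h1 : s < t) (h2 : t < u) (h3 : u < w) (h4 : w ≤ 2 * g + n)
    (x : Fr g n) :
    LP s t u w x = cj (fun c => if (s ≤ c ∧ c < t) ∨ (u ≤ c ∧ c < w) then
      Alp s t * Alp u w else if t ≤ c ∧ c < u then Alp s t * Alp u w * (Alp s t)⁻¹ * (Alp u w)⁻¹
      else 1) x := by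
  have e1 : (Alp s u : Fr g n) = Alp s t * Alp t u := Alp_split s t u h1.le h2.le
  have e2 : (Alp t w : Fr g n) = Alp t u * Alp u w := Alp_split t u w h2.le h3.le
  have e3 : (Alp s w : Fr g n) = Alp s t * Alp t u * Alp u w := by
    rw [Alp_split s u w (by omega) h3.le, e1]
  have a1 := (TP_Alp (g := g) (n := n) s w s t (by omega) h1).2 ⟨le_rfl, by omega⟩
  have a2 := (TP_Alp (g := g) (n := n) s w t u (by omega) h2).2 ⟨by omega, by omega⟩
  have a3 := (TP_Alp (g := g) (n := n) s w u w (by omega) h3).2 ⟨by omega, by omega⟩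
  have b1 := (TP_Alp (g := g) (n := n) s t t u h1 h2).1 (Or.inl (Or.inr le_rfl))
  have b2 := (TP_Alp (g := g) (n := n) s t u w h1 h3).1 (Or.inl (Or.inr h2.le))
  have c1 := (TP_Alp (g := g) (n := n) t u u w h2 h3).1 (Or.inl (Or.inr le_rfl))
  have d1 := (TP_Alp (g := g) (n := n) s u s t (by omega) h1).2 ⟨le_rfl, by omega⟩
  have d2 := (TP_Alp (g := g) (n := n) s u t u (by omega) h2).2 ⟨by omega, by omega⟩
  have d3 := (TP_Alp (g := g) (n := n) s u u w (by omega) h3).1 (Or.inl (Or.inr le_rfl))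
  have f1 := (TP_Alp (g := g) (n := n) t w s t (by omega) h1).1 (Or.inl (Or.inl le_rfl))
  have f2 := (TP_Alp (g := g) (n := n) t w t u (by omega) h2).2 ⟨by omega, by omega⟩
  have f3 := (TP_Alp (g := g) (n := n) t w u w (by omega) h3).2 ⟨by omega, by omega⟩
  rw [e3] at a1 a2 a3
  rw [e1] at d1 d2
  rw [e2] at f2 f3
  have key : TP s w (TP s t (TP t u (TP u w x))) = TP s u (TP t w (cj (fun c =>
      if (s ≤ c ∧ c < t) ∨ (u ≤ c ∧ c < w) then Alp s t * Alp u w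
      else if t ≤ c ∧ c < u then Alp s t * Alp u w * (Alp s t)⁻¹ * (Alp u w)⁻¹
      else 1) x)) := by
    rw [TP_apply u w x, CB8_cj, CB8_cj, CB8_cj, CB8_cj, CB8_cj]
    refine cj_congr _ _ (fun c _ => ?_) x
    by_cases k1 : c < s
    · rw [CB8_out (Or.inl (by omega)), CB8_out (Or.inl (by omega)), CB8_out (Or.inl (by omega)),
        CB8_out (Or.inl (by omega)), CB8_out (Or.inl (by omega)), CB8_out (Or.inl (by omega)),
        if_neg (by omega), if_neg (by omega)]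
      simp only [map_one, mul_one]
    · by_cases k2 : c < t
      · rw [CB8_out (s := u) (Or.inl (by omega)), CB8_out (s := t) (Or.inl (by omega)),
          CB8_in (s := s) (t := t) (by omega) k2, CB8_in (s := s) (t := w) (by omega) (by omega),
          CB8_out (s := t) (Or.inl (by omega)), CB8_in (s := s) (t := u) (by omega) (by omega),
          if_pos (by omega)]
        simp only [map_one, mul_one, one_mul, map_mul, map_inv, a1, a2, a3, b1, b2, c1, d1, d2, d3,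
          f1, f2, f3, e1, e2, e3]
        group
      · by_cases k3 : c < u
        · rw [CB8_out (s := u) (Or.inl (by omega)), CB8_in (s := t) (t := u) (by omega) k3,
            CB8_out (s := s) (t := t) (Or.inr (by omega)),
            CB8_in (s := s) (t := w) (by omega) (by omega),
            CB8_in (s := t) (t := w) (by omega) (by omega),
            CB8_in (s := s) (t := u) (by omega) (by omega), if_neg (by omega), if_pos (by omega)]
          simp only [map_one, mul_one, one_mul, map_mul, map_inv, a1, a2, a3, b1, b2, c1, d1, d2,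
            d3, f1, f2, f3, e1, e2, e3]
          group
        · by_cases k4 : c < w
          · rw [CB8_in (s := u) (t := w) (by omega) k4,
              CB8_out (s := t) (t := u) (Or.inr (by omega)),
              CB8_out (s := s) (t := t) (Or.inr (by omega)),
              CB8_in (s := s) (t := w) (by omega) (by omega),
              CB8_in (s := t) (t := w) (by omega) (by omega),
              CB8_out (s := s) (t := u) (Or.inr (by omega)), if_pos (by omega)]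
            simp only [map_one, mul_one, one_mul, map_mul, map_inv, a1, a2, a3, b1, b2, c1, d1, d2,
              d3, f1, f2, f3, e1, e2, e3]
            group
          · rw [CB8_out (Or.inr (by omega)), CB8_out (Or.inr (by omega)),
              CB8_out (Or.inr (by omega)), CB8_out (Or.inr (by omega)),
              CB8_out (Or.inr (by omega)), CB8_out (Or.inr (by omega)),
              if_neg (by omega), if_neg (by omega)]
            simp only [map_one, mul_one]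
  have h5 : LP s t u w x = (TP t w)⁻¹ ((TP s u)⁻¹ (TP s w (TP s t (TP t u (TP u w x))))) := rfl
  rw [h5, key, MulAut.inv_apply_self, MulAut.inv_apply_self]
-- END CB8

-- MODULE CB9
private theorem CB9_y (w : MulAut (Fr g n)) (v : ℕ → Fr g n) (hw : ∀ x, w x = cj v x) (i : ℕ)
    (hi : i < g) : w (gen (2 * i + 1)) = v (2 * i) * gen (2 * i + 1) * (v (2 * i + 1))⁻¹ := by
  rw [hw, cj_gen_odd v (by omega) (by omega)]
  rfl

/-- PROOF. braid_end with u from LP_apply, w = 2i+1, d = p r, p = Alp s t, r = Alp u (2i+1). w p = d p d⁻¹, w r = d r d⁻¹ (cj_Alp_in). Bt i p = p, Bt i r = r y⁻¹ (CA3). For c in the outer blocks: w (d y⁻¹) d = d (d y)⁻¹ d = d y⁻¹. For c in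
the middle block: w (p r y⁻¹ p⁻¹ y r⁻¹) * (p r p⁻¹ r⁻¹) with w y = d y: w(r y⁻¹) = d r d⁻¹ y⁻¹ d⁻¹ = d p⁻¹... (r d⁻¹ = p⁻¹ up to: d⁻¹ = r⁻¹ p⁻¹, r d⁻¹ = p⁻¹) = d p⁻¹ y⁻¹ d⁻¹; so w [p, r y⁻¹] = d [p, p⁻¹ y⁻¹] d⁻¹ = d y⁻¹ p⁻¹ y p d⁻¹ and
times [p,r] = d p⁻¹ r⁻¹: d y⁻¹ p⁻¹ y p r⁻¹ p⁻¹ p r p⁻¹ r⁻¹ = d y⁻¹ p⁻¹ y r⁻¹ = [p, r y⁻¹] (= p r y⁻¹ p⁻¹ y r⁻¹). -/
theorem LP_braid1 (s t u i : ℕ) (h1 : s < t) (h2 : t < u) (h3 : u < 2 * i + 1) (hi : i < g) :
    Brd (LP s t u (2 * i + 1) : MulAut (Fr g n)) (Bt i) := by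
  have hw : ∀ x, LP s t u (2 * i + 1) x = _ := LP_apply (g := g) (n := n) s t u (2 * i + 1) h1 h2 h3
    (by omega)
  have bP := (Bt_Alp (n := n) i hi s t h1).1 (Or.inr (Or.inl (by omega)))
  have bR := (Bt_Alp (n := n) i hi u (2 * i + 1) h3).2.1 rfl
  have wP : LP s t u (2 * i + 1) (Alp s t : Fr g n) = (Alp s t * Alp u (2 * i + 1)) * Alp s t *
      (Alp s t * Alp u (2 * i + 1))⁻¹ := by
    rw [hw]
    exact cj_Alp_in _ s t _ fun c k1 k2 => by rw [if_pos (Or.inl ⟨k1, k2⟩)]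
  have wR : LP s t u (2 * i + 1) (Alp u (2 * i + 1) : Fr g n) = (Alp s t * Alp u (2 * i + 1)) *
      Alp u (2 * i + 1) * (Alp s t * Alp u (2 * i + 1))⁻¹ := by
    rw [hw]
    exact cj_Alp_in _ u (2 * i + 1) _ fun c k1 k2 => by rw [if_pos (Or.inr ⟨k1, k2⟩)]
  have wy := CB9_y (LP s t u (2 * i + 1)) _ hw i hi
  rw [if_pos (Or.inr (by omega)), if_neg (by omega), if_neg (by omega), inv_one, mul_one] at wy
  refine braid_end _ _ hw i hi (Alp s t * Alp u (2 * i + 1)) ?_ ?_ ?_ ?_ ?_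
  · rw [if_pos (Or.inr (by omega))]
  · rw [if_neg (by omega), if_neg (by omega)]
  · simp only [map_mul, wP, wR]
    group
  · simp only [map_mul, bP, bR]
    group
  · intro c _ _ _
    by_cases k1 : (s ≤ c ∧ c < t) ∨ (u ≤ c ∧ c < 2 * i + 1)
    · simp only [if_pos k1, map_mul, map_inv, bP, bR, wP, wR, wy]
      group
    · by_cases k2 : t ≤ c ∧ c < u
      · simp only [if_neg k1, if_pos k2, map_mul, map_inv, bP, bR, wP, wR, wy]
        group
      · simp only [if_neg k1, if_neg k2, map_one, mul_one]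
-- END CB9

-- MODULE CB10
/-- PROOF. braid_start with p = Alp (2i+1) t, r = Alp u w, d = p r: Bt i p = y p, Bt i r = r. Outer: w (y d) d = y d⁻¹ d d. Middle: w [y p, r] [p, r] = [y p d⁻¹, d r d⁻¹] [p, r] = [y p, r]: y p d⁻¹ · d r d⁻¹ · d p⁻¹ y⁻¹ · d r⁻¹ d⁻¹ · p r p⁻¹ r⁻¹
= y p r p⁻¹ y⁻¹ · d r⁻¹ d⁻¹ p r p⁻¹ r⁻¹, and d r⁻¹ d⁻¹ p r p⁻¹ r⁻¹ = p r r⁻¹ r⁻¹ p⁻¹ p r p⁻¹ r⁻¹ = p p⁻¹ r⁻¹ = r⁻¹. (w y = y d⁻¹.) -/
theorem LP_braid3 (i t u w : ℕ) (hi : i < g) (h1 : 2 * i + 1 < t) (h2 : t < u) (h3 : u < w)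
    (h4 : w ≤ 2 * g + n) : Brd (LP (2 * i + 1) t u w : MulAut (Fr g n)) (Bt i) := by
  have hw : ∀ x, LP (2 * i + 1) t u w x = _ := LP_apply (g := g) (n := n) (2 * i + 1) t u w h1 h2 h3
    h4
  have bP := (Bt_Alp (n := n) i hi (2 * i + 1) t h1).2.2 rfl
  have bR := (Bt_Alp (n := n) i hi u w h3).1 (Or.inl (by omega))
  have wP : LP (2 * i + 1) t u w (Alp (2 * i + 1) t : Fr g n) = (Alp (2 * i + 1) t * Alp u w) *
      Alp (2 * i + 1) t * (Alp (2 * i + 1) t * Alp u w)⁻¹ := by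
    rw [hw]
    exact cj_Alp_in _ (2 * i + 1) t _ fun c k1 k2 => by rw [if_pos (Or.inl ⟨k1, k2⟩)]
  have wR : LP (2 * i + 1) t u w (Alp u w : Fr g n) = (Alp (2 * i + 1) t * Alp u w) *
      Alp u w * (Alp (2 * i + 1) t * Alp u w)⁻¹ := by
    rw [hw]
    exact cj_Alp_in _ u w _ fun c k1 k2 => by rw [if_pos (Or.inr ⟨k1, k2⟩)]
  have wy := CB9_y (LP (2 * i + 1) t u w) _ hw i hi
  rw [if_neg (by omega), if_neg (by omega), if_pos (Or.inl (by omega)), one_mul] at wy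
  refine braid_start _ _ hw i hi (Alp (2 * i + 1) t * Alp u w) ?_ ?_ ?_ ?_ ?_
  · rw [if_neg (by omega), if_neg (by omega)]
  · rw [if_pos (Or.inl (by omega))]
  · simp only [map_mul, wP, wR]
    group
  · simp only [map_mul, bP, bR]
    group
  · intro c _ _ _
    by_cases k1 : (2 * i + 1 ≤ c ∧ c < t) ∨ (u ≤ c ∧ c < w)
    · simp only [if_pos k1, map_mul, map_inv, bP, bR, wP, wR, wy]
      group
    · by_cases k2 : t ≤ c ∧ c < u
      · simp only [if_neg k1, if_pos k2, map_mul, map_inv, bP, bR, wP, wR, wy]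
        group
      · simp only [if_neg k1, if_neg k2, map_one, mul_one]
-- END CB10

-- MODULE CB11
private theorem CB11_other (w : MulAut (Fr g n)) (v : ℕ → Fr g n) (hw : ∀ x, w x = cj v x) (i : ℕ)
    (hu : ∀ c, c ≠ 2 * i → c ≠ 2 * i + 1 → w (Bt i (v c)) * v c = Bt i (v c)) (c : ℕ)
    (h0 : c ≠ 2 * i) (h1 : c ≠ 2 * i + 1) :
    w (Bt i (w (gen c))) = Bt i (w (Bt i (gen c))) := by
  rw [Bt_ne i c h0]
  by_cases h : c < 2 * g ∧ c % 2 = 1
  · have h4 : w (gen c) = v (c - 1) * gen c * (v c)⁻¹ := by rw [hw, cj_gen_odd v h.1 h.2]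
    have u1 := hu c h0 h1
    have u2 := hu (c - 1) (by omega) (by omega)
    rw [h4]
    simp only [map_mul, map_inv, Bt_ne i c h0, h4]
    have e : w (Bt i (v (c - 1))) * (v (c - 1) * gen c * (v c)⁻¹) * (w (Bt i (v c)))⁻¹ =
        (w (Bt i (v (c - 1))) * v (c - 1)) * gen c * (w (Bt i (v c)) * v c)⁻¹ := by group
    rw [e, u1, u2]
  · have h4 : w (gen c) = v c * gen c * (v c)⁻¹ := by rw [hw, cj_gen v h]
    have u1 := hu c h0 h1
    rw [h4]
    simp only [map_mul, map_inv, Bt_ne i c h0, h4]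
    have e : w (Bt i (v c)) * (v c * gen c * (v c)⁻¹) * (w (Bt i (v c)))⁻¹ =
        (w (Bt i (v c)) * v c) * gen c * (w (Bt i (v c)) * v c)⁻¹ := by group
    rw [e, u1]

private theorem CB11_core (W : MulAut (Fr g n)) (v : ℕ → Fr g n) (hw : ∀ x, W x = cj v x) (i : ℕ)
    (hi : i < g) (P R : Fr g n)
    (hv : ∀ c, c ≠ 2 * i → c ≠ 2 * i + 1 → v c = P * R ∨ v c = P * R * P⁻¹ * R⁻¹ ∨ v c = 1)
    (v0 : v (2 * i) = P * R * P⁻¹ * R⁻¹) (v1 : v (2 * i + 1) = P * R)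
    (wP : W P = (P * R) * P * (P * R)⁻¹) (wR : W R = (P * R) * R * (P * R)⁻¹)
    (bP : Bt i P = P) (bR : Bt i R = gen (2 * i + 1) * R) : Brd W (Bt i) := by
  have wy := CB9_y W v hw i hi
  rw [v0, v1] at wy
  have wx : W (gen (2 * i) : Fr g n) =
      (P * R * P⁻¹ * R⁻¹) * gen (2 * i) * (P * R * P⁻¹ * R⁻¹)⁻¹ := by
    rw [hw, cj_gen _ (by omega), v0]
  have bx := Bt_x (n := n) i hi
  have by' := Bt_ne (g := g) (n := n) i (2 * i + 1) (by omega)
  refine aut_ext _ _ fun c hc => ?_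
  rw [MulAut.mul_apply, MulAut.mul_apply, MulAut.mul_apply, MulAut.mul_apply]
  by_cases c0 : c = 2 * i
  · subst c0
    simp only [map_mul, map_inv, bP, bR, wP, wR, wy, wx, bx, by']
    group
  · by_cases c1 : c = 2 * i + 1
    · subst c1
      simp only [map_mul, map_inv, bP, bR, wP, wR, wy, wx, bx, by']
      group
    · refine CB11_other W v hw i (fun c k0 k1 => ?_) c c0 c1
      rcases hv c k0 k1 with h | h | h
      · rw [h]
        simp only [map_mul, map_inv, bP, bR, wP, wR, wy, wx, bx, by']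
        group
      · rw [h]
        simp only [map_mul, map_inv, bP, bR, wP, wR, wy, wx, bx, by']
        group
      · rw [h]
        simp only [map_one, mul_one]

/-- The middle type: the middle block ends at the foot 2i, the last block starts at the foot 2i+1. PROOF. p = Alp s t, r = Alp (2i+1) w, k = [p,r], d = p r, u (2i) = k, u (2i+1) = d. w x = k x k⁻¹, w y = k y d⁻¹, w p = d p d⁻¹, w r = d r d⁻¹; b p = p, b r = y r,
b d = p y r, b k = [p, y r]. Basic: w (b k) k = b k: w [p, y r] = [d p d⁻¹, k y d⁻¹ d r d⁻¹] = d p d⁻¹ k · y r d⁻¹ · d p⁻¹ d⁻¹ · d r⁻¹ y⁻¹ k⁻¹ and d p d⁻¹ k = p, so = p y r p⁻¹ r⁻¹ y⁻¹ k⁻¹ = (b k) k⁻¹. w (b d) d = w (p y r) d = d p d⁻¹ k y d⁻¹ d r d⁻¹ d = p y r = b d.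
So the letters other than x, y are all right (as in braid_end). y: b w b y = b (k y d⁻¹) = [p, y r] y (p y r)⁻¹ = p y r p⁻¹ r⁻¹ r⁻¹ y⁻¹ p⁻¹; w b w y = w of this = p y r p⁻¹ r⁻² y⁻¹ p⁻¹ (w p w y w r = p y r, see above). x: b w b x = b (k x k⁻¹ d y⁻¹ k⁻¹), k⁻¹ d = r p: = b (k x r p y⁻¹ k⁻¹)
= K x y⁻¹ y r p y⁻¹ K⁻¹ with K = [p, y r]; w b w x = w (b (k x k⁻¹)) = w (K x y⁻¹ K⁻¹) = K k⁻¹ k x k⁻¹ d y⁻¹ k⁻¹ k K⁻¹ = K x r p y⁻¹ K⁻¹. -/
theorem LP_braid2 (s t i w : ℕ) (h1 : s < t) (h2 : t < 2 * i + 1) (h3 : 2 * i + 1 < w)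
    (h4 : w ≤ 2 * g + n) (hi : i < g) : Brd (LP s t (2 * i + 1) w : MulAut (Fr g n)) (Bt i) := by
  refine CB11_core (LP s t (2 * i + 1) w) _ (LP_apply (g := g) (n := n) s t (2 * i + 1) w h1 h2 h3
    h4) i hi (Alp s t) (Alp (2 * i + 1) w) (fun c _ _ => ?_) ?_ ?_ ?_ ?_ ?_ ?_
  · by_cases k1 : (s ≤ c ∧ c < t) ∨ (2 * i + 1 ≤ c ∧ c < w)
    · left
      rw [if_pos k1]
    · by_cases k2 : t ≤ c ∧ c < 2 * i + 1
      · right
        left
        rw [if_neg k1, if_pos k2]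
      · right
        right
        rw [if_neg k1, if_neg k2]
  · rw [if_neg (by omega), if_pos (by omega)]
  · rw [if_pos (Or.inr (by omega))]
  · rw [LP_apply (g := g) (n := n) s t (2 * i + 1) w h1 h2 h3 h4]
    exact cj_Alp_in _ s t _ fun c k1 k2 => by rw [if_pos (Or.inl ⟨k1, k2⟩)]
  · rw [LP_apply (g := g) (n := n) s t (2 * i + 1) w h1 h2 h3 h4]
    exact cj_Alp_in _ (2 * i + 1) w _ fun c k1 k2 => by rw [if_pos (Or.inr ⟨k1, k2⟩)]
  · exact (Bt_Alp (n := n) i hi s t h1).1 (Or.inr (Or.inl (by omega)))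
  · exact (Bt_Alp (n := n) i hi (2 * i + 1) w h3).2.2 rfl
-- END CB11

-- MODULE CC1
/-- The system in the semidirect product: twists, loops. -/
theorem TP_gen (s t i : ℕ) (h1 : s < t) (h2 : t ≤ 2 * g + n) (hi : i < g) :
    TP s t (gen (2 * i + 1) : Fr g n) = (if s ≤ 2 * i ∧ 2 * i < t then Alp s t else 1) *
      gen (2 * i + 1) * (if s ≤ 2 * i + 1 ∧ 2 * i + 1 < t then Alp s t else 1)⁻¹ := by
  rw [TP_apply, cj_gen_odd _ (by omega) (by omega)]
  rfl
-- END CC1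

/-- The mapping class group with one more marked point: `F ⋊ Γ`. -/
abbrev MG (g n : ℕ) (Γ : Subgroup (MulAut (Fr g n))) : Type := Fr g n ⋊[Γ.subtype] Γ

open Classical in
/-- The twists and loops in `F ⋊ Γ`. -/
noncomputable def sys (g n : ℕ) (Γ : Subgroup (MulAut (Fr g n))) : Tw g n (MG g n Γ) where
  T s t := if h : TP s t ∈ Γ then SemidirectProduct.inr ⟨TP s t, h⟩ else 1
  B i := if h : Bt i ∈ Γ then SemidirectProduct.inr ⟨Bt i, h⟩ else 1
  X i := SemidirectProduct.inl (gen (2 * i))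
  Y i := SemidirectProduct.inl (gen (2 * i + 1))
  Z k := SemidirectProduct.inl (gen (2 * g + k))

-- MODULE CC2
private theorem CC2_al (Γ : Subgroup (MulAut (Fr g n))) (c : ℕ) :
    (sys g n Γ).al c = SemidirectProduct.inl (alp c) := by
  unfold Tw.al alp
  by_cases h : c < 2 * g
  · by_cases h2 : c % 2 = 0
    · rw [if_pos h, if_pos h2, if_neg (by omega)]
      show SemidirectProduct.inl (gen (2 * (c / 2))) = _
      rw [show 2 * (c / 2) = c by omega]
    · rw [if_pos h, if_neg h2, if_pos (by omega)]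
      show (SemidirectProduct.inl (gen (2 * (c / 2) + 1)))⁻¹ *
        (SemidirectProduct.inl (gen (2 * (c / 2))))⁻¹ *
        SemidirectProduct.inl (gen (2 * (c / 2) + 1)) = _
      rw [show 2 * (c / 2) + 1 = c by omega, show 2 * (c / 2) = c - 1 by omega, map_mul, map_mul,
        map_inv, map_inv]
  · rw [if_neg h, if_neg (by omega)]
    show SemidirectProduct.inl (gen (2 * g + (c - 2 * g))) = _
    rw [show 2 * g + (c - 2 * g) = c by omega]

/-- The loops of sys are the loops. PROOF. al c = inl (alp c) for c < 2g + n (al even, odd, z), Al = product. -/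
theorem sys_Al (Γ : Subgroup (MulAut (Fr g n))) (s t : ℕ) (ht : t ≤ 2 * g + n) :
    (sys g n Γ).Al s t = SemidirectProduct.inl (Alp s t) := by
  unfold Tw.Al Alp
  rw [map_list_prod, List.map_map]
  congr 1
  refine List.map_congr_left fun c _ => ?_
  exact CC2_al Γ c
-- END CC2

-- MODULE CC3
private theorem CC3_comm {Γ : Subgroup (MulAut (Fr g n))} {a b : Γ}
    (h : Commute (a : MulAut (Fr g n)) b) :
    Commute (SemidirectProduct.inr a : MG g n Γ) (SemidirectProduct.inr b) := by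
  have h1 : Commute a b := Subtype.ext h
  exact h1.map SemidirectProduct.inr

private theorem CC3_brd {Γ : Subgroup (MulAut (Fr g n))} {a b : Γ}
    (h : Brd (a : MulAut (Fr g n)) b) :
    Brd (SemidirectProduct.inr a : MG g n Γ) (SemidirectProduct.inr b) := by
  have h1 : a * b * a = b * a * b := Subtype.ext h
  unfold Brd
  rw [← map_mul, ← map_mul, h1, map_mul, map_mul]

private theorem CC3_T {Γ : Subgroup (MulAut (Fr g n))} (hΓ : twists g n ⊆ Γ) {s t : ℕ}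
    (h1 : s < t) (h2 : t ≤ 2 * g + n) : ∃ h : TP s t ∈ Γ,
    (sys g n Γ).T s t = SemidirectProduct.inr ⟨TP s t, h⟩ := by
  have h : TP s t ∈ Γ := hΓ (Or.inr ⟨s, t, h1, h2, rfl⟩)
  exact ⟨h, dif_pos h⟩

private theorem CC3_B {Γ : Subgroup (MulAut (Fr g n))} (hΓ : twists g n ⊆ Γ) {i : ℕ}
    (hi : i < g) : ∃ h : Bt i ∈ Γ, (sys g n Γ).B i = SemidirectProduct.inr ⟨Bt i, h⟩ := by
  have h : Bt i ∈ Γ := hΓ (Or.inl ⟨i, hi, rfl⟩)
  exact ⟨h, dif_pos h⟩

private theorem CC3_L {Γ : Subgroup (MulAut (Fr g n))} (hΓ : twists g n ⊆ Γ) {s t u w : ℕ}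
    (h1 : s < t) (h2 : t < u) (h3 : u < w) (h4 : w ≤ 2 * g + n) : ∃ a : Γ,
    (a : MulAut (Fr g n)) = LP s t u w ∧ (sys g n Γ).L s t u w = SemidirectProduct.inr a := by
  obtain ⟨k1, e1⟩ := CC3_T hΓ (s := t) (t := w) (by omega) h4
  obtain ⟨k2, e2⟩ := CC3_T hΓ (s := s) (t := u) (by omega) (by omega)
  obtain ⟨k3, e3⟩ := CC3_T hΓ (s := s) (t := w) (by omega) h4
  obtain ⟨k4, e4⟩ := CC3_T hΓ (s := s) (t := t) h1 (by omega)
  obtain ⟨k5, e5⟩ := CC3_T hΓ (s := t) (t := u) h2 (by omega)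
  obtain ⟨k6, e6⟩ := CC3_T hΓ (s := u) (t := w) h3 h4
  refine ⟨(⟨TP t w, k1⟩ : Γ)⁻¹ * (⟨TP s u, k2⟩ : Γ)⁻¹ * ⟨TP s w, k3⟩ * ⟨TP s t, k4⟩ *
    ⟨TP t u, k5⟩ * ⟨TP u w, k6⟩, ?_, ?_⟩
  · unfold LP
    rw [Subgroup.coe_mul, Subgroup.coe_mul, Subgroup.coe_mul, Subgroup.coe_mul, Subgroup.coe_mul,
      Subgroup.coe_inv, Subgroup.coe_inv]
  · unfold Tw.L
    rw [e1, e2, e3, e4, e5, e6, map_mul, map_mul, map_mul, map_mul, map_mul, map_inv, map_inv]

private theorem CC3_conj {Γ : Subgroup (MulAut (Fr g n))} (a : Γ) (x : Fr g n) :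
    (SemidirectProduct.inr a : MG g n Γ) * SemidirectProduct.inl x *
      (SemidirectProduct.inr a)⁻¹ = SemidirectProduct.inl ((a : MulAut (Fr g n)) x) := by
  have h := SemidirectProduct.inl_aut (φ := Γ.subtype) a x
  rw [map_inv] at h
  exact h.symm

private theorem CC3_fix {Γ : Subgroup (MulAut (Fr g n))} (a : Γ) (x : Fr g n)
    (h : (a : MulAut (Fr g n)) x = x) :
    Commute (SemidirectProduct.inr a : MG g n Γ) (SemidirectProduct.inl x) := by
  have h1 := CC3_conj a x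
  rw [h] at h1
  exact mul_inv_eq_iff_eq_mul.1 h1

/-- THE RELATIONS HOLD. PROOF. T s t = inr ⟨TP s t, _⟩ for s < t ≤ 2g+n, B i = inr ⟨Bt i, _⟩ for i < g (hΓ). TT, TB, BB, TBs, TBe, aa: CB1 - CB7 (inr is a homomorphism, Subtype.ext). L = inr ⟨LP, _⟩: LB, LB2, LB3 from CB9, CB11, CB10. TY: CC1, CC2 and
SemidirectProduct.inl_aut (inl (φ n) = inr φ * inl n * inr φ⁻¹). TX: TP (2i) (2i+1) fixes gen (2i) (cj_gen, conjugation by Alp = gen (2i)). BX, BY, BZ: Bt_x, Bt_ne. PB: P = inl d⁻¹ * inr w, d = Alp (2g-1) (2g+n), w = TP (2g-1) (2g+n), b = Bt (g-1): w d = d,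
b d = y d, b w b = w b w (CB7): P B P = inl (d⁻¹ * (w b) (d⁻¹)) inr (w b w), (w b) d⁻¹ = w (d⁻¹ y⁻¹) = d⁻¹ d y⁻¹ (w y = y d⁻¹), so the inl part is d⁻¹ y⁻¹; B P B = inl (b d⁻¹) inr (b w b), b d⁻¹ = d⁻¹ y⁻¹. PT: T (2i) (2i+1) fixes d (CA1), and commutes with w (CB1). -/
theorem sys_rels (Γ : Subgroup (MulAut (Fr g n))) (hΓ : twists g n ⊆ Γ) :
    Rels (sys g n Γ) := by
  constructor
  · intro s t s' t' h1 h2 h3 h4 h
    obtain ⟨k1, e1⟩ := CC3_T hΓ h1 h2
    obtain ⟨k2, e2⟩ := CC3_T hΓ h3 h4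
    rw [e1, e2]
    exact CC3_comm (TP_comm s t s' t' h1 h2 h3 h4 h)
  · intro s t i h1 h2 hi h
    obtain ⟨k1, e1⟩ := CC3_T hΓ h1 h2
    obtain ⟨k2, e2⟩ := CC3_B hΓ hi
    rw [e1, e2]
    exact CC3_comm (TP_Bt_comm s t i h1 h2 hi h)
  · intro i j hi hj
    obtain ⟨k1, e1⟩ := CC3_B hΓ hi
    obtain ⟨k2, e2⟩ := CC3_B hΓ hj
    rw [e1, e2]
    exact CC3_comm (Bt_comm i j hi hj)
  · intro i t hi h1 h2
    obtain ⟨k1, e1⟩ := CC3_T hΓ h1 h2
    obtain ⟨k2, e2⟩ := CC3_B hΓ hi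
    rw [e1, e2]
    exact CC3_brd ((TP_Bt_braid i hi).1 t h1 h2)
  · intro i s hi h1
    obtain ⟨k1, e1⟩ := CC3_T hΓ h1 (by omega)
    obtain ⟨k2, e2⟩ := CC3_B hΓ hi
    rw [e1, e2]
    exact CC3_brd ((TP_Bt_braid i hi).2 s h1)
  · intro i hi
    obtain ⟨k1, e1⟩ := CC3_T hΓ (s := 2 * i) (t := 2 * i + 1) (by omega) (by omega)
    obtain ⟨k2, e2⟩ := CC3_T hΓ (s := 2 * i + 1) (t := 2 * i + 2) (by omega) (by omega)
    rw [e1, e2]
    congr 1
    exact Subtype.ext (TP_a i hi)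
  · intro s t u i h1 h2 h3 hi
    obtain ⟨a, k1, e1⟩ := CC3_L hΓ (s := s) (t := t) (u := u) (w := 2 * i + 1) h1 h2 h3 (by omega)
    obtain ⟨k2, e2⟩ := CC3_B hΓ hi
    rw [e1, e2]
    refine CC3_brd ?_
    rw [k1]
    exact LP_braid1 s t u i h1 h2 h3 hi
  · intro s t i w h1 h2 h3 h4 hi
    obtain ⟨a, k1, e1⟩ := CC3_L hΓ (s := s) (t := t) (u := 2 * i + 1) (w := w) h1 h2 h3 h4
    obtain ⟨k2, e2⟩ := CC3_B hΓ hi
    rw [e1, e2]
    refine CC3_brd ?_
    rw [k1]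
    exact LP_braid2 s t i w h1 h2 h3 h4 hi
  · intro i t u w hi h1 h2 h3 h4
    obtain ⟨a, k1, e1⟩ := CC3_L hΓ (s := 2 * i + 1) (t := t) (u := u) (w := w) h1 h2 h3 h4
    obtain ⟨k2, e2⟩ := CC3_B hΓ hi
    rw [e1, e2]
    refine CC3_brd ?_
    rw [k1]
    exact LP_braid3 i t u w hi h1 h2 h3 h4
  · intro hg
    obtain ⟨k1, e1⟩ := CC3_T hΓ (s := 2 * g - 1) (t := 2 * g + n) (by omega) le_rfl
    obtain ⟨k2, e2⟩ := CC3_B hΓ (i := g - 1) (by omega)
    have hs : 2 * (g - 1) + 1 = 2 * g - 1 := by omega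
    have hbr := (TP_Bt_braid (g := g) (n := n) (g - 1) (by omega)).1 (2 * g + n) (by omega) le_rfl
    rw [hs] at hbr
    have hwy := TP_gen (g := g) (n := n) (2 * g - 1) (2 * g + n) (g - 1) (by omega) le_rfl
      (by omega)
    rw [if_neg (by omega), if_pos (by omega), one_mul, hs] at hwy
    have hwd := (TP_Alp (g := g) (n := n) (2 * g - 1) (2 * g + n) (2 * g - 1) (2 * g + n)
      (by omega) (by omega)).1 (Or.inr ⟨le_rfl, le_rfl⟩)
    have hbd := (Bt_Alp (g := g) (n := n) (g - 1) (by omega) (2 * g - 1) (2 * g + n) (by omega)).2.2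
      (by omega)
    rw [hs] at hbd
    unfold Tw.P
    rw [sys_Al Γ _ _ le_rfl, e1, e2]
    unfold Brd
    refine SemidirectProduct.ext ?_ ?_
    · simp only [SemidirectProduct.mul_left, SemidirectProduct.mul_right,
        SemidirectProduct.left_inl, SemidirectProduct.right_inl, SemidirectProduct.left_inr,
        SemidirectProduct.right_inr, ← map_inv, map_one, one_mul, mul_one, MulAut.one_apply]
      show (Alp (2 * g - 1) (2 * g + n))⁻¹ * TP (2 * g - 1) (2 * g + n) (Bt (g - 1)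
        ((Alp (2 * g - 1) (2 * g + n))⁻¹)) = Bt (g - 1) ((Alp (2 * g - 1) (2 * g + n))⁻¹)
      simp only [map_inv, map_mul, hbd, hwy, hwd]
      group
    · simp only [SemidirectProduct.mul_right, SemidirectProduct.right_inl,
        SemidirectProduct.right_inr, ← map_inv, one_mul]
      exact Subtype.ext hbr
  · intro i hi
    obtain ⟨k1, e1⟩ := CC3_T hΓ (s := 2 * g - 1) (t := 2 * g + n) (by omega) le_rfl
    obtain ⟨k2, e2⟩ := CC3_T hΓ (s := 2 * i) (t := 2 * i + 1) (by omega) (by omega)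
    unfold Tw.P
    rw [sys_Al Γ _ _ le_rfl, e1, e2]
    refine Commute.mul_left ?_ (CC3_comm ?_)
    · refine (Commute.inv_right (CC3_fix _ _ ?_)).symm
      exact (TP_Alp (g := g) (n := n) (2 * i) (2 * i + 1) (2 * g - 1) (2 * g + n)
        (by omega) (by omega)).1 (Or.inl (Or.inr (by omega)))
    · exact (TP_comm (2 * i) (2 * i + 1) (2 * g - 1) (2 * g + n) (by omega) (by omega) (by omega)
        le_rfl (Or.inl (by omega))).symm
  · intro s t i h1 h2 hi
    obtain ⟨k1, e1⟩ := CC3_T hΓ h1 h2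
    rw [e1, sys_Al Γ _ _ h2]
    show (SemidirectProduct.inr ⟨TP s t, k1⟩ : MG g n Γ) *
      SemidirectProduct.inl (gen (2 * i + 1)) * (SemidirectProduct.inr ⟨TP s t, k1⟩)⁻¹ = _ *
        SemidirectProduct.inl (gen (2 * i + 1)) * _
    rw [CC3_conj]
    show SemidirectProduct.inl (TP s t (gen (2 * i + 1))) = _
    rw [TP_gen s t i h1 h2 hi]
    split_ifs <;> simp only [map_mul, map_inv, map_one]
  · intro i hi
    obtain ⟨k1, e1⟩ := CC3_T hΓ (s := 2 * i) (t := 2 * i + 1) (by omega) (by omega)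
    rw [e1]
    refine CC3_fix _ _ ?_
    show TP (2 * i) (2 * i + 1) (gen (2 * i)) = gen (2 * i)
    rw [TP_apply, cj_gen _ (by omega)]
    have h3 : (ind (2 * i) (2 * i + 1) (Alp (2 * i) (2 * i + 1)) (2 * i) : Fr g n) =
        gen (2 * i) := by
      unfold ind
      rw [if_pos (by omega), Alp_one, alp_even _ (by omega)]
    rw [h3]
    group
  · intro i hi
    obtain ⟨k2, e2⟩ := CC3_B hΓ hi
    rw [e2]
    show (SemidirectProduct.inr ⟨Bt i, k2⟩ : MG g n Γ) *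
      SemidirectProduct.inl (gen (2 * i)) * (SemidirectProduct.inr ⟨Bt i, k2⟩)⁻¹ =
        SemidirectProduct.inl (gen (2 * i)) * (SemidirectProduct.inl (gen (2 * i + 1)))⁻¹
    rw [CC3_conj, ← map_inv, ← map_mul]
    show SemidirectProduct.inl (Bt i (gen (2 * i))) = _
    rw [Bt_x i hi]
  · intro i j hi hj
    obtain ⟨k2, e2⟩ := CC3_B hΓ hi
    rw [e2]
    exact CC3_fix _ _ (Bt_ne i _ (by omega))
  · intro i k hi hk
    obtain ⟨k2, e2⟩ := CC3_B hΓ hi
    rw [e2]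
    exact CC3_fix _ _ (Bt_ne i _ (by omega))
-- END CC3

end Pool.Agent.HG13
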