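import Mathlib

set_option linter.all false

namespace Pool.Agent.HG13

/-- The free group `F` on `2g + n` letters: letter `2i` is `x_i`, letter `2i+1` is `y_i` (`i < g`),
letter `2g+k` is `z_k` (`k < n`): the fundamental group of the surface of genus `g` with `n`
punctures and one boundary component, base point on the boundary. -/
abbrev Fr (g n : ℕ) : Type := FreeGroup (Fin (2 * g + n))

variable {g n : ℕ}

/-- The letter with number `c` (and `1` if there is no such letter). -/
def gen (c : ℕ) : Fr g n := if h : c < 2 * g + n then FreeGroup.of ⟨c, h⟩ else 1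

/-- The loop around the foot `c`: `x_i` for `c = 2i`, `y_i⁻¹ x_i⁻¹ y_i` for `c = 2i+1` (`i < g`), and
`z_k` for `c = 2g+k`. -/
def alp (c : ℕ) : Fr g n :=
  if c < 2 * g ∧ c % 2 = 1 then (gen c)⁻¹ * (gen (c - 1))⁻¹ * gen c else gen c

/-- The loop around the feet `s, s+1, ..., t-1`. -/
def Alp (s t : ℕ) : Fr g n := ((List.range' s (t - s)).map alp).prod

/-- The endomorphism which conjugates the foot `c` by `u c`: `x_i ↦ u_(2i) x_i u_(2i)⁻¹`,
`y_i ↦ u_(2i) y_i u_(2i+1)⁻¹`, `z_k ↦ u_(2g+k) z_k u_(2g+k)⁻¹`. -/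
def cj (u : ℕ → Fr g n) : Fr g n →* Fr g n :=
  FreeGroup.lift fun c : Fin (2 * g + n) =>
    if (c : ℕ) < 2 * g ∧ (c : ℕ) % 2 = 1 then u ((c : ℕ) - 1) * gen (c : ℕ) * (u (c : ℕ))⁻¹
    else u (c : ℕ) * gen (c : ℕ) * (u (c : ℕ))⁻¹

/-- The function which is `w` on the feet `s, ..., t-1` and `1` elsewhere. -/
def ind (s t : ℕ) (w : Fr g n) : ℕ → Fr g n := fun c => if s ≤ c ∧ c < t then w else 1

theorem gen_lt {c : ℕ} (h : c < 2 * g + n) : (gen c : Fr g n) = FreeGroup.of ⟨c, h⟩ := by
  simp [gen, h]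

theorem gen_ge {c : ℕ} (h : 2 * g + n ≤ c) : (gen c : Fr g n) = 1 := by
  simp [gen, Nat.not_lt.mpr h]

theorem cj_gen_odd (u : ℕ → Fr g n) {c : ℕ} (h : c < 2 * g) (h1 : c % 2 = 1) :
    cj u (gen c) = u (c - 1) * gen c * (u c)⁻¹ := by
  have hc : c < 2 * g + n := by omega
  have : (gen c : Fr g n) = FreeGroup.of ⟨c, hc⟩ := gen_lt hc
  rw [this, cj, FreeGroup.lift_apply_of]
  simp only [h, h1, and_self, if_true]
  rw [this]

theorem cj_gen (u : ℕ → Fr g n) {c : ℕ} (h : ¬ (c < 2 * g ∧ c % 2 = 1)) :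
    cj u (gen c) = u c * gen c * (u c)⁻¹ := by
  by_cases hc : c < 2 * g + n
  · have : (gen c : Fr g n) = FreeGroup.of ⟨c, hc⟩ := gen_lt hc
    rw [this, cj, FreeGroup.lift_apply_of]
    rw [if_neg h, this]
  · rw [gen_ge (by omega)]; simp

theorem cj_alp (u : ℕ → Fr g n) (c : ℕ) : cj u (alp c) = u c * alp c * (u c)⁻¹ := by
  unfold alp
  by_cases h : c < 2 * g ∧ c % 2 = 1
  · rw [if_pos h]
    have h0 : ¬ (c - 1 < 2 * g ∧ (c - 1) % 2 = 1) := by omega
    simp only [map_mul, map_inv, cj_gen_odd u h.1 h.2, cj_gen u h0]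
    group
  · rw [if_neg h, cj_gen u h]

theorem cj_congr (u v : ℕ → Fr g n) (h : ∀ c < 2 * g + n, u c = v c) (w : Fr g n) :
    cj u w = cj v w := by
  have : cj u = cj v := by
    apply FreeGroup.ext_hom
    intro c
    simp only [cj, FreeGroup.lift_apply_of]
    have h1 := h c c.2
    have h2 := h (c - 1) (by omega)
    rw [h1, h2]
  rw [this]

theorem cj_one (w : Fr g n) : cj (fun _ => 1) w = w := by
  have : cj (fun _ => (1 : Fr g n)) = MonoidHom.id _ := by
    apply FreeGroup.ext_hom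
    intro c
    simp only [cj, FreeGroup.lift_apply_of, MonoidHom.id_apply]
    rw [← gen_lt c.2]
    simp
  rw [this]; rfl

theorem cj_cj (u v : ℕ → Fr g n) (w : Fr g n) :
    cj u (cj v w) = cj (fun c => cj u (v c) * u c) w := by
  have : (cj u).comp (cj v) = cj (fun c => cj u (v c) * u c) := by
    apply FreeGroup.ext_hom
    intro c
    rw [MonoidHom.comp_apply, ← gen_lt c.2]
    by_cases h : (c : ℕ) < 2 * g ∧ (c : ℕ) % 2 = 1
    · rw [cj_gen_odd _ h.1 h.2, cj_gen_odd _ h.1 h.2]
      simp only [map_mul, map_inv, cj_gen_odd u h.1 h.2]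
      group
    · rw [cj_gen _ h, cj_gen _ h]
      simp only [map_mul, map_inv, cj_gen u h]
      group
  rw [← this]; rfl

theorem cj_Alp_in (u : ℕ → Fr g n) (s t : ℕ) (d : Fr g n) (h : ∀ c, s ≤ c → c < t → u c = d) :
    cj u (Alp s t) = d * Alp s t * d⁻¹ := by
  unfold Alp
  have : ∀ l : List ℕ, (∀ c ∈ l, u c = d) →
      cj u ((l.map alp).prod) = d * (l.map alp).prod * d⁻¹ := by
    intro l
    induction l with
    | nil => intro _; simp
    | cons a l ih =>
      intro hl
      simp only [List.map_cons, List.prod_cons, map_mul, cj_alp]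
      rw [ih (fun c hc => hl c (by simp [hc])), hl a (by simp)]
      group
  apply this
  intro c hc
  rw [List.mem_range'_1] at hc
  exact h c hc.1 (by omega)

theorem cj_ind_Alp (s t : ℕ) (e : ℤ) :
    cj (ind s t ((Alp s t) ^ e)) (Alp s t) = (Alp s t : Fr g n) := by
  rw [cj_Alp_in _ s t ((Alp s t) ^ e) (fun c h1 h2 => by simp [ind, h1, h2])]
  group

/-- The Dehn twist about the curve which encloses the feet `s, ..., t-1`: it conjugates these feet
by the loop `Alp s t` around them. -/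
def TP (s t : ℕ) : MulAut (Fr g n) :=
  MonoidHom.toMulEquiv (cj (ind s t (Alp s t))) (cj (ind s t (Alp s t)⁻¹))
    (by
      ext1 c
      rw [MonoidHom.comp_apply, cj_cj, ← gen_lt c.2, MonoidHom.id_apply]
      rw [cj_congr _ (fun _ => 1), cj_one]
      intro c _
      by_cases h : s ≤ c ∧ c < t
      · simp only [ind, h, and_self, if_true]
        have := cj_ind_Alp (g := g) (n := n) s t (-1)
        rw [zpow_neg_one] at this
        rw [this]; simp
      · simp [ind, h])
    (by
      ext1 c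
      rw [MonoidHom.comp_apply, cj_cj, ← gen_lt c.2, MonoidHom.id_apply]
      rw [cj_congr _ (fun _ => 1), cj_one]
      intro c _
      by_cases h : s ≤ c ∧ c < t
      · simp only [ind, h, and_self, if_true]
        have := cj_ind_Alp (g := g) (n := n) s t 1
        rw [zpow_one] at this
        rw [map_inv, this]; simp
      · simp [ind, h])

/-- The endomorphism `x_i ↦ x_i y_i^e`, all other letters fixed. -/
def bt (i : ℕ) (e : ℤ) : Fr g n →* Fr g n :=
  FreeGroup.lift fun c : Fin (2 * g + n) =>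
    if (c : ℕ) = 2 * i then gen (2 * i) * (gen (2 * i + 1)) ^ e else gen (c : ℕ)

theorem bt_gen (i : ℕ) (e : ℤ) (hi : i < g) : bt i e (gen (2 * i) : Fr g n) =
    gen (2 * i) * (gen (2 * i + 1)) ^ e := by
  rw [gen_lt (by omega : 2 * i < 2 * g + n), bt, FreeGroup.lift_apply_of]
  simp only [if_true]
  rw [gen_lt (by omega : 2 * i < 2 * g + n)]

theorem bt_gen_ne (i : ℕ) (e : ℤ) (c : ℕ) (h : c ≠ 2 * i) : bt i e (gen c : Fr g n) = gen c := by
  by_cases hc : c < 2 * g + n
  · rw [gen_lt hc, bt, FreeGroup.lift_apply_of]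
    simp only [h, if_false]
    rw [gen_lt hc]
  · rw [gen_ge (by omega)]; simp

theorem bt_bt (i : ℕ) (e : ℤ) (w : Fr g n) : bt i (-e) (bt i e w) = w := by
  have : (bt i (-e)).comp (bt i e) = MonoidHom.id (Fr g n) := by
    apply FreeGroup.ext_hom
    intro c
    rw [MonoidHom.comp_apply, ← gen_lt c.2, MonoidHom.id_apply]
    by_cases h : (c : ℕ) = 2 * i
    · have hb : bt i e (gen (c : ℕ) : Fr g n) = gen (2 * i) * (gen (2 * i + 1)) ^ e := by
        rw [gen_lt c.2, bt, FreeGroup.lift_apply_of]; simp [h]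
      have hb' : bt i (-e) (gen (c : ℕ) : Fr g n) = gen (2 * i) * (gen (2 * i + 1)) ^ (-e) := by
        rw [gen_lt c.2, bt, FreeGroup.lift_apply_of]; simp [h]
      rw [h] at hb hb' ⊢
      rw [hb, map_mul, map_zpow, hb', bt_gen_ne _ _ _ (by omega : 2 * i + 1 ≠ 2 * i)]
      group
    · rw [bt_gen_ne _ _ _ h, bt_gen_ne _ _ _ h]
  exact DFunLike.congr_fun this w

/-- The Dehn twist about the curve `b_i` which runs through the handle `i`: `x_i ↦ x_i y_i⁻¹`, all
other letters fixed. -/
def Bt (i : ℕ) : MulAut (Fr g n) :=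
  MonoidHom.toMulEquiv (bt i (-1)) (bt i 1)
    (by ext1 c; simpa using bt_bt i (-1) (FreeGroup.of c))
    (by ext1 c; simpa using bt_bt i 1 (FreeGroup.of c))

/-- The Dehn twists about the curves `b_i` and about the curves which enclose an interval of feet.
(They generate the pure mapping class group of the surface.) -/
def twists (g n : ℕ) : Set (MulAut (Fr g n)) :=
  {φ | (∃ i < g, φ = Bt i) ∨ ∃ s t, s < t ∧ t ≤ 2 * g + n ∧ φ = TP s t}

end Pool.Agent.HG13
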