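import Pool.Agent.HG13.Rep
import Pool.Agent.HG13.Conc

set_option linter.all false

namespace Pool.Agent.HG13

universe u

variable {g n : ℕ}

-- MODULE FN1
private theorem FN1_top (Γ : Subgroup (MulAut (Fr g n))) (M : Subgroup (MG g n Γ))
    (h1 : ∀ i, i < g → (sys g n Γ).X i ∈ M ∧ (sys g n Γ).Y i ∈ M)
    (h2 : ∀ k, k < n → (sys g n Γ).Z k ∈ M) (w : Fr g n) :
    (SemidirectProduct.inl w : MG g n Γ) ∈ M := by
  have hg : ∀ c, c < 2 * g + n → (SemidirectProduct.inl (gen c) : MG g n Γ) ∈ M := by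
    intro c hc
    by_cases hc2 : c < 2 * g
    · by_cases he : c % 2 = 0
      · have := (h1 (c / 2) (by omega)).1
        have e : (sys g n Γ).X (c / 2) = SemidirectProduct.inl (gen (2 * (c / 2))) := rfl
        rw [e, show 2 * (c / 2) = c by omega] at this
        exact this
      · have := (h1 (c / 2) (by omega)).2
        have e : (sys g n Γ).Y (c / 2) = SemidirectProduct.inl (gen (2 * (c / 2) + 1)) := rfl
        rw [e, show 2 * (c / 2) + 1 = c by omega] at this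
        exact this
    · have := h2 (c - 2 * g) (by omega)
      have e : (sys g n Γ).Z (c - 2 * g) = SemidirectProduct.inl (gen (2 * g + (c - 2 * g))) := rfl
      rw [e, show 2 * g + (c - 2 * g) = c by omega] at this
      exact this
  refine FreeGroup.induction_on (C := fun w => (SemidirectProduct.inl w : MG g n Γ) ∈ M) w ?_ ?_
    ?_ ?_
  · rw [map_one]
    exact M.one_mem
  · intro c
    have := hg c c.2
    rw [gen_lt c.2] at this
    exact this
  · intro c hc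
    rw [map_inv]
    exact M.inv_mem hc
  · intro a b ha hb
    rw [map_mul]
    exact M.mul_mem ha hb

/-- The subgroup F of F ⋊ Γ and fixed vectors of the loops. PROOF. {w | ρ (inl w) v = v} is a subgroup of the free group Fr g n and contains all letters gen c (c = 2i, 2i+1 for c < 2g, c = 2g+k), so
it is everything (FreeGroup.closure_range_of, or FreeGroup.induction_on). -/
theorem inl_fixed (Γ : Subgroup (MulAut (Fr g n))) {V : Type u} [AddCommGroup V] [Module ℂ V]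
    (ρ : MG g n Γ →* Module.End ℂ V) (v : V)
    (h1 : ∀ i, i < g → (sys g n Γ).X i ∈ Stab ρ v ∧ (sys g n Γ).Y i ∈ Stab ρ v)
    (h2 : ∀ k, k < n → (sys g n Γ).Z k ∈ Stab ρ v) (w : Fr g n) :
    ρ (SemidirectProduct.inl w) v = v := by
  exact FN1_top Γ (Stab ρ v) h1 h2 w
-- END FN1

-- MODULE FN2
/-- Every representation of dimension between 1 and 4^m - 1 has a non-zero vector fixed by F. PROOF. fixed_vector with sys, sys_rels, FN1. -/
theorem exists_fixed (g n m : ℕ) (hg : 2 * m + 2 ≤ g) (Γ : Subgroup (MulAut (Fr g n)))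
    (hΓ : twists g n ⊆ Γ) {V : Type u} [AddCommGroup V] [Module ℂ V] [FiniteDimensional ℂ V]
    [Nontrivial V] (ρ : MG g n Γ →* Module.End ℂ V) (hV : Module.finrank ℂ V < 4 ^ m) :
    ∃ v : V, v ≠ 0 ∧ ∀ w : Fr g n, ρ (SemidirectProduct.inl w) v = v := by
  obtain ⟨v, hv, h1, h2⟩ := fixed_vector (sys g n Γ) (sys_rels Γ hΓ) m hg ρ hV
  exact ⟨v, hv, fun w => inl_fixed Γ ρ v h1 h2 w⟩
-- END FN2

-- MODULE FN3
/-- If T_(a_0) acts trivially then F and all products of twists act trivially. PROOF. m = 0: dim V < 1, End V is subsingleton. m ≥ 1: 4 ≤ g. M = kernel of ρ (normal; for a monoid homomorphism out of a group to Module.End: ρ.ker), triv_all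
with sys, sys_rels; for φ in the closure: closure_induction; letters as in FN1. -/
theorem all_trivial (g n : ℕ) (hg : 4 ≤ g) (Γ : Subgroup (MulAut (Fr g n)))
    (hΓ : twists g n ⊆ Γ) {V : Type u} [AddCommGroup V] [Module ℂ V]
    (ρ : MG g n Γ →* Module.End ℂ V) (h0 : ρ ((sys g n Γ).T 0 1) = 1) :
    (∀ w : Fr g n, ρ (SemidirectProduct.inl w) = 1) ∧
    ∀ φ : Γ, (φ : MulAut (Fr g n)) ∈ Subgroup.closure (twists g n) →
      ρ (SemidirectProduct.inr φ) = 1 := by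
  obtain ⟨hT, hB, hXY, hZ⟩ := triv_all (sys g n Γ) (sys_rels Γ hΓ) hg (MonoidHom.ker ρ)
    (MonoidHom.mem_ker.2 h0)
  refine ⟨fun w => MonoidHom.mem_ker.1 (FN1_top Γ (MonoidHom.ker ρ) hXY hZ w), ?_⟩
  have hle : Subgroup.closure (twists g n) ≤
      ((MonoidHom.ker ρ).comap (SemidirectProduct.inr : Γ →* MG g n Γ)).map Γ.subtype := by
    rw [Subgroup.closure_le]
    rintro φ (⟨i, hi, rfl⟩ | ⟨s, t, h1, h2, rfl⟩)
    · have hm : Bt i ∈ Γ := hΓ (Or.inl ⟨i, hi, rfl⟩)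
      refine ⟨⟨Bt i, hm⟩, ?_, rfl⟩
      have e : (sys g n Γ).B i = SemidirectProduct.inr ⟨Bt i, hm⟩ := dif_pos hm
      have := hB i hi
      rw [e] at this
      exact this
    · have hm : TP s t ∈ Γ := hΓ (Or.inr ⟨s, t, h1, h2, rfl⟩)
      refine ⟨⟨TP s t, hm⟩, ?_, rfl⟩
      have e : (sys g n Γ).T s t = SemidirectProduct.inr ⟨TP s t, hm⟩ := dif_pos hm
      have := hT s t h1 h2
      rw [e] at this
      exact this
  intro φ hφ
  obtain ⟨ψ, h1, h2⟩ := hle hφ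
  have h3 : ψ = φ := Subtype.ext h2
  rw [← h3]
  exact MonoidHom.mem_ker.1 h1
-- END FN3

-- MODULE FN4
/-- A semisimple endomorphism f with f - 1 nilpotent is 1. PROOF. f - 1 = f - algebraMap 1 is semisimple (Module.End.isSemisimple_sub_algebraMap_iff or IsSemisimple.sub / minpoly), nilpotent and semisimple is 0
(Module.End.eq_zero_of_isNilpotent_isSemisimple). -/
theorem semis_unip {V : Type u} [AddCommGroup V] [Module ℂ V] [FiniteDimensional ℂ V]
    (f : Module.End ℂ V) (h : f.IsSemisimple) (h1 : IsNilpotent (f - 1)) : f = 1 := by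
  have h2 : (f - algebraMap ℂ (Module.End ℂ V) 1).IsSemisimple := by
    rwa [Module.End.isSemisimple_sub_algebraMap_iff]
  rw [map_one] at h2
  exact sub_eq_zero.1 (Module.End.eq_zero_of_isNilpotent_isSemisimple h1 h2)
-- END FN4

-- MODULE FN5
private theorem FN5_conj {Γ : Subgroup (MulAut (Fr g n))} (hΓ : twists g n ⊆ Γ)
    (hg : 0 < g) (t φ : Γ)
    (h : (t : MulAut (Fr g n)) = (φ : MulAut (Fr g n)) * TP 0 1 * (φ : MulAut (Fr g n))⁻¹) :
    (SemidirectProduct.inr t : MG g n Γ) =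
      SemidirectProduct.inr φ * (sys g n Γ).T 0 1 * (SemidirectProduct.inr φ)⁻¹ := by
  have hm : TP 0 1 ∈ Γ := hΓ (Or.inr ⟨0, 1, by omega, by omega, rfl⟩)
  have e : (sys g n Γ).T 0 1 = SemidirectProduct.inr ⟨TP 0 1, hm⟩ := dif_pos hm
  have h1 : t = φ * ⟨TP 0 1, hm⟩ * φ⁻¹ := Subtype.ext h
  rw [e, h1, map_mul, map_mul, map_inv]

private theorem FN5_sub {Γ : Subgroup (MulAut (Fr g n))} {V : Type u} [AddCommGroup V]
    [Module ℂ V] (ρ : MG g n Γ →* Module.End ℂ V) (a b : MG g n Γ) (k : ℕ) :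
    (ρ (a * b * a⁻¹) - 1) ^ k = ρ a * (ρ b - 1) ^ k * ρ a⁻¹ := by
  have h1 : ρ a * ρ a⁻¹ = 1 := by rw [← map_mul]; simp
  have h2 : ρ a⁻¹ * ρ a = 1 := by rw [← map_mul]; simp
  induction k with
  | zero => rw [pow_zero, pow_zero, mul_one, h1]
  | succ k ih =>
    rw [pow_succ, ih, map_mul, map_mul, pow_succ]
    have h3 : ρ a * ρ b * ρ a⁻¹ - 1 = ρ a * (ρ b - 1) * ρ a⁻¹ := by
      rw [mul_sub, sub_mul, mul_one, h1]
    rw [h3]
    calc ρ a * (ρ b - 1) ^ k * ρ a⁻¹ * (ρ a * (ρ b - 1) * ρ a⁻¹)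
        = ρ a * (ρ b - 1) ^ k * (ρ a⁻¹ * ρ a) * (ρ b - 1) * ρ a⁻¹ := by simp only [mul_assoc]
      _ = ρ a * ((ρ b - 1) ^ k * (ρ b - 1)) * ρ a⁻¹ := by
        rw [h2, mul_one]
        simp only [mul_assoc]

/-- THE HIGH GENUS THEOREM. PROOF. (1) t = φ T φ⁻¹ in Γ, so inr t is conjugate to sys.T 0 1 (TP 0 1 ∈ Γ by hΓ), ρ (inr t) - 1 is conjugate to ρ (T 0 1) - 1, unip. (2), (3): fixed_to_unip with N = the range of inl (normal;
d = 4^m, exists_fixed). (4): FN4 for the conjugate gives ρ (T 0 1) = 1, FN3 (m = 0: V trivial, everything is equal). -/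
theorem high_genus (g n m : ℕ) (hg : 2 * m + 2 ≤ g) (Γ : Subgroup (MulAut (Fr g n)))
    (hΓ : twists g n ⊆ Γ) {V : Type u} [AddCommGroup V] [Module ℂ V] [FiniteDimensional ℂ V]
    (ρ : MG g n Γ →* Module.End ℂ V) (hV : Module.finrank ℂ V < 4 ^ m) :
    (∀ t φ : Γ, (t : MulAut (Fr g n)) = (φ : MulAut (Fr g n)) * TP 0 1 * (φ : MulAut (Fr g n))⁻¹ →
      IsNilpotent (ρ (SemidirectProduct.inr t) - 1)) ∧
    (∀ w : Fr g n, IsNilpotent (ρ (SemidirectProduct.inl w) - 1)) ∧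
    ((∀ W : Submodule ℂ V, (∀ x, ∀ w ∈ W, ρ x w ∈ W) → ∃ W' : Submodule ℂ V,
      (∀ x, ∀ w ∈ W', ρ x w ∈ W') ∧ IsCompl W W') →
        ∀ w : Fr g n, ρ (SemidirectProduct.inl w) = 1) ∧
    (∀ t φ : Γ, (t : MulAut (Fr g n)) = (φ : MulAut (Fr g n)) * TP 0 1 * (φ : MulAut (Fr g n))⁻¹ →
      (ρ (SemidirectProduct.inr t)).IsSemisimple →
        (∀ w : Fr g n, ρ (SemidirectProduct.inl w) = 1) ∧
        ∀ ψ : Γ, (ψ : MulAut (Fr g n)) ∈ Subgroup.closure (twists g n) →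
          ρ (SemidirectProduct.inr ψ) = 1) := by
  have hg0 : 0 < g := by omega
  have hU := unip (sys g n Γ) (sys_rels Γ hΓ) m hg ρ hV
  have key : ∀ t φ : Γ,
      (t : MulAut (Fr g n)) = (φ : MulAut (Fr g n)) * TP 0 1 * (φ : MulAut (Fr g n))⁻¹ →
      IsNilpotent (ρ (SemidirectProduct.inr t) - 1) := by
    intro t φ h
    obtain ⟨k, hk⟩ := hU
    refine ⟨k, ?_⟩
    rw [FN5_conj hΓ hg0 t φ h, FN5_sub, hk, mul_zero, zero_mul]
  have : (MonoidHom.range (SemidirectProduct.inl : Fr g n →* MG g n Γ)).Normal := by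
    rw [SemidirectProduct.range_inl_eq_ker_rightHom]
    infer_instance
  have hN := fixed_to_unip (V := V)
    (MonoidHom.range (SemidirectProduct.inl : Fr g n →* MG g n Γ)) (4 ^ m)
    (fun V _ _ _ _ ρ hV => by
      obtain ⟨v, hv, h⟩ := exists_fixed g n m hg Γ hΓ ρ hV
      refine ⟨v, hv, ?_⟩
      rintro _ ⟨w, rfl⟩
      exact h w) ρ hV
  refine ⟨key, fun w => hN.1 _ ⟨w, rfl⟩, fun h w => hN.2 h _ ⟨w, rfl⟩, ?_⟩
  intro t φ h hs
  have h1 := semis_unip _ hs (key t φ h)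
  have h0 : ρ ((sys g n Γ).T 0 1) = 1 := by
    rw [FN5_conj hΓ hg0 t φ h, map_mul, map_mul] at h1
    have e1 : ρ (SemidirectProduct.inr φ) * ρ (SemidirectProduct.inr φ)⁻¹ = 1 := by
      rw [← map_mul]; simp
    have e2 : ρ (SemidirectProduct.inr φ)⁻¹ * ρ (SemidirectProduct.inr φ) = 1 := by
      rw [← map_mul]; simp
    calc ρ ((sys g n Γ).T 0 1) = (ρ (SemidirectProduct.inr φ)⁻¹ * ρ (SemidirectProduct.inr φ)) *
          ρ ((sys g n Γ).T 0 1) *
          (ρ (SemidirectProduct.inr φ)⁻¹ * ρ (SemidirectProduct.inr φ)) := by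
          rw [e2, one_mul, mul_one]
      _ = ρ (SemidirectProduct.inr φ)⁻¹ * (ρ (SemidirectProduct.inr φ) *
          ρ ((sys g n Γ).T 0 1) * ρ (SemidirectProduct.inr φ)⁻¹) *
          ρ (SemidirectProduct.inr φ) := by simp only [mul_assoc]
      _ = 1 := by rw [h1, mul_one, e2]
  rcases Nat.eq_zero_or_pos m with rfl | hm
  · rw [pow_zero, Nat.lt_one_iff] at hV
    have hsub : Subsingleton V := Module.finrank_zero_iff.1 hV
    exact ⟨fun w => Subsingleton.elim _ _, fun ψ _ => Subsingleton.elim _ _⟩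
  · exact all_trivial g n (by omega) Γ hΓ ρ h0
-- END FN5

end Pool.Agent.HG13
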