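import Pool.Agent.HG13.Sys

set_option linter.all false

namespace Pool.Agent.HG13

variable {g n : ℕ} {G : Type*} [Group G]

-- MODULE GH1
private theorem GH1_normal (C M : Subgroup G) (hn : ∀ c ∈ C, ∀ z ∈ M, c * z * c⁻¹ ∈ M) :
    (M.subgroupOf C).Normal :=
  ⟨fun z hz c => by
    rw [Subgroup.mem_subgroupOf] at hz ⊢
    exact hn c c.2 z hz⟩

/-- Auxiliary for GH2: if `x` commutes with `t`, `x` braids with `y`, and `y ≡ t` modulo `M`
(`y * t⁻¹ ∈ M`), where `C` normalises `M` and `x, y, t ∈ C`, then `x ≡ t` modulo `M`.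
PROOF. Modulo M (pass to the quotient of C by M ∩ C, or by hand): x y x = y x y, y = t, x t = t x, so
x x t = t t x.. = x t t, x = t. By hand: put y = m t, m ∈ M. x y x = y x y gives x = y x y (y x)⁻¹...; it is
easier to use the quotient group C ⧸ (M.subgroupOf C), normal because of hn; there the images satisfy
y = t, so Brd x t and Commute x t, so x = t by `Brd.eq`. (QuotientGroup.eq: a⁻¹ * b ∈ N; use
inverses / normality to get the form x * t⁻¹ ∈ M.) -/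
theorem sim_of_brd (C M : Subgroup G) (hn : ∀ c ∈ C, ∀ z ∈ M, c * z * c⁻¹ ∈ M) (x y t : G)
    (hx : x ∈ C) (hy : y ∈ C) (ht : t ∈ C) (hc : Commute x t) (hb : Brd x y)
    (hyt : y * t⁻¹ ∈ M) : x * t⁻¹ ∈ M := by

  haveI := GH1_normal C M hn
  set π := QuotientGroup.mk' (M.subgroupOf C) with hπ
  have key : ∀ a b : C, π a = π b ↔ (a : G) * (b : G)⁻¹ ∈ M := by
    intro a b
    rw [hπ, QuotientGroup.mk'_apply, QuotientGroup.mk'_apply, QuotientGroup.eq_iff_div_mem,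
      Subgroup.mem_subgroupOf, div_eq_mul_inv]
    rfl
  have hyt' : π ⟨y, hy⟩ = π ⟨t, ht⟩ := (key _ _).2 hyt
  have hb' : Brd (π ⟨x, hx⟩) (π ⟨t, ht⟩) := by
    rw [← hyt']
    unfold Brd at hb ⊢
    rw [← map_mul, ← map_mul, ← map_mul, ← map_mul]
    congr 1
    exact Subtype.ext hb
  have hc' : Commute (π ⟨x, hx⟩) (π ⟨t, ht⟩) := by
    have h : Commute (⟨x, hx⟩ : C) ⟨t, ht⟩ := Subtype.ext hc.eq
    exact h.map π
  exact (key ⟨x, hx⟩ ⟨t, ht⟩).1 (hb'.eq hc')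
-- END GH1

-- MODULE GH2
/-- Auxiliary for GH3: modulo `M`, if all of `a, b, c, d, e, f` are `≡ t` (that is `a * t⁻¹ ∈ M` and so on)
and `a b c d = e f l`, `l ≡ t`, then `t ∈ M` (`C` normalises `M`, everything in `C`).
PROOF. In C ⧸ (M.subgroupOf C): t^4 = t^3, so t = 1. -/
theorem lantern_one (C M : Subgroup G) (hn : ∀ c ∈ C, ∀ z ∈ M, c * z * c⁻¹ ∈ M)
    (a b c d e f l t : G) (ha : a ∈ C) (hb : b ∈ C) (hc : c ∈ C) (hd : d ∈ C) (he : e ∈ C)
    (hf : f ∈ C) (hl : l ∈ C) (ht : t ∈ C) (ha' : a * t⁻¹ ∈ M) (hb' : b * t⁻¹ ∈ M)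
    (hc' : c * t⁻¹ ∈ M) (hd' : d * t⁻¹ ∈ M) (he' : e * t⁻¹ ∈ M) (hf' : f * t⁻¹ ∈ M)
    (hl' : l * t⁻¹ ∈ M) (h : a * b * c * d = e * f * l) : t ∈ M := by

  haveI : (M.subgroupOf C).Normal := ⟨fun z hz c => by
    rw [Subgroup.mem_subgroupOf] at hz ⊢
    exact hn c c.2 z hz⟩
  set π := QuotientGroup.mk' (M.subgroupOf C) with hπ
  have key : ∀ a b : C, π a = π b ↔ (a : G) * (b : G)⁻¹ ∈ M := by
    intro a b
    rw [hπ, QuotientGroup.mk'_apply, QuotientGroup.mk'_apply, QuotientGroup.eq_iff_div_mem,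
      Subgroup.mem_subgroupOf, div_eq_mul_inv]
    rfl
  have h1 : (⟨a, ha⟩ : C) * ⟨b, hb⟩ * ⟨c, hc⟩ * ⟨d, hd⟩ = ⟨e, he⟩ * ⟨f, hf⟩ * ⟨l, hl⟩ :=
    Subtype.ext h
  have h2 := congrArg π h1
  simp only [map_mul] at h2
  rw [(key ⟨a, ha⟩ ⟨t, ht⟩).2 ha', (key ⟨b, hb⟩ ⟨t, ht⟩).2 hb', (key ⟨c, hc⟩ ⟨t, ht⟩).2 hc',
    (key ⟨d, hd⟩ ⟨t, ht⟩).2 hd', (key ⟨e, he⟩ ⟨t, ht⟩).2 he', (key ⟨f, hf⟩ ⟨t, ht⟩).2 hf',
    (key ⟨l, hl⟩ ⟨t, ht⟩).2 hl'] at h2
  have h3 : π ⟨t, ht⟩ = π 1 := by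
    rw [map_one]
    exact mul_eq_left.1 h2
  have h4 := (key ⟨t, ht⟩ 1).1 h3
  simpa using h4
-- END GH2

-- MODULE GH3
/-- LEMMA H. `C` normalises `M`; `C` contains the twists `T (4q+3) t` (`2g-4 ≤ t ≤ 2g-1`), `T s t`
(`2g-4 ≤ s < t ≤ 2g-1`), the twists `T_(a_(2q+1)) = T (4q+2) (4q+3)`, `B (2q+1)`, `B (g-2)`, `B (g-1)`, and
`B (2q+1) ≡ T_(a_(2q+1))` modulo `M`. Then `T_(a_(2q+1)) ∈ M`.
PROOF. Put t = T (4q+2) (4q+3) (handle 2q+1, feet 4q+2, 4q+3), h = g-2 (feet 2g-4, 2g-3), handle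
g-1: feet 2g-2, 2g-1. x ≡ y means x * y⁻¹ ∈ M. t commutes with all T s t' (4q+3 ≤ s, by TT) and with
B (g-2), B (g-1) (by TB, 2q+1 < g-2 since 4q+3 ≤ 4m-1 and 2g-4 ≥ 4m), hence with L (4q+3) ... as well.
Use sim_of_brd each time (x commutes with t and braids with some y ≡ t, so x ≡ t):
(1) T (4q+3) t' ≡ t for 2g-4 ≤ t' ≤ 2g-1 (TBs with B (2q+1)): in particular T (4q+3) (2g-3), T (4q+3) (2g-4),
T (4q+3) (2g-1). (2) B (g-2) ≡ t: braids with T (4q+3) (2(g-2)+1) (TBe). (3) T (2g-4) (2g-3) ≡ t (TBe with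
i = g-2, s = 2(g-2)); T (2g-3) (2g-1) ≡ t (TBs, i = g-2). (4) B (g-1) ≡ t: braids with T (2g-3) (2(g-1)+1) (TBe).
(5) T (2g-4) (2g-1) ≡ t (TBe, i = g-1). (6) L (4q+3) (2g-4) (2g-3) (2g-1) ≡ t: braids with B (g-1) by LB
(i = g-1: 2(g-1)+1 = 2g-1), it is in C by Tw.L_mem, it commutes with t. (7) lantern_one with
Tw.lantern (4q+3) (2g-4) (2g-3) (2g-1): T s w, T s t, T t u, T u w, T s u, T t w, L all ≡ t. Hence t ∈ M. -/
theorem lemH (S : Tw g n G) (hS : Rels S) (m q : ℕ) (hg : 2 * m + 2 ≤ g) (hq : q < m)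
    (C M : Subgroup G) (hn : ∀ c ∈ C, ∀ z ∈ M, c * z * c⁻¹ ∈ M)
    (hT1 : ∀ t, 2 * g - 4 ≤ t → t ≤ 2 * g - 1 → S.T (4 * q + 3) t ∈ C)
    (hT2 : ∀ s t, 2 * g - 4 ≤ s → s < t → t ≤ 2 * g - 1 → S.T s t ∈ C)
    (ha : S.T (4 * q + 2) (4 * q + 3) ∈ C) (hB : S.B (2 * q + 1) ∈ C) (hB1 : S.B (g - 2) ∈ C)
    (hB2 : S.B (g - 1) ∈ C) (h : S.B (2 * q + 1) * (S.T (4 * q + 2) (4 * q + 3))⁻¹ ∈ M) :
    S.T (4 * q + 2) (4 * q + 3) ∈ M := by

  have hm : 1 ≤ m := by omega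
  set t := S.T (4 * q + 2) (4 * q + 3) with htdef
  -- the twist `t` commutes with everything
  have cT : ∀ s t', 4 * q + 3 ≤ s → s < t' → t' ≤ 2 * g - 1 → Commute (S.T s t') t := by
    intro s t' h1 h2 h3
    exact (hS.TT (4 * q + 2) (4 * q + 3) s t' (by omega) (by omega) h2 (by omega)
      (Or.inl h1)).symm
  have cB : ∀ i, 2 * q + 1 < i → i < g → Commute (S.B i) t := by
    intro i h1 h2
    exact (hS.TB (4 * q + 2) (4 * q + 3) i (by omega) (by omega) h2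
      (Or.inr (Or.inl (by omega)))).symm
  have htM : t * t⁻¹ ∈ M := by rw [mul_inv_cancel]; exact M.one_mem
  -- (1)
  have s1 : ∀ t', 2 * g - 4 ≤ t' → t' ≤ 2 * g - 1 → S.T (4 * q + 3) t' * t⁻¹ ∈ M := by
    intro t' h1 h2
    refine sim_of_brd C M hn _ (S.B (2 * q + 1)) t (hT1 t' h1 h2) hB ha
      (cT _ _ le_rfl (by omega) h2) ?_ h
    have := hS.TBs (2 * q + 1) t' (by omega) (by omega) (by omega)
    rwa [show 2 * (2 * q + 1) + 1 = 4 * q + 3 by ring] at this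
  -- (2)
  have s2 : S.B (g - 2) * t⁻¹ ∈ M := by
    refine sim_of_brd C M hn _ (S.T (4 * q + 3) (2 * (g - 2) + 1)) t hB1
      (hT1 _ (by omega) (by omega)) ha (cB _ (by omega) (by omega)) ?_
      (s1 _ (by omega) (by omega))
    exact (hS.TBe (g - 2) (4 * q + 3) (by omega) (by omega)).symm
  -- (3)
  have s3 : S.T (2 * g - 4) (2 * g - 3) * t⁻¹ ∈ M := by
    refine sim_of_brd C M hn _ (S.B (g - 2)) t (hT2 _ _ (by omega) (by omega) (by omega)) hB1 ha
      (cT _ _ (by omega) (by omega) (by omega)) ?_ s2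
    have := hS.TBe (g - 2) (2 * g - 4) (by omega) (by omega)
    rwa [show 2 * (g - 2) + 1 = 2 * g - 3 by omega] at this
  have s3' : S.T (2 * g - 3) (2 * g - 1) * t⁻¹ ∈ M := by
    refine sim_of_brd C M hn _ (S.B (g - 2)) t (hT2 _ _ (by omega) (by omega) (by omega)) hB1 ha
      (cT _ _ (by omega) (by omega) (by omega)) ?_ s2
    have := hS.TBs (g - 2) (2 * g - 1) (by omega) (by omega) (by omega)
    rwa [show 2 * (g - 2) + 1 = 2 * g - 3 by omega] at this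
  -- (4)
  have s4 : S.B (g - 1) * t⁻¹ ∈ M := by
    refine sim_of_brd C M hn _ (S.T (2 * g - 3) (2 * g - 1)) t hB2
      (hT2 _ _ (by omega) (by omega) (by omega)) ha (cB _ (by omega) (by omega)) ?_ s3'
    have := (hS.TBe (g - 1) (2 * g - 3) (by omega) (by omega)).symm
    rwa [show 2 * (g - 1) + 1 = 2 * g - 1 by omega] at this
  -- (5)
  have s5 : S.T (2 * g - 4) (2 * g - 1) * t⁻¹ ∈ M := by
    refine sim_of_brd C M hn _ (S.B (g - 1)) t (hT2 _ _ (by omega) (by omega) (by omega)) hB2 ha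
      (cT _ _ (by omega) (by omega) (by omega)) ?_ s4
    have := hS.TBe (g - 1) (2 * g - 4) (by omega) (by omega)
    rwa [show 2 * (g - 1) + 1 = 2 * g - 1 by omega] at this
  -- (6)
  have hLC : S.L (4 * q + 3) (2 * g - 4) (2 * g - 3) (2 * g - 1) ∈ C :=
    S.L_mem _ _ _ _ C (hT2 _ _ (by omega) (by omega) (by omega)) (hT1 _ (by omega) (by omega))
      (hT1 _ (by omega) (by omega)) (hT1 _ (by omega) (by omega))
      (hT2 _ _ (by omega) (by omega) (by omega)) (hT2 _ _ (by omega) (by omega) (by omega))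
  have hLc : Commute (S.L (4 * q + 3) (2 * g - 4) (2 * g - 3) (2 * g - 1)) t := by
    unfold Tw.L
    refine Commute.mul_left (Commute.mul_left (Commute.mul_left (Commute.mul_left
      (Commute.mul_left ?_ ?_) ?_) ?_) ?_) ?_
    · exact (cT _ _ (by omega) (by omega) (by omega)).inv_left
    · exact (cT _ _ (by omega) (by omega) (by omega)).inv_left
    · exact cT _ _ (by omega) (by omega) (by omega)
    · exact cT _ _ (by omega) (by omega) (by omega)
    · exact cT _ _ (by omega) (by omega) (by omega)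
    · exact cT _ _ (by omega) (by omega) (by omega)
  have s6 : S.L (4 * q + 3) (2 * g - 4) (2 * g - 3) (2 * g - 1) * t⁻¹ ∈ M := by
    refine sim_of_brd C M hn _ (S.B (g - 1)) t hLC hB2 ha hLc ?_ s4
    have := hS.LB (4 * q + 3) (2 * g - 4) (2 * g - 3) (g - 1) (by omega) (by omega) (by omega)
      (by omega)
    rwa [show 2 * (g - 1) + 1 = 2 * g - 1 by omega] at this
  -- (7)
  exact lantern_one C M hn _ _ _ _ _ _ _ t (hT1 (2 * g - 1) (by omega) (by omega))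
    (hT1 (2 * g - 4) (by omega) (by omega)) (hT2 (2 * g - 4) (2 * g - 3) (by omega) (by omega)
    (by omega)) (hT2 (2 * g - 3) (2 * g - 1) (by omega) (by omega) (by omega))
    (hT1 (2 * g - 3) (by omega) (by omega)) (hT2 (2 * g - 4) (2 * g - 1) (by omega) (by omega)
    (by omega)) hLC ha (s1 _ (by omega) (by omega)) (s1 _ (by omega) (by omega)) s3 s3'
    (s1 _ (by omega) (by omega)) s5 s6
    (S.lantern (4 * q + 3) (2 * g - 4) (2 * g - 3) (2 * g - 1))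
-- END GH3

-- MODULE GE1
/-- LEMMA E, first half. `C` normalises `M`; `C` contains all `T s t`, and `B k`, `B (g-2)`, `B (g-1)`,
where `k + 2 < g`; `T_(a_k) ∈ M`. Then `B k, B (g-2), B (g-1) ∈ M`, every `T s (2g-3)`, `T s (2g-1)`
(ending at the foot g-2 or g-1), every `T (2g-3) t`, `T (2g-1) t`, and every `T s (2g-4)` is in `M`.
PROOF. `Brd.mem` (with hn) each time. B k: TBe (i = k, s = 2k): braids with T (2k) (2k+1) ∈ M.
T (2k+1) (2g-3): TBs (braids with B k); B (g-2): TBe (2(g-2)+1 = 2g-3). Then every T s (2g-3) (TBe, i = g-2)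
and every T (2g-3) t (TBs, i = g-2) is in M; T (2g-3) (2g-1) ∈ M; B (g-1) by TBe (i = g-1); every
T s (2g-1) (TBe), every T (2g-1) t (TBs, i = g-1). Last: T s (2g-4) for s < 2g-4: lantern with blocks [s,2g-4),
[2g-4,2g-3), [2g-3,2g-1): T s (2g-1), T (2g-4) (2g-3), T (2g-3) (2g-1), T s (2g-3), T (2g-4) (2g-1) ∈ M and
L s (2g-4) (2g-3) (2g-1) ∈ M (it is in C by L_mem and braids with B (g-1), LB with i = g-1), so
T s (2g-4) = (T s w)⁻¹ (T s u) (T t w) L (T u w)⁻¹ (T t u)⁻¹ ∈ M by Tw.lantern. -/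
theorem lemE1 (S : Tw g n G) (hS : Rels S) (k : ℕ) (hk : k + 2 < g)
    (C M : Subgroup G) (hn : ∀ c ∈ C, ∀ z ∈ M, c * z * c⁻¹ ∈ M)
    (hT : ∀ s t, s < t → t ≤ 2 * g + n → S.T s t ∈ C)
    (hB : S.B k ∈ C) (hB1 : S.B (g - 2) ∈ C)
    (hB2 : S.B (g - 1) ∈ C) (h0 : S.T (2 * k) (2 * k + 1) ∈ M) :
    S.B k ∈ M ∧ S.B (g - 2) ∈ M ∧ S.B (g - 1) ∈ M ∧ (∀ s, s < 2 * g - 3 → S.T s (2 * g - 3) ∈ M) ∧
    (∀ s, s < 2 * g - 1 → S.T s (2 * g - 1) ∈ M) ∧
    (∀ t, 2 * g - 3 < t → t ≤ 2 * g + n → S.T (2 * g - 3) t ∈ M) ∧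
    (∀ t, 2 * g - 1 < t → t ≤ 2 * g + n → S.T (2 * g - 1) t ∈ M) ∧
    (∀ s, s < 2 * g - 4 → S.T s (2 * g - 4) ∈ M) := by
  have e3 : 2 * (g - 2) + 1 = 2 * g - 3 := by omega
  have e1 : 2 * (g - 1) + 1 = 2 * g - 1 := by omega
  have hBk : S.B k ∈ M :=
    (hS.TBe k (2 * k) (by omega) (by omega)).mem hn (hT _ _ (by omega) (by omega)) hB h0
  have h1 : S.T (2 * k + 1) (2 * g - 3) ∈ M :=
    (hS.TBs k (2 * g - 3) (by omega) (by omega) (by omega)).mem' hn
      (hT _ _ (by omega) (by omega)) hB hBk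
  have hBe2 : ∀ s, s < 2 * g - 3 → Brd (S.T s (2 * g - 3)) (S.B (g - 2)) := by
    intro s hs
    have := hS.TBe (g - 2) s (by omega) (by omega)
    rwa [e3] at this
  have hBe1 : ∀ s, s < 2 * g - 1 → Brd (S.T s (2 * g - 1)) (S.B (g - 1)) := by
    intro s hs
    have := hS.TBe (g - 1) s (by omega) (by omega)
    rwa [e1] at this
  have hBs2 : ∀ t, 2 * g - 3 < t → t ≤ 2 * g + n → Brd (S.T (2 * g - 3) t) (S.B (g - 2)) := by
    intro t ht ht'
    have := hS.TBs (g - 2) t (by omega) (by omega) ht'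
    rwa [e3] at this
  have hBs1 : ∀ t, 2 * g - 1 < t → t ≤ 2 * g + n → Brd (S.T (2 * g - 1) t) (S.B (g - 1)) := by
    intro t ht ht'
    have := hS.TBs (g - 1) t (by omega) (by omega) ht'
    rwa [e1] at this
  have hB2M : S.B (g - 2) ∈ M :=
    (hBe2 _ (by omega)).mem hn (hT _ _ (by omega) (by omega)) hB1 h1
  have hTe2 : ∀ s, s < 2 * g - 3 → S.T s (2 * g - 3) ∈ M := fun s hs =>
    (hBe2 s hs).mem' hn (hT _ _ (by omega) (by omega)) hB1 hB2M
  have hTs2 : ∀ t, 2 * g - 3 < t → t ≤ 2 * g + n → S.T (2 * g - 3) t ∈ M := fun t ht ht' =>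
    (hBs2 t ht ht').mem' hn (hT _ _ ht ht') hB1 hB2M
  have hB1M : S.B (g - 1) ∈ M :=
    (hBe1 (2 * g - 3) (by omega)).mem hn (hT _ _ (by omega) (by omega)) hB2
      (hTs2 _ (by omega) (by omega))
  have hTe1 : ∀ s, s < 2 * g - 1 → S.T s (2 * g - 1) ∈ M := fun s hs =>
    (hBe1 s hs).mem' hn (hT _ _ (by omega) (by omega)) hB2 hB1M
  have hTs1 : ∀ t, 2 * g - 1 < t → t ≤ 2 * g + n → S.T (2 * g - 1) t ∈ M := fun t ht ht' =>
    (hBs1 t ht ht').mem' hn (hT _ _ ht ht') hB2 hB1M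
  refine ⟨hBk, hB2M, hB1M, hTe2, hTe1, hTs2, hTs1, ?_⟩
  intro s hs
  have hLC : S.L s (2 * g - 4) (2 * g - 3) (2 * g - 1) ∈ C := by
    apply S.L_mem <;> exact hT _ _ (by omega) (by omega)
  have hLM : S.L s (2 * g - 4) (2 * g - 3) (2 * g - 1) ∈ M := by
    have := hS.LB s (2 * g - 4) (2 * g - 3) (g - 1) hs (by omega) (by omega) (by omega)
    rw [e1] at this
    exact this.mem' hn hLC hB2 hB1M
  have hl := S.lantern s (2 * g - 4) (2 * g - 3) (2 * g - 1)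
  have : S.T s (2 * g - 4) = (S.T s (2 * g - 1))⁻¹ * (S.T s (2 * g - 3) *
      S.T (2 * g - 4) (2 * g - 1) * S.L s (2 * g - 4) (2 * g - 3) (2 * g - 1)) *
      (S.T (2 * g - 3) (2 * g - 1))⁻¹ * (S.T (2 * g - 4) (2 * g - 3))⁻¹ := by
    rw [← hl]; group
  rw [this]
  exact M.mul_mem (M.mul_mem (M.mul_mem (M.inv_mem (hTe1 _ (by omega)))
    (M.mul_mem (M.mul_mem (hTe2 _ (by omega)) (hTe1 _ (by omega))) hLM))
    (M.inv_mem (hTe1 _ (by omega)))) (M.inv_mem (hTe2 _ (by omega)))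
-- END GE1

-- MODULE GE2
/-- LEMMA E, second step: all `T_(a_j)` are in `M`.
PROOF. Take lemE1. For j = g-1: T (2g-2) (2g-1) ends at 2g-1. j = g-2: T (2g-4) (2g-3). j = g-3: T (2g-6) (2g-5)
= T (2g-5) (2g-4) (aa, i = g-3) ends at 2g-4. j ≤ g-4: lantern with the blocks [2j+1,2j+2), [2j+2,2g-4), [2g-4,2g-3):
T (2j+1) (2g-3), T (2j+2) (2g-4), T (2g-4) (2g-3), T (2j+1) (2g-4), T (2j+2) (2g-3) ∈ M, and
L (2j+1) (2j+2) (2g-4) (2g-3) ∈ M (it is in C, and braids with B (g-2) ∈ M by LB, i = g-2). So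
T (2j+1) (2j+2) ∈ M, and T (2j) (2j+1) = T (2j+1) (2j+2) by aa. -/
theorem lemE2 (S : Tw g n G) (hS : Rels S) (k : ℕ) (hk : k + 2 < g)
    (C M : Subgroup G) (hn : ∀ c ∈ C, ∀ z ∈ M, c * z * c⁻¹ ∈ M)
    (hT : ∀ s t, s < t → t ≤ 2 * g + n → S.T s t ∈ C)
    (hB : S.B k ∈ C) (hB1 : S.B (g - 2) ∈ C)
    (hB2 : S.B (g - 1) ∈ C) (h0 : S.T (2 * k) (2 * k + 1) ∈ M) :
    ∀ j, j < g → S.T (2 * j) (2 * j + 1) ∈ M := by
  obtain ⟨hBk, hB2M, hB1M, hTe2, hTe1, hTs2, hTs1, hT4⟩ :=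
    lemE1 S hS k hk C M hn hT hB hB1 hB2 h0
  intro j hj
  have e3 : 2 * (g - 2) + 1 = 2 * g - 3 := by omega
  have e1 : 2 * (g - 1) + 1 = 2 * g - 1 := by omega
  by_cases c1 : j = g - 1
  · rw [show 2 * j + 1 = 2 * g - 1 by omega]
    exact hTe1 _ (by omega)
  by_cases c2 : j = g - 2
  · rw [show 2 * j + 1 = 2 * g - 3 by omega]
    exact hTe2 _ (by omega)
  rw [hS.aa j hj]
  by_cases c3 : j = g - 3
  · rw [show 2 * j + 2 = 2 * g - 4 by omega]
    exact hT4 _ (by omega)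
  have hLC : S.L (2 * j + 1) (2 * j + 2) (2 * g - 4) (2 * g - 3) ∈ C := by
    apply S.L_mem <;> exact hT _ _ (by omega) (by omega)
  have hLM : S.L (2 * j + 1) (2 * j + 2) (2 * g - 4) (2 * g - 3) ∈ M := by
    have := hS.LB (2 * j + 1) (2 * j + 2) (2 * g - 4) (g - 2) (by omega) (by omega) (by omega)
      (by omega)
    rw [e3] at this
    exact this.mem' hn hLC hB1 hB2M
  have hl := S.lantern (2 * j + 1) (2 * j + 2) (2 * g - 4) (2 * g - 3)
  have : S.T (2 * j + 1) (2 * j + 2) = (S.T (2 * j + 1) (2 * g - 3))⁻¹ *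
      (S.T (2 * j + 1) (2 * g - 4) * S.T (2 * j + 2) (2 * g - 3) *
      S.L (2 * j + 1) (2 * j + 2) (2 * g - 4) (2 * g - 3)) *
      (S.T (2 * g - 4) (2 * g - 3))⁻¹ * (S.T (2 * j + 2) (2 * g - 4))⁻¹ := by
    rw [← hl]; group
  rw [this]
  exact M.mul_mem (M.mul_mem (M.mul_mem (M.inv_mem (hTe2 _ (by omega)))
    (M.mul_mem (M.mul_mem (hT4 _ (by omega)) (hTe2 _ (by omega))) hLM))
    (M.inv_mem (hTe2 _ (by omega)))) (M.inv_mem (hT4 _ (by omega)))
-- END GE2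

-- MODULE GE3
/-- LEMMA E. `J ⊆ {0, ..., m-1}`, `q < m`, `q ∉ J`; `C` normalises `M`, contains all `T s t`, `P`, and
the `B i` with `i ∉ 2J`; `T_(a_(2q)) ∈ M`. Then `M` contains gens(J).
PROOF. Take lemE1, lemE2 with k = 2q (2q + 2 < g; g-2 and g-1 are not in 2J since 2r ≤ 2m-2 < g-2).
a: lemE2. b: i < g, i ∉ 2J: B i braids with T (2i) (2i+1) ∈ M (TBe). e: i + 1 < g: if i is odd then i ∉ 2J,
B i ∈ M and T (2i+1) (2i+3) braids with B i (TBs); if i is even then i+1 is odd, B (i+1) ∈ M and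
T (2i+1) (2(i+1)+1) braids with B (i+1) (TBe). q: T (4q) (4q+3) = T (4q) (2(2q+1)+1) braids with B (2q+1) (TBe).
q', r: T (4q+3) _ = T (2(2q+1)+1) _ braids with B (2q+1) (TBs). f: k = 0 with T (2g-1) (2g) = T (2(g-1)) (2(g-1)+1)
or directly lemE1: T (2g-1) (2g+k) ∈ M. p: PB: P braids with B (g-1) ∈ M. -/
theorem lemE (S : Tw g n G) (hS : Rels S) (m : ℕ) (hg : 2 * m + 2 ≤ g) (J : Finset ℕ)
    (hJ : ∀ r ∈ J, r < m) (q : ℕ) (hq : q < m) (hqJ : q ∉ J)
    (C M : Subgroup G) (hn : ∀ c ∈ C, ∀ z ∈ M, c * z * c⁻¹ ∈ M)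
    (hT : ∀ s t, s < t → t ≤ 2 * g + n → S.T s t ∈ C) (hP : S.P ∈ C)
    (hB : ∀ i, i < g → (∀ r ∈ J, i ≠ 2 * r) → S.B i ∈ C)
    (h0 : S.T (4 * q) (4 * q + 1) ∈ M) : Has S m J M := by
  have hJ2 : ∀ i, 2 * m ≤ i + 1 → i < g → ∀ r ∈ J, i ≠ 2 * r := by
    intro i hi _ r hr
    have := hJ r hr
    omega
  have hodd : ∀ i, i % 2 = 1 → ∀ r ∈ J, i ≠ 2 * r := by
    intro i hi r _
    omega
  have hBk : S.B (2 * q) ∈ C := hB (2 * q) (by omega) (by
    intro r hr h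
    have : q = r := by omega
    exact hqJ (this ▸ hr))
  have hB1 : S.B (g - 2) ∈ C := hB (g - 2) (by omega) (hJ2 _ (by omega) (by omega))
  have hB2 : S.B (g - 1) ∈ C := hB (g - 1) (by omega) (hJ2 _ (by omega) (by omega))
  have h0' : S.T (2 * (2 * q)) (2 * (2 * q) + 1) ∈ M := by
    rw [show 2 * (2 * q) = 4 * q by omega]
    exact h0
  obtain ⟨e1, e2, e3, e4, e5, e6, e7, e8⟩ := lemE1 S hS (2 * q) (by omega) C M hn hT hBk hB1 hB2 h0'
  have ea := lemE2 S hS (2 * q) (by omega) C M hn hT hBk hB1 hB2 h0'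
  have eb : ∀ i, i < g → (∀ q ∈ J, i ≠ 2 * q) → S.B i ∈ M := by
    intro i hi hiJ
    exact (hS.TBe i (2 * i) hi (by omega)).mem hn (hT _ _ (by omega) (by omega)) (hB i hi hiJ)
      (ea i hi)
  refine ⟨ea, eb, ?_, ?_, ?_, ?_, ?_, ?_⟩
  · intro i hi
    rcases Nat.mod_two_eq_zero_or_one i with h | h
    · have h1 := eb (i + 1) (by omega) (hodd (i + 1) (by omega))
      exact (hS.TBe (i + 1) (2 * i + 1) (by omega) (by omega)).mem' hn
        (hT _ _ (by omega) (by omega)) (hB (i + 1) (by omega) (hodd (i + 1) (by omega))) h1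
    · have h1 := eb i (by omega) (hodd i h)
      exact (hS.TBs i (2 * i + 3) (by omega) (by omega) (by omega)).mem' hn
        (hT _ _ (by omega) (by omega)) (hB i (by omega) (hodd i h)) h1
  · intro j hj
    have h1 := eb (2 * j + 1) (by omega) (hodd _ (by omega))
    have h2 := (hS.TBe (2 * j + 1) (4 * j) (by omega) (by omega)).mem' hn
      (hT _ _ (by omega) (by omega)) (hB (2 * j + 1) (by omega) (hodd _ (by omega))) h1
    rw [show 2 * (2 * j + 1) + 1 = 4 * j + 3 by omega] at h2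
    exact h2
  · intro j hj
    have h1 := eb (2 * j + 1) (by omega) (hodd _ (by omega))
    have h2 := (hS.TBs (2 * j + 1) (4 * j + 6) (by omega) (by omega) (by omega)).mem' hn
      (hT _ _ (by omega) (by omega)) (hB (2 * j + 1) (by omega) (hodd _ (by omega))) h1
    rw [show 2 * (2 * j + 1) + 1 = 4 * j + 3 by omega] at h2
    exact h2
  · intro j hj
    have h1 := eb (2 * j + 1) (by omega) (hodd _ (by omega))
    have h2 := (hS.TBs (2 * j + 1) (4 * j + 7) (by omega) (by omega) (by omega)).mem' hn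
      (hT _ _ (by omega) (by omega)) (hB (2 * j + 1) (by omega) (hodd _ (by omega))) h1
    rw [show 2 * (2 * j + 1) + 1 = 4 * j + 3 by omega] at h2
    exact h2
  · intro k hk
    exact e7 (2 * g + k) (by omega) (by omega)
  · exact (hS.PB (by omega)).mem' hn hP hB2 e3
-- END GE3

-- MODULE GT1
/-- One step of transport through a handle `j` with `B j` available, from the foot `2j+1` or `2j`.
(i) `B j ∈ M`, `al (2j+1) ∈ M` imply `Y j ∈ M` and `X j ∈ M`; (ii) `B j ∈ M`, `X j ∈ M` imply `Y j ∈ M`.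
PROOF. al (2j+1) = Y⁻¹ X⁻¹ Y (al_odd). B al B⁻¹ = Y⁻¹ (X Y⁻¹)⁻¹ Y = X⁻¹ Y (BX, BY) = Y * al (2j+1).
So Y = (B al B⁻¹) al⁻¹ ∈ M, X = Y al⁻¹ Y⁻¹ ∈ M. (ii) B X B⁻¹ = X Y⁻¹. -/
theorem handle (S : Tw g n G) (hS : Rels S) (j : ℕ) (hj : j < g) (M : Subgroup G)
    (hB : S.B j ∈ M) :
    (S.al (2 * j + 1) ∈ M → S.Y j ∈ M ∧ S.X j ∈ M) ∧ (S.X j ∈ M → S.Y j ∈ M) := by
  have hBY : S.B j * S.Y j * (S.B j)⁻¹ = S.Y j := by
    rw [(hS.BY j j hj hj).eq]
    group
  have hBX := hS.BX j hj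
  have e1 : S.B j * ((S.Y j)⁻¹ * (S.X j)⁻¹ * S.Y j) * (S.B j)⁻¹ = S.Y j * S.al (2 * j + 1) := by
    have e2 : S.B j * ((S.Y j)⁻¹ * (S.X j)⁻¹ * S.Y j) * (S.B j)⁻¹ =
        (S.B j * S.Y j * (S.B j)⁻¹)⁻¹ * (S.B j * S.X j * (S.B j)⁻¹)⁻¹ *
          (S.B j * S.Y j * (S.B j)⁻¹) := by group
    rw [e2, hBY, hBX, S.al_odd j hj]
    group
  constructor
  · intro hal
    have h1 : S.B j * ((S.Y j)⁻¹ * (S.X j)⁻¹ * S.Y j) * (S.B j)⁻¹ ∈ M := by
      rw [← S.al_odd j hj]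
      exact M.mul_mem (M.mul_mem hB hal) (M.inv_mem hB)
    rw [e1] at h1
    have hY : S.Y j ∈ M := by
      have h2 := M.mul_mem h1 (M.inv_mem hal)
      rwa [mul_inv_cancel_right] at h2
    refine ⟨hY, ?_⟩
    have h3 := M.mul_mem (M.mul_mem hY hal) (M.inv_mem hY)
    rw [S.al_odd j hj] at h3
    have h4 : S.Y j * ((S.Y j)⁻¹ * (S.X j)⁻¹ * S.Y j) * (S.Y j)⁻¹ = (S.X j)⁻¹ := by group
    rw [h4] at h3
    exact M.inv_mem_iff.1 h3
  · intro hX
    have h1 := M.mul_mem (M.mul_mem hB hX) (M.inv_mem hB)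
    rw [hBX] at h1
    have h2 := M.mul_mem (M.inv_mem hX) h1
    rw [inv_mul_cancel_left] at h2
    exact M.inv_mem_iff.1 h2
-- END GT1

-- MODULE GT2
/-- Loops around intervals, from the letters `Y i`: if `T s t, Y i ∈ M` and exactly one foot of `i` is in
`[s,t)` then `Al s t ∈ M`. PROOF. TY: T Y T⁻¹ = Al * Y (only 2i inside) or Y * Al⁻¹ (only 2i+1). -/
theorem loop_mem (S : Tw g n G) (hS : Rels S) (s t i : ℕ) (hs : s < t) (ht : t ≤ 2 * g + n)
    (hi : i < g) (h : (s ≤ 2 * i ∧ 2 * i + 1 = t) ∨ (s = 2 * i + 1)) (M : Subgroup G)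
    (hT : S.T s t ∈ M) (hY : S.Y i ∈ M) : S.Al s t ∈ M := by
  have h1 := M.mul_mem (M.mul_mem hT hY) (M.inv_mem hT)
  rw [hS.TY s t i hs ht hi] at h1
  rcases h with ⟨h2, h3⟩ | h2
  · rw [if_pos ⟨h2, by omega⟩, if_neg (by omega), inv_one, mul_one] at h1
    have h4 := M.mul_mem h1 (M.inv_mem hY)
    rwa [mul_inv_cancel_right] at h4
  · rw [if_neg (by omega), if_pos ⟨by omega, by omega⟩, one_mul] at h1
    have h4 := M.mul_mem (M.inv_mem hY) h1
    rw [inv_mul_cancel_left] at h4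
    exact M.inv_mem_iff.1 h4
-- END GT2

-- MODULE GT3
private theorem GT3_X (S : Tw g n G) (hS : Rels S) (i : ℕ) (hi : i < g) (M : Subgroup G)
    (ha : S.T (2 * i) (2 * i + 1) ∈ M) (hY : S.Y i ∈ M) : S.X i ∈ M := by
  have h1 := loop_mem S hS (2 * i) (2 * i + 1) i (by omega) (by omega) hi (Or.inl ⟨le_rfl, rfl⟩) M
    ha hY
  rwa [S.Al_one, S.al_even i hi] at h1

/-- The move to the left over a pair of handles `2q, 2q+1` (and `2q-1` if `0 < q`), from `Y (2q+1) ∈ M`.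
Suppose `M` contains all `T_(a)`, the `e_i`, `B i` for `i` odd, and
`T (4q) (4q+3)`, and, if 0 < q, `T (4q-1) (4q+3)`. Then the foot loops `al (4q), al (4q+1)` are in
`M` (and `X (2q-1), Y (2q-1) ∈ M` if `0 < q`); if moreover `B (2q) ∈ M` then `Y (2q) ∈ M`.
PROOF. X (2q+1) ∈ M because T_(a) Y T_(a)⁻¹ = X Y (TY with s = 2i, t = 2i+1, Al_one, al_even, i = 2q+1). e:
T (4q+1) (4q+3) contains only the foot 4q+2 = 2(2q+1) of the handle 2q+1: loop_mem: Al (4q+1) (4q+3) =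
al (4q+1) * X (2q+1) ∈ M, so al (4q+1) ∈ M. T (4q) (4q+3): Al = al (4q) al (4q+1) X (2q+1), so al (4q) = X (2q) ∈ M.
T (4q-1) (4q+3): al (4q-1) ∈ M, so (handle, j = 2q-1, al (2j+1)) Y (2q-1), X (2q-1) ∈ M. If B (2q) ∈ M: Y (2q) ∈ M by
handle (ii). -/
theorem move_left (S : Tw g n G) (hS : Rels S) (q : ℕ) (hq : 2 * q + 1 < g) (M : Subgroup G)
    (ha : S.T (4 * q + 2) (4 * q + 3) ∈ M) (he : S.T (4 * q + 1) (4 * q + 3) ∈ M)
    (hq' : S.T (4 * q) (4 * q + 3) ∈ M)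
    (hr : 0 < q → S.T (4 * q - 1) (4 * q + 3) ∈ M ∧ S.B (2 * q - 1) ∈ M)
    (hY : S.Y (2 * q + 1) ∈ M) :
    S.al (4 * q) ∈ M ∧ S.al (4 * q + 1) ∈ M ∧ S.X (2 * q + 1) ∈ M ∧
    (0 < q → S.X (2 * q - 1) ∈ M ∧ S.Y (2 * q - 1) ∈ M) ∧
    (S.B (2 * q) ∈ M → S.Y (2 * q) ∈ M) := by
  have e1 : 2 * (2 * q + 1) = 4 * q + 2 := by omega
  have hX : S.X (2 * q + 1) ∈ M := GT3_X S hS (2 * q + 1) hq M (by rw [e1]; exact ha) hY
  have hal2 : S.al (4 * q + 2) ∈ M := by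
    rw [← e1, S.al_even (2 * q + 1) hq]
    exact hX
  have h1 := loop_mem S hS (4 * q + 1) (4 * q + 3) (2 * q + 1) (by omega) (by omega) hq
    (Or.inl ⟨by omega, by omega⟩) M he hY
  have hal1 : S.al (4 * q + 1) ∈ M := by
    rw [S.Al_cons _ _ (by omega), S.Al_one] at h1
    exact (M.mul_mem_cancel_right hal2).1 h1
  have h2 := loop_mem S hS (4 * q) (4 * q + 3) (2 * q + 1) (by omega) (by omega) hq
    (Or.inl ⟨by omega, by omega⟩) M hq' hY
  have hal0 : S.al (4 * q) ∈ M := by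
    rw [S.Al_cons _ _ (by omega)] at h2
    exact (M.mul_mem_cancel_right h1).1 h2
  refine ⟨hal0, hal1, hX, ?_, ?_⟩
  · intro hq0
    obtain ⟨hr1, hr2⟩ := hr hq0
    have h3 := loop_mem S hS (4 * q - 1) (4 * q + 3) (2 * q + 1) (by omega) (by omega) hq
      (Or.inl ⟨by omega, by omega⟩) M hr1 hY
    rw [S.Al_cons _ _ (by omega), show 4 * q - 1 + 1 = 4 * q by omega] at h3
    have h4 := (M.mul_mem_cancel_right h2).1 h3
    rw [show 4 * q - 1 = 2 * (2 * q - 1) + 1 by omega] at h4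
    obtain ⟨h5, h6⟩ := (handle S hS (2 * q - 1) (by omega) M hr2).1 h4
    exact ⟨h6, h5⟩
  · intro hB
    refine (handle S hS (2 * q) (by omega) M hB).2 ?_
    rw [← S.al_even (2 * q) (by omega), show 2 * (2 * q) = 4 * q by omega]
    exact hal0
-- END GT3

-- MODULE GT4
private theorem GT4_X (S : Tw g n G) (hS : Rels S) (i : ℕ) (hi : i < g) (M : Subgroup G)
    (ha : S.T (2 * i) (2 * i + 1) ∈ M) (hY : S.Y i ∈ M) : S.X i ∈ M := by
  have h1 := loop_mem S hS (2 * i) (2 * i + 1) i (by omega) (by omega) hi (Or.inl ⟨le_rfl, rfl⟩) M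
    ha hY
  rwa [S.Al_one, S.al_even i hi] at h1

/-- The move to the right over the pair of handles `2q, 2q+1` (`0 < q`), from `Y (2q-1) ∈ M`.
PROOF. al (4q-1) = Y⁻¹ X⁻¹ Y ∈ M (i = 2q-1) where X (2q-1) ∈ M as T_(a) Y T_(a)⁻¹ = X Y. e: T (4q-1) (4q+1)
starts at 4q-1 = 2(2q-1)+1: loop_mem: al (4q-1) al (4q) ∈ M, so al (4q) ∈ M. T (4q-1) (4q+2): al (4q+1) ∈ M.
T (4q-1) (4q+3): al (4q+2) = X (2q+1) ∈ M; handle (ii) with B (2q+1): Y (2q+1) ∈ M. If B (2q) ∈ M: Y (2q) ∈ M. -/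
theorem move_right (S : Tw g n G) (hS : Rels S) (q : ℕ) (hq0 : 0 < q) (hq : 2 * q + 1 < g)
    (M : Subgroup G)
    (ha : S.T (4 * q - 2) (4 * q - 1) ∈ M) (he : S.T (4 * q - 1) (4 * q + 1) ∈ M)
    (hq' : S.T (4 * q - 1) (4 * q + 2) ∈ M) (hr : S.T (4 * q - 1) (4 * q + 3) ∈ M)
    (hB : S.B (2 * q + 1) ∈ M) (hY : S.Y (2 * q - 1) ∈ M) :
    S.al (4 * q) ∈ M ∧ S.al (4 * q + 1) ∈ M ∧ S.X (2 * q + 1) ∈ M ∧ S.Y (2 * q + 1) ∈ M ∧
    (S.B (2 * q) ∈ M → S.Y (2 * q) ∈ M) := by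
  have hX : S.X (2 * q - 1) ∈ M := GT4_X S hS (2 * q - 1) (by omega) M (by
    rw [show 2 * (2 * q - 1) = 4 * q - 2 by omega, show 4 * q - 2 + 1 = 4 * q - 1 by omega]
    exact ha) hY
  have hal : S.al (4 * q - 1) ∈ M := by
    rw [show 4 * q - 1 = 2 * (2 * q - 1) + 1 by omega, S.al_odd _ (by omega)]
    exact M.mul_mem (M.mul_mem (M.inv_mem hY) (M.inv_mem hX)) hY
  have h1 := loop_mem S hS (4 * q - 1) (4 * q + 1) (2 * q - 1) (by omega) (by omega) (by omega)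
    (Or.inr (by omega)) M he hY
  have h2 := loop_mem S hS (4 * q - 1) (4 * q + 2) (2 * q - 1) (by omega) (by omega) (by omega)
    (Or.inr (by omega)) M hq' hY
  have h3 := loop_mem S hS (4 * q - 1) (4 * q + 3) (2 * q - 1) (by omega) (by omega) (by omega)
    (Or.inr (by omega)) M hr hY
  have hal0 : S.al (4 * q) ∈ M := by
    have h4 := h1
    rw [S.Al_cons _ _ (by omega), show 4 * q - 1 + 1 = 4 * q by omega, S.Al_one] at h4
    exact (M.mul_mem_cancel_left hal).1 h4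
  have hal1 : S.al (4 * q + 1) ∈ M := by
    have h4 := h2
    rw [show 4 * q + 2 = (4 * q + 1) + 1 by omega, S.Al_snoc _ _ (by omega)] at h4
    exact (M.mul_mem_cancel_left h1).1 h4
  have hal2 : S.al (4 * q + 2) ∈ M := by
    have h4 := h3
    rw [show 4 * q + 3 = (4 * q + 2) + 1 by omega, S.Al_snoc _ _ (by omega)] at h4
    exact (M.mul_mem_cancel_left h2).1 h4
  have hX2 : S.X (2 * q + 1) ∈ M := by
    rw [← S.al_even (2 * q + 1) hq, show 2 * (2 * q + 1) = 4 * q + 2 by omega]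
    exact hal2
  refine ⟨hal0, hal1, hX2, (handle S hS (2 * q + 1) hq M hB).2 hX2, ?_⟩
  intro hB'
  refine (handle S hS (2 * q) (by omega) M hB').2 ?_
  rw [← S.al_even (2 * q) (by omega), show 2 * (2 * q) = 4 * q by omega]
  exact hal0
-- END GT4

-- MODULE GT5
private theorem GT5_X (S : Tw g n G) (hS : Rels S) (j : ℕ) (hj : j < g) (M : Subgroup G)
    (ha : S.T (2 * j) (2 * j + 1) ∈ M) (hY : S.Y j ∈ M) : S.X j ∈ M := by
  have := loop_mem S hS (2 * j) (2 * j + 1) j (by omega) (by omega) hj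
    (Or.inl ⟨le_refl _, rfl⟩) M ha hY
  rwa [S.Al_one, S.al_even j hj] at this

private theorem GT5_al (S : Tw g n G) (j : ℕ) (hj : j < g) (M : Subgroup G)
    (hX : S.X j ∈ M) (hY : S.Y j ∈ M) : S.al (2 * j + 1) ∈ M := by
  rw [S.al_odd j hj]
  exact M.mul_mem (M.mul_mem (M.inv_mem hY) (M.inv_mem hX)) hY

private theorem GT5_e (S : Tw g n G) (j : ℕ) (hj : j + 1 < g) :
    S.Al (2 * j + 1) (2 * j + 3) = S.al (2 * j + 1) * S.X (j + 1) := by
  rw [S.Al_cons (2 * j + 1) (2 * j + 3) (by omega), S.Al_one (2 * j + 1 + 1),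
    show 2 * j + 1 + 1 = 2 * (j + 1) by ring, S.al_even (j + 1) hj]

/-- Simple moves with `B` available: (i) from the handle j+1 to j; (ii) from j to j+1.
PROOF. (i) X (j+1) ∈ M (TY with T_(a)), Al (2j+1) (2j+3) = al (2j+1) * X (j+1) ∈ M by loop_mem, so al (2j+1) ∈ M;
handle (i). (ii) al (2j+1) ∈ M since X j, Y j ∈ M; Al (2j+1) (2j+3) ∈ M (starts at 2j+1), so X (j+1) ∈ M; handle (ii). -/
theorem move_one (S : Tw g n G) (hS : Rels S) (j : ℕ) (hj : j + 1 < g) (M : Subgroup G)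
    (ha : S.T (2 * j) (2 * j + 1) ∈ M) (ha' : S.T (2 * (j + 1)) (2 * (j + 1) + 1) ∈ M)
    (he : S.T (2 * j + 1) (2 * j + 3) ∈ M) :
    (S.B j ∈ M → S.Y (j + 1) ∈ M → S.X (j + 1) ∈ M ∧ S.X j ∈ M ∧ S.Y j ∈ M) ∧
    (S.B (j + 1) ∈ M → S.Y j ∈ M → S.X j ∈ M ∧ S.X (j + 1) ∈ M ∧ S.Y (j + 1) ∈ M) := by
  constructor
  · intro hB hY
    have hX : S.X (j + 1) ∈ M := GT5_X S hS (j + 1) hj M ha' hY
    have h1 := loop_mem S hS (2 * j + 1) (2 * j + 3) (j + 1) (by omega) (by omega) hj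
      (Or.inl ⟨by omega, by omega⟩) M he hY
    rw [GT5_e S j hj] at h1
    have h2 : S.al (2 * j + 1) ∈ M := (M.mul_mem_cancel_right hX).1 h1
    have h3 := (handle S hS j (by omega) M hB).1 h2
    exact ⟨hX, h3.2, h3.1⟩
  · intro hB hY
    have hX : S.X j ∈ M := GT5_X S hS j (by omega) M ha hY
    have h1 := loop_mem S hS (2 * j + 1) (2 * j + 3) j (by omega) (by omega) (by omega)
      (Or.inr rfl) M he hY
    rw [GT5_e S j hj] at h1
    have h2 : S.al (2 * j + 1) ∈ M := GT5_al S j (by omega) M hX hY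
    have h3 : S.X (j + 1) ∈ M := (M.mul_mem_cancel_left h2).1 h1
    exact ⟨hX, h3, (handle S hS (j + 1) hj M hB).2 h3⟩
-- END GT5

-- MODULE GT6
/-- The right end: `Y (g-1) ∈ M`, `T_(a_(g-1)) ∈ M` and `f_k ∈ M` imply that all `al c`, `2g-2 ≤ c`, are in `M`.
PROOF. X (g-1) ∈ M (TY). For all k ≤ n: Al (2g-1) (2g+k) ∈ M (loop_mem, starts at 2(g-1)+1). Al (2g-1) (2g) = al (2g-1),
and Al (2g-1) (2g+k+1) = Al (2g-1) (2g+k) * al (2g+k) (Al_snoc). -/
theorem right_end (S : Tw g n G) (hS : Rels S) (hg : 0 < g) (M : Subgroup G)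
    (ha : S.T (2 * g - 2) (2 * g - 1) ∈ M) (hf : ∀ k, k ≤ n → S.T (2 * g - 1) (2 * g + k) ∈ M)
    (hY : S.Y (g - 1) ∈ M) : ∀ c, 2 * g - 2 ≤ c → c < 2 * g + n → S.al c ∈ M := by
  have hA : ∀ k, k ≤ n → S.Al (2 * g - 1) (2 * g + k) ∈ M := by
    intro k hk
    exact loop_mem S hS (2 * g - 1) (2 * g + k) (g - 1) (by omega) (by omega) (by omega)
      (Or.inr (by omega)) M (hf k hk) hY
  intro c hc hc'
  rcases Nat.lt_or_ge c (2 * g) with h | h
  · rcases Nat.lt_or_ge c (2 * g - 1) with h1 | h1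
    · have e : c = 2 * (g - 1) := by omega
      rw [e, S.al_even (g - 1) (by omega)]
      apply GT5_X S hS (g - 1) (by omega) M _ hY
      rw [show 2 * (g - 1) + 1 = 2 * g - 1 by omega, show 2 * (g - 1) = 2 * g - 2 by omega]
      exact ha
    · have e : c = 2 * g - 1 := by omega
      have := hA 0 (by omega)
      rw [show 2 * g + 0 = (2 * g - 1) + 1 by omega, S.Al_one] at this
      rw [e]; exact this
  · obtain ⟨k, rfl⟩ := Nat.exists_eq_add_of_le h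
    have h1 := hA (k + 1) (by omega)
    rw [show 2 * g + (k + 1) = 2 * g + k + 1 by ring, S.Al_snoc _ _ (by omega)] at h1
    exact (M.mul_mem_cancel_left (hA k (by omega))).1 h1
-- END GT6

-- MODULE GT7
/-- The left half: from the handle `2Q-1` to the left. -/
private theorem GT7_left (S : Tw g n G) (hS : Rels S) (Q : ℕ) (hQ : 2 * Q ≤ g) (M : Subgroup G)
    (ha : ∀ i, i < g → S.T (2 * i) (2 * i + 1) ∈ M)
    (he : ∀ i, i + 1 < g → S.T (2 * i + 1) (2 * i + 3) ∈ M)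
    (hq : ∀ q, q < Q → S.T (4 * q) (4 * q + 3) ∈ M)
    (hr : ∀ q, q + 1 < Q → S.T (4 * q + 3) (4 * q + 7) ∈ M)
    (hb : ∀ q, q < Q → S.B (2 * q + 1) ∈ M)
    (hY : 0 < Q → S.Y (2 * Q - 1) ∈ M) :
    ∀ q, q < Q → S.al (4 * q) ∈ M ∧ S.al (4 * q + 1) ∈ M ∧ S.X (2 * q + 1) ∈ M ∧
      S.Y (2 * q + 1) ∈ M ∧ (S.B (2 * q) ∈ M → S.Y (2 * q) ∈ M) := by
  have key : ∀ q, q < Q → S.Y (2 * q + 1) ∈ M → S.al (4 * q) ∈ M ∧ S.al (4 * q + 1) ∈ M ∧
      S.X (2 * q + 1) ∈ M ∧ (0 < q → S.X (2 * q - 1) ∈ M ∧ S.Y (2 * q - 1) ∈ M) ∧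
      (S.B (2 * q) ∈ M → S.Y (2 * q) ∈ M) := by
    intro q hqQ hYq
    apply move_left S hS q (by omega) M _ _ (hq q hqQ) _ hYq
    · have := ha (2 * q + 1) (by omega)
      rwa [show 2 * (2 * q + 1) + 1 = 4 * q + 3 by ring,
        show 2 * (2 * q + 1) = 4 * q + 2 by ring] at this
    · have := he (2 * q) (by omega)
      rwa [show 2 * (2 * q) + 1 = 4 * q + 1 by ring,
        show 2 * (2 * q) + 3 = 4 * q + 3 by ring] at this
    · intro h0
      constructor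
      · have := hr (q - 1) (by omega)
        rwa [show 4 * (q - 1) + 3 = 4 * q - 1 by omega,
          show 4 * (q - 1) + 7 = 4 * q + 3 by omega] at this
      · have := hb (q - 1) (by omega)
        rwa [show 2 * (q - 1) + 1 = 2 * q - 1 by omega] at this
  have hYall : ∀ d q, q + d + 1 = Q → S.Y (2 * q + 1) ∈ M := by
    intro d
    induction d with
    | zero =>
      intro q h
      have := hY (by omega)
      rwa [show 2 * Q - 1 = 2 * q + 1 by omega] at this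
    | succ d ih =>
      intro q h
      have h1 := ih (q + 1) (by omega)
      have h2 := ((key (q + 1) (by omega) h1).2.2.2.1 (by omega)).2
      rwa [show 2 * (q + 1) - 1 = 2 * q + 1 by omega] at h2
  intro q hqQ
  have h1 := hYall (Q - q - 1) q (by omega)
  have h2 := key q hqQ h1
  exact ⟨h2.1, h2.2.1, h2.2.2.1, h1, h2.2.2.2.2⟩

private theorem GT7_fin (S : Tw g n G) (m : ℕ) (hg : 2 * m + 2 ≤ g) (J : Finset ℕ)
    (hJ : ∀ r ∈ J, r < m) (M : Subgroup G)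
    (hb : ∀ i, i < g → (∀ q ∈ J, i ≠ 2 * q) → S.B i ∈ M)
    (h1 : ∀ q, q < m → S.al (4 * q) ∈ M ∧ S.al (4 * q + 1) ∈ M ∧ S.X (2 * q + 1) ∈ M ∧
      S.Y (2 * q + 1) ∈ M ∧ (S.B (2 * q) ∈ M → S.Y (2 * q) ∈ M))
    (h2 : ∀ j, 2 * m ≤ j → j < g → S.X j ∈ M ∧ S.Y j ∈ M)
    (h3 : ∀ c, 2 * g ≤ c → c < 2 * g + n → S.al c ∈ M) :
    (∀ c, c < 2 * g + n → S.al c ∈ M) ∧ (∀ i, i < g → (∀ q ∈ J, i ≠ 2 * q) → S.Y i ∈ M) := by
  constructor
  · intro c hc
    rcases Nat.lt_or_ge c (2 * g) with h | h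
    swap
    · exact h3 c h hc
    -- the handle i = c / 2
    obtain ⟨i, hi⟩ : ∃ i, i = c / 2 := ⟨_, rfl⟩
    rcases Nat.lt_or_ge i (2 * m) with hm | hm
    · rcases Nat.even_or_odd' i with ⟨q, hq | hq⟩
      · have := h1 q (by omega)
        rcases Nat.even_or_odd' c with ⟨r, hr | hr⟩
        · rw [show c = 4 * q by omega]; exact this.1
        · rw [show c = 4 * q + 1 by omega]; exact this.2.1
      · have := h1 q (by omega)
        rcases Nat.even_or_odd' c with ⟨r, hr | hr⟩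
        · rw [show c = 2 * (2 * q + 1) by omega, S.al_even _ (by omega)]
          exact this.2.2.1
        · rw [show c = 2 * (2 * q + 1) + 1 by omega, S.al_odd _ (by omega)]
          exact M.mul_mem (M.mul_mem (M.inv_mem this.2.2.2.1) (M.inv_mem this.2.2.1))
            this.2.2.2.1
    · have := h2 i hm (by omega)
      rcases Nat.even_or_odd' c with ⟨r, hr | hr⟩
      · rw [show c = 2 * i by omega, S.al_even _ (by omega)]
        exact this.1
      · rw [show c = 2 * i + 1 by omega, S.al_odd _ (by omega)]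
        exact M.mul_mem (M.mul_mem (M.inv_mem this.2) (M.inv_mem this.1)) this.2
  · intro i hi hiJ
    rcases Nat.lt_or_ge i (2 * m) with hm | hm
    · rcases Nat.even_or_odd' i with ⟨q, hq | hq⟩
      · have := h1 q (by omega)
        rw [hq]
        apply this.2.2.2.2
        rw [← hq]
        exact hb i hi hiJ
      · have := h1 q (by omega)
        rw [hq]
        exact this.2.2.2.1
    · exact (h2 i hm hi).2

/-- LEMMA T. If `M` contains gens(J) then it contains all foot loops and the `Y i`, `i ∉ 2J`.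
PROOF. P, T (2g-1) (2g+n) ∈ M, so A := Al (2g-1) (2g+n) = T P⁻¹ ∈ M. A = al (2g-1) * (product of Z's) (Al_cons, al_odd,
al_z); B (g-1) commutes with the Z's (BZ), B al (2g-1) B⁻¹ = Y * al (2g-1) (see GT1), so B A B⁻¹ = Y A: Y (g-1) ∈ M
(g-1 ∉ 2J since 2q ≤ 2m-2 < g-1). right_end. Then descending induction with move_one (i): X j, Y j ∈ M for
2m-1 ≤ j ≤ g-1 (j ≥ 2m-1 is not in 2J, so B j ∈ M), if 0 < m; (m = 0: all j ≥ 0). Then descending induction on q:
Y (2q+1) ∈ M for all q < m, by move_left (hypotheses of Has: q gives T (4q) (4q+3), r with index q-1 gives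
T (4q-1) (4q+3), B (2q-1) and B (2q+1) since odd indices are not in 2J). Finally al c for c < 2g: c = 2i or 2i+1: i odd or
i ≥ 2m: X i, Y i ∈ M; i = 2q: move_left. Y i ∈ M, i ∉ 2J: i = 2q with q ∉ J: B (2q) ∈ M, move_left. -/
theorem lemT (S : Tw g n G) (hS : Rels S) (m : ℕ) (hg : 2 * m + 2 ≤ g) (J : Finset ℕ)
    (hJ : ∀ r ∈ J, r < m) (M : Subgroup G) (h : Has S m J M) :
    (∀ c, c < 2 * g + n → S.al c ∈ M) ∧ (∀ i, i < g → (∀ q ∈ J, i ≠ 2 * q) → S.Y i ∈ M) := by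
  have hodd : ∀ q, 2 * q + 1 < g → S.B (2 * q + 1) ∈ M := by
    intro q hq
    exact h.b _ hq (fun r _ => by omega)
  have hbig : ∀ j, j < g → 2 * m ≤ j + 1 → S.B j ∈ M := by
    intro j hj hj'
    refine h.b _ hj (fun r hr => ?_)
    have := hJ r hr
    omega
  -- Y (g-1)
  have hBM : S.B (g - 1) ∈ M := hbig _ (by omega) (by omega)
  have hAM : S.Al (2 * g - 1) (2 * g + n) ∈ M := by
    have h1 : S.Al (2 * g - 1) (2 * g + n) = S.T (2 * g - 1) (2 * g + n) * S.P⁻¹ := by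
      unfold Tw.P; group
    rw [h1]
    exact M.mul_mem (h.f n le_rfl) (M.inv_mem h.p)
  have hZ : Commute (S.B (g - 1)) (S.Al (2 * g) (2 * g + n)) := by
    have : ∀ k, k ≤ n → Commute (S.B (g - 1)) (S.Al (2 * g) (2 * g + k)) := by
      intro k
      induction k with
      | zero => intro _; rw [Nat.add_zero, S.Al_self]; exact Commute.one_right _
      | succ k ih =>
        intro hk
        rw [← Nat.add_assoc, S.Al_snoc _ _ (by omega), S.al_z]
        exact (ih (by omega)).mul_right (hS.BZ (g - 1) k (by omega) (by omega))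
    exact this n le_rfl
  have hYg : S.Y (g - 1) ∈ M := by
    have e1 : 2 * g - 1 = 2 * (g - 1) + 1 := by omega
    have h1 : S.Al (2 * g - 1) (2 * g + n) = (S.Y (g - 1))⁻¹ * (S.X (g - 1))⁻¹ * S.Y (g - 1) *
        S.Al (2 * g) (2 * g + n) := by
      rw [S.Al_cons _ _ (by omega), show 2 * g - 1 + 1 = 2 * g by omega, e1,
        S.al_odd (g - 1) (by omega)]
    have hX := hS.BX (g - 1) (by omega)
    have hY := hS.BY (g - 1) (g - 1) (by omega) (by omega)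
    have hY' : S.B (g - 1) * S.Y (g - 1) * (S.B (g - 1))⁻¹ = S.Y (g - 1) := by
      rw [hY.eq]; group
    have hZ' : S.B (g - 1) * S.Al (2 * g) (2 * g + n) * (S.B (g - 1))⁻¹ =
        S.Al (2 * g) (2 * g + n) := by
      rw [hZ.eq]; group
    have h2 : S.B (g - 1) * S.Al (2 * g - 1) (2 * g + n) * (S.B (g - 1))⁻¹ =
        S.Y (g - 1) * S.Al (2 * g - 1) (2 * g + n) := by
      calc S.B (g - 1) * S.Al (2 * g - 1) (2 * g + n) * (S.B (g - 1))⁻¹
          = (S.B (g - 1) * S.Y (g - 1) * (S.B (g - 1))⁻¹)⁻¹ *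
            (S.B (g - 1) * S.X (g - 1) * (S.B (g - 1))⁻¹)⁻¹ *
            (S.B (g - 1) * S.Y (g - 1) * (S.B (g - 1))⁻¹) *
            (S.B (g - 1) * S.Al (2 * g) (2 * g + n) * (S.B (g - 1))⁻¹) := by
              rw [h1]; group
        _ = S.Y (g - 1) * S.Al (2 * g - 1) (2 * g + n) := by
              rw [hY', hX, hZ', h1]; group
    have h3 : S.Y (g - 1) = S.B (g - 1) * S.Al (2 * g - 1) (2 * g + n) * (S.B (g - 1))⁻¹ *
        (S.Al (2 * g - 1) (2 * g + n))⁻¹ := by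
      rw [h2]; group
    rw [h3]
    exact M.mul_mem (M.mul_mem (M.mul_mem hBM hAM) (M.inv_mem hBM)) (M.inv_mem hAM)
  have haR : S.T (2 * g - 2) (2 * g - 1) ∈ M := by
    have := h.a (g - 1) (by omega)
    rwa [show 2 * (g - 1) + 1 = 2 * g - 1 by omega, show 2 * (g - 1) = 2 * g - 2 by omega] at this
  have hR := right_end S hS (by omega) M haR h.f hYg
  have hdesc : ∀ d j, j + d + 1 = g → 2 * m ≤ j + 1 → S.X j ∈ M ∧ S.Y j ∈ M := by
    intro d
    induction d with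
    | zero =>
      intro j hj hj'
      have hj1 : j = g - 1 := by omega
      rw [hj1]
      exact ⟨GT5_X S hS (g - 1) (by omega) M (h.a _ (by omega)) hYg, hYg⟩
    | succ d ih =>
      intro j hj hj'
      have h1 := ih (j + 1) (by omega) (by omega)
      exact ((move_one S hS j (by omega) M (h.a _ (by omega)) (h.a _ (by omega))
        (h.e _ (by omega))).1 (hbig j (by omega) hj') h1.2).2
  apply GT7_fin S m hg J hJ M h.b
  · apply GT7_left S hS m (by omega) M h.a h.e h.q h.r (fun q hq => hodd q (by omega))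
    intro h0
    exact (hdesc (g - 2 * m) (2 * m - 1) (by omega) (by omega)).2
  · intro j hj hj'
    exact hdesc (g - 1 - j) j (by omega) (by omega)
  · intro c hc hc'
    exact hR c (by omega) hc'
-- END GT7

-- MODULE GT8
/-- Two-sided transport from an active handle `2p`, `p ∉ J`. `M` contains all `T_(a)`, the `B i`
with `i ∉ 2J`, all `e_i`, `f_k`, the `q_q`, `q'`, `r` for all pairs except the pair `p`
(indices: `T (4q) (4q+3)`, `q ≠ p`; `T (4q+3) (4q+6)`, `T (4q+3) (4q+7)`, `q + 1 ≠ p`), and `X (2p), Y (2p)`.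
Then `M` contains all foot loops, and the `Y i`, `i ∉ 2J`.
PROOF. Right: move_one (ii) with j = 2p: X (2p+1), Y (2p+1) ∈ M (B (2p+1) ∈ M, odd index). By induction on q from p:
Y (2q+1) ∈ M for p ≤ q < m, with move_right (q+1 in place of q; the generators with indices q: T (4q+3) (4q+5) = e_(2q+1),
T (4q+3) (4q+6), T (4q+3) (4q+7), q + 1 ≠ p). Then move_one (ii) for j ≥ 2m-1. right_end. Left: if 0 < p: move_one (i)
with j = 2p-1: Y (2p-1) ∈ M (odd index 2(p-1)+1), then move_left for q = p-1, p-2, ... as in GT7. All al c: handles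
2q with q < p by move_left, q > p by move_right, 2p itself by hypothesis, odd and ≥ 2m handles by X, Y ∈ M. -/
theorem lemT2 (S : Tw g n G) (hS : Rels S) (m : ℕ) (hg : 2 * m + 2 ≤ g) (J : Finset ℕ)
    (hJ : ∀ r ∈ J, r < m) (p : ℕ) (hp : p < m) (hpJ : p ∉ J) (M : Subgroup G)
    (ha : ∀ i, i < g → S.T (2 * i) (2 * i + 1) ∈ M)
    (hb : ∀ i, i < g → (∀ q ∈ J, i ≠ 2 * q) → S.B i ∈ M)
    (he : ∀ i, i + 1 < g → S.T (2 * i + 1) (2 * i + 3) ∈ M)
    (hq : ∀ q, q < m → q ≠ p → S.T (4 * q) (4 * q + 3) ∈ M)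
    (hq' : ∀ q, q + 1 < m → q + 1 ≠ p → S.T (4 * q + 3) (4 * q + 6) ∈ M)
    (hr : ∀ q, q + 1 < m → q + 1 ≠ p → S.T (4 * q + 3) (4 * q + 7) ∈ M)
    (hf : ∀ k, k ≤ n → S.T (2 * g - 1) (2 * g + k) ∈ M)
    (hX : S.X (2 * p) ∈ M) (hY : S.Y (2 * p) ∈ M) :
    (∀ c, c < 2 * g + n → S.al c ∈ M) ∧ (∀ i, i < g → (∀ q ∈ J, i ≠ 2 * q) → S.Y i ∈ M) := by
  have hodd : ∀ q, 2 * q + 1 < g → S.B (2 * q + 1) ∈ M := by
    intro q hq
    exact hb _ hq (fun r _ => by omega)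
  have hbig : ∀ j, j < g → 2 * m ≤ j → S.B j ∈ M := by
    intro j hj hj'
    refine hb _ hj (fun r hr => ?_)
    have := hJ r hr
    omega
  -- the handle 2p + 1
  have hp1 : S.X (2 * p + 1) ∈ M ∧ S.Y (2 * p + 1) ∈ M := by
    have := (move_one S hS (2 * p) (by omega) M (ha _ (by omega)) (ha _ (by omega))
      (he _ (by omega))).2 (hodd p (by omega)) hY
    exact ⟨this.2.1, this.2.2⟩
  -- to the right
  have keyR : ∀ q, p < q → q < m → S.Y (2 * q - 1) ∈ M →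
      S.al (4 * q) ∈ M ∧ S.al (4 * q + 1) ∈ M ∧ S.X (2 * q + 1) ∈ M ∧ S.Y (2 * q + 1) ∈ M ∧
      (S.B (2 * q) ∈ M → S.Y (2 * q) ∈ M) := by
    intro q hpq hqm hYq
    apply move_right S hS q (by omega) (by omega) M _ _ _ _ (hodd q (by omega)) hYq
    · have := ha (2 * q - 1) (by omega)
      rwa [show 2 * (2 * q - 1) + 1 = 4 * q - 1 by omega,
        show 2 * (2 * q - 1) = 4 * q - 2 by omega] at this
    · have := he (2 * q - 1) (by omega)
      rwa [show 2 * (2 * q - 1) + 1 = 4 * q - 1 by omega,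
        show 2 * (2 * q - 1) + 3 = 4 * q + 1 by omega] at this
    · have := hq' (q - 1) (by omega) (by omega)
      rwa [show 4 * (q - 1) + 3 = 4 * q - 1 by omega,
        show 4 * (q - 1) + 6 = 4 * q + 2 by omega] at this
    · have := hr (q - 1) (by omega) (by omega)
      rwa [show 4 * (q - 1) + 3 = 4 * q - 1 by omega,
        show 4 * (q - 1) + 7 = 4 * q + 3 by omega] at this
  have hYR : ∀ d, p + d < m → S.Y (2 * (p + d) + 1) ∈ M := by
    intro d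
    induction d with
    | zero => intro _; exact hp1.2
    | succ d ih =>
      intro hd
      have h1 := ih (by omega)
      have h2 := (keyR (p + (d + 1)) (by omega) hd (by
        rwa [show 2 * (p + (d + 1)) - 1 = 2 * (p + d) + 1 by omega])).2.2.2.1
      exact h2
  -- beyond 2m - 1
  have hasc : ∀ d, 2 * m - 1 + d < g → S.Y (2 * m - 1 + d) ∈ M := by
    intro d
    induction d with
    | zero =>
      intro _
      have := hYR (m - 1 - p) (by omega)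
      rwa [show 2 * (p + (m - 1 - p)) + 1 = 2 * m - 1 + 0 by omega] at this
    | succ d ih =>
      intro hd
      have h1 := ih (by omega)
      have h2 := ((move_one S hS (2 * m - 1 + d) (by omega) M (ha _ (by omega))
        (ha _ (by omega)) (he _ (by omega))).2 (hbig _ (by omega) (by omega)) h1).2.2
      exact h2
  have hYbig : ∀ j, 2 * m ≤ j + 1 → j < g → S.Y j ∈ M := by
    intro j h1 h2
    have := hasc (j + 1 - 2 * m) (by omega)
    rwa [show 2 * m - 1 + (j + 1 - 2 * m) = j by omega] at this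
  have haR : S.T (2 * g - 2) (2 * g - 1) ∈ M := by
    have := ha (g - 1) (by omega)
    rwa [show 2 * (g - 1) + 1 = 2 * g - 1 by omega, show 2 * (g - 1) = 2 * g - 2 by omega] at this
  have hR := right_end S hS (by omega) M haR hf (hYbig (g - 1) (by omega) (by omega))
  -- to the left
  have hL := GT7_left S hS p (by omega) M ha he (fun q hqp => hq q (by omega) (by omega))
    (fun q hqp => hr q (by omega) (by omega)) (fun q hqp => hodd q (by omega)) (by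
      intro h0
      have := (move_one S hS (2 * p - 1) (by omega) M (ha _ (by omega)) (ha _ (by omega))
        (he _ (by omega))).1 (by
          have := hodd (p - 1) (by omega)
          rwa [show 2 * (p - 1) + 1 = 2 * p - 1 by omega] at this) (by
          rwa [show 2 * p - 1 + 1 = 2 * p by omega])
      exact this.2.2)
  apply GT7_fin S m hg J hJ M hb
  · intro q hqm
    rcases Nat.lt_trichotomy q p with h | h | h
    · exact hL q h
    · subst h
      refine ⟨?_, ?_, hp1.1, hp1.2, fun _ => hY⟩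
      · rw [show 4 * q = 2 * (2 * q) by ring, S.al_even _ (by omega)]
        exact hX
      · rw [show 4 * q + 1 = 2 * (2 * q) + 1 by ring]
        exact GT5_al S (2 * q) (by omega) M hX hY
    · apply keyR q h hqm
      have := hYR (q - 1 - p) (by omega)
      rwa [show 2 * (p + (q - 1 - p)) + 1 = 2 * q - 1 by omega] at this
  · intro j hj hj'
    have h1 := hYbig j (by omega) hj'
    exact ⟨GT5_X S hS j hj' M (ha j hj') h1, h1⟩
  · intro c hc hc'
    exact hR c (by omega) hc'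
-- END GT8

-- MODULE GV1
/-- Everything is trivial, the twists: `M` normal, `4 ≤ g`, `T_(a_0) ∈ M` implies that all `T s t` and
`B i` are in `M`.
PROOF. C = ⊤. lemE1, lemE2 (k = 0): T_(a_j) ∈ M for all j, so B j ∈ M (Brd.mem, TBe), so every T starting at an odd
foot 2i+1 < 2g (TBs) and every T ending at 2i+1 ≤ 2g-1 (TBe) is in M (*). Now let s < t ≤ 2g+n be such that neither s = 2i+1 < 2g
nor t = 2i+1 ≤ 2g - 1. Case 1: t ≤ 2g-4: lantern s, t, 2g-3, 2g-1 (blocks [s,t), [t,2g-3), [2g-3,2g-1)):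
T s (2g-1), T t (2g-3), T (2g-3) (2g-1), T s (2g-3), T t (2g-1) are in M by (*), L by LB with i = g-1. Case 2:
there is i with 1 ≤ i < g, s ≤ 2i-2, 2i+2 ≤ t: lantern s, 2i-1, 2i+1, t: T s (2i-1), T (2i-1) (2i+1), T (2i+1) t,
T s (2i+1), T (2i-1) t ∈ M by (*), L by LB2. Case 3: otherwise s ≥ 2g-4 (if s ≤ 2g-6 then i = g-2 is as in case 2,
since t > 2g-4 and t is not odd ≤ 2g-1 gives t ≥ 2g-2; s = 2g-5 is excluded as odd): lantern 1, 3, s, t:
T 1 t, T 1 3, T 3 s, T 1 s, T 3 t ∈ M by (*), L by LB3 with i = 0; here 3 < s since g ≥ 4. In all cases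
T s t ∈ M by Tw.lantern. -/
theorem triv_T (S : Tw g n G) (hS : Rels S) (hg : 4 ≤ g) (M : Subgroup G) [M.Normal]
    (h0 : S.T 0 1 ∈ M) : (∀ s t, s < t → t ≤ 2 * g + n → S.T s t ∈ M) ∧ ∀ i, i < g → S.B i ∈ M := by
  have hn : ∀ c ∈ (⊤ : Subgroup G), ∀ z ∈ M, c * z * c⁻¹ ∈ M := by
    intro c _ z hz
    exact ‹M.Normal›.conj_mem z hz c
  have haM : ∀ j, j < g → S.T (2 * j) (2 * j + 1) ∈ M :=
    lemE2 S hS 0 (by omega) ⊤ M hn (fun _ _ _ _ => Subgroup.mem_top _) (Subgroup.mem_top _)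
      (Subgroup.mem_top _) (Subgroup.mem_top _) h0
  have hBM : ∀ i, i < g → S.B i ∈ M := by
    intro i hi
    exact (hS.TBe i (2 * i) hi (by omega)).mem hn (Subgroup.mem_top _) (Subgroup.mem_top _)
      (haM i hi)
  refine ⟨?_, hBM⟩
  have hs1 : ∀ i t, i < g → 2 * i + 1 < t → t ≤ 2 * g + n → S.T (2 * i + 1) t ∈ M := by
    intro i t hi h1 h2
    exact (hS.TBs i t hi h1 h2).mem' hn (Subgroup.mem_top _) (Subgroup.mem_top _) (hBM i hi)
  have he1 : ∀ i s, i < g → s < 2 * i + 1 → S.T s (2 * i + 1) ∈ M := by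
    intro i s hi h1
    exact (hS.TBe i s hi h1).mem' hn (Subgroup.mem_top _) (Subgroup.mem_top _) (hBM i hi)
  -- odd start, odd end
  have hso : ∀ s t, s % 2 = 1 → s < 2 * g → s < t → t ≤ 2 * g + n → S.T s t ∈ M := by
    intro s t h1 h2 h3 h4
    have := hs1 (s / 2) t (by omega) (by omega) h4
    rwa [show 2 * (s / 2) + 1 = s by omega] at this
  have heo : ∀ s t, t % 2 = 1 → t < 2 * g → s < t → S.T s t ∈ M := by
    intro s t h1 h2 h3
    have := he1 (t / 2) s (by omega) (by omega)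
    rwa [show 2 * (t / 2) + 1 = t by omega] at this
  have hLmem : ∀ x i, i < g → Brd x (S.B i) → x ∈ M := by
    intro x i hi hx
    exact hx.mem' hn (Subgroup.mem_top _) (Subgroup.mem_top _) (hBM i hi)
  intro s t hst ht
  by_cases c1 : s % 2 = 1 ∧ s < 2 * g
  · exact hso s t c1.1 c1.2 hst ht
  by_cases c2 : t % 2 = 1 ∧ t < 2 * g
  · exact heo s t c2.1 c2.2 hst
  by_cases c3 : t ≤ 2 * g - 4
  · have hl := S.lantern s t (2 * g - 3) (2 * g - 1)
    have hL : S.L s t (2 * g - 3) (2 * g - 1) ∈ M := by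
      apply hLmem _ (g - 1) (by omega)
      have := hS.LB s t (2 * g - 3) (g - 1) hst (by omega) (by omega) (by omega)
      rwa [show 2 * (g - 1) + 1 = 2 * g - 1 by omega] at this
    have : S.T s t = (S.T s (2 * g - 1))⁻¹ * (S.T s (2 * g - 3) * S.T t (2 * g - 1) *
        S.L s t (2 * g - 3) (2 * g - 1)) * (S.T (2 * g - 3) (2 * g - 1))⁻¹ *
        (S.T t (2 * g - 3))⁻¹ := by
      rw [← hl]; group
    rw [this]
    exact M.mul_mem (M.mul_mem (M.mul_mem (M.inv_mem (heo _ _ (by omega) (by omega) (by omega)))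
      (M.mul_mem (M.mul_mem (heo _ _ (by omega) (by omega) (by omega))
        (heo _ _ (by omega) (by omega) (by omega))) hL))
      (M.inv_mem (heo _ _ (by omega) (by omega) (by omega))))
      (M.inv_mem (heo _ _ (by omega) (by omega) (by omega)))
  by_cases c4 : s ≤ 2 * g - 6
  · have hl := S.lantern s (2 * g - 5) (2 * g - 3) t
    have hL : S.L s (2 * g - 5) (2 * g - 3) t ∈ M := by
      apply hLmem _ (g - 2) (by omega)
      have := hS.LB2 s (2 * g - 5) (g - 2) t (by omega) (by omega) (by omega) ht (by omega)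
      rwa [show 2 * (g - 2) + 1 = 2 * g - 3 by omega] at this
    have : S.T s t = (S.T s (2 * g - 3) * S.T (2 * g - 5) t *
        S.L s (2 * g - 5) (2 * g - 3) t) * (S.T (2 * g - 3) t)⁻¹ *
        (S.T (2 * g - 5) (2 * g - 3))⁻¹ * (S.T s (2 * g - 5))⁻¹ := by
      rw [← hl]; group
    rw [this]
    exact M.mul_mem (M.mul_mem (M.mul_mem
      (M.mul_mem (M.mul_mem (heo _ _ (by omega) (by omega) (by omega))
        (hso _ _ (by omega) (by omega) (by omega) ht)) hL)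
      (M.inv_mem (hso _ _ (by omega) (by omega) (by omega) ht)))
      (M.inv_mem (heo _ _ (by omega) (by omega) (by omega))))
      (M.inv_mem (heo _ _ (by omega) (by omega) (by omega)))
  · have hl := S.lantern 1 3 s t
    have hL : S.L 1 3 s t ∈ M := by
      apply hLmem _ 0 (by omega)
      exact hS.LB3 0 3 s t (by omega) (by omega) (by omega) hst ht
    have : S.T s t = (S.T 3 s)⁻¹ * ((S.T 1 3)⁻¹ * ((S.T 1 t)⁻¹ * (S.T 1 s * S.T 3 t *
        S.L 1 3 s t))) := by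
      rw [← hl]; group
    rw [this]
    exact M.mul_mem (M.inv_mem (hso _ _ (by omega) (by omega) (by omega) (by omega)))
      (M.mul_mem (M.inv_mem (hso _ _ (by omega) (by omega) (by omega) (by omega)))
      (M.mul_mem (M.inv_mem (hso _ _ (by omega) (by omega) (by omega) (by omega)))
      (M.mul_mem (M.mul_mem (hso _ _ (by omega) (by omega) (by omega) (by omega))
        (hso _ _ (by omega) (by omega) (by omega) (by omega))) hL)))
-- END GV1

-- MODULE GV2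
/-- ... and the loops. PROOF. GV1; Has S 1 ∅ M (P ∈ M since it braids with B (g-1), PB), lemT with m = 1, J = ∅;
X i = al (2i), Z k = al (2g+k). -/
theorem triv_all (S : Tw g n G) (hS : Rels S) (hg : 4 ≤ g) (M : Subgroup G) [M.Normal]
    (h0 : S.T 0 1 ∈ M) : (∀ s t, s < t → t ≤ 2 * g + n → S.T s t ∈ M) ∧ (∀ i, i < g → S.B i ∈ M) ∧
    (∀ i, i < g → S.X i ∈ M ∧ S.Y i ∈ M) ∧ (∀ k, k < n → S.Z k ∈ M) := by
  obtain ⟨hT, hB⟩ := triv_T S hS hg M h0
  have hn : ∀ c ∈ (⊤ : Subgroup G), ∀ z ∈ M, c * z * c⁻¹ ∈ M := by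
    intro c _ z hz
    exact ‹M.Normal›.conj_mem z hz c
  have hP : S.P ∈ M := (hS.PB (by omega)).mem' hn (Subgroup.mem_top _) (Subgroup.mem_top _)
    (hB _ (by omega))
  have hH : Has S 1 ∅ M :=
    { a := fun i hi => hT _ _ (by omega) (by omega)
      b := fun i hi _ => hB i hi
      e := fun i hi => hT _ _ (by omega) (by omega)
      q := fun q hq => hT _ _ (by omega) (by omega)
      q' := fun q hq => by omega
      r := fun q hq => by omega
      f := fun k hk => hT _ _ (by omega) (by omega)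
      p := hP }
  obtain ⟨hal, hY⟩ := lemT S hS 1 (by omega) ∅ (fun r hr => by simp at hr) M hH
  refine ⟨hT, hB, ?_, ?_⟩
  · intro i hi
    refine ⟨?_, hY i hi (fun q hq => by simp at hq)⟩
    rw [← S.al_even i hi]
    exact hal _ (by omega)
  · intro k hk
    rw [← S.al_z k]
    exact hal _ (by omega)
-- END GV2

end Pool.Agent.HG13
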