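import Mathlib

set_option linter.all false

namespace Pool.Agent.HG13

/-- The ordered product `F 0 * F 1 * ... * F (m-1)`. -/
def pr {M : Type*} [Monoid M] (m : ℕ) (F : ℕ → M) : M := ((List.range m).map F).prod

section pr

variable {M : Type*} [Monoid M]

theorem pr_zero (F : ℕ → M) : pr 0 F = 1 := rfl

theorem pr_succ (m : ℕ) (F : ℕ → M) : pr (m + 1) F = pr m F * F m := by
  simp [pr, List.range_succ]

theorem pr_congr (m : ℕ) (F F' : ℕ → M) (h : ∀ q, q < m → F q = F' q) : pr m F = pr m F' := by
  unfold pr
  congr 1
  apply List.map_congr_left
  intro q hq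
  exact h q (List.mem_range.mp hq)

theorem pr_commute (m : ℕ) (F : ℕ → M) (x : M) (h : ∀ q, q < m → Commute x (F q)) :
    Commute x (pr m F) := by
  induction m with
  | zero => exact Commute.one_right x
  | succ m ih =>
    rw [pr_succ]
    exact (ih fun q hq => h q (by omega)).mul_right (h m (by omega))

/-- `F` is pairwise commuting below `m`. -/
def PC (m : ℕ) (F : ℕ → M) : Prop := ∀ q r, q < m → r < m → q ≠ r → Commute (F q) (F r)

theorem pr_mul (m : ℕ) (F F' : ℕ → M)
    (h : ∀ q r, q < m → r < m → q ≠ r → Commute (F q) (F' r)) :
    pr m F * pr m F' = pr m (fun q => F q * F' q) := by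
  induction m with
  | zero => simp [pr_zero]
  | succ m ih =>
    rw [pr_succ, pr_succ, pr_succ, ← ih (fun q r hq hr => h q r (by omega) (by omega))]
    have : Commute (F m) (pr m F') := pr_commute m F' _ fun q hq => h m q (by omega) (by omega)
      (by omega)
    calc pr m F * F m * (pr m F' * F' m) = pr m F * (F m * pr m F') * F' m := by
          simp only [mul_assoc]
      _ = pr m F * (pr m F' * F m) * F' m := by rw [this.eq]
      _ = _ := by simp only [mul_assoc]

/-- Take out one factor. -/
theorem pr_update (m r : ℕ) (hr : r < m) (F : ℕ → M) (h : PC m F) :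
    pr m F = F r * pr m (Function.update F r 1) := by
  induction m with
  | zero => omega
  | succ m ih =>
    rw [pr_succ, pr_succ]
    by_cases hrm : r = m
    · subst hrm
      rw [Function.update_self, mul_one]
      have h1 : pr r (Function.update F r 1) = pr r F := pr_congr r _ _ fun q hq => by
        rw [Function.update_of_ne (by omega)]
      rw [h1]
      exact (pr_commute r F (F r) fun q hq => h r q (by omega) (by omega) (by omega)).eq.symm
    · rw [ih (by omega) (fun q s hq hs => h q s (by omega) (by omega)),
        Function.update_of_ne (by omega : m ≠ r), mul_assoc]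

/-- Take out one factor on the right. -/
theorem pr_update' (m r : ℕ) (hr : r < m) (F : ℕ → M) (h : PC m F) :
    pr m F = pr m (Function.update F r 1) * F r := by
  rw [pr_update m r hr F h]
  apply Commute.eq
  apply pr_commute
  intro q hq
  by_cases hqr : q = r
  · subst hqr; rw [Function.update_self]; exact Commute.one_right _
  · rw [Function.update_of_ne hqr]; exact h r q hr hq (Ne.symm hqr)

end pr

end Pool.Agent.HG13
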