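import Pool.Agent.HG13.Chain
import Pool.Agent.HG13.Grp

set_option linter.all false

namespace Pool.Agent.HG13

universe u

variable {g n : ℕ} {G : Type*} [Group G] {V : Type u} [AddCommGroup V] [Module ℂ V]

/-- The elements `x` with `ρ x * φ = φ` for all `φ ∈ E`. -/
def Fix (ρ : G →* Module.End ℂ V) (E : Set (Module.End ℂ V)) : Subgroup G where
  carrier := {x | ∀ φ ∈ E, ρ x * φ = φ}
  one_mem' := by intro φ _; simp
  mul_mem' := by
    intro a b ha hb φ hφ
    rw [map_mul, mul_assoc, hb φ hφ, ha φ hφ]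
  inv_mem' := by
    intro a ha φ hφ
    have : ρ a⁻¹ * (ρ a * φ) = φ := by rw [← mul_assoc, ← map_mul]; simp
    rw [ha φ hφ] at this
    exact this

/-- The elements `x` for which `ρ x` commutes with all `φ ∈ E`. -/
def Cen (ρ : G →* Module.End ℂ V) (E : Set (Module.End ℂ V)) : Subgroup G where
  carrier := {x | ∀ φ ∈ E, Commute (ρ x) φ}
  one_mem' := by intro φ _; simp
  mul_mem' := by
    intro a b ha hb φ hφ
    rw [map_mul]
    exact (ha φ hφ).mul_left (hb φ hφ)
  inv_mem' := by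
    intro a ha φ hφ
    have h1 : ρ a⁻¹ * ρ a = 1 := by rw [← map_mul]; simp
    have h2 : ρ a * ρ a⁻¹ = 1 := by rw [← map_mul]; simp
    show ρ a⁻¹ * φ = φ * ρ a⁻¹
    calc ρ a⁻¹ * φ = ρ a⁻¹ * φ * (ρ a * ρ a⁻¹) := by rw [h2, mul_one]
      _ = ρ a⁻¹ * (φ * ρ a) * ρ a⁻¹ := by simp only [mul_assoc]
      _ = ρ a⁻¹ * (ρ a * φ) * ρ a⁻¹ := by rw [(ha φ hφ).eq]
      _ = (ρ a⁻¹ * ρ a) * φ * ρ a⁻¹ := by simp only [mul_assoc]
      _ = φ * ρ a⁻¹ := by rw [h1, one_mul]

theorem conj_fix (ρ : G →* Module.End ℂ V) (E : Set (Module.End ℂ V)) :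
    ∀ c ∈ Cen ρ E, ∀ x ∈ Fix ρ E, c * x * c⁻¹ ∈ Fix ρ E := by
  intro c hc x hx φ hφ
  have h2 : ρ c * ρ c⁻¹ = 1 := by rw [← map_mul]; simp
  have hc' := (Cen ρ E).inv_mem hc φ hφ
  calc ρ (c * x * c⁻¹) * φ = ρ c * ρ x * (ρ c⁻¹ * φ) := by
        rw [map_mul, map_mul]; simp only [mul_assoc]
    _ = ρ c * ρ x * (φ * ρ c⁻¹) := by rw [hc'.eq]
    _ = ρ c * (ρ x * φ) * ρ c⁻¹ := by simp only [mul_assoc]
    _ = ρ c * φ * ρ c⁻¹ := by rw [hx φ hφ]
    _ = φ * (ρ c * ρ c⁻¹) := by rw [(hc φ hφ).eq]; simp only [mul_assoc]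
    _ = φ := by rw [h2, mul_one]

/-- The stabiliser of a vector. -/
def Stab (ρ : G →* Module.End ℂ V) (v : V) : Subgroup G where
  carrier := {x | ρ x v = v}
  one_mem' := by simp
  mul_mem' := by
    intro a b ha hb
    show ρ (a * b) v = v
    rw [map_mul, Module.End.mul_apply]
    rw [show ρ b v = v from hb, show ρ a v = v from ha]
  inv_mem' := by
    intro a ha
    show ρ a⁻¹ v = v
    have : ρ a⁻¹ (ρ a v) = v := by rw [← Module.End.mul_apply, ← map_mul]; simp
    rwa [show ρ a v = v from ha] at this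

/-- `N_q = T_(a_(2q)) - 1`. -/
def Nq (S : Tw g n G) (ρ : G →* Module.End ℂ V) (q : ℕ) : Module.End ℂ V :=
  ρ (S.T (4 * q) (4 * q + 1)) - 1

/-- `b_q = B (2q) - 1`. -/
def Bq (S : Tw g n G) (ρ : G →* Module.End ℂ V) (q : ℕ) : Module.End ℂ V :=
  ρ (S.B (2 * q)) - 1

/-- `t_q = N_q + N_q b_q N_q`. -/
def tq (S : Tw g n G) (ρ : G →* Module.End ℂ V) (q : ℕ) : Module.End ℂ V :=
  Nq S ρ q + Nq S ρ q * Bq S ρ q * Nq S ρ q

open Classical in
/-- `N_J`. -/
noncomputable def NJ (S : Tw g n G) (ρ : G →* Module.End ℂ V) (m : ℕ) (J : Finset ℕ) :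
    Module.End ℂ V :=
  pr m (fun q => if q ∈ J then Nq S ρ q else 1)

open Classical in
/-- `E_(I,J)`. -/
noncomputable def EIJ (S : Tw g n G) (ρ : G →* Module.End ℂ V) (m : ℕ) (I J : Finset ℕ) :
    Module.End ℂ V :=
  pr m (fun q => if q ∈ I then tq S ρ q else if q ∈ J then Nq S ρ q else 1)

-- MODULE R1
/-- The generators of the block `q`. -/
private def R1_t (S : Tw g n G) (q : ℕ) : Fin 5 → G :=
  ![S.T (4 * q) (4 * q + 1), S.B (2 * q), S.T (4 * q + 1) (4 * q + 3), S.B (2 * q + 1),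
    S.T (4 * q + 2) (4 * q + 3)]

private theorem R1_chain (S : Tw g n G) (hS : Rels S) (q : ℕ) (hq : 4 * q + 4 ≤ 2 * g) :
    IsChain (R1_t S q) where
  brd := by
    have h1 : Brd (S.T (4 * q) (4 * q + 1)) (S.B (2 * q)) := by
      have := hS.TBe (2 * q) (4 * q) (by omega) (by omega)
      rwa [show 2 * (2 * q) + 1 = 4 * q + 1 by omega] at this
    have h2 : Brd (S.B (2 * q)) (S.T (4 * q + 1) (4 * q + 3)) := by
      have := hS.TBs (2 * q) (4 * q + 3) (by omega) (by omega) (by omega)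
      rw [show 2 * (2 * q) + 1 = 4 * q + 1 by omega] at this
      exact this.symm
    have h3 : Brd (S.T (4 * q + 1) (4 * q + 3)) (S.B (2 * q + 1)) := by
      have := hS.TBe (2 * q + 1) (4 * q + 1) (by omega) (by omega)
      rwa [show 2 * (2 * q + 1) + 1 = 4 * q + 3 by omega] at this
    have h4 : Brd (S.B (2 * q + 1)) (S.T (4 * q + 2) (4 * q + 3)) := by
      have := hS.TBe (2 * q + 1) (4 * q + 2) (by omega) (by omega)
      rw [show 2 * (2 * q + 1) + 1 = 4 * q + 3 by omega] at this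
      exact this.symm
    intro i j hij
    fin_cases i <;> fin_cases j <;> first
      | exact absurd hij (by decide)
      | exact h1
      | exact h2
      | exact h3
      | exact h4
  com := by
    have h1 : Commute (S.T (4 * q) (4 * q + 1)) (S.T (4 * q + 1) (4 * q + 3)) :=
      hS.TT _ _ _ _ (by omega) (by omega) (by omega) (by omega) (Or.inl (by omega))
    have h2 : Commute (S.T (4 * q) (4 * q + 1)) (S.B (2 * q + 1)) :=
      hS.TB _ _ _ (by omega) (by omega) (by omega) (Or.inr (Or.inl (by omega)))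
    have h3 : Commute (S.T (4 * q) (4 * q + 1)) (S.T (4 * q + 2) (4 * q + 3)) :=
      hS.TT _ _ _ _ (by omega) (by omega) (by omega) (by omega) (Or.inl (by omega))
    have h4 : Commute (S.B (2 * q)) (S.B (2 * q + 1)) := hS.BB _ _ (by omega) (by omega)
    have h5 : Commute (S.B (2 * q)) (S.T (4 * q + 2) (4 * q + 3)) :=
      (hS.TB _ _ _ (by omega) (by omega) (by omega) (Or.inl (by omega))).symm
    have h6 : Commute (S.T (4 * q + 1) (4 * q + 3)) (S.T (4 * q + 2) (4 * q + 3)) :=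
      hS.TT _ _ _ _ (by omega) (by omega) (by omega) (by omega) (Or.inr ⟨by omega, by omega⟩)
    intro i j hij
    fin_cases i <;> fin_cases j <;> first
      | exact absurd hij (by decide)
      | exact h1
      | exact h2
      | exact h3
      | exact h4
      | exact h5
      | exact h6

private theorem R1_com (S : Tw g n G) (hS : Rels S) (q r : ℕ) (hqr : q < r)
    (hr : 4 * r + 4 ≤ 2 * g) (i j : Fin 5) : Commute (R1_t S q i) (R1_t S r j) := by
  have hTT : ∀ s t s' t', s < t → t ≤ 4 * q + 4 → 4 * r ≤ s' → s' < t' → t' ≤ 4 * r + 4 →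
      Commute (S.T s t) (S.T s' t') := fun s t s' t' h1 h2 h3 h4 h5 =>
    hS.TT _ _ _ _ h1 (by omega) h4 (by omega) (Or.inl (by omega))
  have hTB : ∀ s t k, s < t → t ≤ 4 * q + 4 → 4 * r ≤ 2 * k → 2 * k ≤ 4 * r + 2 →
      Commute (S.T s t) (S.B k) := fun s t k h1 h2 h3 h4 =>
    hS.TB _ _ _ h1 (by omega) (by omega) (Or.inr (Or.inl (by omega)))
  have hBT : ∀ s t k, s < t → 4 * r ≤ s → t ≤ 4 * r + 4 → 2 * k ≤ 4 * q + 2 →
      Commute (S.B k) (S.T s t) := fun s t k h1 h2 h3 h4 =>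
    (hS.TB _ _ _ h1 (by omega) (by omega) (Or.inl (by omega))).symm
  have hBB : ∀ k l, 2 * k ≤ 4 * q + 2 → 2 * l ≤ 4 * r + 2 → Commute (S.B k) (S.B l) :=
    fun k l h1 h2 => hS.BB _ _ (by omega) (by omega)
  fin_cases i <;> fin_cases j <;> first
    | exact hTT _ _ _ _ (by omega) (by omega) (by omega) (by omega) (by omega)
    | exact hTB _ _ _ (by omega) (by omega) (by omega) (by omega)
    | exact hBT _ _ _ (by omega) (by omega) (by omega) (by omega)
    | exact hBB _ _ (by omega) (by omega)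

private theorem R1_cen (S : Tw g n G) (q : ℕ) (f : Ch →* G) (hf : ∀ i, f (ch i) = R1_t S q i)
    (c : G) (hc : ∀ i, Commute c (R1_t S q i)) (x : Ch) : Commute c (f x) := by
  have hx : x ∈ Subgroup.closure (Set.range ch) := by rw [ch_closure]; trivial
  induction hx using Subgroup.closure_induction with
  | mem y hy =>
    obtain ⟨i, rfl⟩ := hy
    rw [hf]
    exact hc i
  | one => rw [map_one]; exact Commute.one_right c
  | mul a b _ _ ha hb => rw [map_mul]; exact ha.mul_right hb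
  | inv a _ ha => rw [map_inv]; exact ha.inv_right

/-- The blocks: for q < m a homomorphism f q : Ch → G with the chain T_(a_(2q)), B (2q), e_(2q), B (2q+1), T_(a_(2q+1)); they commute
pairwise. PROOF. IsChain of this 5-tuple from hS (TBe, TBs, TT, TB, BB; note T (4q) (4q+1) = T (2(2q)) (2(2q)+1), T (4q+1) (4q+3) = T (2(2q)+1) (2(2q+1)+1)),
IsChain.exists_hom. f q x and f r y commute: for generators by TT, TB, BB (4q+4 ≤ 4r for q < r), then by ch_closure (closure_induction; centralizers). -/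
theorem exists_blocks (S : Tw g n G) (hS : Rels S) (m : ℕ) (hg : 2 * m + 2 ≤ g) :
    ∃ f : ℕ → (Ch →* G), (∀ q, q < m → f q (ch 0) = S.T (4 * q) (4 * q + 1) ∧
      f q (ch 1) = S.B (2 * q) ∧ f q (ch 2) = S.T (4 * q + 1) (4 * q + 3) ∧
      f q (ch 3) = S.B (2 * q + 1) ∧ f q (ch 4) = S.T (4 * q + 2) (4 * q + 3)) ∧
    (∀ q r, q < m → r < m → q ≠ r → ∀ x y, Commute (f q x) (f r y)) ∧
    (∀ q, q < m → ∀ c : G, Commute c (S.T (4 * q) (4 * q + 1)) → Commute c (S.B (2 * q)) →
      Commute c (S.T (4 * q + 1) (4 * q + 3)) → Commute c (S.B (2 * q + 1)) →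
      Commute c (S.T (4 * q + 2) (4 * q + 3)) → ∀ x, Commute c (f q x)) := by
  have h : ∀ q, ∃ f : Ch →* G, q < m → ∀ i, f (ch i) = R1_t S q i := by
    intro q
    by_cases hq : q < m
    · obtain ⟨f, hf⟩ := (R1_chain S hS q (by omega)).exists_hom
      exact ⟨f, fun _ => hf⟩
    · exact ⟨1, fun h => absurd h hq⟩
  choose f hf using h
  refine ⟨f, fun q hq => ⟨hf q hq 0, hf q hq 1, hf q hq 2, hf q hq 3, hf q hq 4⟩, ?_, ?_⟩
  · have key : ∀ q r, q < r → r < m → ∀ x y, Commute (f q x) (f r y) := by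
      intro q r hqr hr x y
      refine R1_cen S r (f r) (hf r hr) _ (fun j => ?_) y
      refine (R1_cen S q (f q) (hf q (by omega)) _ (fun i => ?_) x).symm
      exact (R1_com S hS q r hqr (by omega) i j).symm
    intro q r hq hr hqr x y
    rcases Nat.lt_or_gt_of_ne hqr with h | h
    · exact key q r h hr x y
    · exact (key r q h hq y x).symm
  · intro q hq c h0 h1 h2 h3 h4 x
    refine R1_cen S q (f q) (hf q hq) c (fun i => ?_) x
    fin_cases i
    · exact h0
    · exact h1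
    · exact h2
    · exact h3
    · exact h4
-- END R1

-- MODULE R2
/-- One replacement: if `ρ (f k) φ = φ` for all `k ∈ KK`, `φ ∈ E`, where `f` is the block `q`, then `N_q φ = 0` for `φ ∈ E`.
PROOF. C = Cen ρ E, M = Fix ρ E, conj_fix. f k ∈ M for k ∈ KK. B (2q+1) * T_(a_(2q+1))⁻¹ = f (ch 3 * (ch 4)⁻¹) ∈ M by diff_mem;
lemH: T (4q+2) (4q+3) ∈ M. T (4q) (4q+1) = f (ch 0 * (ch 4)⁻¹) * T (4q+2) (4q+3) ∈ M. So ρ (T (4q) (4q+1)) φ = φ. -/
theorem replace_one (S : Tw g n G) (hS : Rels S) (m q : ℕ) (hg : 2 * m + 2 ≤ g) (hq : q < m)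
    (ρ : G →* Module.End ℂ V) (E : Set (Module.End ℂ V)) (f : Ch →* G)
    (h0 : f (ch 0) = S.T (4 * q) (4 * q + 1)) (h3 : f (ch 3) = S.B (2 * q + 1))
    (h4 : f (ch 4) = S.T (4 * q + 2) (4 * q + 3))
    (hK : ∀ k ∈ KK, ∀ φ ∈ E, ρ (f k) * φ = φ)
    (hT1 : ∀ t, 2 * g - 4 ≤ t → t ≤ 2 * g - 1 → S.T (4 * q + 3) t ∈ Cen ρ E)
    (hT2 : ∀ s t, 2 * g - 4 ≤ s → s < t → t ≤ 2 * g - 1 → S.T s t ∈ Cen ρ E)
    (ha : S.T (4 * q + 2) (4 * q + 3) ∈ Cen ρ E) (hB : S.B (2 * q + 1) ∈ Cen ρ E)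
    (hB1 : S.B (g - 2) ∈ Cen ρ E) (hB2 : S.B (g - 1) ∈ Cen ρ E) :
    ∀ φ ∈ E, Nq S ρ q * φ = 0 := by
  have hM : ∀ k ∈ KK, f k ∈ Fix ρ E := fun k hk φ hφ => hK k hk φ hφ
  have h34 : S.B (2 * q + 1) * (S.T (4 * q + 2) (4 * q + 3))⁻¹ ∈ Fix ρ E := by
    rw [← h3, ← h4, ← map_inv, ← map_mul]
    exact hM _ (diff_mem 3 4)
  have hT := lemH S hS m q hg hq (Cen ρ E) (Fix ρ E) (conj_fix ρ E) hT1 hT2 ha hB hB1 hB2 h34
  have h04 : S.T (4 * q) (4 * q + 1) * (S.T (4 * q + 2) (4 * q + 3))⁻¹ ∈ Fix ρ E := by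
    rw [← h0, ← h4, ← map_inv, ← map_mul]
    exact hM _ (diff_mem 0 4)
  have hT0 : S.T (4 * q) (4 * q + 1) ∈ Fix ρ E := by
    have := (Fix ρ E).mul_mem h04 hT
    rwa [inv_mul_cancel_right] at this
  intro φ hφ
  unfold Nq
  rw [sub_mul, one_mul, hT0 φ hφ, sub_self]
-- END R2

-- MODULE R3
/-- STEP 1: N_0 N_1 ... N_(m-1) = 0.
PROOF. exists_blocks: f. lemP with ρ' q = ρ.comp (f q) (CF m from the commuting of the blocks): Kills m ρ'. CLAIM, by induction on r ≤ m: for
all k with k q ∈ KK (q < m): pr m (fun q => if q < r then N_q else ρ (f q (k q)) - 1) = 0. r = 0: Kills. r → r + 1 (r < m): let E = {φ | ∃ k', (∀ q < m, k' q ∈ KK) ∧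
φ = pr m (fun q => if q < r then N_q else if q = r then 1 else ρ (f q (k' q)) - 1)}. By pr_update (the family is pairwise commuting: N_q = ρ (f q (ch 0)) - 1; the two functions
agree after Function.update at r, pr_congr) and the claim for r: (ρ (f r k) - 1) * φ = 0 for k ∈ KK, φ ∈ E. Apply replace_one with q = r: N_r φ = 0, which is the
claim for r + 1 (pr_update again). Its commutation hypotheses: if c ∈ G commutes with f q x for all x and all q < m, q ≠ r, then ρ c commutes with every φ ∈ E (pr_commute, every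
factor is N_q = ρ (f q (ch 0)) - 1, ρ (f q k) - 1 or 1). By the third part of exists_blocks this only has to be checked on the five generators of the block q: T (4r+3) t
(2g-4 ≤ t ≤ 2g-1) is disjoint from the blocks q < r and contains the feet 4q, ..., 4q+3 of the blocks q > r (4q+3 ≤ 4m-1 < 2g-4): TT, TB; T s t with
2g-4 ≤ s is disjoint from all blocks; T (4r+2) (4r+3), B (2r+1), B (g-2), B (g-1): TT, TB, BB. r = m gives the theorem (pr_congr). -/
theorem step1 (S : Tw g n G) (hS : Rels S) (m : ℕ) (hg : 2 * m + 2 ≤ g) [FiniteDimensional ℂ V]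
    (ρ : G →* Module.End ℂ V) (hV : Module.finrank ℂ V < 4 ^ m) :
    pr m (fun q => Nq S ρ q) = 0 := by
  classical
  obtain ⟨f, hf, hcomm, hcen⟩ := exists_blocks S hS m hg
  have hN : ∀ q, q < m → ρ (f q (ch 0)) - 1 = Nq S ρ q := by
    intro q hq
    rw [(hf q hq).1]
    rfl
  have hKi : Kills m (fun q => ρ.comp (f q)) := by
    refine lemP m V _ hV ?_
    intro q r hq hr hqr x y
    exact (hcomm q r hq hr hqr x y).map ρ
  have hPC : ∀ x : ℕ → Ch, PC m (fun q => ρ (f q (x q)) - 1) := by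
    intro x q r hq hr hqr
    exact (((hcomm q r hq hr hqr (x q) (x r)).map ρ).sub_left (Commute.one_left _)).sub_right
      (Commute.one_right _)
  -- commuting with a block
  have hblk : ∀ q, q < m → ∀ c : G,
      (∀ s t, 4 * q ≤ s → s < t → t ≤ 4 * q + 3 → Commute c (S.T s t)) →
      (∀ i, 2 * q ≤ i → i ≤ 2 * q + 1 → Commute c (S.B i)) → ∀ x, Commute c (f q x) := by
    intro q hq c h1 h2
    exact hcen q hq c (h1 _ _ (by omega) (by omega) (by omega)) (h2 _ (by omega) (by omega))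
      (h1 _ _ (by omega) (by omega) (by omega)) (h2 _ (by omega) (by omega))
      (h1 _ _ (by omega) (by omega) (by omega))
  have claim : ∀ r, r ≤ m → ∀ x : ℕ → Ch, (∀ q, q < r → x q = ch 0) →
      (∀ q, q < m → r ≤ q → x q ∈ KK) → pr m (fun q => ρ (f q (x q)) - 1) = 0 := by
    intro r
    induction r with
    | zero =>
      intro _ x _ hx
      exact hKi x fun q hq => hx q hq (Nat.zero_le q)
    | succ r ih =>
      intro hr x hx0 hx
      have hrm : r < m := by omega
      obtain ⟨φ, hφ⟩ : ∃ φ, φ = pr m (Function.update (fun q => ρ (f q (x q)) - 1) r 1) := ⟨_, rfl⟩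
      have hx' : ∀ k : Ch, Function.update (fun q => ρ (f q (Function.update x r k q)) - 1) r 1 =
          Function.update (fun q => ρ (f q (x q)) - 1) r 1 := by
        intro k
        funext q
        by_cases hq : q = r
        · subst hq
          rw [Function.update_self, Function.update_self]
        · rw [Function.update_of_ne hq, Function.update_of_ne hq, Function.update_of_ne hq]
      have hk : ∀ k : Ch, pr m (fun q => ρ (f q (Function.update x r k q)) - 1) =
          (ρ (f r k) - 1) * φ := by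
        intro k
        rw [pr_update m r hrm _ (hPC _), hx' k, ← hφ, Function.update_self]
      have hC : ∀ c : G, (∀ q, q < m → q ≠ r → ∀ y, Commute c (f q y)) → c ∈ Cen ρ {φ} := by
        intro c hc ψ hψ
        rw [Set.mem_singleton_iff.1 hψ, hφ]
        apply pr_commute
        intro q hq
        by_cases hqr : q = r
        · subst hqr
          rw [Function.update_self]
          exact Commute.one_right _
        · rw [Function.update_of_ne hqr]
          exact ((hc q hq hqr (x q)).map ρ).sub_right (Commute.one_right _)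
      have h0 : Nq S ρ r * φ = 0 := by
        refine replace_one S hS m r hg hrm ρ {φ} (f r) (hf r hrm).1 (hf r hrm).2.2.2.1
          (hf r hrm).2.2.2.2 ?_ ?_ ?_ ?_ ?_ ?_ ?_ φ (Set.mem_singleton φ)
        · intro k hk' ψ hψ
          rw [Set.mem_singleton_iff.1 hψ]
          have h1 := ih (by omega) (Function.update x r k) (fun q hq => by
            rw [Function.update_of_ne (by omega)]
            exact hx0 q (by omega)) (fun q hq hrq => by
            by_cases hqr : q = r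
            · rw [hqr, Function.update_self]
              exact hk'
            · rw [Function.update_of_ne hqr]
              exact hx q hq (by omega))
          rw [hk k, sub_mul, one_mul, sub_eq_zero] at h1
          exact h1
        · intro t ht1 ht2
          refine hC _ fun q hq hqr => hblk q hq _ (fun s' t' h1 h2 h3 => ?_) fun i h1 h2 => ?_
          · by_cases h : q < r
            · exact (hS.TT _ _ _ _ h2 (by omega) (by omega) (by omega) (Or.inl (by omega))).symm
            · exact hS.TT _ _ _ _ (by omega) (by omega) h2 (by omega)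
                (Or.inr ⟨by omega, by omega⟩)
          · by_cases h : q < r
            · exact hS.TB _ _ _ (by omega) (by omega) (by omega) (Or.inl (by omega))
            · exact hS.TB _ _ _ (by omega) (by omega) (by omega)
                (Or.inr (Or.inr ⟨by omega, by omega⟩))
        · intro s t hs1 hst ht
          refine hC _ fun q hq hqr => hblk q hq _ (fun s' t' h1 h2 h3 => ?_) fun i h1 h2 => ?_
          · exact (hS.TT _ _ _ _ h2 (by omega) hst (by omega) (Or.inl (by omega))).symm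
          · exact hS.TB _ _ _ hst (by omega) (by omega) (Or.inl (by omega))
        · refine hC _ fun q hq hqr => hblk q hq _ (fun s' t' h1 h2 h3 => ?_) fun i h1 h2 => ?_
          · by_cases h : q < r
            · exact (hS.TT _ _ _ _ h2 (by omega) (by omega) (by omega) (Or.inl (by omega))).symm
            · exact hS.TT _ _ _ _ (by omega) (by omega) h2 (by omega) (Or.inl (by omega))
          · by_cases h : q < r
            · exact hS.TB _ _ _ (by omega) (by omega) (by omega) (Or.inl (by omega))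
            · exact hS.TB _ _ _ (by omega) (by omega) (by omega) (Or.inr (Or.inl (by omega)))
        · refine hC _ fun q hq hqr => hblk q hq _ (fun s' t' h1 h2 h3 => ?_) fun i h1 h2 => ?_
          · by_cases h : q < r
            · exact (hS.TB _ _ _ h2 (by omega) (by omega) (Or.inr (Or.inl (by omega)))).symm
            · exact (hS.TB _ _ _ h2 (by omega) (by omega) (Or.inl (by omega))).symm
          · exact hS.BB _ _ (by omega) (by omega)
        · refine hC _ fun q hq hqr => hblk q hq _ (fun s' t' h1 h2 h3 => ?_) fun i h1 h2 => ?_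
          · exact (hS.TB _ _ _ h2 (by omega) (by omega) (Or.inr (Or.inl (by omega)))).symm
          · exact hS.BB _ _ (by omega) (by omega)
        · refine hC _ fun q hq hqr => hblk q hq _ (fun s' t' h1 h2 h3 => ?_) fun i h1 h2 => ?_
          · exact (hS.TB _ _ _ h2 (by omega) (by omega) (Or.inr (Or.inl (by omega)))).symm
          · exact hS.BB _ _ (by omega) (by omega)
      have h1 := hk (ch 0)
      rw [hN r hrm, h0] at h1
      rw [← h1]
      apply pr_congr
      intro q hq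
      by_cases hqr : q = r
      · rw [hqr, Function.update_self, hx0 r (by omega)]
      · rw [Function.update_of_ne hqr]
  rw [← claim m le_rfl (fun _ => ch 0) (fun _ _ => rfl) (fun q hq hmq => absurd hq (by omega))]
  exact pr_congr m _ _ fun q hq => (hN q hq).symm
-- END R3

/-- `φ` commutes with everything that commutes with the `T_(a_(2q))`, `q ∈ J`. -/
def OnlyN (S : Tw g n G) (ρ : G →* Module.End ℂ V) (J : Finset ℕ) (φ : Module.End ℂ V) : Prop :=
  ∀ x : G, (∀ q ∈ J, Commute x (S.T (4 * q) (4 * q + 1))) → Commute (ρ x) φ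

-- MODULE R4
/-- PROOF. TT: T s t commutes with T (4q) (4q+1) (nested or disjoint). PT (T (4q) (4q+1) = T (2(2q)) (2(2q)+1)). TB: B i commutes with T (4q) (4q+1) for i ≠ 2q. -/
theorem OnlyN.cen (S : Tw g n G) (hS : Rels S) (m : ℕ) (hg : 2 * m + 2 ≤ g)
    (ρ : G →* Module.End ℂ V) (J : Finset ℕ) (hJ : ∀ r ∈ J, r < m) (φ : Module.End ℂ V)
    (h : OnlyN S ρ J φ) :
    (∀ s t, s < t → t ≤ 2 * g + n → S.T s t ∈ Cen ρ {φ}) ∧ S.P ∈ Cen ρ {φ} ∧
    (∀ i, i < g → (∀ r ∈ J, i ≠ 2 * r) → S.B i ∈ Cen ρ {φ}) := by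
  have hcen : ∀ x : G, (∀ q ∈ J, Commute x (S.T (4 * q) (4 * q + 1))) → x ∈ Cen ρ {φ} := by
    intro x hx ψ hψ
    rw [Set.mem_singleton_iff.1 hψ]
    exact h x hx
  refine ⟨fun s t hst ht => hcen _ fun q hq => ?_, hcen _ fun q hq => ?_,
    fun i hi hiJ => hcen _ fun q hq => ?_⟩
  · have hqm := hJ q hq
    by_cases h1 : t ≤ 4 * q
    · exact hS.TT _ _ _ _ hst ht (by omega) (by omega) (Or.inl h1)
    · by_cases h2 : 4 * q + 1 ≤ s
      · exact (hS.TT _ _ _ _ (by omega) (by omega) hst ht (Or.inl h2)).symm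
      · exact hS.TT _ _ _ _ hst ht (by omega) (by omega) (Or.inr ⟨by omega, by omega⟩)
  · have hqm := hJ q hq
    have h1 := hS.PT (2 * q) (by omega)
    rwa [show 2 * (2 * q) = 4 * q by omega] at h1
  · have hqm := hJ q hq
    have h1 := hiJ q hq
    refine (hS.TB _ _ _ (by omega) (by omega) hi ?_).symm
    by_cases h2 : i < 2 * q
    · exact Or.inl (by omega)
    · exact Or.inr (Or.inl (by omega))
-- END R4

-- MODULE R5
private theorem R5_TT (S : Tw g n G) (hS : Rels S) (m : ℕ) (hg : 2 * m + 2 ≤ g) (q r : ℕ)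
    (hq : q < m) (hr : r < m) :
    Commute (S.T (4 * q) (4 * q + 1)) (S.T (4 * r) (4 * r + 1)) := by
  rcases Nat.lt_trichotomy q r with h | h | h
  · exact hS.TT _ _ _ _ (by omega) (by omega) (by omega) (by omega) (Or.inl (by omega))
  · subst h
    exact Commute.refl _
  · exact (hS.TT _ _ _ _ (by omega) (by omega) (by omega) (by omega) (Or.inl (by omega))).symm

private theorem R5_sub (ρ : G →* Module.End ℂ V) (x y : G) (h : Commute x y) :
    Commute (ρ x) (ρ y - 1) :=
  (h.map ρ).sub_right (Commute.one_right _)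

private theorem R5_NN (S : Tw g n G) (hS : Rels S) (m : ℕ) (hg : 2 * m + 2 ≤ g)
    (ρ : G →* Module.End ℂ V) (q r : ℕ) (hq : q < m) (hr : r < m) :
    Commute (Nq S ρ q) (Nq S ρ r) := by
  unfold Nq
  exact (R5_sub ρ _ _ (R5_TT S hS m hg q r hq hr)).sub_left (Commute.one_left _)

/-- Facts on N_J: it is OnlyN; N_∅ = 1; inserting an element; the full product. PROOF. pr_commute; pr_congr; pr_update (the N_q commute pairwise by TT). -/
theorem NJ_facts (S : Tw g n G) (hS : Rels S) (m : ℕ) (hg : 2 * m + 2 ≤ g)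
    (ρ : G →* Module.End ℂ V) :
    NJ S ρ m ∅ = 1 ∧ (∀ J, OnlyN S ρ J (NJ S ρ m J)) ∧
    (∀ (J : Finset ℕ) q, q < m → q ∉ J → NJ S ρ m (insert q J) = Nq S ρ q * NJ S ρ m J) ∧
    (∀ (J : Finset ℕ) q, q < m → Commute (Nq S ρ q) (NJ S ρ m J)) ∧
    NJ S ρ m (Finset.range m) = pr m (fun q => Nq S ρ q) := by
  classical
  refine ⟨?_, ?_, ?_, ?_, ?_⟩
  · unfold NJ
    rw [pr_congr m _ (fun _ => 1) (fun q _ => if_neg (Finset.notMem_empty q))]
    clear hg
    induction m with
    | zero => rfl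
    | succ m ih => rw [pr_succ, ih, mul_one]
  · intro J x hx
    unfold NJ
    refine pr_commute m _ _ (fun q hq => ?_)
    by_cases h : q ∈ J
    · rw [if_pos h]
      exact R5_sub ρ x _ (hx q h)
    · rw [if_neg h]
      exact Commute.one_right _
  · intro J q hq hqJ
    unfold NJ
    rw [pr_update m q hq, if_pos (Finset.mem_insert_self q J)]
    · congr 1
      refine pr_congr m _ _ (fun r hr => ?_)
      by_cases hrq : r = q
      · subst hrq
        rw [Function.update_self, if_neg hqJ]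
      · rw [Function.update_of_ne hrq]
        by_cases h : r ∈ J
        · rw [if_pos h, if_pos (Finset.mem_insert_of_mem h)]
        · rw [if_neg h, if_neg (fun h' => (Finset.mem_insert.1 h').elim hrq h)]
    · intro r s hr hs _
      show Commute (if r ∈ insert q J then Nq S ρ r else 1) (if s ∈ insert q J then Nq S ρ s else 1)
      by_cases h1 : r ∈ insert q J
      · rw [if_pos h1]
        by_cases h2 : s ∈ insert q J
        · rw [if_pos h2]
          exact R5_NN S hS m hg ρ r s hr hs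
        · rw [if_neg h2]
          exact Commute.one_right _
      · rw [if_neg h1]
        exact Commute.one_left _
  · intro J q hq
    unfold NJ
    refine pr_commute m _ _ (fun r hr => ?_)
    by_cases h : r ∈ J
    · rw [if_pos h]
      exact R5_NN S hS m hg ρ q r hq hr
    · rw [if_neg h]
      exact Commute.one_right _
  · unfold NJ
    exact pr_congr m _ _ (fun q hq => if_pos (Finset.mem_range.2 hq))
-- END R5

-- MODULE R6
/-- One application of Lemma E. PROOF. C = Cen ρ {φ}, M = Fix ρ {φ}, conj_fix, OnlyN.cen, T (4q) (4q+1) ∈ M since N_q φ = 0. lemE. -/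
theorem has_of_kill (S : Tw g n G) (hS : Rels S) (m : ℕ) (hg : 2 * m + 2 ≤ g)
    (ρ : G →* Module.End ℂ V) (J : Finset ℕ) (hJ : ∀ r ∈ J, r < m) (φ : Module.End ℂ V)
    (h : OnlyN S ρ J φ) (q : ℕ) (hq : q < m) (hqJ : q ∉ J) (h0 : Nq S ρ q * φ = 0) :
    Has S m J (Fix ρ {φ}) := by
  obtain ⟨h1, h2, h3⟩ := OnlyN.cen S hS m hg ρ J hJ φ h
  refine lemE S hS m hg J hJ q hq hqJ (Cen ρ {φ}) (Fix ρ {φ}) (conj_fix ρ {φ}) h1 h2 h3 ?_
  intro ψ hψ
  rw [Set.mem_singleton_iff] at hψ
  subst hψ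
  unfold Nq at h0
  rw [sub_mul, one_mul, sub_eq_zero] at h0
  exact h0
-- END R6

-- MODULE R7
/-- (1) UNIPOTENCE. PROOF. m = 0: V is trivial, End V is subsingleton. m ≥ 1: N = N_0 = ρ (T 0 1) - 1. Suppose N is not nilpotent. Consider the J ⊆ {1, ..., m-1} such that
N^s * N_J ≠ 0 for all s; ∅ is one (N_∅ = 1). Take one of maximal cardinality. J ≠ {1, ..., m-1}, since N * N_({1..m-1}) = N_(range m) = 0 (step1). Take j < m, j ≠ 0, j ∉ J. By
maximality there is s with N^s * N_(insert j J) = 0. φ = N^s * N_J is OnlyN for insert 0 J and N_j φ = N^s * N_j * N_J = 0. has_of_kill (insert 0 J, q = j): Has.a 0: T 0 1 ∈ Fix ρ {φ}, so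
N^(s+1) N_J = 0, contradiction. -/
theorem unip (S : Tw g n G) (hS : Rels S) (m : ℕ) (hg : 2 * m + 2 ≤ g) [FiniteDimensional ℂ V]
    (ρ : G →* Module.End ℂ V) (hV : Module.finrank ℂ V < 4 ^ m) :
    IsNilpotent (ρ (S.T 0 1) - 1) := by
  classical
  obtain ⟨hJ0, hJonly, hJins, -, hJall⟩ := NJ_facts S hS m hg ρ
  rcases Nat.eq_zero_or_pos m with hm | hm
  · subst hm
    have h0 : Module.finrank ℂ V = 0 := by
      rw [pow_zero] at hV
      omega
    have h1 : Subsingleton V := Module.finrank_zero_iff.1 h0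
    refine ⟨1, ?_⟩
    rw [pow_one]
    refine LinearMap.ext fun v => Subsingleton.elim _ _
  · change IsNilpotent (Nq S ρ 0)
    by_contra hnil
    have hne : ∀ s, Nq S ρ 0 ^ s ≠ 0 := fun s h => hnil ⟨s, h⟩
    let Q : Finset (Finset ℕ) := ((Finset.range m).erase 0).powerset.filter
      (fun J => ∀ s, Nq S ρ 0 ^ s * NJ S ρ m J ≠ 0)
    have hQ : Q.Nonempty := by
      refine ⟨∅, Finset.mem_filter.2 ⟨Finset.empty_mem_powerset _, fun s => ?_⟩⟩
      rw [hJ0, mul_one]
      exact hne s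
    obtain ⟨J, hJQ, hJmax⟩ := Finset.exists_max_image Q Finset.card hQ
    obtain ⟨hJsub', hJne⟩ := Finset.mem_filter.1 hJQ
    have hJsub : J ⊆ (Finset.range m).erase 0 := Finset.mem_powerset.1 hJsub'
    have h0J : 0 ∉ J := fun h => (Finset.mem_erase.1 (hJsub h)).1 rfl
    have hJm : ∀ r ∈ J, r < m := fun r hr =>
      Finset.mem_range.1 (Finset.mem_erase.1 (hJsub hr)).2
    have hex : ∃ j, j < m ∧ j ≠ 0 ∧ j ∉ J := by
      by_contra hc
      push Not at hc
      have hins : insert 0 J = Finset.range m := by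
        ext q
        rw [Finset.mem_insert, Finset.mem_range]
        constructor
        · rintro (rfl | h)
          · exact hm
          · exact hJm q h
        · intro h
          by_cases hq0 : q = 0
          · exact Or.inl hq0
          · exact Or.inr (hc q h hq0)
      have h1 := hJins J 0 hm h0J
      rw [hins, hJall, step1 S hS m hg ρ hV] at h1
      apply hJne 1
      rw [pow_one, ← h1]
    obtain ⟨j, hjm, hj0, hjJ⟩ := hex
    have hs : ∃ s, Nq S ρ 0 ^ s * NJ S ρ m (insert j J) = 0 := by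
      by_contra hc
      push Not at hc
      have h1 : insert j J ∈ Q := by
        refine Finset.mem_filter.2 ⟨Finset.mem_powerset.2 ?_, hc⟩
        refine Finset.insert_subset (Finset.mem_erase.2 ⟨hj0, Finset.mem_range.2 hjm⟩) hJsub
      have h2 := hJmax _ h1
      rw [Finset.card_insert_of_notMem hjJ] at h2
      omega
    obtain ⟨s, hs⟩ := hs
    have hcomm : Commute (Nq S ρ j) (Nq S ρ 0) := by
      have h1 : Commute (S.T (4 * j) (4 * j + 1)) (S.T (4 * 0) (4 * 0 + 1)) :=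
        (hS.TT (4 * 0) (4 * 0 + 1) (4 * j) (4 * j + 1) (by omega) (by omega) (by omega) (by omega)
          (Or.inl (by omega))).symm
      exact ((h1.map ρ).sub_left (Commute.one_left _)).sub_right (Commute.one_right _)
    have hφ0 : Nq S ρ j * (Nq S ρ 0 ^ s * NJ S ρ m J) = 0 := by
      rw [← mul_assoc, (hcomm.pow_right s).eq, mul_assoc, ← hJins J j hjm hjJ, hs]
    have honly : OnlyN S ρ (insert 0 J) (Nq S ρ 0 ^ s * NJ S ρ m J) := by
      intro x hx
      have h1 : Commute x (S.T (4 * 0) (4 * 0 + 1)) := hx 0 (Finset.mem_insert_self _ _)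
      have h2 : Commute (ρ x) (Nq S ρ 0) := (h1.map ρ).sub_right (Commute.one_right _)
      exact (h2.pow_right s).mul_right
        (hJonly J x fun q hq => hx q (Finset.mem_insert_of_mem hq))
    have hH := has_of_kill S hS m hg ρ (insert 0 J)
      (fun r hr => by
        rcases Finset.mem_insert.1 hr with rfl | h
        · exact hm
        · exact hJm r h) _ honly j hjm
      (fun h => by
        rcases Finset.mem_insert.1 h with h | h
        · exact hj0 h
        · exact hjJ h) hφ0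
    have h1 : ρ (S.T (2 * 0) (2 * 0 + 1)) * (Nq S ρ 0 ^ s * NJ S ρ m J) =
        Nq S ρ 0 ^ s * NJ S ρ m J := hH.a 0 (by omega) _ (Set.mem_singleton _)
    have h2 : Nq S ρ 0 * (Nq S ρ 0 ^ s * NJ S ρ m J) = 0 := by
      have h3 : Nq S ρ 0 = ρ (S.T (2 * 0) (2 * 0 + 1)) - 1 := rfl
      conv_lhs => rw [h3, sub_mul, one_mul, ← h3]
      rw [h1, sub_self]
    apply hJne (s + 1)
    rw [pow_succ', mul_assoc]
    exact h2
-- END R7

-- MODULE R8
/-- STEP 2. PROOF. j0 = the maximal cardinality of a J ⊆ range m with N_J ≠ 0 (N_∅ = 1 ≠ 0). Let J ⊆ range m, |J| = j0. If N_J = 0: Fix ρ {0} = ⊤, everything is trivial. If N_J ≠ 0: J ≠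
range m by step1, take q < m, q ∉ J: N_(insert q J) = 0 by maximality, N_q * N_J = 0, has_of_kill. -/
theorem step2 (S : Tw g n G) (hS : Rels S) (m : ℕ) (hg : 2 * m + 2 ≤ g) [FiniteDimensional ℂ V]
    [Nontrivial V] (ρ : G →* Module.End ℂ V) (hV : Module.finrank ℂ V < 4 ^ m) :
    ∃ j0, (∃ J ⊆ Finset.range m, J.card = j0 ∧ NJ S ρ m J ≠ 0) ∧
      ∀ J ⊆ Finset.range m, J.card = j0 → Has S m J (Fix ρ {NJ S ρ m J}) := by
  classical
  obtain ⟨hJ0, hJonly, hJins, -, hJall⟩ := NJ_facts S hS m hg ρ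
  let Q : Finset (Finset ℕ) := (Finset.range m).powerset.filter (fun J => NJ S ρ m J ≠ 0)
  have hQ : Q.Nonempty := by
    refine ⟨∅, Finset.mem_filter.2 ⟨Finset.empty_mem_powerset _, ?_⟩⟩
    rw [hJ0]
    exact one_ne_zero
  obtain ⟨J0, hJ0Q, hJmax⟩ := Finset.exists_max_image Q Finset.card hQ
  obtain ⟨hJsub', hJne⟩ := Finset.mem_filter.1 hJ0Q
  refine ⟨J0.card, ⟨J0, Finset.mem_powerset.1 hJsub', rfl, hJne⟩, fun J hJ hcard => ?_⟩
  by_cases h0 : NJ S ρ m J = 0
  · have h1 : ∀ x, x ∈ Fix ρ {NJ S ρ m J} := by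
      intro x φ hφ
      rw [Set.mem_singleton_iff] at hφ
      rw [hφ, h0, mul_zero]
    exact ⟨fun _ _ => h1 _, fun _ _ _ => h1 _, fun _ _ => h1 _, fun _ _ => h1 _, fun _ _ => h1 _,
      fun _ _ => h1 _, fun _ _ => h1 _, h1 _⟩
  · have hJr : J ≠ Finset.range m := by
      rintro rfl
      exact h0 (by rw [hJall, step1 S hS m hg ρ hV])
    obtain ⟨q, hq, hqJ⟩ : ∃ q ∈ Finset.range m, q ∉ J := by
      by_contra hc
      push Not at hc
      exact hJr (Finset.Subset.antisymm hJ hc)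
    have h2 : NJ S ρ m (insert q J) = 0 := by
      by_contra hc
      have h3 : insert q J ∈ Q :=
        Finset.mem_filter.2 ⟨Finset.mem_powerset.2 (Finset.insert_subset hq hJ), hc⟩
      have h4 := hJmax _ h3
      rw [Finset.card_insert_of_notMem hqJ] at h4
      omega
    rw [hJins J q (Finset.mem_range.1 hq) hqJ] at h2
    exact has_of_kill S hS m hg ρ J (fun r hr => Finset.mem_range.1 (hJ hr)) _ (hJonly J) q
      (Finset.mem_range.1 hq) hqJ h2
-- END R8

-- MODULE R9
/-- PROOF. w = (1+a)(1+b) is a unit and w (1+a) = (1+b) w, so w a = b w, w a a = b b w; M commutes with w; M b b w = w M a a = 0, so M b b = 0. Expanding the braid relation: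
a + a a + a b a = b + b b + b a b. Multiply by M: M (a + a b a) = M (b + b a b). So b M (a + a b a) = M b b (1 + a b) = 0. -/
theorem alg1 {R : Type*} [Ring R] (a b M : R) (hb : Brd (1 + a) (1 + b)) (hMa : Commute M a)
    (hMb : Commute M b) (ua : IsUnit (1 + a)) (ub : IsUnit (1 + b)) (h1 : M * a * a = 0) :
    b * (M * (a + a * b * a)) = 0 := by
  have e1 : a + a * a + a * b * a = b + b * b + b * a * b := by
    have h := hb
    unfold Brd at h
    have h2 : (1 + a) * (1 + b) * (1 + a) - (1 + b) * (1 + a) * (1 + b) =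
        (a + a * a + a * b * a) - (b + b * b + b * a * b) := by noncomm_ring
    rw [h, sub_self] at h2
    exact sub_eq_zero.mp h2.symm
  have hw : ((1 + a) * (1 + b)) * a = b * ((1 + a) * (1 + b)) := by
    have h := hb
    unfold Brd at h
    have h2 : (1 + a) * (1 + b) * (1 + a) - (1 + b) * (1 + a) * (1 + b) =
        ((1 + a) * (1 + b)) * a - b * ((1 + a) * (1 + b)) := by noncomm_ring
    rw [h, sub_self] at h2
    exact sub_eq_zero.mp h2.symm
  have uw : IsUnit ((1 + a) * (1 + b)) := ua.mul ub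
  have hMw : Commute M ((1 + a) * (1 + b)) :=
    ((Commute.one_right M).add_right hMa).mul_right ((Commute.one_right M).add_right hMb)
  have hMbb : M * b * b = 0 := by
    have h3 : M * b * b * ((1 + a) * (1 + b)) = 0 := by
      calc M * b * b * ((1 + a) * (1 + b)) = M * b * (b * ((1 + a) * (1 + b))) := by
            rw [mul_assoc (M * b)]
        _ = M * b * (((1 + a) * (1 + b)) * a) := by rw [hw]
        _ = M * (b * ((1 + a) * (1 + b))) * a := by simp only [mul_assoc]
        _ = M * (((1 + a) * (1 + b)) * a) * a := by rw [← hw]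
        _ = (M * ((1 + a) * (1 + b))) * a * a := by simp only [mul_assoc]
        _ = ((1 + a) * (1 + b)) * (M * a * a) := by rw [hMw.eq]; simp only [mul_assoc]
        _ = 0 := by rw [h1, mul_zero]
    exact (uw.mul_left_eq_zero).mp h3
  have e2 : M * (a + a * b * a) = M * (b + b * a * b) := by
    have h4 : M * (a + a * a + a * b * a) = M * (b + b * b + b * a * b) := by rw [e1]
    have h5 : M * (a + a * a + a * b * a) = M * (a + a * b * a) + M * a * a := by noncomm_ring
    have h6 : M * (b + b * b + b * a * b) = M * (b + b * a * b) + M * b * b := by noncomm_ring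
    rw [h5, h6, h1, hMbb, add_zero, add_zero] at h4
    exact h4
  rw [e2]
  calc b * (M * (b + b * a * b)) = (b * M) * (b + b * a * b) := (mul_assoc b M _).symm
    _ = (M * b) * (b + b * a * b) := by rw [hMb.eq]
    _ = (M * b * b) * (1 + a * b) := by noncomm_ring
    _ = 0 := by rw [hMbb, zero_mul]
-- END R9

-- MODULE R10
open Classical in
private noncomputable def R10_F (S : Tw g n G) (ρ : G →* Module.End ℂ V) (I J : Finset ℕ) (q : ℕ) :
    Module.End ℂ V :=
  if q ∈ I then tq S ρ q else if q ∈ J then Nq S ρ q else 1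

private theorem R10_sub {x y : Module.End ℂ V} (h : Commute x y) : Commute (x - 1) (y - 1) :=
  (h.sub_left (Commute.one_left y)).sub_right ((Commute.one_right x).sub_left
    (Commute.one_left 1))

private theorem R10_NN (S : Tw g n G) (hS : Rels S) (m : ℕ) (hg : 2 * m + 2 ≤ g)
    (ρ : G →* Module.End ℂ V) (r q : ℕ) (hr : r < m) (hq : q < m) (hrq : r ≠ q) :
    Commute (Nq S ρ r) (Nq S ρ q) := by
  apply R10_sub
  apply Commute.map _ ρ
  rcases Nat.lt_or_gt_of_ne hrq with h | h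
  · exact hS.TT _ _ _ _ (by omega) (by omega) (by omega) (by omega) (Or.inl (by omega))
  · exact (hS.TT _ _ _ _ (by omega) (by omega) (by omega) (by omega) (Or.inl (by omega))).symm

private theorem R10_NB (S : Tw g n G) (hS : Rels S) (m : ℕ) (hg : 2 * m + 2 ≤ g)
    (ρ : G →* Module.End ℂ V) (r q : ℕ) (hr : r < m) (hq : q < m) (hrq : r ≠ q) :
    Commute (Nq S ρ r) (Bq S ρ q) := by
  apply R10_sub
  apply Commute.map _ ρ
  exact hS.TB _ _ _ (by omega) (by omega) (by omega) (by omega)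

private theorem R10_BB (S : Tw g n G) (hS : Rels S) (m : ℕ) (hg : 2 * m + 2 ≤ g)
    (ρ : G →* Module.End ℂ V) (r q : ℕ) (hr : r < m) (hq : q < m) :
    Commute (Bq S ρ r) (Bq S ρ q) := by
  apply R10_sub
  apply Commute.map _ ρ
  exact hS.BB _ _ (by omega) (by omega)

private theorem R10_F_comm (S : Tw g n G) (ρ : G →* Module.End ℂ V) (I J : Finset ℕ) (r : ℕ)
    (x : Module.End ℂ V) (h1 : Commute x (Nq S ρ r)) (h2 : Commute x (Bq S ρ r)) :
    Commute x (R10_F S ρ I J r) := by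
  unfold R10_F
  split_ifs
  · exact h1.add_right ((h1.mul_right h2).mul_right h1)
  · exact h1
  · exact Commute.one_right x

private theorem R10_PC (S : Tw g n G) (hS : Rels S) (m : ℕ) (hg : 2 * m + 2 ≤ g)
    (ρ : G →* Module.End ℂ V) (I J : Finset ℕ) : PC m (R10_F S ρ I J) := by
  intro q r hq hr hqr
  apply R10_F_comm
  · apply Commute.symm
    apply R10_F_comm
    · exact R10_NN S hS m hg ρ r q hr hq (Ne.symm hqr)
    · exact R10_NB S hS m hg ρ r q hr hq (Ne.symm hqr)
  · apply Commute.symm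
    apply R10_F_comm
    · exact (R10_NB S hS m hg ρ q r hq hr hqr).symm
    · exact R10_BB S hS m hg ρ r q hr hq

private theorem R10_empty (S : Tw g n G) (ρ : G →* Module.End ℂ V) (m : ℕ) (J : Finset ℕ) :
    EIJ S ρ m ∅ J = NJ S ρ m J := by
  apply pr_congr
  intro q hq
  simp

/-- Changing one coordinate of E_(I,J). For q < m, q ∉ I, q ∉ J, M := E_(I,J) (factor 1 at q) commutes with N_q and b_q, and E_(I, insert q J) = M N_q, E_(insert q I, J) = M t_q.
PROOF. Everything with index r ≠ q commutes with T (4q) (4q+1) and B (2q): TT, TB, BB. pr_update', pr_congr (the functions agree off q, and the factor of M at q is 1), pr_commute.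
(tq is a polynomial in Nq, Bq.) -/
theorem EIJ_facts (S : Tw g n G) (hS : Rels S) (m : ℕ) (hg : 2 * m + 2 ≤ g)
    (ρ : G →* Module.End ℂ V) (I J : Finset ℕ) (q : ℕ) (hq : q < m) (hI : q ∉ I) (hJ : q ∉ J) :
    Commute (EIJ S ρ m I J) (Nq S ρ q) ∧ Commute (EIJ S ρ m I J) (Bq S ρ q) ∧
    EIJ S ρ m I (insert q J) = EIJ S ρ m I J * Nq S ρ q ∧
    EIJ S ρ m (insert q I) J = EIJ S ρ m I J * tq S ρ q ∧
    EIJ S ρ m ∅ J = NJ S ρ m J := by
  have hNN : ∀ r, r < m → r ≠ q → Commute (Nq S ρ r) (Nq S ρ q) :=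
    fun r hr hrq => R10_NN S hS m hg ρ r q hr hq hrq
  have hNB : ∀ r, r < m → r ≠ q → Commute (Nq S ρ r) (Bq S ρ q) :=
    fun r hr hrq => R10_NB S hS m hg ρ r q hr hq hrq
  have hF : ∀ I' J' : Finset ℕ, ∀ r, r < m → r ≠ q →
      Commute (Nq S ρ q) (R10_F S ρ I' J' r) ∧ Commute (Bq S ρ q) (R10_F S ρ I' J' r) := by
    intro I' J' r hr hrq
    have h1 : Commute (Nq S ρ q) (Nq S ρ r) := R10_NN S hS m hg ρ q r hq hr (Ne.symm hrq)
    have h2 : Commute (Nq S ρ q) (Bq S ρ r) := R10_NB S hS m hg ρ q r hq hr (Ne.symm hrq)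
    have h3 : Commute (Bq S ρ q) (Nq S ρ r) := (R10_NB S hS m hg ρ r q hr hq hrq).symm
    have h4 : Commute (Bq S ρ q) (Bq S ρ r) := R10_BB S hS m hg ρ q r hq hr
    exact ⟨R10_F_comm S ρ I' J' r _ h1 h2, R10_F_comm S ρ I' J' r _ h3 h4⟩
  have hF1 : R10_F S ρ I J q = 1 := by simp [R10_F, hI, hJ]
  have hcN : Commute (EIJ S ρ m I J) (Nq S ρ q) := by
    apply Commute.symm
    apply pr_commute
    intro r hr
    by_cases hrq : r = q
    · subst hrq
      have h := hF1
      unfold R10_F at h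
      rw [h]
      exact Commute.one_right _
    · exact (hF I J r hr hrq).1
  have hcB : Commute (EIJ S ρ m I J) (Bq S ρ q) := by
    apply Commute.symm
    apply pr_commute
    intro r hr
    by_cases hrq : r = q
    · subst hrq
      have h := hF1
      unfold R10_F at h
      rw [h]
      exact Commute.one_right _
    · exact (hF I J r hr hrq).2
  refine ⟨hcN, hcB, ?_, ?_, R10_empty S ρ m J⟩
  · have h1 : EIJ S ρ m I (insert q J) = pr m (R10_F S ρ I (insert q J)) := rfl
    rw [h1, pr_update' m q hq _ (R10_PC S hS m hg ρ I (insert q J))]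
    have h2 : R10_F S ρ I (insert q J) q = Nq S ρ q := by simp [R10_F, hI]
    have h3 : pr m (Function.update (R10_F S ρ I (insert q J)) q 1) = EIJ S ρ m I J := by
      apply pr_congr
      intro r hr
      by_cases hrq : r = q
      · subst hrq; simp [hI, hJ]
      · rw [Function.update_of_ne hrq]
        simp [R10_F, hrq]
    rw [h2, h3]
  · have h1 : EIJ S ρ m (insert q I) J = pr m (R10_F S ρ (insert q I) J) := rfl
    rw [h1, pr_update' m q hq _ (R10_PC S hS m hg ρ (insert q I) J)]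
    have h2 : R10_F S ρ (insert q I) J q = tq S ρ q := by simp [R10_F]
    have h3 : pr m (Function.update (R10_F S ρ (insert q I) J) q 1) = EIJ S ρ m I J := by
      apply pr_congr
      intro r hr
      by_cases hrq : r = q
      · subst hrq; simp [hI, hJ]
      · rw [Function.update_of_ne hrq]
        simp [R10_F, hrq]
    rw [h2, h3]
-- END R10

-- MODULE R11
/-- LEMMA F. PROOF. Induction on |I|. I = ∅: hJ0 and EIJ ∅ J = NJ J (EIJ_facts needs a q; for m = 0 or directly by unfolding). I = insert i I', i ∉ I': induction hypothesis for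
(I', insert i J): Has S m (insert i J) (Fix ρ {φ'}), φ' = M N_i, M = E_(I',J). E_(I,J) = M t_i = φ' * (1 + b_i N_i) (t = N + N b N = N (1 + b N)), so Fix ρ {φ'} ≤ Fix ρ {E_(I,J)}.
B (2i) ∈ Fix: T (4i) (4i+1) ∈ Fix ρ {φ'} gives N_i M N_i = 0, i.e. M N_i N_i = 0; alg1 with a = N_i, b = b_i (1 + a = ρ (T ..), 1 + b = ρ (B ..); braid TBe with i ↦ 2i): b_i (M t_i) = 0. So Has S m J:
the field b for the index 2i from this, all others from the induction hypothesis. -/
theorem lemF (S : Tw g n G) (hS : Rels S) (m : ℕ) (hg : 2 * m + 2 ≤ g)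
    (ρ : G →* Module.End ℂ V) (j0 : ℕ)
    (hJ0 : ∀ J ⊆ Finset.range m, J.card = j0 → Has S m J (Fix ρ {NJ S ρ m J})) :
    ∀ I J : Finset ℕ, I ⊆ Finset.range m → J ⊆ Finset.range m → Disjoint I J →
      I.card + J.card = j0 → Has S m J (Fix ρ {EIJ S ρ m I J}) := by
  intro I
  induction I using Finset.induction_on with
  | empty =>
    intro J _ hJ _ hc
    rw [R10_empty]
    exact hJ0 J hJ (by simpa using hc)
  | insert i I' hi ih =>
    intro J hI hJ hd hc
    have him : i < m := Finset.mem_range.mp (hI (Finset.mem_insert_self i I'))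
    have hI' : I' ⊆ Finset.range m := fun x hx => hI (Finset.mem_insert_of_mem hx)
    have hiJ : i ∉ J := fun h => (Finset.disjoint_left.mp hd) (Finset.mem_insert_self i I') h
    have hd' : Disjoint I' (insert i J) := by
      rw [Finset.disjoint_insert_right]
      exact ⟨hi, Finset.disjoint_of_subset_left (Finset.subset_insert i I') hd⟩
    have hJ' : insert i J ⊆ Finset.range m := by
      intro x hx
      rcases Finset.mem_insert.mp hx with rfl | hx
      · exact Finset.mem_range.mpr him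
      · exact hJ hx
    have hc' : I'.card + (insert i J).card = j0 := by
      rw [Finset.card_insert_of_notMem hiJ]
      rw [Finset.card_insert_of_notMem hi] at hc
      omega
    have hIH := ih (insert i J) hI' hJ' hd' hc'
    obtain ⟨hMN, hMB, hE1, hE2, _⟩ := EIJ_facts S hS m hg ρ I' J i him hi hiJ
    rw [hE1] at hIH
    rw [hE2]
    set M := EIJ S ρ m I' J with hM
    have hle : ∀ x, x ∈ Fix ρ {M * Nq S ρ i} → x ∈ Fix ρ {M * tq S ρ i} := by
      intro x hx φ hφ
      rw [Set.mem_singleton_iff] at hφ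
      subst hφ
      have h1 := hx _ rfl
      have h2 : M * tq S ρ i = M * Nq S ρ i * (1 + Bq S ρ i * Nq S ρ i) := by
        unfold tq; noncomm_ring
      rw [h2, ← mul_assoc, h1]
    have hN0 : M * Nq S ρ i * Nq S ρ i = 0 := by
      have h1 := hIH.a (2 * i) (by omega)
      rw [show 2 * (2 * i) = 4 * i by omega] at h1
      have h2 := h1 _ rfl
      have h3 : Nq S ρ i * (M * Nq S ρ i) = 0 := by
        have : Nq S ρ i = ρ (S.T (4 * i) (4 * i + 1)) - 1 := rfl
        rw [show Nq S ρ i * (M * Nq S ρ i) =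
          (ρ (S.T (4 * i) (4 * i + 1)) - 1) * (M * Nq S ρ i) from rfl, sub_mul, h2, one_mul,
          sub_self]
      rw [hMN.eq, mul_assoc, h3]
    have hbraid : Brd (1 + Nq S ρ i) (1 + Bq S ρ i) := by
      have h1 := hS.TBe (2 * i) (4 * i) (by omega) (by omega)
      rw [show 2 * (2 * i) = 4 * i by omega] at h1
      have e1 : 1 + Nq S ρ i = ρ (S.T (4 * i) (4 * i + 1)) := by unfold Nq; abel
      have e2 : 1 + Bq S ρ i = ρ (S.B (2 * i)) := by unfold Bq; abel
      rw [e1, e2]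
      unfold Brd at h1 ⊢
      rw [← map_mul, ← map_mul, ← map_mul, ← map_mul, h1]
    have uN : IsUnit (1 + Nq S ρ i) := by
      have e1 : 1 + Nq S ρ i = ρ (S.T (4 * i) (4 * i + 1)) := by unfold Nq; abel
      rw [e1]
      exact (Group.isUnit _).map ρ
    have uB : IsUnit (1 + Bq S ρ i) := by
      have e2 : 1 + Bq S ρ i = ρ (S.B (2 * i)) := by unfold Bq; abel
      rw [e2]
      exact (Group.isUnit _).map ρ
    have hkill : Bq S ρ i * (M * tq S ρ i) = 0 :=
      alg1 (Nq S ρ i) (Bq S ρ i) M hbraid hMN hMB uN uB hN0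
    refine ⟨fun j hj => hle _ (hIH.a j hj), ?_, fun j hj => hle _ (hIH.e j hj),
      fun q hq => hle _ (hIH.q q hq), fun q hq => hle _ (hIH.q' q hq),
      fun q hq => hle _ (hIH.r q hq), fun k hk => hle _ (hIH.f k hk), hle _ hIH.p⟩
    intro j hj hjJ
    by_cases hji : j = 2 * i
    · subst hji
      intro φ hφ
      rw [Set.mem_singleton_iff] at hφ
      subst hφ
      have h1 : Bq S ρ i * (M * tq S ρ i) =
          ρ (S.B (2 * i)) * (M * tq S ρ i) - M * tq S ρ i := by
        unfold Bq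
        rw [sub_mul, one_mul]
      rw [hkill] at h1
      exact (sub_eq_zero.mp h1.symm)
    · apply hle
      apply hIH.b j hj
      intro q hq
      rcases Finset.mem_insert.mp hq with rfl | hq
      · exact hji
      · exact hjJ q hq
-- END R11

/-- `v ∈ 𝒦_J`: fixed by gens(J), and `(L_q)`: `(1 - T_a) T_b v = v` for `q ∈ J`. -/
def KJ (S : Tw g n G) (ρ : G →* Module.End ℂ V) (m : ℕ) (J : Finset ℕ) (v : V) : Prop :=
  Has S m J (Stab ρ v) ∧
    ∀ q ∈ J, ρ (S.T (4 * q) (4 * q + 1)) (ρ (S.B (2 * q)) v) = ρ (S.B (2 * q)) v - v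

-- MODULE R12
/-- STEP 4. PROOF. step2, lemF. Take I, J disjoint in range m with |I| + |J| = j0, E_(I,J) ≠ 0 and |I| maximal (they exist: I = ∅). v = E_(I,J) w ≠ 0. Fix ρ {E_(I,J)} ≤ Stab ρ v, so Has S m J (Stab ρ v)
(monotone). For q ∈ J: J = insert q J', E_(I,J) = M N_q, E_(insert q I, J') = M t_q = 0 by maximality, M commutes with N_q, b_q (EIJ_facts): 0 = M (N + N b N) w = (1 + N b) (M N w) = v + N b v.
N v = 0 (T_a ∈ Stab). So T_a T_b v = T_a (v + b v) = v + b v + N b v = b v = T_b v - v. -/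
theorem step4 (S : Tw g n G) (hS : Rels S) (m : ℕ) (hg : 2 * m + 2 ≤ g) [FiniteDimensional ℂ V]
    [Nontrivial V] (ρ : G →* Module.End ℂ V) (hV : Module.finrank ℂ V < 4 ^ m) :
    ∃ J ⊆ Finset.range m, ∃ v : V, v ≠ 0 ∧ KJ S ρ m J v := by
  classical
  obtain ⟨j0, ⟨J0, hJ0s, hJ0c, hJ0n⟩, hall⟩ := step2 S hS m hg ρ hV
  have hF := lemF S hS m hg ρ j0 hall
  let P : Finset (Finset ℕ × Finset ℕ) :=
    ((Finset.range m).powerset ×ˢ (Finset.range m).powerset).filter
      (fun p => Disjoint p.1 p.2 ∧ p.1.card + p.2.card = j0 ∧ EIJ S ρ m p.1 p.2 ≠ 0)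
  have hP : P.Nonempty := by
    refine ⟨(∅, J0), ?_⟩
    simp only [P, Finset.mem_filter, Finset.mem_product, Finset.mem_powerset]
    refine ⟨⟨Finset.empty_subset _, hJ0s⟩, Finset.disjoint_empty_left _, by simpa using hJ0c, ?_⟩
    rw [R10_empty]
    exact hJ0n
  obtain ⟨⟨I, J⟩, hIJ, hmax⟩ := Finset.exists_max_image P (fun p => p.1.card) hP
  simp only [P, Finset.mem_filter, Finset.mem_product, Finset.mem_powerset] at hIJ hmax
  obtain ⟨⟨hI, hJ⟩, hd, hc, hne⟩ := hIJ
  have hw : ∃ w, EIJ S ρ m I J w ≠ 0 := by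
    by_contra hcon
    push Not at hcon
    exact hne (LinearMap.ext hcon)
  obtain ⟨w, hw⟩ := hw
  have hle : ∀ x, x ∈ Fix ρ {EIJ S ρ m I J} → x ∈ Stab ρ (EIJ S ρ m I J w) := by
    intro x hx
    have h1 := hx _ rfl
    have h2 := congrArg (fun f : Module.End ℂ V => f w) h1
    exact h2
  have hH := hF I J hI hJ hd hc
  refine ⟨J, hJ, EIJ S ρ m I J w, hw, ?_, ?_⟩
  · exact ⟨fun j hj => hle _ (hH.a j hj), fun j hj hjJ => hle _ (hH.b j hj hjJ),
      fun j hj => hle _ (hH.e j hj), fun q hq => hle _ (hH.q q hq),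
      fun q hq => hle _ (hH.q' q hq), fun q hq => hle _ (hH.r q hq),
      fun k hk => hle _ (hH.f k hk), hle _ hH.p⟩
  · intro q hq
    have hqm : q < m := Finset.mem_range.mp (hJ hq)
    have hqI : q ∉ I := fun h => (Finset.disjoint_left.mp hd) h hq
    obtain ⟨hMN, hMB, hE1, hE2, _⟩ :=
      EIJ_facts S hS m hg ρ I (J.erase q) q hqm hqI (Finset.notMem_erase q J)
    rw [Finset.insert_erase hq] at hE1
    have hz : EIJ S ρ m (insert q I) (J.erase q) = 0 := by
      by_contra hcon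
      have hd' : Disjoint (insert q I) (J.erase q) := by
        rw [Finset.disjoint_insert_left]
        exact ⟨Finset.notMem_erase q J,
          Finset.disjoint_of_subset_right (Finset.erase_subset q J) hd⟩
      have hI' : insert q I ⊆ Finset.range m := by
        intro x hx
        rcases Finset.mem_insert.mp hx with rfl | hx
        · exact Finset.mem_range.mpr hqm
        · exact hI hx
      have hJ' : J.erase q ⊆ Finset.range m := fun x hx => hJ (Finset.mem_of_mem_erase hx)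
      have hcard : (insert q I).card + (J.erase q).card = j0 := by
        rw [Finset.card_insert_of_notMem hqI, Finset.card_erase_of_mem hq]
        have : 0 < J.card := Finset.card_pos.mpr ⟨q, hq⟩
        omega
      have h1 := hmax (insert q I, J.erase q) ⟨⟨hI', hJ'⟩, hd', hcard, hcon⟩
      simp only at h1
      rw [Finset.card_insert_of_notMem hqI] at h1
      omega
    rw [hE2] at hz
    set M := EIJ S ρ m I (J.erase q) with hM
    have hv : EIJ S ρ m I J w = M (Nq S ρ q w) := by rw [hE1]; rfl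
    have hz' : M * Nq S ρ q + Nq S ρ q * (Bq S ρ q * (M * Nq S ρ q)) = 0 := by
      have h1 : M * tq S ρ q = M * Nq S ρ q + (M * Nq S ρ q) * Bq S ρ q * Nq S ρ q := by
        unfold tq; noncomm_ring
      rw [h1] at hz
      have h2 : (M * Nq S ρ q) * Bq S ρ q * Nq S ρ q =
          Nq S ρ q * (Bq S ρ q * (M * Nq S ρ q)) := by
        calc (M * Nq S ρ q) * Bq S ρ q * Nq S ρ q
            = Nq S ρ q * (M * Bq S ρ q) * Nq S ρ q := by rw [hMN.eq]; simp only [mul_assoc]
          _ = Nq S ρ q * (Bq S ρ q * M) * Nq S ρ q := by rw [hMB.eq]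
          _ = _ := by simp only [mul_assoc]
      rw [h2] at hz
      exact hz
    have hz2 : EIJ S ρ m I J w + Nq S ρ q (Bq S ρ q (EIJ S ρ m I J w)) = 0 := by
      have h3 := congrArg (fun f : Module.End ℂ V => f w) hz'
      rw [hE1]
      exact h3
    have hT : ρ (S.T (4 * q) (4 * q + 1)) (EIJ S ρ m I J w) = EIJ S ρ m I J w := by
      have h4 := hle _ (hH.a (2 * q) (by omega))
      rw [show 2 * (2 * q) = 4 * q by omega] at h4
      exact h4
    set v := EIJ S ρ m I J w with hvdef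
    have h5 : Bq S ρ q v = ρ (S.B (2 * q)) v - v := by simp [Bq]
    have h6 : Nq S ρ q (Bq S ρ q v) =
        ρ (S.T (4 * q) (4 * q + 1)) (ρ (S.B (2 * q)) v) - ρ (S.B (2 * q)) v := by
      rw [h5]
      simp only [Nq, LinearMap.sub_apply, Module.End.one_apply, map_sub, hT]
      abel
    rw [h6] at hz2
    have h7 : ρ (S.T (4 * q) (4 * q + 1)) (ρ (S.B (2 * q)) v) =
        (v + (ρ (S.T (4 * q) (4 * q + 1)) (ρ (S.B (2 * q)) v) - ρ (S.B (2 * q)) v)) +
          (ρ (S.B (2 * q)) v - v) := by abel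
    rw [h7, hz2, zero_add]
-- END R12

-- MODULE R13
/-- The local identities. PROOF. Put w = a B v (write g v for ρ g v) = B v - v (hL). B v = v + w. B w = B a B v = a B a v = a B v = w (braid). a w = a (B v - v) = w - v. Stabiliser of w = a B v: (a B) x (a B)⁻¹ =
a (x y⁻¹) a⁻¹ = x (x y)⁻¹ = x y⁻¹ x⁻¹ fixes w; (a B) (y⁻¹ x⁻¹ y) (a B)⁻¹ = a (y⁻¹ (x y⁻¹)⁻¹ y) a⁻¹ = a (x⁻¹ y) a⁻¹ = x⁻¹ x y = y fixes w. So x y x⁻¹ w = w, y w = w.
x B x⁻¹ = x (B x⁻¹ B⁻¹) B = x (x y⁻¹)⁻¹ B = x y x⁻¹ B. Apply to v: x B x⁻¹ v = x B v = x (v + w) = v + x w. And x y x⁻¹ B v = x y x⁻¹ v + x y x⁻¹ w = x y v + w. So v + x w = x y v + w;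
apply x⁻¹: v + w = y v + x⁻¹ w: u = y v - v = w - x⁻¹ w. y u = y w - y x⁻¹ w = w - x⁻¹ w = u (y x⁻¹ w = x⁻¹ (x y x⁻¹ w) = x⁻¹ w). a u = a w - x⁻¹ a w = (w - v) - x⁻¹ (w - v) = w - x⁻¹ w = u. Also a u = a y v - a v =
(x y) a v - v = x y v - v = x (u + v) - v = x u. So x u = u. B u = B y v - B v = y B v - B v = y (v + w) - (v + w) = y v - v = u. u = v - y⁻¹ v: y⁻¹ u = u, so v - y⁻¹ v = y⁻¹ (y v - v) = u. -/
theorem local_id (ρ : G →* Module.End ℂ V) (a B x y : G) (v : V) (hab : Brd a B)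
    (hax : Commute a x) (hay : a * y * a⁻¹ = x * y) (hBx : B * x * B⁻¹ = x * y⁻¹)
    (hBy : Commute B y) (ha : ρ a v = v) (hx : ρ x v = v) (hx' : ρ (y⁻¹ * x⁻¹ * y) v = v)
    (hL : ρ a (ρ B v) = ρ B v - v) :
    ρ y (ρ y v - v) = ρ y v - v ∧ ρ x (ρ y v - v) = ρ y v - v ∧ ρ a (ρ y v - v) = ρ y v - v ∧
    ρ B (ρ y v - v) = ρ y v - v ∧ ρ y v - v = v - ρ y⁻¹ v := by
  have mm : ∀ (p q : G) (z : V), ρ (p * q) z = ρ p (ρ q z) := by
    intro p q z
    rw [map_mul, Module.End.mul_apply]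
  have ii : ∀ (p : G) (z : V), ρ p⁻¹ (ρ p z) = z := by
    intro p z
    rw [← mm]; simp
  have ii' : ∀ (p : G) (z : V), ρ p (ρ p⁻¹ z) = z := by
    intro p z
    rw [← mm]; simp
  have hBx' : B * x = x * y⁻¹ * B := mul_inv_eq_iff_eq_mul.mp hBx
  have hay' : a * y = x * y * a := mul_inv_eq_iff_eq_mul.mp hay
  have hxa : a * x = x * a := hax.eq
  have hByc : B * y = y * B := hBy.eq
  have hayi : a * y⁻¹ = y⁻¹ * x⁻¹ * a := by
    have h1 : a * y⁻¹ * a⁻¹ = (x * y)⁻¹ := by rw [← hay]; group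
    rw [mul_inv_rev] at h1
    exact mul_inv_eq_iff_eq_mul.mp h1
  set w := ρ B v - v with hw
  have hwa : ρ a (ρ B v) = w := hL
  have hBv : ρ B v = v + w := by rw [hw]; abel
  have hxi : ρ x⁻¹ v = v := by
    have := ii x v
    rwa [hx] at this
  have hBw : ρ B w = w := by
    have h1 : B * a * B = a * B * a := by
      unfold Brd at hab
      exact hab.symm
    rw [← hwa, ← mm, ← mm, h1, mm, mm, ha]
  have haw : ρ a w = w - v := by
    rw [hw, map_sub, ha, hL, ← hw]
  -- `x y⁻¹ x⁻¹ w = w`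
  have hG1 : x * y⁻¹ * x⁻¹ * (a * B) = a * B * x := by
    calc x * y⁻¹ * x⁻¹ * (a * B) = x * (y⁻¹ * x⁻¹ * a) * B := by group
      _ = x * (a * y⁻¹) * B := by rw [← hayi]
      _ = (x * a) * y⁻¹ * B := by group
      _ = a * (x * y⁻¹ * B) := by rw [← hxa]; group
      _ = a * (B * x) := by rw [← hBx']
      _ = a * B * x := by group
  have hG2 : y * (a * B) = a * B * (y⁻¹ * x⁻¹ * y) := by
    have h2 : B * (y⁻¹ * x⁻¹ * y) = x⁻¹ * y * B := by
      have h3 : B * x⁻¹ * B⁻¹ = (x * y⁻¹)⁻¹ := by rw [← hBx]; group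
      have h4 : B * y⁻¹ = y⁻¹ * B := by
        have := hBy.inv_right.eq
        exact this
      calc B * (y⁻¹ * x⁻¹ * y) = (B * y⁻¹) * x⁻¹ * y := by group
        _ = y⁻¹ * (B * x⁻¹ * B⁻¹) * (B * y) := by rw [h4]; group
        _ = y⁻¹ * (x * y⁻¹)⁻¹ * (y * B) := by rw [h3, hByc]
        _ = x⁻¹ * y * B := by group
    calc y * (a * B) = x⁻¹ * (x * y * a) * B := by group
      _ = x⁻¹ * (a * y) * B := by rw [← hay']
      _ = (x⁻¹ * a) * y * B := by group
      _ = (a * x⁻¹) * y * B := by rw [(hax.inv_right).eq]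
      _ = a * (x⁻¹ * y * B) := by group
      _ = a * (B * (y⁻¹ * x⁻¹ * y)) := by rw [← h2]
      _ = _ := by group
  have hwab : w = ρ (a * B) v := by rw [mm, hwa]
  have hy_w : ρ y w = w := by
    rw [hwab, ← mm, hG2, mm, hx']
  have hxyi_w : ρ (x * y⁻¹ * x⁻¹) w = w := by
    rw [hwab, ← mm, hG1, mm, hx]
  have hxyx_w : ρ (x * y * x⁻¹) w = w := by
    have h1 : ρ (x * y * x⁻¹) (ρ (x * y⁻¹ * x⁻¹) w) = w := by
      rw [← mm]
      have : x * y * x⁻¹ * (x * y⁻¹ * x⁻¹) = 1 := by group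
      rw [this]; simp
    rwa [hxyi_w] at h1
  have hyx_w : ρ y (ρ x⁻¹ w) = ρ x⁻¹ w := by
    have h1 : ρ x⁻¹ (ρ (x * y * x⁻¹) w) = ρ y (ρ x⁻¹ w) := by
      rw [mm, mm, ii]
    rw [← h1, hxyx_w]
  have hG3 : x * B * x⁻¹ = x * y * x⁻¹ * B := by
    have h3 : B * x⁻¹ * B⁻¹ = (x * y⁻¹)⁻¹ := by rw [← hBx]; group
    calc x * B * x⁻¹ = x * (B * x⁻¹ * B⁻¹) * B := by group
      _ = x * (x * y⁻¹)⁻¹ * B := by rw [h3]
      _ = _ := by group
  have hE : v + ρ x w = ρ x (ρ y v) + w := by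
    have h1 : ρ (x * B * x⁻¹) v = v + ρ x w := by
      rw [mm, mm, hxi, hBv, map_add, hx]
    have h2 : ρ (x * y * x⁻¹ * B) v = ρ x (ρ y v) + w := by
      rw [mm, hBv, map_add, hxyx_w, mm, mm, hxi]
    rw [← h1, ← h2, hG3]
  have hu : ρ y v - v = w - ρ x⁻¹ w := by
    have h1 := congrArg (ρ x⁻¹) hE
    rw [map_add, map_add, ii, ii, hxi] at h1
    rw [sub_eq_sub_iff_add_eq_add, ← h1]
    abel
  have hyu : ρ y (ρ y v - v) = ρ y v - v := by
    rw [hu, map_sub, hy_w, hyx_w]
  have hau : ρ a (ρ y v - v) = ρ y v - v := by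
    rw [hu, map_sub, haw]
    have h1 : ρ a (ρ x⁻¹ w) = ρ x⁻¹ (ρ a w) := by
      rw [← mm, ← mm, (hax.inv_right).eq]
    rw [h1, haw, map_sub, hxi]
    abel
  have hxu : ρ x (ρ y v - v) = ρ y v - v := by
    have h1 : ρ a (ρ y v - v) = ρ x (ρ y v) - v := by
      rw [map_sub, ← mm, hay', mm, mm, ha]
    rw [hau] at h1
    rw [map_sub, hx, ← h1]
  have hBu : ρ B (ρ y v - v) = ρ y v - v := by
    rw [map_sub, ← mm, hByc, mm, hBv, map_add, hy_w]
    abel
  refine ⟨hyu, hxu, hau, hBu, ?_⟩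
  have h1 := congrArg (ρ y⁻¹) hyu
  rw [ii, map_sub, ii] at h1
  exact h1
-- END R13

-- MODULE R14
/-- How a twist acts on u = y v - v. PROOF. (0) T u = y T v - T v = u. (i) T y T⁻¹ = y A⁻¹: T y v = y A⁻¹ T v = y v. (ii) T y T⁻¹ = A y: T y⁻¹ T⁻¹ = y⁻¹ A⁻¹, T y⁻¹ v = y⁻¹ v, u = v - y⁻¹ v. (iii) T y v = A y A⁻¹ T v = A y v = A (u + v) = A u + v = y v
if A u = u. -/
theorem twist_u (ρ : G →* Module.End ℂ V) (T A y : G) (v : V) (hT : ρ T v = v) (hA : ρ A v = v)
    (hu : ρ y v - v = v - ρ y⁻¹ v) :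
    (Commute T y → ρ T (ρ y v - v) = ρ y v - v) ∧
    (T * y * T⁻¹ = y * A⁻¹ → ρ T (ρ y v - v) = ρ y v - v) ∧
    (T * y * T⁻¹ = A * y → ρ T (ρ y v - v) = ρ y v - v) ∧
    (T * y * T⁻¹ = A * y * A⁻¹ → ρ A (ρ y v - v) = ρ y v - v → ρ T (ρ y v - v) = ρ y v - v) := by
  have mm : ∀ (p q : G) (z : V), ρ (p * q) z = ρ p (ρ q z) := by
    intro p q z
    rw [map_mul, Module.End.mul_apply]
  have ii : ∀ (p : G) (z : V), ρ p⁻¹ (ρ p z) = z := by
    intro p z
    rw [← mm]; simp
  have hAi : ρ A⁻¹ v = v := by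
    have := ii A v
    rwa [hA] at this
  refine ⟨fun h => ?_, fun h => ?_, fun h => ?_, fun h hAu => ?_⟩
  · rw [map_sub, ← mm, h.eq, mm, hT]
  · have h' : T * y = y * A⁻¹ * T := mul_inv_eq_iff_eq_mul.mp h
    rw [map_sub, ← mm, h', mm, mm, hT, hAi]
  · have h1 : T * y⁻¹ * T⁻¹ = (A * y)⁻¹ := by rw [← h]; group
    rw [mul_inv_rev] at h1
    have h' : T * y⁻¹ = y⁻¹ * A⁻¹ * T := mul_inv_eq_iff_eq_mul.mp h1
    rw [hu, map_sub, ← mm, h', mm, mm, hT, hAi]
  · have h' : T * y = A * y * A⁻¹ * T := mul_inv_eq_iff_eq_mul.mp h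
    have h2 : ρ A (ρ y v) = ρ y v := by
      rw [map_sub, hA] at hAu
      exact sub_left_injective hAu
    rw [map_sub, ← mm, h', mm, mm, mm, hT, hAi, h2]
-- END R14

-- MODULE R15
/-- STEP 6. PROOF. u = Y (2p) v - v, M = Stab ρ u. lemT for Stab ρ v: all al c and the Y i (i ∉ 2J) fix v. local_id with a = T (4p) (4p+1), B = B (2p), x = X (2p), y = Y (2p) (hypotheses TBe, TX, TY + Al_one + al_even, BX,
BY; x' = al (4p+1), al_odd): Y (2p), X (2p), T (4p) (4p+1), B (2p) ∈ M. For every T = T s t of gens(J) use twist_u with A = Al s t (it fixes v by Al_mem) and TY (i = 2p): feet of the handle 2p: 4p, 4p+1. a: i ≠ 2p: no foot. b: B i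
commutes with Y (2p) (BY). e: T (2i+1) (2i+3): only the foot 4p if i = 2p-1, only the foot 4p+1 if i = 2p, none otherwise. q (q ≠ p), q', r (q + 1 ≠ p), f (2g-1 > 4p+1): none. Now lemT2 for M, J.erase p: all al c, and Y i (i ∉
2 (J.erase p)) are in M. Then T (4p) (4p+3), T (4q+3) (4q+6), T (4q+3) (4q+7) (q+1 = p) contain both feet: case (iii) with A = Al s t ∈ M. P = A⁻¹ T with A = Al (2g-1) (2g+n), T = f_n: in M. So Has S m (J.erase p) M. (L_q),
q ∈ J, q ≠ p: T (4q) (4q+1) and B (2q) commute with Y (2p) (TY, BY): T_a T_b (Y v - v) = Y (T_a T_b v) - T_a T_b v = Y (T_b v - v) - (T_b v - v) = T_b u - u. -/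
theorem step6 (S : Tw g n G) (hS : Rels S) (m : ℕ) (hg : 2 * m + 2 ≤ g)
    (ρ : G →* Module.End ℂ V) (J : Finset ℕ) (hJ : ∀ r ∈ J, r < m) (v : V) (h : KJ S ρ m J v)
    (p : ℕ) (hp : p ∈ J) : KJ S ρ m (J.erase p) (ρ (S.Y (2 * p)) v - v) := by
  obtain ⟨hH, hLq⟩ := h
  have hpm : p < m := hJ p hp
  obtain ⟨hal, hY⟩ := lemT S hS m hg J hJ (Stab ρ v) hH
  have hAl : ∀ s t, t ≤ 2 * g + n → S.Al s t ∈ Stab ρ v := by
    intro s t ht
    exact S.Al_mem _ s t (fun c _ hc => hal c (by omega))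
  -- the local identities
  have hid := local_id ρ (S.T (4 * p) (4 * p + 1)) (S.B (2 * p)) (S.X (2 * p)) (S.Y (2 * p)) v
    (by
      have h1 := hS.TBe (2 * p) (4 * p) (by omega) (by omega)
      rw [show 2 * (2 * p) = 4 * p by omega] at h1
      exact h1)
    (by
      have h1 := hS.TX (2 * p) (by omega)
      rw [show 2 * (2 * p) = 4 * p by omega] at h1
      exact h1)
    (by
      have h1 := hS.TY (4 * p) (4 * p + 1) (2 * p) (by omega) (by omega) (by omega)
      rw [if_pos (by omega), if_neg (by omega), S.Al_one, inv_one, mul_one,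
        show S.al (4 * p) = S.al (2 * (2 * p)) by congr 1; omega, S.al_even _ (by omega)] at h1
      exact h1)
    (hS.BX (2 * p) (by omega))
    (hS.BY (2 * p) (2 * p) (by omega) (by omega))
    (by
      have h1 := hH.a (2 * p) (by omega)
      rw [show 2 * (2 * p) = 4 * p by omega] at h1
      exact h1)
    (by
      have h1 := hal (2 * (2 * p)) (by omega)
      rw [S.al_even _ (by omega)] at h1
      exact h1)
    (by
      have h1 := hal (2 * (2 * p) + 1) (by omega)
      rw [S.al_odd _ (by omega)] at h1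
      exact h1)
    (hLq p hp)
  obtain ⟨hyu, hxu, hau, hBu, huu⟩ := hid
  set u := ρ (S.Y (2 * p)) v - v with hudef
  -- twists which do not contain both feet, or for which `A` fixes `u`
  have hTu : ∀ s t, s < t → t ≤ 2 * g + n → S.T s t ∈ Stab ρ v →
      ((s ≤ 4 * p ∧ 4 * p + 1 < t) → S.Al s t ∈ Stab ρ u) → S.T s t ∈ Stab ρ u := by
    intro s t hst ht hT hA
    obtain ⟨c0, c1, c2, c3⟩ := twist_u ρ (S.T s t) (S.Al s t) (S.Y (2 * p)) v hT (hAl s t ht) huu
    have h1 := hS.TY s t (2 * p) hst ht (by omega)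
    by_cases hc1 : s ≤ 2 * (2 * p) ∧ 2 * (2 * p) < t
    · by_cases hc2 : s ≤ 2 * (2 * p) + 1 ∧ 2 * (2 * p) + 1 < t
      · rw [if_pos hc1, if_pos hc2] at h1
        exact c3 h1 (hA ⟨by omega, by omega⟩)
      · rw [if_pos hc1, if_neg hc2, inv_one, mul_one] at h1
        exact c2 h1
    · by_cases hc2 : s ≤ 2 * (2 * p) + 1 ∧ 2 * (2 * p) + 1 < t
      · rw [if_neg hc1, if_pos hc2, one_mul] at h1
        exact c1 h1
      · rw [if_neg hc1, if_neg hc2, one_mul, inv_one, mul_one] at h1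
        exact c0 (mul_inv_eq_iff_eq_mul.mp h1)
  have fa : ∀ i, i < g → S.T (2 * i) (2 * i + 1) ∈ Stab ρ u := fun i hi =>
    hTu _ _ (by omega) (by omega) (hH.a i hi) (fun h => by omega)
  have fb : ∀ i, i < g → (∀ q ∈ J.erase p, i ≠ 2 * q) → S.B i ∈ Stab ρ u := by
    intro i hi hiJ
    by_cases hip : i = 2 * p
    · subst hip; exact hBu
    · have hB : S.B i ∈ Stab ρ v := by
        apply hH.b i hi
        intro q hq
        by_cases hqp : q = p
        · subst hqp; exact hip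
        · exact hiJ q (Finset.mem_erase.mpr ⟨hqp, hq⟩)
      exact (twist_u ρ (S.B i) 1 (S.Y (2 * p)) v hB (by simp) huu).1 (hS.BY i (2 * p) hi (by omega))
  have fe : ∀ i, i + 1 < g → S.T (2 * i + 1) (2 * i + 3) ∈ Stab ρ u := fun i hi =>
    hTu _ _ (by omega) (by omega) (hH.e i hi) (fun h => by omega)
  have fq : ∀ q, q < m → q ≠ p → S.T (4 * q) (4 * q + 3) ∈ Stab ρ u := fun q hq hqp =>
    hTu _ _ (by omega) (by omega) (hH.q q hq) (fun h => by omega)
  have fq' : ∀ q, q + 1 < m → q + 1 ≠ p → S.T (4 * q + 3) (4 * q + 6) ∈ Stab ρ u :=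
    fun q hq hqp => hTu _ _ (by omega) (by omega) (hH.q' q hq) (fun h => by omega)
  have fr : ∀ q, q + 1 < m → q + 1 ≠ p → S.T (4 * q + 3) (4 * q + 7) ∈ Stab ρ u :=
    fun q hq hqp => hTu _ _ (by omega) (by omega) (hH.r q hq) (fun h => by omega)
  have ff : ∀ k, k ≤ n → S.T (2 * g - 1) (2 * g + k) ∈ Stab ρ u := fun k hk =>
    hTu _ _ (by omega) (by omega) (hH.f k hk) (fun h => by omega)
  obtain ⟨ual, uY⟩ := lemT2 S hS m hg (J.erase p) (fun r hr => hJ r (Finset.mem_of_mem_erase hr)) p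
    hpm (Finset.notMem_erase p J) (Stab ρ u) fa fb fe fq fq' fr ff hxu hyu
  have uAl : ∀ s t, t ≤ 2 * g + n → S.Al s t ∈ Stab ρ u := by
    intro s t ht
    exact S.Al_mem _ s t (fun c _ hc => ual c (by omega))
  refine ⟨⟨fa, fb, fe, ?_, ?_, ?_, ff, ?_⟩, ?_⟩
  · intro q hq
    exact hTu _ _ (by omega) (by omega) (hH.q q hq) (fun _ => uAl _ _ (by omega))
  · intro q hq
    exact hTu _ _ (by omega) (by omega) (hH.q' q hq) (fun _ => uAl _ _ (by omega))
  · intro q hq
    exact hTu _ _ (by omega) (by omega) (hH.r q hq) (fun _ => uAl _ _ (by omega))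
  · exact (Stab ρ u).mul_mem ((Stab ρ u).inv_mem (uAl _ _ le_rfl)) (ff n le_rfl)
  · intro q hq
    obtain ⟨hqp, hqJ⟩ := Finset.mem_erase.mp hq
    have hqm : q < m := hJ q hqJ
    have mm : ∀ (p q : G) (z : V), ρ (p * q) z = ρ p (ρ q z) := by
      intro p q z
      rw [map_mul, Module.End.mul_apply]
    have hTY : S.T (4 * q) (4 * q + 1) * S.Y (2 * p) =
        S.Y (2 * p) * S.T (4 * q) (4 * q + 1) := by
      have h1 := hS.TY (4 * q) (4 * q + 1) (2 * p) (by omega) (by omega) (by omega)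
      rw [if_neg (by omega), if_neg (by omega), one_mul, inv_one, mul_one] at h1
      exact mul_inv_eq_iff_eq_mul.mp h1
    have hBY : S.B (2 * q) * S.Y (2 * p) = S.Y (2 * p) * S.B (2 * q) :=
      (hS.BY (2 * q) (2 * p) (by omega) (by omega)).eq
    have hq2 := hLq q hqJ
    have e1 : ρ (S.B (2 * q)) u =
        ρ (S.Y (2 * p)) (ρ (S.B (2 * q)) v) - ρ (S.B (2 * q)) v := by
      rw [hudef, map_sub, ← mm, hBY, mm]
    rw [e1, map_sub, ← mm, hTY, mm, hq2, map_sub, hudef]
    abel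
-- END R15

-- MODULE R16
/-- The fixed vector. PROOF. step4; take J ⊆ range m of minimal cardinality with some v ≠ 0, KJ J v. For p ∈ J: by step6 and minimality Y (2p) v - v = 0. lemT for Stab ρ v: the other Y i, all al c (X i = al (2i),
Z k = al (2g+k)). -/
theorem fixed_vector (S : Tw g n G) (hS : Rels S) (m : ℕ) (hg : 2 * m + 2 ≤ g)
    [FiniteDimensional ℂ V] [Nontrivial V] (ρ : G →* Module.End ℂ V)
    (hV : Module.finrank ℂ V < 4 ^ m) :
    ∃ v : V, v ≠ 0 ∧ (∀ i, i < g → S.X i ∈ Stab ρ v ∧ S.Y i ∈ Stab ρ v) ∧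
      ∀ k, k < n → S.Z k ∈ Stab ρ v := by
  classical
  have hex : ∃ k, ∃ J ⊆ Finset.range m, J.card = k ∧ ∃ v : V, v ≠ 0 ∧ KJ S ρ m J v := by
    obtain ⟨J, hJ, v, hv, hK⟩ := step4 S hS m hg ρ hV
    exact ⟨J.card, J, hJ, rfl, v, hv, hK⟩
  obtain ⟨J, hJ, hJc, v, hv, hK⟩ := Nat.find_spec hex
  have hJm : ∀ r ∈ J, r < m := fun r hr => Finset.mem_range.mp (hJ hr)
  have hYp : ∀ p ∈ J, ρ (S.Y (2 * p)) v = v := by
    intro p hp
    by_contra hcon
    have h1 := step6 S hS m hg ρ J hJm v hK p hp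
    have h2 : ∃ J' ⊆ Finset.range m, J'.card = (J.erase p).card ∧
        ∃ v : V, v ≠ 0 ∧ KJ S ρ m J' v :=
      ⟨J.erase p, fun x hx => hJ (Finset.mem_of_mem_erase hx), rfl, _, sub_ne_zero.mpr hcon, h1⟩
    have h3 := Nat.find_min' hex h2
    rw [Finset.card_erase_of_mem hp, ← hJc] at h3
    have : 0 < J.card := Finset.card_pos.mpr ⟨p, hp⟩
    omega
  obtain ⟨hal, hY⟩ := lemT S hS m hg J hJm (Stab ρ v) hK.1
  refine ⟨v, hv, ?_, ?_⟩
  · intro i hi
    refine ⟨?_, ?_⟩
    · have h1 := hal (2 * i) (by omega)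
      rwa [S.al_even i hi] at h1
    · by_cases h : ∀ q ∈ J, i ≠ 2 * q
      · exact hY i hi h
      · push Not at h
        obtain ⟨q, hq, rfl⟩ := h
        exact hYp q hq
  · intro k hk
    have h1 := hal (2 * g + k) (by omega)
    rwa [S.al_z k] at h1
-- END R16

-- MODULE R17
private def R17_U (N : Subgroup G) (ρ : G →* Module.End ℂ V) : Submodule ℂ V where
  carrier := {v | ∀ x ∈ N, ρ x v = v}
  add_mem' := by
    intro a b ha hb x hx
    rw [map_add, ha x hx, hb x hx]
  zero_mem' := by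
    intro x _
    simp
  smul_mem' := by
    intro c a ha x hx
    rw [map_smul, ha x hx]

private theorem R17_stable (N : Subgroup G) [N.Normal] (ρ : G →* Module.End ℂ V) :
    ∀ x, ∀ w ∈ R17_U N ρ, ρ x w ∈ R17_U N ρ := by
  intro x w hw y hy
  have h1 : x⁻¹ * y * x ∈ N := by
    have := (inferInstance : N.Normal).conj_mem y hy x⁻¹
    simpa using this
  have h2 : ρ (x * (x⁻¹ * y * x)) w = ρ x (ρ (x⁻¹ * y * x) w) := by
    rw [map_mul, Module.End.mul_apply]
  rw [hw _ h1] at h2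
  have h3 : ρ (y * x) w = ρ y (ρ x w) := by
    rw [map_mul, Module.End.mul_apply]
  rw [← h3, ← h2]
  congr 2
  group

private theorem R17_pow (N : Subgroup G) [N.Normal] (ρ : G →* Module.End ℂ V) (x : G) (k : ℕ)
    (v : V) : (R17_U N ρ).mkQ (((ρ x - 1) ^ k) v) =
      ((quoR ρ (R17_U N ρ) (R17_stable N ρ) x - 1) ^ k) ((R17_U N ρ).mkQ v) := by
  induction k generalizing v with
  | zero => simp
  | succ k ih =>
    rw [pow_succ, pow_succ, Module.End.mul_apply, Module.End.mul_apply, ih]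
    congr 1

private theorem R17_unip (N : Subgroup G) [N.Normal] (d : ℕ)
    (h : ∀ (V : Type u) [AddCommGroup V] [Module ℂ V] [FiniteDimensional ℂ V] [Nontrivial V]
      (ρ : G →* Module.End ℂ V), Module.finrank ℂ V < d → ∃ v : V, v ≠ 0 ∧ ∀ x ∈ N, ρ x v = v)
    (k : ℕ) : ∀ (V : Type u) [AddCommGroup V] [Module ℂ V] [FiniteDimensional ℂ V]
      (ρ : G →* Module.End ℂ V), Module.finrank ℂ V = k → Module.finrank ℂ V < d →
      ∀ x ∈ N, IsNilpotent (ρ x - 1) := by
  induction k using Nat.strong_induction_on with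
  | _ k ih =>
    intro V _ _ _ ρ hk hd x hx
    rcases subsingleton_or_nontrivial V with hs | hn
    · refine ⟨1, ?_⟩
      ext v
      exact Subsingleton.elim _ _
    · obtain ⟨v, hv, hfix⟩ := h V ρ hd
      have hUne : R17_U N ρ ≠ ⊥ := by
        intro hcon
        have h1 : v ∈ R17_U N ρ := hfix
        rw [hcon, Submodule.mem_bot] at h1
        exact hv h1
      have hlt : Module.finrank ℂ (V ⧸ R17_U N ρ) < Module.finrank ℂ V := by
        have h1 := Submodule.finrank_quotient_add_finrank (R17_U N ρ)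
        have h2 : 0 < Module.finrank ℂ (R17_U N ρ) := by
          rw [Nat.pos_iff_ne_zero]
          intro h3
          exact hUne (Submodule.finrank_eq_zero.mp h3)
        omega
      obtain ⟨s, hs⟩ := ih _ (by rw [← hk]; exact hlt) (V ⧸ R17_U N ρ)
        (quoR ρ (R17_U N ρ) (R17_stable N ρ)) rfl (by omega) x hx
      refine ⟨s + 1, ?_⟩
      ext w
      have h1 := R17_pow N ρ x s w
      rw [hs, LinearMap.zero_apply, Submodule.mkQ_apply, Submodule.Quotient.mk_eq_zero] at h1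
      rw [pow_succ', Module.End.mul_apply]
      have h2 := h1 x hx
      simp only [LinearMap.sub_apply, Module.End.one_apply, LinearMap.zero_apply]
      exact sub_eq_zero.mpr h2

/-- From fixed vectors to unipotence and triviality. `N` normal in `G`; every representation of `G` of dimension between 1 and d - 1 has a non-zero vector
fixed by `N`. Then for dim V < d every `x ∈ N` acts unipotently; and if every stable subspace has a stable complement then `N` acts trivially.
PROOF. U = {v | ρ x v = v for all x ∈ N} is stable (N normal). First part: strong induction on dim V: V nontrivial: U ≠ 0, the quotient representation on V ⧸ U (quoR) has smaller dimension, (ρ x - 1)^k maps V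
to U for some k, and ρ x - 1 kills U. Second part: U has a stable complement W. If W ≠ 0 then resR ρ W has a non-zero vector fixed by N, in U ∩ W. So U = V. -/
theorem fixed_to_unip (N : Subgroup G) [N.Normal] (d : ℕ)
    (h : ∀ (V : Type u) [AddCommGroup V] [Module ℂ V] [FiniteDimensional ℂ V] [Nontrivial V]
      (ρ : G →* Module.End ℂ V), Module.finrank ℂ V < d → ∃ v : V, v ≠ 0 ∧ ∀ x ∈ N, ρ x v = v)
    [FiniteDimensional ℂ V] (ρ : G →* Module.End ℂ V) (hV : Module.finrank ℂ V < d) :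
    (∀ x ∈ N, IsNilpotent (ρ x - 1)) ∧
    ((∀ W : Submodule ℂ V, (∀ x, ∀ w ∈ W, ρ x w ∈ W) → ∃ W' : Submodule ℂ V,
      (∀ x, ∀ w ∈ W', ρ x w ∈ W') ∧ IsCompl W W') → ∀ x ∈ N, ρ x = 1) := by
  have hU : ∀ x, ∀ w ∈ R17_U N ρ, ρ x w ∈ R17_U N ρ := R17_stable N ρ
  refine ⟨R17_unip N d h (Module.finrank ℂ V) V ρ rfl hV, ?_⟩
  intro hc x hx
  obtain ⟨W, hW, hcompl⟩ := hc (R17_U N ρ) hU
  have hW0 : W = ⊥ := by
    by_contra hne
    haveI : Nontrivial W := Submodule.nontrivial_iff_ne_bot.mpr hne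
    obtain ⟨w, hw, hfix⟩ := h W (resR ρ W hW) (lt_of_le_of_lt (Submodule.finrank_le W) hV)
    have h1 : (w : V) ∈ R17_U N ρ := by
      intro y hy
      have h2 := hfix y hy
      exact congrArg Subtype.val h2
    have h2 : (w : V) ∈ R17_U N ρ ⊓ W := ⟨h1, w.2⟩
    rw [hcompl.inf_eq_bot, Submodule.mem_bot] at h2
    exact hw (Subtype.ext h2)
  have hUt : R17_U N ρ = ⊤ := by
    have h1 := hcompl.sup_eq_top
    rwa [hW0, sup_bot_eq] at h1
  ext v
  have : v ∈ R17_U N ρ := by rw [hUt]; trivial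
  simpa using this x hx
-- END R17

end Pool.Agent.HG13
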